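import Pool.Agent.Lib.MP_c052b4_al.TwoClasses

/-!
# A countable torsionfree group which sees all idempotent matrices over torsionfree groups
-/

set_option autoImplicit false
set_option linter.unusedSectionVars false

namespace Pool.Agent.Lib.MP_c052b4_al

open Kern

universe u v w

section Tf

variable {F : Type v} [Group F]

/-- the smallest normal subgroup containing `S` with torsionfree quotient -/
def tfc (S : Set F) : Subgroup F :=
  sInf {N | N.Normal ∧ S ⊆ N ∧ ∀ (g : F) (n : ℕ), 0 < n → g ^ n ∈ N → g ∈ N}

instance tfc_normal (S : Set F) : (tfc S).Normal := by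
  constructor
  intro n hn g
  rw [tfc, Subgroup.mem_sInf] at hn ⊢
  intro N hN
  exact hN.1.conj_mem n (hn N hN) g

theorem subset_tfc (S : Set F) : S ⊆ tfc S := by
  intro s hs
  rw [SetLike.mem_coe, tfc, Subgroup.mem_sInf]
  intro N hN
  exact hN.2.1 hs

theorem tfc_le {S : Set F} {N : Subgroup F} (h1 : N.Normal) (h2 : S ⊆ N)
    (h3 : ∀ (g : F) (n : ℕ), 0 < n → g ^ n ∈ N → g ∈ N) : tfc S ≤ N :=
  sInf_le ⟨h1, h2, h3⟩

theorem tfc_root (S : Set F) (g : F) (n : ℕ) (hn : 0 < n) (h : g ^ n ∈ tfc S) : g ∈ tfc S := by
  rw [tfc, Subgroup.mem_sInf] at h ⊢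
  intro N hN
  exact hN.2.2 g n hn (h N hN)

theorem torsionfree_tfc (S : Set F) : TorsionfreeGroup (F ⧸ tfc S) := by
  intro g n hn hg
  obtain ⟨x, rfl⟩ := QuotientGroup.mk_surjective g
  rw [← QuotientGroup.mk_pow, QuotientGroup.eq_one_iff] at hg
  rw [QuotientGroup.eq_one_iff]
  exact tfc_root S x n hn hg

/-- the universal property -/
def tfcLift {G : Type w} [Group G] (hG : TorsionfreeGroup G) (S : Set F) (p : F →* G)
    (hp : ∀ s ∈ S, p s = 1) : F ⧸ tfc S →* G :=
  QuotientGroup.lift (tfc S) p (fun x hx => by
    have h1 : tfc S ≤ p.ker := by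
      refine tfc_le inferInstance (fun s hs => hp s hs) ?_
      intro g n hn hg
      rw [MonoidHom.mem_ker, map_pow] at hg
      exact hG _ n hn hg
    exact h1 hx)

theorem tfcLift_mk {G : Type w} [Group G] (hG : TorsionfreeGroup G) (S : Set F) (p : F →* G)
    (hp : ∀ s ∈ S, p s = 1) (x : F) :
    tfcLift hG S p hp (QuotientGroup.mk x) = p x := rfl

end Tf

/-- the index set -/
abbrev Idx : Type := Σ m : ℕ, Finset (FreeGroup (Fin m))

/-- the building blocks -/
abbrev HH (i : Idx) : Type := FreeGroup (Fin i.1) ⧸ tfc (i.2 : Set (FreeGroup (Fin i.1)))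

theorem countable_HH (i : Idx) : Countable (HH i) := by
  have : Countable (FreeGroup (Fin i.1)) := inferInstance
  exact Quotient.countable

theorem torsionfree_HH (i : Idx) : TorsionfreeGroup (HH i) := torsionfree_tfc _

/-- the restricted direct product of the building blocks -/
abbrev U0 : Type := Multiplicative (Π₀ i : Idx, Additive (HH i))

noncomputable instance : Group U0 := inferInstance

theorem countable_U0 : Countable U0 := by
  have : ∀ i : Idx, Countable (Additive (HH i)) := fun i => countable_HH i
  have h : Countable (Π₀ i : Idx, Additive (HH i)) := inferInstance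
  exact h

theorem torsionfree_U0 : TorsionfreeGroup U0 := by
  intro g n hn hg
  apply Multiplicative.toAdd.injective
  apply DFinsupp.ext
  intro i
  have h1 := congrArg (fun x : U0 => (Multiplicative.toAdd x) i) hg
  exact torsionfree_HH i _ n hn h1

/-- the inclusion of a building block -/
def inHH (i : Idx) : HH i →* U0 := by
  classical
  exact AddMonoidHom.toMultiplicativeRight
    (DFinsupp.singleAddHom (fun i : Idx => Additive (HH i)) i)

/-- the projection to a building block -/
def prHH (i : Idx) : U0 →* HH i :=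
  AddMonoidHom.toMultiplicativeLeft
    (DFinsupp.evalAddMonoidHom (β := fun i : Idx => Additive (HH i)) i)

theorem prHH_inHH (i : Idx) : (prHH i).comp (inHH i) = MonoidHom.id _ := by
  classical
  apply MonoidHom.ext
  intro x
  exact DFinsupp.single_eq_same (β := fun i : Idx => Additive (HH i))

theorem torsionfree_int : TorsionfreeGroup (Multiplicative ℤ) := by
  intro g n hn hg
  apply Multiplicative.toAdd.injective
  have h1 : n • Multiplicative.toAdd g = 0 := congrArg Multiplicative.toAdd hg
  rw [nsmul_eq_mul] at h1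
  rcases mul_eq_zero.1 h1 with h2 | h2
  · exfalso
    have : n = 0 := by exact_mod_cast h2
    omega
  · exact h2

theorem nontrivial_U0 : Nontrivial U0 := by
  let i : Idx := ⟨1, ∅⟩
  let p : FreeGroup (Fin 1) →* Multiplicative ℤ := FreeGroup.lift fun _ => Multiplicative.ofAdd 1
  let q : HH i →* Multiplicative ℤ := tfcLift torsionfree_int _ p (by
    intro s hs
    simp [i] at hs)
  let x : HH i := QuotientGroup.mk (FreeGroup.of 0)
  have hx : q x ≠ 1 := by
    change p (FreeGroup.of 0) ≠ 1
    simp only [p, FreeGroup.lift_apply_of]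
    decide
  have hx1 : x ≠ 1 := fun h => hx (by rw [h, map_one])
  refine ⟨inHH i x, 1, fun h => hx1 ?_⟩
  have h1 := DFunLike.congr_fun (prHH_inHH i) x
  have h2 : prHH i (inHH i x) = x := h1
  rw [← h2, h, map_one]

/-- the base group with its properties -/
noncomputable def TG0 : TG where
  G := U0
  grp := inferInstance
  ctbl := countable_U0
  tf := torsionfree_U0
  nontriv := nontrivial_U0

section Compact

variable {R : Type u} [Ring R]

theorem inc_eq_zero_of {F : Type v} {H : Type w} {G : Type*} [Group F] [Group H] [Group G]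
    (q : F →* H) (f : H →* G) (a : MonoidAlgebra R F)
    (ha : inc R (f.comp q) a = 0)
    (hs : ∀ x ∈ a.coeff.support, ∀ y ∈ a.coeff.support, f (q x) = f (q y) → q x = q y) :
    inc R q a = 0 := by
  classical
  have h1 : inc R f (inc R q a) = 0 := by
    have h2 := MonoidAlgebra.mapDomainRingHom_comp (R := R) f q
    exact (RingHom.congr_fun h2 a).symm.trans ha
  have hinj : Set.InjOn f ((q '' (a.coeff.support : Set F))) := by
    rintro _ ⟨x, hx, rfl⟩ _ ⟨y, hy, rfl⟩ hxy
    exact hs x hx y hy hxy
  have h3 : Finsupp.mapDomain f (inc R q a).coeff = Finsupp.mapDomain f (0 : H →₀ R) := by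
    have := congrArg MonoidAlgebra.coeff h1
    rw [Finsupp.mapDomain_zero]
    exact this
  have h4 : (((inc R q a).coeff.support : Finset H) : Set H) ⊆ q '' (a.coeff.support : Set F) := by
    have h5 : (inc R q a).coeff.support ⊆ a.coeff.support.image q := Finsupp.mapDomain_support
    intro x hx
    have := h5 hx
    simpa using this
  have h6 := Finsupp.mapDomain_injOn (M := R) _ hinj h4 (by simp) h3
  ext x
  rw [h6]
  rfl

/-- compactness: every idempotent matrix over the group ring of a torsionfree group comes from one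
of the building blocks -/
theorem exists_block {G : Type v} [Group G] (hG : TorsionfreeGroup G) {n : ℕ}
    (e : Matrix (Fin n) (Fin n) (MonoidAlgebra R G)) (he : e * e = e) :
    ∃ (i : Idx) (f : HH i →* G) (e' : Matrix (Fin n) (Fin n) (MonoidAlgebra R (HH i))),
      e' * e' = e' ∧ e'.map (inc R f) = e := by
  classical
  obtain ⟨B, hB⟩ := exists_finset_supM e
  let m := Fintype.card B
  let v : B ≃ Fin m := Fintype.equivFin B
  let p : FreeGroup (Fin m) →* G := FreeGroup.lift fun k => ((v.symm k : B) : G)
  -- the lift to the free group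
  have hlift : ∀ a : MonoidAlgebra R G, Sup (B : Set G) a →
      ∃ a' : MonoidAlgebra R (FreeGroup (Fin m)), inc R p a' = a := by
    intro a ha
    refine ⟨∑ b : B, MonoidAlgebra.single (FreeGroup.of (v b)) (a.coeff b), ?_⟩
    rw [map_sum]
    have h1 : ∀ b : B, inc R p (MonoidAlgebra.single (FreeGroup.of (v b)) (a.coeff b)) =
        MonoidAlgebra.single (b : G) (a.coeff b) := by
      intro b
      simp [p]
    rw [Finset.sum_congr rfl fun b _ => h1 b]
    ext g
    rw [MonoidAlgebra.coeff_sum, Finsupp.finsetSum_apply]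
    by_cases hg : g ∈ B
    · rw [Finset.sum_eq_single (⟨g, hg⟩ : B)]
      · simp
      · intro b _ hb
        have : (b : G) ≠ g := fun h => hb (Subtype.ext h)
        simp [this]
      · intro h; exact absurd (Finset.mem_univ _) h
    · rw [ha g (by simpa using hg)]
      apply Finset.sum_eq_zero
      intro b _
      have : (b : G) ≠ g := fun h => hg (h ▸ b.2)
      simp [this]
  choose E hE using fun i j => hlift (e i j) (hB i j)
  have hE' : (Matrix.of E).map (inc R p) = e := by
    funext i j
    exact hE i j
  set D : Matrix (Fin n) (Fin n) (MonoidAlgebra R (FreeGroup (Fin m))) :=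
    Matrix.of E * Matrix.of E - Matrix.of E with hD
  have hDp : ∀ i j, inc R p (D i j) = 0 := by
    intro i j
    have h1 : D.map (inc R p) = 0 := by
      rw [hD, Matrix.map_sub _ (map_sub _), Matrix.map_mul, hE', he, sub_self]
    exact congrFun (congrFun h1 i) j
  obtain ⟨T, hT⟩ := exists_finset_supM D
  let S : Finset (FreeGroup (Fin m)) :=
    ((T ×ˢ T).filter fun z => p z.1 = p z.2).image fun z => z.1⁻¹ * z.2
  let i0 : Idx := ⟨m, S⟩
  have hpS : ∀ s ∈ (S : Set (FreeGroup (Fin m))), p s = 1 := by
    intro s hs
    simp only [S, Finset.coe_image, Set.mem_image, Finset.mem_coe, Finset.mem_filter] at hs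
    obtain ⟨z, ⟨-, hz⟩, rfl⟩ := hs
    rw [map_mul, map_inv, hz, inv_mul_cancel]
  let q : FreeGroup (Fin m) →* HH i0 := QuotientGroup.mk' _
  let f : HH i0 →* G := tfcLift hG _ p hpS
  have hfq : f.comp q = p := by
    apply MonoidHom.ext
    intro x
    exact tfcLift_mk hG _ p hpS x
  refine ⟨i0, f, (Matrix.of E).map (inc R q), ?_, ?_⟩
  · rw [← sub_eq_zero, ← Matrix.map_mul, ← Matrix.map_sub _ (map_sub _)]
    funext i j
    refine inc_eq_zero_of q f (D i j) ?_ ?_
    · rw [hfq]; exact hDp i j
    · intro x hx y hy hxy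
      have hx' : x ∈ T := by
        by_contra h
        exact (Finsupp.mem_support_iff.1 hx) (hT i j x (by simpa using h))
      have hy' : y ∈ T := by
        by_contra h
        exact (Finsupp.mem_support_iff.1 hy) (hT i j y (by simpa using h))
      have hxy' : p x = p y := by
        rw [← hfq]; exact hxy
      change (QuotientGroup.mk x : HH i0) = QuotientGroup.mk y
      rw [QuotientGroup.eq]
      apply subset_tfc
      simp only [i0, S, Finset.coe_image, Set.mem_image, Finset.mem_coe, Finset.mem_filter]
      exact ⟨(x, y), ⟨Finset.mem_product.2 ⟨hx', hy'⟩, hxy'⟩, rfl⟩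
  · rw [Matrix.map_map]
    have : ((inc R f : MonoidAlgebra R (HH i0) → MonoidAlgebra R G) ∘
        (inc R q : MonoidAlgebra R (FreeGroup (Fin m)) → MonoidAlgebra R (HH i0))) = inc R p := by
      funext s
      have h1 := MonoidAlgebra.mapDomainRingHom_comp (R := R) f q
      rw [hfq] at h1
      exact (RingHom.congr_fun h1 s).symm
    rw [this, hE']

/-- the universal group -/
abbrev UU : Type := U2 TG0

theorem kZero_coeff_injective (R : Type u) [Ring R] (G : Type v) [Group G] :
    Function.Injective (KZero.map (MonoidAlgebra.singleOneRingHom : R →+* MonoidAlgebra R G)) := by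
  have h1 : Function.Injective (KZero.map
      (MonoidAlgebra.singleOneRingHom : R →+* MonoidAlgebra R (Multiplicative (Fin 0 → ℤ)))) := by
    refine KZero.map_injective_of_leftInverse
      (ψ := (MonoidAlgebra.uniqueRingEquiv (R := R) (Multiplicative (Fin 0 → ℤ)) :
        MonoidAlgebra R (Multiplicative (Fin 0 → ℤ)) →+* R)) ?_
    ext r
    simp
  have h2 : (MonoidAlgebra.mapDomainRingHom R (1 : G →* Multiplicative (Fin 0 → ℤ))).comp
      (MonoidAlgebra.singleOneRingHom : R →+* MonoidAlgebra R G) =
      MonoidAlgebra.singleOneRingHom := singleOne_comp _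
  intro x y hxy
  apply h1
  rw [← h2, KZero.map_comp, KZero.map_comp]
  exact congrArg _ hxy

theorem kSurj_of_mulEquiv {G : Type v} {H : Type w} [Group G] [Group H]
    (f : G ≃* H) (h : KSurj R H) : KSurj R G := by
  refine h.down (down_of_retract (ι := (f : G →* H)) (ρ := (f.symm : H →* G)) ?_)
  ext x
  simp

theorem kSurj_of_UU (hR : IsRegularRing R) (h : KSurj R UU) {G : Type v} [Group G]
    (hG : TorsionfreeGroup G) : KSurj R G := by
  have h0 : KSurj R U0 := h.down (down_toU2 TG0 hR)
  rw [kSurj_iff]
  intro n e he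
  obtain ⟨i, f, e', he', rfl⟩ := exists_block hG e he
  have h1 : KSurj R (HH i) := h0.down (down_of_retract (prHH_inHH i))
  have h2 : SI e' := (kSurj_iff R (HH i)).1 h1 n e' he'
  have h3 := StabInd.map (inc R f) h2
  rw [singleOne_comp] at h3
  exact h3

end Compact

end Pool.Agent.Lib.MP_c052b4_al
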