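import Pool.Agent.Lib.MP_c052b4_al.StabInd

/-!
# Negative K-groups in the sense of Bass
-/

set_option autoImplicit false
set_option linter.unusedSectionVars false

namespace Pool.Agent.Lib.MP_c052b4_al

universe u v w

/-- A functor from rings to abelian groups. -/
structure AbFunctor where
  /-- the value on a ring -/
  obj : (S : Type u) → [Ring S] → AddCommGrpCat.{u}
  /-- the induced maps -/
  map : {S T : Type u} → [Ring S] → [Ring T] → (S →+* T) → (obj S →+ obj T)
  map_id : ∀ (S : Type u) [Ring S], map (RingHom.id S) = AddMonoidHom.id _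
  map_comp : ∀ {S T W : Type u} [Ring S] [Ring T] [Ring W] (g : T →+* W) (f : S →+* T),
    map (g.comp f) = (map g).comp (map f)

/-- `K₀(S)` as a bundled abelian group. -/
noncomputable def KGrp (S : Type u) [Ring S] : AddCommGrpCat.{u} := AddCommGrpCat.of (KZero S)

/-- The homomorphism `K₀(S) → K₀(T)` induced by a ring homomorphism. -/
noncomputable def kMap {S : Type u} {T : Type v} [Ring S] [Ring T] (f : S →+* T) :
    KGrp S →+ KGrp T := KZero.map f

theorem kMap_id (S : Type u) [Ring S] : kMap (RingHom.id S) = AddMonoidHom.id (KGrp S) := by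
  apply AddMonoidHom.ext
  intro x
  exact KZero.map_id x

theorem kMap_comp {S T W : Type u} [Ring S] [Ring T] [Ring W] (g : T →+* W) (f : S →+* T) :
    kMap (g.comp f) = (kMap g).comp (kMap f) := by
  apply AddMonoidHom.ext
  intro x
  exact KZero.map_comp g f x

/-- The functor `K₀`. -/
noncomputable def K0 : AbFunctor.{u} where
  obj S _ := KGrp S
  map f := kMap f
  map_id S _ := kMap_id S
  map_comp g f := kMap_comp g f

/-- The Laurent polynomial ring `S[t, t⁻¹]`. -/
abbrev Lau (S : Type u) [Ring S] : Type u := MonoidAlgebra S (Multiplicative ℤ)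

/-- The polynomial ring `S[t]`. -/
abbrev Pol (S : Type u) [Ring S] : Type u := MonoidAlgebra S (Multiplicative ℕ)

/-- The ring homomorphism `S[t] → S[t, t⁻¹]` with `t ↦ t ^ k`. -/
noncomputable def polLau (S : Type u) [Ring S] (k : ℤ) : Pol S →+* Lau S :=
  MonoidAlgebra.mapDomainRingHom S (powersHom (Multiplicative ℤ) (Multiplicative.ofAdd k))

theorem polLau_natural {S T : Type u} [Ring S] [Ring T] (f : S →+* T) (k : ℤ) :
    (MonoidAlgebra.mapRingHom (Multiplicative ℤ) f).comp (polLau S k) =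
      (polLau T k).comp (MonoidAlgebra.mapRingHom (Multiplicative ℕ) f) := by
  unfold polLau
  rw [MonoidAlgebra.mapRingHom_comp_mapDomainRingHom]

/-- The subgroup of `F(S[t, t⁻¹])` generated by the images of `F(S[t])` and `F(S[t⁻¹])`. -/
noncomputable def AbFunctor.bdry (F : AbFunctor.{u}) (S : Type u) [Ring S] : AddSubgroup (F.obj (Lau S)) :=
  (F.map (polLau S 1)).range ⊔ (F.map (polLau S (-1))).range

theorem AbFunctor.bdry_le (F : AbFunctor.{u}) {S T : Type u} [Ring S] [Ring T] (f : S →+* T) :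
    F.bdry S ≤ (F.bdry T).comap (F.map (MonoidAlgebra.mapRingHom (Multiplicative ℤ) f)) := by
  unfold AbFunctor.bdry
  rw [sup_le_iff]
  constructor
  · rintro _ ⟨x, rfl⟩
    rw [AddSubgroup.mem_comap]
    apply AddSubgroup.mem_sup_left
    refine ⟨F.map (MonoidAlgebra.mapRingHom _ f) x, ?_⟩
    rw [← AddMonoidHom.comp_apply, ← AddMonoidHom.comp_apply, ← F.map_comp, ← F.map_comp,
      polLau_natural]
  · rintro _ ⟨x, rfl⟩
    rw [AddSubgroup.mem_comap]
    apply AddSubgroup.mem_sup_right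
    refine ⟨F.map (MonoidAlgebra.mapRingHom _ f) x, ?_⟩
    rw [← AddMonoidHom.comp_apply, ← AddMonoidHom.comp_apply, ← F.map_comp, ← F.map_comp,
      polLau_natural]

/-- The cokernel of `F(S[t]) ⊕ F(S[t⁻¹]) → F(S[t, t⁻¹])`. -/
noncomputable def AbFunctor.Lobj (F : AbFunctor.{u}) (S : Type u) [Ring S] : AddCommGrpCat.{u} :=
  AddCommGrpCat.of (F.obj (Lau S) ⧸ F.bdry S)

/-- The map on cokernels induced by a ring homomorphism. -/
noncomputable def AbFunctor.Lmap (F : AbFunctor.{u}) {S T : Type u} [Ring S] [Ring T]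
    (f : S →+* T) : F.Lobj S →+ F.Lobj T :=
  QuotientAddGroup.map (F.bdry S) (F.bdry T) (F.map (MonoidAlgebra.mapRingHom _ f)) (F.bdry_le f)

theorem AbFunctor.Lmap_id (F : AbFunctor.{u}) (S : Type u) [Ring S] :
    F.Lmap (RingHom.id S) = AddMonoidHom.id (F.Lobj S) := by
  apply AddMonoidHom.ext
  intro x
  obtain ⟨y, rfl⟩ := QuotientAddGroup.mk_surjective x
  change QuotientAddGroup.mk (F.map (MonoidAlgebra.mapRingHom _ (RingHom.id S)) y) = _
  rw [MonoidAlgebra.mapRingHom_id, F.map_id]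
  rfl

theorem AbFunctor.Lmap_comp (F : AbFunctor.{u}) {S T W : Type u} [Ring S] [Ring T] [Ring W]
    (g : T →+* W) (f : S →+* T) : F.Lmap (g.comp f) = (F.Lmap g).comp (F.Lmap f) := by
  apply AddMonoidHom.ext
  intro x
  obtain ⟨y, rfl⟩ := QuotientAddGroup.mk_surjective x
  change QuotientAddGroup.mk (F.map (MonoidAlgebra.mapRingHom _ (g.comp f)) y) = _
  rw [MonoidAlgebra.mapRingHom_comp, F.map_comp]
  rfl

/-- Bass's functor `LF`: the cokernel of `F(S[t]) ⊕ F(S[t⁻¹]) → F(S[t, t⁻¹])`. -/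
noncomputable def AbFunctor.L (F : AbFunctor.{u}) : AbFunctor.{u} where
  obj S _ := F.Lobj S
  map f := F.Lmap f
  map_id S _ := F.Lmap_id S
  map_comp g f := F.Lmap_comp g f

/-- The functor `K_{-n}` of Bass, `n ≥ 0`. -/
noncomputable def KMinus : ℕ → AbFunctor.{u}
  | 0 => K0
  | n + 1 => (KMinus n).L

end Pool.Agent.Lib.MP_c052b4_al
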