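import Pool.Agent.Lib.MP_c052b4_al.KOneMap

/-!
# Calculus in `K₁`
-/

set_option autoImplicit false
set_option linter.unusedSectionVars false

namespace Pool.Agent.Lib.MP_c052b4_al

open Matrix
open scoped commutatorElement

universe u v w

section Lift

namespace Omega

variable {G : ℕ → Type v} [∀ k, Group (G k)] (f : ∀ k, G k →* G (k + 1))

/-- elements of the commutator subgroup come from finite stages -/
theorem exists_commutator {z : Lim f} (hz : z ∈ commutator (Lim f)) :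
    ∃ k0, ∀ k, k0 ≤ k → ∃ y ∈ commutator (G k), toLim f k y = z := by
  rw [commutator_eq_closure] at hz
  induction hz using Subgroup.closure_induction with
  | mem z hz =>
    obtain ⟨x, y, rfl⟩ := hz
    obtain ⟨i, x, rfl⟩ := exists_toLim f x
    obtain ⟨j, y, rfl⟩ := exists_toLim f y
    refine ⟨max i j, fun k hk => ?_⟩
    refine ⟨⁅tr f i k (le_trans (le_max_left _ _) hk) x,
      tr f j k (le_trans (le_max_right _ _) hk) y⁆, ?_, ?_⟩
    · rw [commutator_def]
      exact Subgroup.commutator_mem_commutator (Subgroup.mem_top _) (Subgroup.mem_top _)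
    · rw [map_commutatorElement, toLim_tr, toLim_tr]
  | one => exact ⟨0, fun k _ => ⟨1, Subgroup.one_mem _, map_one _⟩⟩
  | mul x y _ _ hx hy =>
    obtain ⟨i, hi⟩ := hx
    obtain ⟨j, hj⟩ := hy
    refine ⟨max i j, fun k hk => ?_⟩
    obtain ⟨x', hx', rfl⟩ := hi k (le_trans (le_max_left _ _) hk)
    obtain ⟨y', hy', rfl⟩ := hj k (le_trans (le_max_right _ _) hk)
    exact ⟨x' * y', Subgroup.mul_mem _ hx' hy', map_mul _ _ _⟩
  | inv x _ hx =>
    obtain ⟨i, hi⟩ := hx
    refine ⟨i, fun k hk => ?_⟩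
    obtain ⟨x', hx', rfl⟩ := hi k hk
    exact ⟨x'⁻¹, Subgroup.inv_mem _ hx', map_inv _ _⟩

end Omega

end Lift

section Map

variable {S : Type u} {T : Type v} [Ring S] [Ring T] (φ : S →+* T)
  {m n : Type*} [Fintype m] [Fintype n] [DecidableEq m] [DecidableEq n]

theorem KOne.map_kf (k : ℕ) (A : (Matrix (Fin k) (Fin k) S)ˣ) :
    KOne.map φ (kf k A) = kf k (mU φ A) := rfl

theorem KOne.map_k1 (A : (Matrix n n S)ˣ) : KOne.map φ (k1 A) = k1 (mU φ A) := by
  unfold k1
  rw [KOne.map_kf, mU_rU]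

/-- every element of `K₁` is the class of an invertible matrix -/
theorem exists_kf (x : KOne S) : ∃ (k : ℕ) (A : (Matrix (Fin k) (Fin k) S)ˣ), kf k A = x := by
  obtain ⟨y, hy⟩ : ∃ y : GLinf S, clGL S y = Multiplicative.ofAdd x :=
    QuotientGroup.mk_surjective (s := commutator (GLinf S)) x
  obtain ⟨k, A, rfl⟩ := Omega.exists_toLim _ y
  exact ⟨k, A, congrArg Multiplicative.toAdd hy⟩

theorem exists_k1 (x : KOne S) : ∃ (k : ℕ) (A : (Matrix (Fin k) (Fin k) S)ˣ), k1 A = x := by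
  obtain ⟨k, A, h⟩ := exists_kf x
  exact ⟨k, A, by rw [k1_fin, h]⟩

theorem KOne.hom_ext {H : Type w} [AddCommGroup H] {f g : KOne S →+ H}
    (h : ∀ (k : ℕ) (A : (Matrix (Fin k) (Fin k) S)ˣ), f (k1 A) = g (k1 A)) : f = g := by
  apply AddMonoidHom.ext
  intro x
  obtain ⟨k, A, rfl⟩ := exists_k1 x
  exact h k A

theorem KOne.map_comp {W : Type w} [Ring W] (ψ : T →+* W) (x : KOne S) :
    KOne.map (ψ.comp φ) x = KOne.map ψ (KOne.map φ x) := by
  obtain ⟨k, A, rfl⟩ := exists_k1 x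
  rw [map_k1, map_k1, map_k1]
  rfl

theorem KOne.map_id (x : KOne S) : KOne.map (RingHom.id S) x = x := by
  obtain ⟨k, A, rfl⟩ := exists_k1 x
  rw [map_k1]
  rfl

end Map

section Elem

variable {S : Type u} [Ring S] {m n : Type*} [Fintype m] [Fintype n]
  [DecidableEq m] [DecidableEq n]

/-- upper unitriangular block matrices -/
def uU (X : Matrix m n S) : (Matrix (m ⊕ n) (m ⊕ n) S)ˣ where
  val := fromBlocks 1 X 0 1
  inv := fromBlocks 1 (-X) 0 1
  val_inv := by simp [fromBlocks_multiply]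
  inv_val := by simp [fromBlocks_multiply]

/-- lower unitriangular block matrices -/
def lU (X : Matrix n m S) : (Matrix (m ⊕ n) (m ⊕ n) S)ˣ where
  val := fromBlocks 1 0 X 1
  inv := fromBlocks 1 0 (-X) 1
  val_inv := by simp [fromBlocks_multiply]
  inv_val := by simp [fromBlocks_multiply]

theorem coe_uU (X : Matrix m n S) : ((uU X : (Matrix (m ⊕ n) (m ⊕ n) S)ˣ) :
    Matrix (m ⊕ n) (m ⊕ n) S) = fromBlocks 1 X 0 1 := rfl

theorem coe_lU (X : Matrix n m S) : ((lU X : (Matrix (m ⊕ n) (m ⊕ n) S)ˣ) :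
    Matrix (m ⊕ n) (m ⊕ n) S) = fromBlocks 1 0 X 1 := rfl

theorem k1_uU (X : Matrix m n S) : k1 (uU X) = 0 := by
  let r : Matrix (m ⊕ n) n S := fromRows X 0
  let c : Matrix n (m ⊕ n) S := fromCols 0 1
  have h1 : 1 + r * c = (fromBlocks 1 X 0 1 : Matrix (m ⊕ n) (m ⊕ n) S) := by
    simp only [r, c]
    rw [fromRows_mul_fromCols, ← fromBlocks_one, fromBlocks_add]
    simp
  have h2 : c * r = 0 := by
    simp only [r, c]
    rw [fromCols_mul_fromRows]
    simp
  have h3 : (fromBlocks 1 X 0 1 : Matrix (m ⊕ n) (m ⊕ n) S) * r = r := by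
    rw [← h1, Matrix.add_mul, Matrix.one_mul, Matrix.mul_assoc, h2, Matrix.mul_zero, add_zero]
  have h4 : uU r * lU c = bl (uU X) 1 * (lU c * uU r) := by
    apply Units.ext
    simp only [Units.val_mul, coe_uU, coe_lU, coe_bl, Units.val_one, fromBlocks_multiply]
    simp [h1, h2, h3]
  have h5 : k1 (uU r) + k1 (lU c) = k1 (bl (uU X) (1 : (Matrix n n S)ˣ)) +
      (k1 (lU c) + k1 (uU r)) := by rw [← k1_mul, h4, k1_mul, k1_mul]
  rw [k1_bl_one, add_comm (k1 (lU c))] at h5
  have h6 : 0 + (k1 (uU r) + k1 (lU c)) = k1 (uU X) + (k1 (uU r) + k1 (lU c)) := by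
    rw [zero_add]; exact h5
  exact (add_right_cancel h6).symm

theorem k1_lU (X : Matrix n m S) : k1 (lU X : (Matrix (m ⊕ n) (m ⊕ n) S)ˣ) = 0 := by
  rw [← k1_uU X, ← k1_rU (Equiv.sumComm m n)]
  congr 1
  apply Units.ext
  rw [coe_rU, coe_lU, coe_uU]
  ext i j
  rcases i with i | i <;> rcases j with j | j <;> simp [Matrix.one_apply]

/-- The group generated by block unitriangular matrices. -/
def El (n : Type*) [Fintype n] [DecidableEq n] (S : Type u) [Ring S] :
    Subgroup (Matrix (n ⊕ n) (n ⊕ n) S)ˣ :=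
  Subgroup.closure ({A | ∃ X : Matrix n n S, A = uU X} ∪ {A | ∃ X : Matrix n n S, A = lU X})

theorem uU_mem (X : Matrix n n S) : uU X ∈ El n S := Subgroup.subset_closure (Or.inl ⟨X, rfl⟩)

theorem lU_mem (X : Matrix n n S) : lU X ∈ El n S := Subgroup.subset_closure (Or.inr ⟨X, rfl⟩)

theorem bl_inv_mem (A : (Matrix n n S)ˣ) : bl A A⁻¹ ∈ El n S := by
  have h : bl A A⁻¹ = uU (A : Matrix n n S) * lU (-(A⁻¹ : (Matrix n n S)ˣ) : Matrix n n S) *
      uU (A : Matrix n n S) * (uU (-1) * lU 1 * uU (-1)) := by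
    apply Units.ext
    simp only [Units.val_mul, coe_uU, coe_lU, coe_bl, fromBlocks_multiply]
    simp
  rw [h]
  exact Subgroup.mul_mem _ (Subgroup.mul_mem _ (Subgroup.mul_mem _ (uU_mem _) (lU_mem _))
    (uU_mem _)) (Subgroup.mul_mem _ (Subgroup.mul_mem _ (uU_mem _) (lU_mem _)) (uU_mem _))

/-- Whitehead's lemma -/
theorem whitehead {A : (Matrix n n S)ˣ} (hA : A ∈ commutator (Matrix n n S)ˣ) :
    bl A 1 ∈ El n S := by
  rw [commutator_eq_closure] at hA
  induction hA using Subgroup.closure_induction with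
  | mem A hA =>
    obtain ⟨X, Y, rfl⟩ := hA
    have h : bl ⁅X, Y⁆ (1 : (Matrix n n S)ˣ) = bl X X⁻¹ * bl Y Y⁻¹ * bl (Y * X)⁻¹ (Y * X)⁻¹⁻¹ := by
      rw [← bl_mul, ← bl_mul]
      congr 1
      · rw [commutatorElement_def]; group
      · group
    rw [h]
    exact Subgroup.mul_mem _ (Subgroup.mul_mem _ (bl_inv_mem _) (bl_inv_mem _)) (bl_inv_mem _)
  | one => rw [bl_one]; exact Subgroup.one_mem _
  | mul A B _ _ hA hB =>
    have h : bl (A * B) (1 : (Matrix n n S)ˣ) = bl A 1 * bl B 1 := by rw [← bl_mul, mul_one]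
    rw [h]
    exact Subgroup.mul_mem _ hA hB
  | inv A _ hA =>
    have h : bl A⁻¹ (1 : (Matrix n n S)ˣ) = (bl A 1)⁻¹ := by
      rw [eq_inv_iff_mul_eq_one, ← bl_mul, inv_mul_cancel, mul_one, bl_one]
    rw [h]
    exact Subgroup.inv_mem _ hA

theorem stabHom_injective (k : ℕ) : Function.Injective (stabHom S k) := by
  intro A B h
  have h1 : (rU finSumFinEquiv (bl A (1 : (Matrix (Fin 1) (Fin 1) S)ˣ))) =
    rU finSumFinEquiv (bl B 1) := h
  have h2 := congrArg (fun M : (Matrix (Fin (k + 1)) (Fin (k + 1)) S)ˣ =>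
    (M : Matrix (Fin (k + 1)) (Fin (k + 1)) S)) h1
  simp only [coe_rU, coe_bl] at h2
  apply Units.ext
  ext i j
  have h3 := congrFun (congrFun h2 (Fin.castAdd 1 i)) (Fin.castAdd 1 j)
  simpa using h3

theorem commutator_of_kf {k : ℕ} {A : (Matrix (Fin k) (Fin k) S)ˣ} (h : kf k A = 0) :
    Omega.toLim (stabHom S) k A ∈ commutator (Omega.Lim (stabHom S)) := by
  have h1 : Abelianization.of (Omega.toLim (stabHom S) k A) = 1 := h
  exact (QuotientGroup.eq_one_iff _).1 h1

theorem kf_tr {k l : ℕ} (h : k ≤ l) (A : (Matrix (Fin k) (Fin k) S)ˣ) :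
    kf l (Omega.tr (stabHom S) k l h A) = kf k A := by
  exact congrArg (fun x => Multiplicative.toAdd (clGL S x)) (Omega.toLim_tr (stabHom S) k l h A)

/-- If the class of an invertible matrix becomes trivial over `T` then the matrix can be replaced
by one which becomes a product of block unitriangular matrices over `T`. -/
theorem exists_el {T : Type v} [Ring T] (φ : S →+* T) (A : (Matrix n n S)ˣ)
    (h : KOne.map φ (k1 A) = 0) : ∃ (k : ℕ) (B : (Matrix (Fin k ⊕ Fin k) (Fin k ⊕ Fin k) S)ˣ),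
      k1 B = k1 A ∧ mU φ B ∈ El (Fin k) T := by
  unfold k1 at h
  rw [KOne.map_kf] at h
  obtain ⟨k0, hk0⟩ := Omega.exists_commutator _ (commutator_of_kf h)
  set A' := rU (Fintype.equivFin n) A
  obtain ⟨y, hy, hyA⟩ := hk0 (max k0 (Fintype.card n)) (le_max_left _ _)
  have hle : Fintype.card n ≤ max k0 (Fintype.card n) := le_max_right _ _
  generalize max k0 (Fintype.card n) = k at y hy hyA hle
  have h1 : mU φ (Omega.tr (stabHom S) _ k hle A') = Omega.tr (stabHom T) _ k hle (mU φ A') := by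
    clear hyA hy
    induction k, hle using Nat.le_induction with
    | base => rw [Omega.tr_self, Omega.tr_self]; rfl
    | succ k hk ih =>
      rw [Omega.tr_succ _ _ k hk, Omega.tr_succ _ _ k hk, MonoidHom.comp_apply,
        MonoidHom.comp_apply, mU_stab, ih 1]
  have h2 : Omega.toLim (stabHom T) k y =
      Omega.toLim (stabHom T) k (Omega.tr (stabHom T) _ k hle (mU φ A')) := by
    rw [hyA, Omega.toLim_tr]
  have h3 := Omega.toLim_injective (f := stabHom T) stabHom_injective k h2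
  refine ⟨k, bl (Omega.tr (stabHom S) _ k hle A') 1, ?_, ?_⟩
  · rw [k1_bl_one, k1_fin, kf_tr]
    rfl
  · rw [mU_bl, map_one, h1, ← h3]
    exact whitehead hy

end Elem

end Pool.Agent.Lib.MP_c052b4_al
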