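import Pool.Agent.Lib.MP_c052b4_al.GroupMat

/-!
# Support calculus for vectors over a group ring
-/

set_option autoImplicit false
set_option linter.unusedSectionVars false

namespace Pool.Agent.Lib.MP_c052b4_al.Kern

open Matrix

universe u v w

variable {R : Type u} [Ring R] {Γ : Type v} [Group Γ]

open Classical in
/-- restriction of the support to `Z` -/
noncomputable def res (Z : Set Γ) : MonoidAlgebra R Γ →+ MonoidAlgebra R Γ where
  toFun a := MonoidAlgebra.ofCoeff (a.coeff.filter (· ∈ Z))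
  map_zero' := by
    ext γ
    simp [Finsupp.filter_apply]
  map_add' a b := by simp [Finsupp.filter_add]

theorem coeff_res_of_mem {Z : Set Γ} {γ : Γ} (h : γ ∈ Z) (a : MonoidAlgebra R Γ) :
    (res Z a).coeff γ = a.coeff γ := by
  classical
  change (a.coeff.filter (· ∈ Z)) γ = _
  rw [Finsupp.filter_apply, if_pos h]

theorem coeff_res_of_notMem {Z : Set Γ} {γ : Γ} (h : γ ∉ Z) (a : MonoidAlgebra R Γ) :
    (res Z a).coeff γ = 0 := by
  classical
  change (a.coeff.filter (· ∈ Z)) γ = _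
  rw [Finsupp.filter_apply, if_neg h]

/-- the support of `a` is contained in `Z` -/
def Sup (Z : Set Γ) (a : MonoidAlgebra R Γ) : Prop := ∀ γ, γ ∉ Z → a.coeff γ = 0

theorem Sup.mono {Z Z' : Set Γ} (h : Z ⊆ Z') {a : MonoidAlgebra R Γ} (ha : Sup Z a) : Sup Z' a :=
  fun γ hγ => ha γ fun h' => hγ (h h')

theorem sup_zero (Z : Set Γ) : Sup Z (0 : MonoidAlgebra R Γ) := fun _ _ => rfl

theorem Sup.add {Z : Set Γ} {a b : MonoidAlgebra R Γ} (ha : Sup Z a) (hb : Sup Z b) :
    Sup Z (a + b) := fun γ hγ => by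
  rw [MonoidAlgebra.coeff_add, Finsupp.add_apply, ha γ hγ, hb γ hγ, add_zero]

theorem Sup.sub {Z : Set Γ} {a b : MonoidAlgebra R Γ} (ha : Sup Z a) (hb : Sup Z b) :
    Sup Z (a - b) := fun γ hγ => by
  rw [MonoidAlgebra.coeff_sub, Finsupp.sub_apply, ha γ hγ, hb γ hγ, sub_zero]

theorem Sup.sum {ι : Type*} {s : Finset ι} {Z : Set Γ} {a : ι → MonoidAlgebra R Γ}
    (ha : ∀ i ∈ s, Sup Z (a i)) : Sup Z (∑ i ∈ s, a i) := fun γ hγ => by
  rw [MonoidAlgebra.coeff_sum, Finsupp.finsetSum_apply]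
  exact Finset.sum_eq_zero fun i hi => ha i hi γ hγ

theorem sup_single {Z : Set Γ} {γ : Γ} (h : γ ∈ Z) (r : R) :
    Sup Z (MonoidAlgebra.single γ r) := fun γ' hγ' => by
  classical
  rw [MonoidAlgebra.coeff_single, Finsupp.single_apply, if_neg]
  rintro rfl
  exact hγ' h

theorem sup_res (Z : Set Γ) (a : MonoidAlgebra R Γ) : Sup Z (res Z a) :=
  fun _ hγ => coeff_res_of_notMem hγ a

theorem res_eq_self {Z : Set Γ} {a : MonoidAlgebra R Γ} (h : Sup Z a) : res Z a = a := by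
  ext γ
  by_cases hγ : γ ∈ Z
  · rw [coeff_res_of_mem hγ]
  · rw [coeff_res_of_notMem hγ, h γ hγ]

theorem res_eq_zero {Z Z' : Set Γ} {a : MonoidAlgebra R Γ} (h : Sup Z a)
    (hZ : ∀ γ ∈ Z, γ ∉ Z') : res Z' a = 0 := by
  ext γ
  by_cases hγ : γ ∈ Z'
  · rw [coeff_res_of_mem hγ, h γ fun h' => hZ γ h' hγ]; rfl
  · rw [coeff_res_of_notMem hγ]; rfl

theorem Sup.res {Z : Set Γ} {a : MonoidAlgebra R Γ} (h : Sup Z a) (Z' : Set Γ) :
    Sup (Z ∩ Z') (Kern.res Z' a) := by
  intro γ hγ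
  by_cases hγ' : γ ∈ Z'
  · rw [coeff_res_of_mem hγ']
    exact h γ fun h' => hγ ⟨h', hγ'⟩
  · exact coeff_res_of_notMem hγ' a

theorem res_add_res_compl (Z : Set Γ) (a : MonoidAlgebra R Γ) : res Z a + res Zᶜ a = a := by
  ext γ
  rw [MonoidAlgebra.coeff_add, Finsupp.add_apply]
  by_cases hγ : γ ∈ Z
  · rw [coeff_res_of_mem hγ, coeff_res_of_notMem (show γ ∉ Zᶜ from fun h => h hγ), add_zero]
  · rw [coeff_res_of_notMem hγ, coeff_res_of_mem (show γ ∈ Zᶜ from hγ), zero_add]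

/-- supports of products -/
theorem Sup.mul {Y Z W : Set Γ} {a b : MonoidAlgebra R Γ} (ha : Sup Y a) (hb : Sup Z b)
    (h : ∀ y ∈ Y, ∀ z ∈ Z, y * z ∈ W) : Sup W (a * b) := by
  intro γ hγ
  exact coeff_mul_eq_zero ha hb fun y hy z hz hyz => hγ (hyz ▸ h y hy z hz)

/-- restriction and multiplication from the right -/
theorem res_mul_right {Z Y : Set Γ} {b : MonoidAlgebra R Γ} (hb : Sup Y b)
    (h : ∀ γ, ∀ y ∈ Y, γ * y ∈ Z ↔ γ ∈ Z) (a : MonoidAlgebra R Γ) :
    res Z (a * b) = res Z a * b := by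
  have h1 : a * b = res Z a * b + res Zᶜ a * b := by rw [← add_mul, res_add_res_compl]
  have h2 : res Z (res Z a * b) = res Z a * b :=
    res_eq_self ((sup_res Z a).mul hb fun γ hγ y hy => (h γ y hy).2 hγ)
  have h3 : res Z (res Zᶜ a * b) = 0 :=
    res_eq_zero ((sup_res Zᶜ a).mul (W := Zᶜ) hb
      fun γ hγ y hy => fun h' => hγ ((h γ y hy).1 h')) (fun γ hγ => hγ)
  rw [h1, map_add, h2, h3, add_zero]

/-- restriction and multiplication from the left by a group element -/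
theorem res_single_mul (Z : Set Γ) (g : Γ) (r : R) (a : MonoidAlgebra R Γ) :
    res {γ | g⁻¹ * γ ∈ Z} (MonoidAlgebra.single g r * a) = MonoidAlgebra.single g r * res Z a := by
  ext γ
  by_cases hγ : g⁻¹ * γ ∈ Z
  · rw [coeff_res_of_mem (show γ ∈ {γ | g⁻¹ * γ ∈ Z} from hγ), MonoidAlgebra.coeff_single_mul_apply,
      MonoidAlgebra.coeff_single_mul_apply, coeff_res_of_mem hγ]
  · rw [coeff_res_of_notMem (show γ ∉ {γ | g⁻¹ * γ ∈ Z} from hγ),
      MonoidAlgebra.coeff_single_mul_apply, coeff_res_of_notMem hγ, mul_zero]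

section Vec

variable {n : Type*}

/-- vectors supported in `Z` -/
def SupV (Z : Set Γ) (a : n → MonoidAlgebra R Γ) : Prop := ∀ j, Sup Z (a j)

/-- restriction of vectors -/
noncomputable def resV (Z : Set Γ) (a : n → MonoidAlgebra R Γ) : n → MonoidAlgebra R Γ :=
  fun j => res Z (a j)

theorem resV_add (Z : Set Γ) (a b : n → MonoidAlgebra R Γ) :
    resV Z (a + b) = resV Z a + resV Z b := by
  funext j; simp [resV]

theorem resV_zero (Z : Set Γ) : resV Z (0 : n → MonoidAlgebra R Γ) = 0 := by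
  funext j; simp [resV]

theorem SupV.mono {Z Z' : Set Γ} (h : Z ⊆ Z') {a : n → MonoidAlgebra R Γ} (ha : SupV Z a) :
    SupV Z' a := fun j => (ha j).mono h

theorem supV_zero (Z : Set Γ) : SupV Z (0 : n → MonoidAlgebra R Γ) := fun _ => sup_zero Z

theorem SupV.add {Z : Set Γ} {a b : n → MonoidAlgebra R Γ} (ha : SupV Z a) (hb : SupV Z b) :
    SupV Z (a + b) := fun j => (ha j).add (hb j)

theorem SupV.sub {Z : Set Γ} {a b : n → MonoidAlgebra R Γ} (ha : SupV Z a) (hb : SupV Z b) :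
    SupV Z (a - b) := fun j => (ha j).sub (hb j)

theorem SupV.sum {ι : Type*} {s : Finset ι} {Z : Set Γ} {a : ι → n → MonoidAlgebra R Γ}
    (ha : ∀ i ∈ s, SupV Z (a i)) : SupV Z (∑ i ∈ s, a i) := fun j => by
  rw [Finset.sum_apply]
  exact Sup.sum fun i hi => ha i hi j

theorem supV_resV (Z : Set Γ) (a : n → MonoidAlgebra R Γ) : SupV Z (resV Z a) :=
  fun j => sup_res Z (a j)

theorem resV_eq_self {Z : Set Γ} {a : n → MonoidAlgebra R Γ} (h : SupV Z a) : resV Z a = a :=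
  funext fun j => res_eq_self (h j)

theorem resV_eq_zero {Z Z' : Set Γ} {a : n → MonoidAlgebra R Γ} (h : SupV Z a)
    (hZ : ∀ γ ∈ Z, γ ∉ Z') : resV Z' a = 0 :=
  funext fun j => res_eq_zero (h j) hZ

theorem resV_add_compl (Z : Set Γ) (a : n → MonoidAlgebra R Γ) : resV Z a + resV Zᶜ a = a :=
  funext fun j => res_add_res_compl Z (a j)

theorem SupV.smul_single {Z W : Set Γ} {a : n → MonoidAlgebra R Γ} (ha : SupV Z a) {g : Γ}
    (r : R) (h : ∀ z ∈ Z, g * z ∈ W) : SupV W (MonoidAlgebra.single g r • a) := fun j =>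
  Sup.mul (Y := {g}) (sup_single (Set.mem_singleton g) r) (ha j)
    (by rintro _ rfl z hz; exact h z hz)

theorem resV_smul_single (Z : Set Γ) (g : Γ) (r : R) (a : n → MonoidAlgebra R Γ) :
    resV {γ | g⁻¹ * γ ∈ Z} (MonoidAlgebra.single g r • a) = MonoidAlgebra.single g r • resV Z a :=
  funext fun j => res_single_mul Z g r (a j)

/-- disjoint supports force vanishing -/
theorem eq_zero_of_supV {Z Z' : Set Γ} {a : n → MonoidAlgebra R Γ} (h : SupV Z a)
    (h' : SupV Z' a) (hZ : ∀ γ ∈ Z, γ ∉ Z') : a = 0 := by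
  rw [← resV_eq_self h', resV_eq_zero h hZ]

variable [Fintype n] {m : Type*}

/-- matrices with entries supported in `Y` -/
def SupM (Y : Set Γ) (X : Matrix n m (MonoidAlgebra R Γ)) : Prop := ∀ i j, Sup Y (X i j)

theorem SupV.vecMul {Y Z W : Set Γ} {a : n → MonoidAlgebra R Γ}
    {X : Matrix n m (MonoidAlgebra R Γ)} (ha : SupV Y a) (hX : SupM Z X)
    (h : ∀ y ∈ Y, ∀ z ∈ Z, y * z ∈ W) : SupV W (a ᵥ* X) := by
  intro j
  exact Sup.sum fun i _ => (ha i).mul (hX i j) h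

theorem resV_vecMul {Z Y : Set Γ} {X : Matrix n m (MonoidAlgebra R Γ)} (hX : SupM Y X)
    (h : ∀ γ, ∀ y ∈ Y, γ * y ∈ Z ↔ γ ∈ Z) (a : n → MonoidAlgebra R Γ) :
    resV Z (a ᵥ* X) = resV Z a ᵥ* X := by
  funext j
  simp only [resV, Matrix.vecMul, dotProduct, map_sum]
  exact Finset.sum_congr rfl fun i _ => res_mul_right (hX i j) h (a i)

/-- a coefficient of a product -/
theorem coeff_vecMul_eq_zero {Z Y : Set Γ} {X : Matrix n m (MonoidAlgebra R Γ)} (hX : SupM Y X)
    {a : n → MonoidAlgebra R Γ} (ha : SupV Z a) {γ : Γ} (h : ∀ y ∈ Y, γ * y⁻¹ ∉ Z) (j : m) :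
    ((a ᵥ* X) j).coeff γ = 0 := by
  simp only [Matrix.vecMul, dotProduct, MonoidAlgebra.coeff_sum, Finsupp.finsetSum_apply]
  refine Finset.sum_eq_zero fun i _ => coeff_mul_eq_zero (ha i) (hX i j) ?_
  rintro z hz y hy rfl
  apply h y hy
  rwa [mul_inv_cancel_right]

/-- a finite set containing the supports of the entries of a matrix -/
theorem exists_finset_supM [Fintype m] (X : Matrix n m (MonoidAlgebra R Γ)) :
    ∃ B : Finset Γ, SupM (B : Set Γ) X := by
  classical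
  refine ⟨Finset.univ.biUnion fun i => Finset.univ.biUnion fun j => (X i j).coeff.support, ?_⟩
  intro i j γ hγ
  by_contra h
  apply hγ
  simp only [Finset.coe_biUnion, Set.mem_iUnion, Finset.mem_coe, Finset.mem_univ,
    Finsupp.mem_support_iff]
  exact ⟨i, trivial, j, trivial, h⟩

/-- induction for vectors with given support -/
theorem supV_induction [DecidableEq n] {Z : Set Γ} {P : (n → MonoidAlgebra R Γ) → Prop}
    (h0 : P 0) (hadd : ∀ a b, P a → P b → P (a + b))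
    (hs : ∀ j, ∀ γ ∈ Z, ∀ r : R, P (Pi.single j (MonoidAlgebra.single γ r)))
    {a : n → MonoidAlgebra R Γ} (ha : SupV Z a) : P a := by
  have h1 : a = ∑ j, Pi.single j (a j) := (Finset.univ_sum_single a).symm
  rw [h1]
  refine Finset.sum_induction _ P hadd h0 fun j _ => ?_
  have h2 : a j = ∑ γ ∈ (a j).coeff.support, MonoidAlgebra.single γ ((a j).coeff γ) := by
    conv_lhs => rw [← MonoidAlgebra.sum_coeff_single (a j)]
    rfl
  have h3 : (Pi.single j (a j) : n → MonoidAlgebra R Γ) = ∑ γ ∈ (a j).coeff.support,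
      Pi.single j (MonoidAlgebra.single γ ((a j).coeff γ)) := by
    conv_lhs => rw [h2]
    exact map_sum (AddMonoidHom.single (fun _ : n => MonoidAlgebra R Γ) j) _ _
  rw [h3]
  refine Finset.sum_induction _ P hadd h0 fun γ hγ => hs j γ ?_ _
  by_contra h4
  exact (Finsupp.mem_support_iff.1 hγ) (ha j γ h4)

end Vec

end Pool.Agent.Lib.MP_c052b4_al.Kern
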