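import Pool.Agent.Lib.MP_c052b4_al.KMod
import Pool.Agent.Lib.MP_c052b4_al.KOneCalc
import Pool.Agent.Lib.MP_c052b4_al.Supp
import Pool.Agent.Lib.MP_c052b4_al.BassK

/-!
# The boundary map `K₁(S[t, t⁻¹]) → K₀(S)`
-/

set_option autoImplicit false
set_option linter.unusedSectionVars false

namespace Pool.Agent.Lib.MP_c052b4_al.Bdry

open Matrix Kern

universe u v w

variable {S : Type u} [Ring S] {n : Type v} {m : Type w}

/-- exponents at least `c` -/
def up (c : ℤ) : Set (Multiplicative ℤ) := {γ | c ≤ Multiplicative.toAdd γ}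

theorem mem_up {c : ℤ} {γ : Multiplicative ℤ} : γ ∈ up c ↔ c ≤ Multiplicative.toAdd γ := Iff.rfl

theorem up_mono {c d : ℤ} (h : c ≤ d) : up d ⊆ up c := fun _ hγ => le_trans h hγ

/-- vectors with exponents at least `c` -/
def L (S : Type u) [Ring S] (n : Type v) (c : ℤ) : Submodule S (n → Lau S) where
  carrier := {v | SupV (up c) v}
  zero_mem' := supV_zero _
  add_mem' := fun ha hb => ha.add hb
  smul_mem' := fun s v hv j γ hγ => by
    have h1 : ((s • v) j).coeff γ = s * (v j).coeff γ := rfl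
    rw [h1, hv j γ hγ, mul_zero]

theorem mem_L {c : ℤ} {v : n → Lau S} : v ∈ L S n c ↔ SupV (up c) v := Iff.rfl

theorem L_mono {c d : ℤ} (h : c ≤ d) : L S n d ≤ L S n c := fun _ hv => SupV.mono (up_mono h) hv

/-- truncation -/
noncomputable def trL (S : Type u) [Ring S] (n : Type v) (c : ℤ) :
    (n → Lau S) →ₗ[S] (n → Lau S) where
  toFun := resV (up c)
  map_add' := resV_add _
  map_smul' s v := by
    funext j
    ext γ
    by_cases hγ : γ ∈ up c
    · change (res (up c) (s • v j)).coeff γ = s * (res (up c) (v j)).coeff γ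
      rw [coeff_res_of_mem hγ, coeff_res_of_mem hγ]
      rfl
    · change (res (up c) (s • v j)).coeff γ = s * (res (up c) (v j)).coeff γ
      rw [coeff_res_of_notMem hγ, coeff_res_of_notMem hγ, mul_zero]

theorem trL_mem (c : ℤ) (v : n → Lau S) : trL S n c v ∈ L S n c := supV_resV _ _

theorem trL_eq {c : ℤ} {v : n → Lau S} (h : v ∈ L S n c) : trL S n c v = v := resV_eq_self h

section Fin

variable [Fintype n] [Fintype m]

/-- multiplication by a matrix from the right -/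
noncomputable def mulL (X : Matrix n m (Lau S)) : (n → Lau S) →ₗ[S] (m → Lau S) where
  toFun v := v ᵥ* X
  map_add' := fun v w => Matrix.add_vecMul _ _ _
  map_smul' := fun s v => by
    rw [RingHom.id_apply, Matrix.smul_vecMul]

theorem mulL_apply (X : Matrix n m (Lau S)) (v : n → Lau S) : mulL X v = v ᵥ* X := rfl

theorem exists_bound (X : Matrix n m (Lau S)) :
    ∃ M : ℕ, ∀ c v, v ∈ L S n c → v ᵥ* X ∈ L S m (c - M) := by
  classical
  obtain ⟨B, hB⟩ := exists_finset_supM X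
  refine ⟨∑ b ∈ B, (Multiplicative.toAdd b).natAbs, fun c v hv => ?_⟩
  refine SupV.vecMul hv hB ?_
  intro y hy z hz
  rw [mem_up] at hy ⊢
  have h1 : (Multiplicative.toAdd z).natAbs ≤ ∑ b ∈ B, (Multiplicative.toAdd b).natAbs :=
    Finset.single_le_sum (f := fun b => (Multiplicative.toAdd b).natAbs)
      (fun _ _ => Nat.zero_le _) (Finset.mem_coe.1 hz)
  rw [toAdd_mul]
  omega

variable [DecidableEq n] [DecidableEq m]

theorem vmul_inv (A : (Matrix n n (Lau S))ˣ) (v : n → Lau S) :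
    (v ᵥ* (A : Matrix n n (Lau S))) ᵥ* ((A⁻¹ : (Matrix n n (Lau S))ˣ) : Matrix n n (Lau S)) = v := by
  rw [Matrix.vecMul_vecMul, Units.mul_inv, Matrix.vecMul_one]

theorem vinv_mul (A : (Matrix n n (Lau S))ˣ) (v : n → Lau S) :
    (v ᵥ* ((A⁻¹ : (Matrix n n (Lau S))ˣ) : Matrix n n (Lau S))) ᵥ* (A : Matrix n n (Lau S)) = v := by
  rw [Matrix.vecMul_vecMul, Units.inv_mul, Matrix.vecMul_one]

/-- the image of the standard lattice under an invertible matrix -/
noncomputable def LA (A : (Matrix n n (Lau S))ˣ) : Submodule S (n → Lau S) :=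
  (L S n 0).comap (mulL ((A⁻¹ : (Matrix n n (Lau S))ˣ) : Matrix n n (Lau S)))

theorem mem_LA {A : (Matrix n n (Lau S))ˣ} {v : n → Lau S} :
    v ∈ LA A ↔ v ᵥ* ((A⁻¹ : (Matrix n n (Lau S))ˣ) : Matrix n n (Lau S)) ∈ L S n 0 := Iff.rfl

theorem vecMul_mem_LA {A : (Matrix n n (Lau S))ˣ} {v : n → Lau S} :
    v ᵥ* (A : Matrix n n (Lau S)) ∈ LA A ↔ v ∈ L S n 0 := by
  rw [mem_LA, vmul_inv]

theorem exists_le (A : (Matrix n n (Lau S))ˣ) : ∃ M : ℕ, LA A ≤ L S n (-M) := by
  obtain ⟨M, hM⟩ := exists_bound (A : Matrix n n (Lau S))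
  refine ⟨M, fun v hv => ?_⟩
  have := hM 0 _ (mem_LA.1 hv)
  rw [vinv_mul, zero_sub] at this
  exact this

/-- the submodule to be divided out -/
noncomputable def KQ (A : (Matrix n n (Lau S))ˣ) (M : ℕ) : Submodule S (L S n (-M)) :=
  (LA A).comap (L S n (-M)).subtype

/-- the quotient of two lattices -/
abbrev Q (A : (Matrix n n (Lau S))ˣ) (M : ℕ) : Type (max u v) := L S n (-M) ⧸ KQ A M

theorem mk_eq_zero {A : (Matrix n n (Lau S))ˣ} {M : ℕ} (v : L S n (-M)) :
    (Submodule.Quotient.mk v : Q A M) = 0 ↔ (v : n → Lau S) ∈ LA A :=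
  Submodule.Quotient.mk_eq_zero _

/-- the embedding of a window -/
noncomputable def wE (S : Type u) [Ring S] (n : Type v) (a : ℕ) :
    (Fin a × n → S) →ₗ[S] (n → Lau S) where
  toFun u := fun j => ∑ k : Fin a, MonoidAlgebra.single (Multiplicative.ofAdd (-((k : ℤ) + 1)))
    (u (k, j))
  map_add' u u' := by
    funext j
    simp only [Pi.add_apply, MonoidAlgebra.single_add, Finset.sum_add_distrib]
  map_smul' s u := by
    funext j
    simp only [Pi.smul_apply, RingHom.id_apply, Finset.smul_sum]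
    refine Finset.sum_congr rfl fun k _ => ?_
    ext γ
    simp [MonoidAlgebra.coeff_single, Finsupp.single_apply]

/-- coordinates in a window -/
noncomputable def wC (S : Type u) [Ring S] (n : Type v) (a : ℕ) :
    (n → Lau S) →ₗ[S] (Fin a × n → S) where
  toFun v := fun x => (v x.2).coeff (Multiplicative.ofAdd (-((x.1 : ℤ) + 1)))
  map_add' _ _ := rfl
  map_smul' _ _ := rfl

theorem wE_coeff (a : ℕ) (u : Fin a × n → S) (j : n) (γ : Multiplicative ℤ) :
    (wE S n a u j).coeff γ = ∑ k : Fin a,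
      if Multiplicative.ofAdd (-((k : ℤ) + 1)) = γ then u (k, j) else 0 := by
  classical
  change (∑ k : Fin a, MonoidAlgebra.single (Multiplicative.ofAdd (-((k : ℤ) + 1)))
    (u (k, j))).coeff γ = _
  rw [MonoidAlgebra.coeff_sum, Finsupp.finsetSum_apply]
  refine Finset.sum_congr rfl fun k _ => ?_
  rw [MonoidAlgebra.coeff_single, Finsupp.single_apply]

theorem sub_wE_mem {a : ℕ} {v : n → Lau S} (hv : v ∈ L S n (-a)) :
    v - wE S n a (wC S n a v) ∈ L S n 0 := by
  intro j γ hγ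
  have hγ' : Multiplicative.toAdd γ < 0 := by
    rw [mem_up] at hγ; omega
  have h0 : (v j - wE S n a (wC S n a v) j).coeff γ =
      (v j).coeff γ - (wE S n a (wC S n a v) j).coeff γ := rfl
  change (v j - wE S n a (wC S n a v) j).coeff γ = 0
  rw [h0, wE_coeff]
  by_cases h1 : -(a : ℤ) ≤ Multiplicative.toAdd γ
  · obtain ⟨k, hk⟩ : ∃ k : ℕ, (k : ℤ) = -Multiplicative.toAdd γ - 1 :=
      ⟨(-Multiplicative.toAdd γ - 1).toNat, by omega⟩
    have hka : k < a := by omega
    have hγk : Multiplicative.ofAdd (-((k : ℤ) + 1)) = γ := by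
      apply Multiplicative.toAdd.injective
      rw [toAdd_ofAdd]; omega
    rw [Finset.sum_eq_single (⟨k, hka⟩ : Fin a)]
    · rw [if_pos hγk, sub_eq_zero]
      change _ = (v j).coeff (Multiplicative.ofAdd (-((k : ℤ) + 1)))
      rw [hγk]
    · intro k' _ hk'
      rw [if_neg]
      intro h2
      apply hk'
      apply Fin.ext
      have h3 : -((k' : ℤ) + 1) = -((k : ℤ) + 1) :=
        Multiplicative.ofAdd.injective (h2.trans hγk.symm)
      have : (k' : ℤ) = k := by omega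
      exact_mod_cast this
    · intro h; exact absurd (Finset.mem_univ _) h
  · rw [hv j γ (by rw [mem_up]; exact h1), zero_sub, neg_eq_zero]
    refine Finset.sum_eq_zero fun k _ => ?_
    rw [if_neg]
    rintro rfl
    apply h1
    rw [toAdd_ofAdd]
    have := k.2
    omega

theorem wC_of_mem {a : ℕ} {v : n → Lau S} (hv : v ∈ L S n 0) : wC S n a v = 0 := by
  funext x
  refine hv x.2 _ ?_
  rw [mem_up, toAdd_ofAdd]
  omega

section Retract

variable {A : (Matrix n n (Lau S))ˣ} {M : ℕ} (hA : LA A ≤ L S n (-M)) {a : ℕ}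
  (ha : ∀ v, v ∈ L S n (-M) →
    v ᵥ* ((A⁻¹ : (Matrix n n (Lau S))ˣ) : Matrix n n (Lau S)) ∈ L S n (-a))

/-- the section -/
noncomputable def iQ (A : (Matrix n n (Lau S))ˣ) (M a : ℕ) : Q A M →ₗ[S] (Fin a × n → S) :=
  (KQ A M).liftQ (wC S n a ∘ₗ mulL ((A⁻¹ : (Matrix n n (Lau S))ˣ) : Matrix n n (Lau S)) ∘ₗ
    (L S n (-M)).subtype) (by
    intro v hv
    exact wC_of_mem hv)

/-- the retraction -/
noncomputable def rQ (A : (Matrix n n (Lau S))ˣ) (M a : ℕ) : (Fin a × n → S) →ₗ[S] Q A M :=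
  (KQ A M).mkQ ∘ₗ LinearMap.codRestrict (L S n (-M))
    (trL S n (-M) ∘ₗ mulL (A : Matrix n n (Lau S)) ∘ₗ wE S n a) (fun _ => trL_mem _ _)

include hA ha in
theorem rQ_iQ : (rQ A M a) ∘ₗ (iQ A M a) = LinearMap.id := by
  apply Submodule.linearMap_qext
  apply LinearMap.ext
  intro v
  set v' := (v : n → Lau S) ᵥ* ((A⁻¹ : (Matrix n n (Lau S))ˣ) : Matrix n n (Lau S)) with hv'
  set x := v' - wE S n a (wC S n a v') with hx
  have hx0 : x ∈ L S n 0 := sub_wE_mem (ha v v.2)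
  have h1 : wE S n a (wC S n a v') = v' - x := by rw [hx]; abel
  have h2 : (wE S n a (wC S n a v')) ᵥ* (A : Matrix n n (Lau S)) =
      v - x ᵥ* (A : Matrix n n (Lau S)) := by
    rw [h1, Matrix.sub_vecMul, hv', vinv_mul]
  have h3 : x ᵥ* (A : Matrix n n (Lau S)) ∈ LA A := vecMul_mem_LA.2 hx0
  have h4 : (v : n → Lau S) - x ᵥ* (A : Matrix n n (Lau S)) ∈ L S n (-M) :=
    Submodule.sub_mem _ v.2 (hA h3)
  have h5 : trL S n (-M) ((wE S n a (wC S n a v')) ᵥ* (A : Matrix n n (Lau S))) =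
      v - x ᵥ* (A : Matrix n n (Lau S)) := by rw [h2, trL_eq h4]
  change (Submodule.Quotient.mk ⟨trL S n (-M) ((wE S n a (wC S n a v')) ᵥ* (A : Matrix n n (Lau S))),
    trL_mem _ _⟩ : Q A M) = Submodule.Quotient.mk v
  rw [Submodule.Quotient.eq]
  change trL S n (-M) ((wE S n a (wC S n a v')) ᵥ* (A : Matrix n n (Lau S))) - v ∈ LA A
  rw [h5, sub_sub_cancel_left]
  exact Submodule.neg_mem _ h3

end Retract

theorem exists_a (A : (Matrix n n (Lau S))ˣ) (M : ℕ) : ∃ a : ℕ, ∀ v, v ∈ L S n (-M) →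
    v ᵥ* ((A⁻¹ : (Matrix n n (Lau S))ˣ) : Matrix n n (Lau S)) ∈ L S n (-a) := by
  obtain ⟨N, hN⟩ := exists_bound ((A⁻¹ : (Matrix n n (Lau S))ˣ) : Matrix n n (Lau S))
  refine ⟨M + N, fun v hv => ?_⟩
  have := hN _ v hv
  have h : (-(M : ℤ) - N) = -((M + N : ℕ) : ℤ) := by push_cast; ring
  rwa [h] at this

theorem finiteQ {A : (Matrix n n (Lau S))ˣ} {M : ℕ} (hA : LA A ≤ L S n (-M)) :
    Module.Finite S (Q A M) := by
  obtain ⟨a, ha⟩ := exists_a A M
  refine Module.Finite.of_surjective (rQ A M a) fun x => ⟨iQ A M a x, ?_⟩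
  exact LinearMap.congr_fun (rQ_iQ hA ha) x

theorem projectiveQ {A : (Matrix n n (Lau S))ˣ} {M : ℕ} (hA : LA A ≤ L S n (-M)) :
    Module.Projective S (Q A M) := by
  obtain ⟨a, ha⟩ := exists_a A M
  exact Module.Projective.of_split (iQ A M a) (rQ A M a) (rQ_iQ hA ha)

end Fin

end Pool.Agent.Lib.MP_c052b4_al.Bdry
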