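import Pool.Agent.Lib.MP_c052b4_al.Bdry

/-!
# The boundary map `K₁(S[t, t⁻¹]) → K₀(S)`, second part
-/

set_option autoImplicit false
set_option linter.unusedSectionVars false

namespace Pool.Agent.Lib.MP_c052b4_al.Bdry

open Matrix Kern

universe u v w

variable {S : Type u} [Ring S] {n : Type v} {m : Type w}

section Shift

/-- multiplication by a power of `t` -/
noncomputable def sh (S : Type u) [Ring S] (n : Type v) (c : ℤ) :
    (n → Lau S) →ₗ[S] (n → Lau S) where
  toFun v := (MonoidAlgebra.single (Multiplicative.ofAdd c) (1 : S)) • v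
  map_add' v w := smul_add _ _ _
  map_smul' s v := by
    funext j
    ext γ
    simp [MonoidAlgebra.coeff_single_mul_apply]

theorem sh_coeff (c : ℤ) (v : n → Lau S) (j : n) (γ : Multiplicative ℤ) :
    (sh S n c v j).coeff γ = (v j).coeff ((Multiplicative.ofAdd c)⁻¹ * γ) := by
  change (MonoidAlgebra.single (Multiplicative.ofAdd c) (1 : S) * v j).coeff γ = _
  rw [MonoidAlgebra.coeff_single_mul_apply, one_mul]

theorem sh_sh (c d : ℤ) (v : n → Lau S) : sh S n c (sh S n d v) = sh S n (c + d) v := by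
  funext j
  ext γ
  rw [sh_coeff, sh_coeff, sh_coeff]
  congr 1
  apply Multiplicative.toAdd.injective
  simp only [toAdd_mul, toAdd_inv, toAdd_ofAdd]
  ring

theorem sh_zero (v : n → Lau S) : sh S n 0 v = v := by
  funext j
  ext γ
  rw [sh_coeff]
  congr 1
  apply Multiplicative.toAdd.injective
  simp only [toAdd_mul, toAdd_inv, toAdd_ofAdd]
  ring

theorem sh_mem {c d : ℤ} {v : n → Lau S} (hv : v ∈ L S n d) : sh S n c v ∈ L S n (d + c) := by
  intro j γ hγ
  rw [sh_coeff]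
  refine hv j _ ?_
  rw [mem_up] at hγ ⊢
  simp only [toAdd_mul, toAdd_inv, toAdd_ofAdd]
  omega

theorem sh_mem_iff {c d : ℤ} {v : n → Lau S} : sh S n c v ∈ L S n (d + c) ↔ v ∈ L S n d := by
  refine ⟨fun h => ?_, sh_mem⟩
  have h1 := sh_mem (c := -c) h
  rw [sh_sh] at h1
  have h2 : -c + c = 0 := by ring
  have h3 : d + c + -c = d := by ring
  rwa [h2, h3, sh_zero] at h1

theorem sh_vecMul [Fintype n] (c : ℤ) (v : n → Lau S) (X : Matrix n m (Lau S)) :
    sh S n c v ᵥ* X = sh S m c (v ᵥ* X) := by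
  change (MonoidAlgebra.single (Multiplicative.ofAdd c) (1 : S) • v) ᵥ* X = _
  rw [Matrix.smul_vecMul]
  rfl

end Shift

variable [Fintype n] [Fintype m] [DecidableEq n] [DecidableEq m]

theorem mk_congr (A : (Matrix n n (Lau S))ˣ) (M : ℕ) {v w : L S n (-M)}
    (h : (v : n → Lau S) = w) :
    (Submodule.Quotient.mk v : Q A M) = Submodule.Quotient.mk w := by
  rw [Subtype.ext h]

theorem mk_eq_mk {A : (Matrix n n (Lau S))ˣ} {M : ℕ} {v w : L S n (-M)}
    (h : (v : n → Lau S) - w ∈ LA A) :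
    (Submodule.Quotient.mk v : Q A M) = Submodule.Quotient.mk w := by
  rw [Submodule.Quotient.eq]
  exact h

/-- the class of the quotient -/
noncomputable def kQ (A : (Matrix n n (Lau S))ˣ) (M : ℕ) (hA : LA A ≤ L S n (-M)) : KZero S :=
  haveI := finiteQ hA
  haveI := projectiveQ hA
  kmod S (Q A M)

/-- the class of the free module -/
noncomputable def fr (S : Type u) [Ring S] (n : Type v) [Fintype n] : KZero S := kmod S (n → S)

/-- extraction of the lowest coefficient -/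
noncomputable def cz (S : Type u) [Ring S] (n : Type v) (c : ℤ) : (n → Lau S) →ₗ[S] (n → S) where
  toFun v := fun j => (v j).coeff (Multiplicative.ofAdd c)
  map_add' _ _ := rfl
  map_smul' _ _ := rfl

theorem cz_of_mem {c : ℤ} {v : n → Lau S} (hv : v ∈ L S n (c + 1)) : cz S n c v = 0 := by
  funext j
  refine hv j _ ?_
  rw [mem_up, toAdd_ofAdd]
  omega

theorem mem_of_cz {c : ℤ} {v : n → Lau S} (hv : v ∈ L S n c) (h : cz S n c v = 0) :
    v ∈ L S n (c + 1) := by
  intro j γ hγ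
  by_cases h1 : Multiplicative.toAdd γ = c
  · have h2 : γ = Multiplicative.ofAdd c := by rw [← h1]; rfl
    rw [h2]
    exact congrFun h j
  · refine hv j γ ?_
    rw [mem_up] at hγ ⊢
    omega

theorem exists_cz (c : ℤ) (u : n → S) : ∃ v ∈ L S n c, cz S n c v = u := by
  refine ⟨fun j => MonoidAlgebra.single (Multiplicative.ofAdd c) (u j), ?_, ?_⟩
  · intro j
    refine sup_single ?_ _
    rw [mem_up, toAdd_ofAdd]
  · funext j
    change (MonoidAlgebra.single (Multiplicative.ofAdd c) (u j)).coeff (Multiplicative.ofAdd c) = _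
    rw [MonoidAlgebra.coeff_single, Finsupp.single_eq_same]

theorem kQ_succ {A : (Matrix n n (Lau S))ˣ} {M : ℕ} (hA : LA A ≤ L S n (-M))
    (hA' : LA A ≤ L S n (-(M + 1 : ℕ))) : kQ A (M + 1) hA' = kQ A M hA + fr S n := by
  have := finiteQ hA
  have := projectiveQ hA
  have := finiteQ hA'
  have := projectiveQ hA'
  have hle : L S n (-M) ≤ L S n (-(M + 1 : ℕ)) := L_mono (by push_cast; omega)
  have hc : -((M + 1 : ℕ) : ℤ) + 1 = -M := by push_cast; ring
  let i : Q A M →ₗ[S] Q A (M + 1) := (KQ A M).mapQ (KQ A (M + 1)) (Submodule.inclusion hle)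
    (fun v hv => hv)
  let p : Q A (M + 1) →ₗ[S] (n → S) := (KQ A (M + 1)).liftQ
    (cz S n (-(M + 1 : ℕ)) ∘ₗ (L S n (-(M + 1 : ℕ))).subtype) (by
      intro v hv
      refine cz_of_mem ?_
      rw [hc]
      exact hA hv)
  refine kmod_exact (F := Q A (M + 1)) (M := Q A M) (N := n → S) i p ?_ ?_ ?_ ?_
  · rw [← LinearMap.ker_eq_bot, LinearMap.ker_eq_bot']
    intro x hx
    obtain ⟨v, rfl⟩ := Submodule.Quotient.mk_surjective _ x
    exact (mk_eq_zero v).2 ((mk_eq_zero (M := M + 1) (Submodule.inclusion hle v)).1 hx)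
  · intro u
    obtain ⟨v, hv, hvu⟩ := exists_cz (-(M + 1 : ℕ)) u
    exact ⟨Submodule.Quotient.mk ⟨v, hv⟩, hvu⟩
  · intro x
    obtain ⟨v, rfl⟩ := Submodule.Quotient.mk_surjective _ x
    refine cz_of_mem ?_
    rw [hc]
    exact v.2
  · intro y hy
    obtain ⟨v, rfl⟩ := Submodule.Quotient.mk_surjective _ y
    have h1 : (v : n → Lau S) ∈ L S n (-M) := by
      rw [← hc]
      exact mem_of_cz v.2 hy
    exact ⟨Submodule.Quotient.mk ⟨v, h1⟩, rfl⟩

theorem kQ_add {A : (Matrix n n (Lau S))ˣ} {M : ℕ} (hA : LA A ≤ L S n (-M)) (k : ℕ)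
    (hA' : LA A ≤ L S n (-(M + k : ℕ))) : kQ A (M + k) hA' = kQ A M hA + k • fr S n := by
  induction k with
  | zero => simp
  | succ k ih =>
    have h1 : LA A ≤ L S n (-(M + k : ℕ)) := hA.trans (L_mono (by push_cast; omega))
    have h2 := kQ_succ h1 hA'
    rw [ih h1] at h2
    have h3 : kQ A M hA + (k + 1) • fr S n = kQ A M hA + k • fr S n + fr S n := by
      rw [succ_nsmul, add_assoc]
    exact h2.trans h3.symm

/-- the boundary of an invertible matrix -/
noncomputable def dd (A : (Matrix n n (Lau S))ˣ) : KZero S :=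
  kQ A (exists_le A).choose (exists_le A).choose_spec - (exists_le A).choose • fr S n

theorem kQ_indep {A : (Matrix n n (Lau S))ˣ} {M M' : ℕ} (hA : LA A ≤ L S n (-M))
    (h : LA A ≤ L S n (-M')) : kQ A M' h - M' • fr S n = kQ A M hA - M • fr S n := by
  rcases le_total M M' with hM | hM
  · obtain ⟨k, rfl⟩ := Nat.exists_eq_add_of_le hM
    rw [kQ_add hA k h, add_nsmul]
    abel
  · obtain ⟨k, rfl⟩ := Nat.exists_eq_add_of_le hM
    rw [kQ_add h k hA, add_nsmul]
    abel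

theorem dd_eq {A : (Matrix n n (Lau S))ˣ} {M : ℕ} (hA : LA A ≤ L S n (-M)) :
    dd A = kQ A M hA - M • fr S n := kQ_indep hA _

theorem mem_LA_mul {A B : (Matrix n n (Lau S))ˣ} {v : n → Lau S} :
    v ∈ LA (A * B) ↔ v ᵥ* ((B⁻¹ : (Matrix n n (Lau S))ˣ) : Matrix n n (Lau S)) ∈ LA A := by
  rw [mem_LA, mem_LA, _root_.mul_inv_rev, Units.val_mul, Matrix.vecMul_vecMul]

theorem LA_mul_le {A B : (Matrix n n (Lau S))ˣ} {M M' : ℕ} (hA : LA A ≤ L S n (-M))
    (hB : LA B ≤ L S n (-M')) : LA (A * B) ≤ L S n (-(M + M' : ℕ)) := by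
  intro v hv
  have h1 := hA (mem_LA_mul.1 hv)
  have h2 := sh_mem (c := M) h1
  rw [neg_add_cancel, ← sh_vecMul] at h2
  have h3 := hB (mem_LA.2 h2)
  have h4 := sh_mem (c := -M) h3
  rw [sh_sh, neg_add_cancel, sh_zero] at h4
  have h5 : -((M + M' : ℕ) : ℤ) = -M' + -M := by push_cast; ring
  rw [h5]
  exact h4

theorem kQ_mul {A B : (Matrix n n (Lau S))ˣ} {M M' : ℕ} (hA : LA A ≤ L S n (-M))
    (hB : LA B ≤ L S n (-M')) (hAB : LA (A * B) ≤ L S n (-(M + M' : ℕ))) :
    kQ (A * B) (M + M') hAB = kQ A M hA + kQ B M' hB := by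
  have := finiteQ hA
  have := projectiveQ hA
  have := finiteQ hB
  have := projectiveQ hB
  have := finiteQ hAB
  have := projectiveQ hAB
  have h5 : -((M + M' : ℕ) : ℤ) + M = -M' := by push_cast; ring
  have h6 : -(M' : ℤ) + -M = -((M + M' : ℕ) : ℤ) := by push_cast; ring
  have hB' : ∀ v, v ∈ L S n (-M) → v ᵥ* (B : Matrix n n (Lau S)) ∈ L S n (-(M + M' : ℕ)) := by
    intro v hv
    have h1 := sh_mem (c := M) hv
    rw [neg_add_cancel] at h1
    have h2 := hB (vecMul_mem_LA.2 h1)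
    rw [sh_vecMul] at h2
    have h3 := sh_mem (c := -M) h2
    rwa [sh_sh, neg_add_cancel, sh_zero, h6] at h3
  let i : Q A M →ₗ[S] Q (A * B) (M + M') := (KQ A M).mapQ (KQ (A * B) (M + M'))
    ((mulL (B : Matrix n n (Lau S))).restrict hB') (by
      intro v hv
      change (v : n → Lau S) ᵥ* (B : Matrix n n (Lau S)) ∈ LA (A * B)
      rw [mem_LA_mul, vmul_inv]
      exact hv)
  let p : Q (A * B) (M + M') →ₗ[S] Q B M' := (KQ (A * B) (M + M')).mapQ (KQ B M')
    ((sh S n M).restrict (p := L S n (-(M + M' : ℕ))) (q := L S n (-M')) (fun v hv => by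
      rw [← h5]; exact sh_mem hv)) (by
      intro v hv
      change sh S n M (v : n → Lau S) ∈ LA B
      rw [mem_LA, sh_vecMul]
      have h1 := hA (mem_LA_mul.1 hv)
      have h2 := sh_mem (c := M) h1
      rwa [neg_add_cancel] at h2)
  have hi : ∀ v : L S n (-M), i (Submodule.Quotient.mk v) =
      Submodule.Quotient.mk ⟨(v : n → Lau S) ᵥ* (B : Matrix n n (Lau S)), hB' v v.2⟩ :=
    fun v => rfl
  have hsh : ∀ v : n → Lau S, v ∈ L S n (-(M + M' : ℕ)) → sh S n M v ∈ L S n (-M') := by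
    intro v hv
    rw [← h5]; exact sh_mem hv
  have hp : ∀ v : L S n (-(M + M' : ℕ)), p (Submodule.Quotient.mk v) =
      Submodule.Quotient.mk ⟨sh S n M (v : n → Lau S), hsh v v.2⟩ := fun v => rfl
  clear_value i p
  refine kmod_exact (F := Q (A * B) (M + M')) (M := Q A M) (N := Q B M') i p ?_ ?_ ?_ ?_
  · rw [← LinearMap.ker_eq_bot, LinearMap.ker_eq_bot']
    intro x hx
    obtain ⟨v, rfl⟩ := Submodule.Quotient.mk_surjective _ x
    refine (mk_eq_zero v).2 ?_
    rw [hi] at hx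
    have h0 := (mk_eq_zero (A := A * B) (M := M + M') _).1 hx
    have h1 : (v : n → Lau S) ᵥ* (B : Matrix n n (Lau S)) ∈ LA (A * B) := h0
    rwa [mem_LA_mul, vmul_inv] at h1
  · intro y
    obtain ⟨w, rfl⟩ := Submodule.Quotient.mk_surjective _ y
    have h7 : sh S n (-M) (w : n → Lau S) ∈ L S n (-(M + M' : ℕ)) := by
      rw [← h6]; exact sh_mem w.2
    refine ⟨Submodule.Quotient.mk ⟨sh S n (-M) w, h7⟩, (hp _).trans (mk_congr B M' ?_)⟩
    have h8 : sh S n M (sh S n (-M) (w : n → Lau S)) = w := by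
      rw [sh_sh, add_neg_cancel, sh_zero]
    exact h8
  · intro x
    obtain ⟨v, rfl⟩ := Submodule.Quotient.mk_surjective _ x
    rw [hi, hp]
    refine (mk_eq_zero (A := B) (M := M') _).2 ?_
    change sh S n M ((v : n → Lau S) ᵥ* (B : Matrix n n (Lau S))) ∈ LA B
    rw [← sh_vecMul, vecMul_mem_LA]
    have h1 := sh_mem (c := M) v.2
    rwa [neg_add_cancel] at h1
  · intro y hy
    obtain ⟨v, rfl⟩ := Submodule.Quotient.mk_surjective _ y
    rw [hp] at hy
    have h0 := (mk_eq_zero (A := B) (M := M') _).1 hy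
    have h1 : sh S n M (v : n → Lau S) ∈ LA B := h0
    rw [mem_LA, sh_vecMul] at h1
    have h2 : (v : n → Lau S) ᵥ* ((B⁻¹ : (Matrix n n (Lau S))ˣ) : Matrix n n (Lau S)) ∈
        L S n (-M) := by
      have h3 := sh_mem (c := -M) h1
      rwa [sh_sh, neg_add_cancel, sh_zero, zero_add] at h3
    exact ⟨Submodule.Quotient.mk ⟨_, h2⟩, (hi _).trans
      (mk_congr (A * B) (M + M') (vinv_mul B v))⟩

theorem dd_mul (A B : (Matrix n n (Lau S))ˣ) : dd (A * B) = dd A + dd B := by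
  obtain ⟨M, hA⟩ := exists_le A
  obtain ⟨M', hB⟩ := exists_le B
  have hAB := LA_mul_le hA hB
  rw [dd_eq hA, dd_eq hB, dd_eq hAB, kQ_mul hA hB hAB, add_nsmul]
  abel

theorem dd_one : dd (1 : (Matrix n n (Lau S))ˣ) = 0 := by
  have h := dd_mul (1 : (Matrix n n (Lau S))ˣ) 1
  rw [mul_one] at h
  exact left_eq_add.1 h

theorem mem_LA_bl {A : (Matrix n n (Lau S))ˣ} {B : (Matrix m m (Lau S))ˣ} {v : n ⊕ m → Lau S} :
    v ∈ LA (bl A B) ↔ (fun j => v (Sum.inl j)) ∈ LA A ∧ (fun j => v (Sum.inr j)) ∈ LA B := by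
  have h0 : v ᵥ* (((bl A B)⁻¹ : (Matrix (n ⊕ m) (n ⊕ m) (Lau S))ˣ) :
      Matrix (n ⊕ m) (n ⊕ m) (Lau S)) =
      Sum.elim ((fun j => v (Sum.inl j)) ᵥ* ((A⁻¹ : (Matrix n n (Lau S))ˣ) : Matrix n n (Lau S)))
        ((fun j => v (Sum.inr j)) ᵥ* ((B⁻¹ : (Matrix m m (Lau S))ˣ) : Matrix m m (Lau S))) := by
    have h1 : v = Sum.elim (fun j => v (Sum.inl j)) (fun j => v (Sum.inr j)) := by
      funext j; rcases j with j | j <;> rfl
    have h2 : (((bl A B)⁻¹ : (Matrix (n ⊕ m) (n ⊕ m) (Lau S))ˣ) :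
      Matrix (n ⊕ m) (n ⊕ m) (Lau S)) = fromBlocks
        ((A⁻¹ : (Matrix n n (Lau S))ˣ) : Matrix n n (Lau S)) 0 0
        ((B⁻¹ : (Matrix m m (Lau S))ˣ) : Matrix m m (Lau S)) := rfl
    conv_lhs => rw [h1, h2]
    rw [Matrix.vecMul_fromBlocks]
    simp only [Matrix.vecMul_zero, add_zero, zero_add, Sum.elim_comp_inl, Sum.elim_comp_inr]
  rw [mem_LA, mem_LA, mem_LA, h0]
  constructor
  · intro h
    exact ⟨fun j => h (Sum.inl j), fun j => h (Sum.inr j)⟩
  · rintro ⟨h1, h2⟩ j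
    rcases j with j | j
    · exact h1 j
    · exact h2 j

theorem kQ_bl {A : (Matrix n n (Lau S))ˣ} {B : (Matrix m m (Lau S))ˣ} {M : ℕ}
    (hA : LA A ≤ L S n (-M)) (hB : LA B ≤ L S m (-M)) (hAB : LA (bl A B) ≤ L S (n ⊕ m) (-M)) :
    kQ (bl A B) M hAB = kQ A M hA + kQ B M hB := by
  have := finiteQ hA
  have := projectiveQ hA
  have := finiteQ hB
  have := projectiveQ hB
  have := finiteQ hAB
  have := projectiveQ hAB
  let i0 : (n → Lau S) →ₗ[S] (n ⊕ m → Lau S) :=
    { toFun := fun v => Sum.elim v 0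
      map_add' := fun v w => by funext j; rcases j with j | j <;> simp
      map_smul' := fun s v => by funext j; rcases j with j | j <;> simp }
  let p0 : (n ⊕ m → Lau S) →ₗ[S] (m → Lau S) := LinearMap.funLeft S (Lau S) Sum.inr
  let i : Q A M →ₗ[S] Q (bl A B) M := (KQ A M).mapQ (KQ (bl A B) M)
    (i0.restrict (p := L S n (-M)) (q := L S (n ⊕ m) (-M)) (fun v hv j => by
      rcases j with j | j
      · exact hv j
      · exact sup_zero _)) (by
      intro v hv
      change Sum.elim (v : n → Lau S) 0 ∈ LA (bl A B)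
      exact mem_LA_bl.2 ⟨hv, Submodule.zero_mem _⟩)
  let p : Q (bl A B) M →ₗ[S] Q B M := (KQ (bl A B) M).mapQ (KQ B M)
    (p0.restrict (p := L S (n ⊕ m) (-M)) (q := L S m (-M)) (fun v hv j => hv (Sum.inr j))) (by
      intro v hv
      exact (mem_LA_bl.1 hv).2)
  have hi0 : ∀ v, v ∈ L S n (-M) → (Sum.elim v 0 : n ⊕ m → Lau S) ∈ L S (n ⊕ m) (-M) := by
    intro v hv j
    rcases j with j | j
    · exact hv j
    · exact sup_zero _
  have hi : ∀ v : L S n (-M), i (Submodule.Quotient.mk v) =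
      Submodule.Quotient.mk ⟨Sum.elim (v : n → Lau S) 0, hi0 v v.2⟩ := fun v => rfl
  have hp : ∀ v : L S (n ⊕ m) (-M), p (Submodule.Quotient.mk v) =
      Submodule.Quotient.mk ⟨fun j => (v : n ⊕ m → Lau S) (Sum.inr j), fun j => v.2 (Sum.inr j)⟩ :=
    fun v => rfl
  clear_value i p
  refine kmod_exact (F := Q (bl A B) M) (M := Q A M) (N := Q B M) i p ?_ ?_ ?_ ?_
  · rw [← LinearMap.ker_eq_bot, LinearMap.ker_eq_bot']
    intro x hx
    obtain ⟨v, rfl⟩ := Submodule.Quotient.mk_surjective _ x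
    refine (mk_eq_zero v).2 ?_
    rw [hi] at hx
    have h0 := (mk_eq_zero (A := bl A B) (M := M) _).1 hx
    have h1 : (Sum.elim (v : n → Lau S) 0 : n ⊕ m → Lau S) ∈ LA (bl A B) := h0
    exact (mem_LA_bl.1 h1).1
  · intro y
    obtain ⟨w, rfl⟩ := Submodule.Quotient.mk_surjective _ y
    have h3 : (Sum.elim 0 (w : m → Lau S) : n ⊕ m → Lau S) ∈ L S (n ⊕ m) (-M) := by
      intro j
      rcases j with j | j
      · exact sup_zero _
      · exact w.2 j
    exact ⟨Submodule.Quotient.mk ⟨Sum.elim 0 w, h3⟩, (hp _).trans (mk_congr B M rfl)⟩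
  · intro x
    obtain ⟨v, rfl⟩ := Submodule.Quotient.mk_surjective _ x
    rw [hi, hp]
    exact (mk_eq_zero (A := B) (M := M) _).2 (Submodule.zero_mem _)
  · intro y hy
    obtain ⟨v, rfl⟩ := Submodule.Quotient.mk_surjective _ y
    rw [hp] at hy
    have h0 := (mk_eq_zero (A := B) (M := M) _).1 hy
    have h1 : (fun j => (v : n ⊕ m → Lau S) (Sum.inr j)) ∈ LA B := h0
    have h2 : (Sum.elim (fun j => (v : n ⊕ m → Lau S) (Sum.inl j)) 0 : n ⊕ m → Lau S) -
        (v : n ⊕ m → Lau S) ∈ LA (bl A B) := by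
      rw [mem_LA_bl]
      constructor
      · have h3 : (fun j => ((Sum.elim (fun j => (v : n ⊕ m → Lau S) (Sum.inl j)) 0 :
            n ⊕ m → Lau S) - (v : n ⊕ m → Lau S)) (Sum.inl j)) = (0 : n → Lau S) := by
          funext j; simp
        rw [h3]
        exact Submodule.zero_mem _
      · have h3 : (fun j => ((Sum.elim (fun j => (v : n ⊕ m → Lau S) (Sum.inl j)) 0 :
            n ⊕ m → Lau S) - (v : n ⊕ m → Lau S)) (Sum.inr j)) =
            -(fun j => (v : n ⊕ m → Lau S) (Sum.inr j)) := by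
          funext j; simp
        rw [h3]
        exact Submodule.neg_mem _ h1
    exact ⟨Submodule.Quotient.mk ⟨fun j => (v : n ⊕ m → Lau S) (Sum.inl j),
      fun j => v.2 (Sum.inl j)⟩, (hi _).trans (mk_eq_mk h2)⟩

theorem fr_sum : fr S (n ⊕ m) = fr S n + fr S m := by
  unfold fr
  rw [kmod_congr (LinearEquiv.sumArrowLequivProdArrow n m S S), kmod_prod]

theorem dd_bl (A : (Matrix n n (Lau S))ˣ) (B : (Matrix m m (Lau S))ˣ) :
    dd (bl A B) = dd A + dd B := by
  obtain ⟨M1, hA1⟩ := exists_le A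
  obtain ⟨M2, hB2⟩ := exists_le B
  have hA : LA A ≤ L S n (-(M1 + M2 : ℕ)) := hA1.trans (L_mono (by push_cast; omega))
  have hB : LA B ≤ L S m (-(M1 + M2 : ℕ)) := hB2.trans (L_mono (by push_cast; omega))
  have hAB : LA (bl A B) ≤ L S (n ⊕ m) (-(M1 + M2 : ℕ)) := by
    intro v hv j
    rw [mem_LA_bl] at hv
    rcases j with j | j
    · exact hA hv.1 j
    · exact hB hv.2 j
  rw [dd_eq hA, dd_eq hB, dd_eq hAB, kQ_bl hA hB hAB, fr_sum, smul_add]
  abel

theorem mem_LA_rU {A : (Matrix n n (Lau S))ˣ} (σ : n ≃ m) {v : m → Lau S} :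
    v ∈ LA (rU σ A) ↔ (fun j => v (σ j)) ∈ LA A := by
  have h0 : ∀ j, (v ᵥ* (((rU σ A)⁻¹ : (Matrix m m (Lau S))ˣ) : Matrix m m (Lau S))) (σ j) =
      ((fun j => v (σ j)) ᵥ* ((A⁻¹ : (Matrix n n (Lau S))ˣ) : Matrix n n (Lau S))) j := by
    intro j
    have h2 : (((rU σ A)⁻¹ : (Matrix m m (Lau S))ˣ) : Matrix m m (Lau S)) =
      ((A⁻¹ : (Matrix n n (Lau S))ˣ) : Matrix n n (Lau S)).submatrix σ.symm σ.symm := rfl
    rw [h2]
    simp only [Matrix.vecMul, dotProduct, Matrix.submatrix_apply, Equiv.symm_apply_apply]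
    exact (Equiv.sum_comp σ (fun i => v i * ((A⁻¹ : (Matrix n n (Lau S))ˣ) :
      Matrix n n (Lau S)) (σ.symm i) j)).symm.trans (by simp)
  rw [mem_LA, mem_LA]
  constructor
  · intro h j
    rw [← h0]
    exact h (σ j)
  · intro h j
    obtain ⟨j, rfl⟩ := σ.surjective j
    rw [h0]
    exact h j

theorem dd_rU (A : (Matrix n n (Lau S))ˣ) (σ : n ≃ m) : dd (rU σ A) = dd A := by
  obtain ⟨M, hA⟩ := exists_le A
  have hA' : LA (rU σ A) ≤ L S m (-M) := by
    intro v hv j
    obtain ⟨j, rfl⟩ := σ.surjective j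
    exact hA ((mem_LA_rU σ).1 hv) j
  rw [dd_eq hA, dd_eq hA']
  have hfr : fr S m = fr S n := kmod_congr (LinearEquiv.funCongrLeft S S σ)
  have := finiteQ hA
  have := projectiveQ hA
  have := finiteQ hA'
  have := projectiveQ hA'
  let f0 : L S m (-M) ≃ₗ[S] L S n (-M) := LinearEquiv.ofLinearMap
    ((LinearMap.funLeft S (Lau S) σ).restrict (p := L S m (-M)) (q := L S n (-M))
      (fun v hv j => hv (σ j)))
    ((LinearMap.funLeft S (Lau S) σ.symm).restrict (p := L S n (-M)) (q := L S m (-M))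
      (fun v hv j => hv (σ.symm j)))
    (by
      apply LinearMap.ext
      intro v
      apply Subtype.ext
      funext j
      change (v : n → Lau S) (σ.symm (σ j)) = (v : n → Lau S) j
      rw [Equiv.symm_apply_apply])
    (by
      apply LinearMap.ext
      intro v
      apply Subtype.ext
      funext j
      change (v : m → Lau S) (σ (σ.symm j)) = (v : m → Lau S) j
      rw [Equiv.apply_symm_apply])
  have hk : kQ (rU σ A) M hA' = kQ A M hA := by
    refine kmod_congr (M := Q (rU σ A) M) (N := Q A M)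
      (Submodule.Quotient.equiv (KQ (rU σ A) M) (KQ A M) f0 ?_)
    ext v
    rw [Submodule.mem_map]
    constructor
    · rintro ⟨w, hw, rfl⟩
      exact (mem_LA_rU σ).1 hw
    · intro hv
      refine ⟨f0.symm v, ?_, by simp⟩
      refine (mem_LA_rU σ).2 ?_
      have h1 : (fun j => ((f0.symm v : L S m (-M)) : m → Lau S) (σ j)) = (v : n → Lau S) := by
        funext j
        change (v : n → Lau S) (σ.symm (σ j)) = (v : n → Lau S) j
        rw [Equiv.symm_apply_apply]
      have h2 : (fun j => ((f0.symm v : L S m (-M)) : m → Lau S) (σ j)) ∈ LA A := by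
        rw [h1]
        exact hv
      exact h2
  rw [hk, hfr]

/-- the boundary as a homomorphism on `GL_k` -/
noncomputable def ddHom (k : ℕ) : (Matrix (Fin k) (Fin k) (Lau S))ˣ →* Multiplicative (KZero S) where
  toFun A := Multiplicative.ofAdd (dd A)
  map_one' := by rw [dd_one]; rfl
  map_mul' A B := by rw [dd_mul]; rfl

/-- The boundary map `K₁(S[t, t⁻¹]) → K₀(S)`. -/
noncomputable def del (S : Type u) [Ring S] : KOne (Lau S) →+ KZero S :=
  KOne.desc (Omega.lift (stabHom (Lau S)) (fun k => ddHom k) (by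
    intro k A
    change Multiplicative.ofAdd (dd (rU finSumFinEquiv (bl A 1))) = Multiplicative.ofAdd (dd A)
    rw [dd_rU, dd_bl, dd_one, add_zero]))

theorem del_kf (k : ℕ) (A : (Matrix (Fin k) (Fin k) (Lau S))ˣ) : del S (kf k A) = dd A := rfl

theorem del_k1 (A : (Matrix n n (Lau S))ˣ) : del S (k1 A) = dd A := by
  unfold k1
  rw [del_kf, dd_rU]

end Pool.Agent.Lib.MP_c052b4_al.Bdry
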