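import Pool.Agent.Lib.MP_c052b4_al.KZero

/-!
# Stably induced idempotent matrices
-/

set_option autoImplicit false

namespace Pool.Agent.Lib.MP_c052b4_al

open Matrix

universe u v w

namespace KZero

variable {S : Type u} [Ring S]

/-- The class in `K₀` of an idempotent matrix with arbitrary finite index type. -/
noncomputable def kc {m : Type*} [Fintype m] (e : Matrix m m S) (he : e * e = e) : KZero S :=
  cls (IdemMat.ofMatrix e he)

theorem cls_eq_of_mvN {p q : IdemMat S} (h : MvN p.mat q.mat) : cls p = cls q := by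
  unfold cls
  rw [VMon.mk_eq_mk.2 h]

theorem kc_eq_of_mvN {m n : Type*} [Fintype m] [Fintype n] {e : Matrix m m S} {f : Matrix n n S}
    (he : e * e = e) (hf : f * f = f) (h : MvN e f) : kc e he = kc f hf := by
  apply cls_eq_of_mvN
  exact MvN.trans (IdemMat.idem _) (IdemMat.idem _)
    (MvN.trans (IdemMat.idem _) hf (IdemMat.ofMatrix_mvN e he) h) (IdemMat.ofMatrix_mvN f hf).symm

theorem cls_eq_kc (p : IdemMat S) : cls p = kc p.mat p.idem :=
  cls_eq_of_mvN (IdemMat.ofMatrix_mvN p.mat p.idem).symm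

theorem kc_blocks {m n : Type*} [Fintype m] [Fintype n] {e : Matrix m m S} {f : Matrix n n S}
    (he : e * e = e) (hf : f * f = f) :
    kc (fromBlocks e 0 0 f) (blocks_idem he hf) = kc e he + kc f hf := by
  have h1 : kc e he + kc f hf =
      cls ((IdemMat.ofMatrix e he).add (IdemMat.ofMatrix f hf)) := by
    unfold kc cls
    rw [← map_add, VMon.mk_add_mk]
  rw [h1]
  apply cls_eq_of_mvN
  refine MvN.trans (IdemMat.idem _) (IdemMat.idem _)
    (IdemMat.ofMatrix_mvN _ (blocks_idem he hf)) ?_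
  refine MvN.trans (blocks_idem he hf) (IdemMat.idem _) ?_ (IdemMat.add_mvN _ _).symm
  exact MvN.blocks (IdemMat.ofMatrix_mvN e he).symm (IdemMat.ofMatrix_mvN f hf).symm

theorem kc_zero {m : Type*} [Fintype m] :
    kc (0 : Matrix m m S) (by simp) = 0 := by
  have h : MvN (fromBlocks (0 : Matrix m m S) 0 0 (0 : Matrix m m S)) (0 : Matrix m m S) :=
    MvN.blocks_zero (by simp)
  have h1 := kc_eq_of_mvN (blocks_idem (by simp) (by simp)) (by simp) h
  rw [kc_blocks (by simp) (by simp)] at h1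
  simpa using h1

theorem kc_map {T : Type v} [Ring T] (φ : S →+* T) {m : Type*} [Fintype m]
    (e : Matrix m m S) (he : e * e = e) :
    map φ (kc e he) = kc (e.map φ) (map_idem he φ) := by
  unfold kc
  rw [map_cls]
  rfl

theorem kc_compl {m : Type*} [Fintype m] [DecidableEq m] {e : Matrix m m S} (he : e * e = e)
    (he' : (1 - e) * (1 - e) = 1 - e) :
    kc e he + kc (1 - e) he' = kc (1 : Matrix m m S) (by simp) := by
  rw [← kc_blocks]
  exact kc_eq_of_mvN _ _ (MvN.compl he)

theorem one_sub_idem {m : Type*} [Fintype m] [DecidableEq m] {e : Matrix m m S}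
    (he : e * e = e) : (1 - e) * (1 - e) = 1 - e := by
  have h2 : (1 - e) * e = 0 := by rw [sub_mul, he, one_mul, sub_self]
  rw [mul_sub, h2, mul_one, sub_zero]

theorem map_one_mat {T : Type v} [Ring T] (φ : S →+* T) (m : Type*) [Fintype m] [DecidableEq m] :
    (1 : Matrix m m S).map φ = 1 := by
  rw [Matrix.map_one _ (map_zero φ) (map_one φ)]

/-- auxiliary rearrangement -/
theorem aux_key (r : IdemMat S) {m : Type*} [Fintype m] {e : Matrix m m S} (he : e * e = e) :
    MvN (fromBlocks e 0 0 (1 : Matrix (Fin r.size) (Fin r.size) S))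
      (fromBlocks (1 - r.mat) 0 0 (r.add (IdemMat.ofMatrix e he)).mat) := by
  have hr' := one_sub_idem r.idem
  have h1 : MvN (fromBlocks e 0 0 (1 : Matrix (Fin r.size) (Fin r.size) S))
      (fromBlocks e 0 0 (fromBlocks r.mat 0 0 (1 - r.mat))) :=
    MvN.blocks (MvN.refl he) (MvN.compl r.idem).symm
  have h2 : MvN (fromBlocks e 0 0 (fromBlocks r.mat 0 0 (1 - r.mat)))
      (fromBlocks (fromBlocks r.mat 0 0 (1 - r.mat)) 0 0 e) :=
    MvN.blocks_comm he (blocks_idem r.idem hr')
  have h3 : MvN (fromBlocks (fromBlocks r.mat 0 0 (1 - r.mat)) 0 0 e)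
      (fromBlocks (fromBlocks (1 - r.mat) 0 0 r.mat) 0 0 e) :=
    MvN.blocks (MvN.blocks_comm r.idem hr') (MvN.refl he)
  have h4 : MvN (fromBlocks (fromBlocks (1 - r.mat) 0 0 r.mat) 0 0 e)
      (fromBlocks (1 - r.mat) 0 0 (fromBlocks r.mat 0 0 e)) :=
    MvN.blocks_assoc hr' r.idem he
  have h5 : MvN (fromBlocks (1 - r.mat) 0 0 (fromBlocks r.mat 0 0 e))
      (fromBlocks (1 - r.mat) 0 0 (r.add (IdemMat.ofMatrix e he)).mat) := by
    refine MvN.blocks (MvN.refl hr') ?_
    refine MvN.trans (blocks_idem r.idem he) (IdemMat.idem _) ?_ (IdemMat.add_mvN _ _).symm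
    exact MvN.blocks (MvN.refl r.idem) (IdemMat.ofMatrix_mvN e he).symm
  have i0 := blocks_idem he (show (1 : Matrix (Fin r.size) (Fin r.size) S) * 1 = 1 by simp)
  have i5 := blocks_idem hr' (IdemMat.idem (r.add (IdemMat.ofMatrix e he)))
  exact MvN.trans i0 i5 (MvN.trans i0 (blocks_idem hr' (blocks_idem r.idem he))
    (MvN.trans i0 (blocks_idem (blocks_idem hr' r.idem) he) (MvN.trans i0
      (blocks_idem (blocks_idem r.idem hr') he) h1 h2) h3) h4) h5

/-- Equality of classes in `K₀`: stable equivalence. -/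
theorem kc_eq_kc_iff {m n : Type*} [Fintype m] [Fintype n] {e : Matrix m m S} {f : Matrix n n S}
    (he : e * e = e) (hf : f * f = f) :
    kc e he = kc f hf ↔ ∃ k : ℕ, MvN (fromBlocks e 0 0 (1 : Matrix (Fin k) (Fin k) S))
      (fromBlocks f 0 0 (1 : Matrix (Fin k) (Fin k) S)) := by
  constructor
  · intro h
    obtain ⟨c, hc⟩ := of_eq_of.1 h
    obtain ⟨r, rfl⟩ : ∃ r, VMon.mk r = c := Quotient.exists_rep c
    rw [VMon.mk_add_mk, VMon.mk_add_mk, VMon.mk_eq_mk] at hc
    refine ⟨r.size, ?_⟩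
    have hr' := one_sub_idem r.idem
    have h1 := aux_key r he
    have h2 := aux_key r hf
    have i1 := blocks_idem he (show (1 : Matrix (Fin r.size) (Fin r.size) S) * 1 = 1 by simp)
    have i2 := blocks_idem hf (show (1 : Matrix (Fin r.size) (Fin r.size) S) * 1 = 1 by simp)
    refine MvN.trans i1 i2 (MvN.trans i1 (blocks_idem hr' (IdemMat.idem _)) h1 ?_) h2.symm
    exact MvN.blocks (MvN.refl hr') hc
  · rintro ⟨k, hk⟩
    have h := kc_eq_of_mvN (blocks_idem he (by simp)) (blocks_idem hf (by simp)) hk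
    rw [kc_blocks he (by simp), kc_blocks hf (by simp)] at h
    exact add_right_cancel h

end KZero

/-- An idempotent matrix `e` over `T` is stably induced from `S` along `φ : S → T` if
`e ⊕ φ(p)` is equivalent to `φ(q)` for some idempotent matrices `p`, `q` over `S`. -/
def StabInd {S : Type u} {T : Type v} [Ring S] [Ring T] (φ : S →+* T) {m : Type*} [Fintype m]
    (e : Matrix m m T) : Prop :=
  ∃ p q : IdemMat S, MvN (fromBlocks e 0 0 (p.mat.map φ)) (q.mat.map φ)

section StabInd

variable {S : Type u} {T : Type v} [Ring S] [Ring T] (φ : S →+* T)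

theorem stabInd_iff {m : Type*} [Fintype m] {e : Matrix m m T} (he : e * e = e) :
    StabInd φ e ↔ KZero.kc e he ∈ (KZero.map φ).range := by
  constructor
  · rintro ⟨p, q, h⟩
    have h1 := KZero.kc_eq_of_mvN (blocks_idem he (map_idem p.idem φ)) (map_idem q.idem φ) h
    rw [KZero.kc_blocks he (map_idem p.idem φ), ← KZero.kc_map φ _ p.idem,
      ← KZero.kc_map φ _ q.idem] at h1
    refine ⟨KZero.kc q.mat q.idem - KZero.kc p.mat p.idem, ?_⟩
    rw [map_sub, ← h1]; abel
  · rintro ⟨x, hx⟩
    obtain ⟨a, b, rfl⟩ := KZero.exists_sub x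
    rw [KZero.cls_eq_kc, KZero.cls_eq_kc, map_sub, KZero.kc_map, KZero.kc_map] at hx
    have h1 : KZero.kc (fromBlocks e 0 0 (b.mat.map φ)) (blocks_idem he (map_idem b.idem φ)) =
        KZero.kc (a.mat.map φ) (map_idem a.idem φ) := by
      rw [KZero.kc_blocks he (map_idem b.idem φ), ← hx]; abel
    obtain ⟨k, hk⟩ := (KZero.kc_eq_kc_iff _ _).1 h1
    refine ⟨b.add (IdemMat.one S k), a.add (IdemMat.one S k), ?_⟩
    have h2 : ∀ c : IdemMat S, MvN ((c.add (IdemMat.one S k)).mat.map φ)
        (fromBlocks (c.mat.map φ) 0 0 (1 : Matrix (Fin k) (Fin k) T)) := by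
      intro c
      have := MvN.map (c.add_mvN (IdemMat.one S k)) φ
      rw [VMon.map_add_blocks] at this
      have h3 : (IdemMat.one S k).mat.map φ = (1 : Matrix (Fin k) (Fin k) T) :=
        KZero.map_one_mat φ (Fin k)
      rw [← h3]
      exact this
    have i1 : (1 : Matrix (Fin k) (Fin k) T) * 1 = 1 := by simp
    have hb := map_idem b.idem φ
    have ha := map_idem a.idem φ
    have hb' := map_idem (b.add (IdemMat.one S k)).idem φ
    have ha' := map_idem (a.add (IdemMat.one S k)).idem φ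
    have h4 : MvN (fromBlocks e 0 0 ((b.add (IdemMat.one S k)).mat.map φ))
        (fromBlocks e 0 0 (fromBlocks (b.mat.map φ) 0 0 (1 : Matrix (Fin k) (Fin k) T))) :=
      MvN.blocks (MvN.refl he) (h2 b)
    have h5 := (MvN.blocks_assoc he hb i1).symm
    exact MvN.trans (blocks_idem he hb') ha'
      (MvN.trans (blocks_idem he hb') (blocks_idem ha i1)
        (MvN.trans (blocks_idem he hb') (blocks_idem (blocks_idem he hb) i1) h4 h5) hk)
      (h2 a).symm

theorem map_surjective_iff :
    Function.Surjective (KZero.map φ) ↔ ∀ p : IdemMat T, StabInd φ p.mat := by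
  constructor
  · intro h p
    rw [stabInd_iff φ p.idem]
    exact h _
  · intro h x
    obtain ⟨p, q, rfl⟩ := KZero.exists_sub x
    have hp := (stabInd_iff φ p.idem).1 (h p)
    have hq := (stabInd_iff φ q.idem).1 (h q)
    rw [← KZero.cls_eq_kc] at hp hq
    exact (KZero.map φ).range.sub_mem hp hq

theorem StabInd.of_surjective (h : Function.Surjective (KZero.map φ)) {m : Type*} [Fintype m]
    {e : Matrix m m T} (he : e * e = e) : StabInd φ e :=
  (stabInd_iff φ he).2 (h _)

theorem map_surjective_of_forall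
    (h : ∀ (n : ℕ) (e : Matrix (Fin n) (Fin n) T), e * e = e → StabInd φ e) :
    Function.Surjective (KZero.map φ) :=
  (map_surjective_iff φ).2 fun p => h _ p.mat p.idem

variable {φ}

theorem StabInd.congr {m n : Type*} [Fintype m] [Fintype n] {e : Matrix m m T}
    {f : Matrix n n T} (he : e * e = e) (hf : f * f = f) (h : MvN e f) (h1 : StabInd φ e) :
    StabInd φ f := by
  rw [stabInd_iff φ he] at h1
  rw [stabInd_iff φ hf]
  rwa [← KZero.kc_eq_of_mvN he hf h]

theorem StabInd.map {U : Type*} [Ring U] (ψ : T →+* U) {m : Type*} [Fintype m]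
    {e : Matrix m m T} (h : StabInd φ e) : StabInd (ψ.comp φ) (e.map ψ) := by
  obtain ⟨p, q, h⟩ := h
  refine ⟨p, q, ?_⟩
  have := MvN.map h ψ
  rw [VMon.map_add_blocks] at this
  simpa [Matrix.map_map] using this

theorem StabInd.comp {U : Type*} [Ring U] {ψ : T →+* U} {m : Type*} [Fintype m]
    {e : Matrix m m U} (he : e * e = e) (h : StabInd ψ e)
    (hφ : Function.Surjective (KZero.map φ)) : StabInd (ψ.comp φ) e := by
  obtain ⟨p, q, h⟩ := h
  have h1 := KZero.kc_eq_of_mvN (blocks_idem he (map_idem p.idem ψ)) (map_idem q.idem ψ) h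
  rw [KZero.kc_blocks he (map_idem p.idem ψ)] at h1
  rw [stabInd_iff _ he]
  have hp := (stabInd_iff φ p.idem).2 (hφ _)
  have hq := (stabInd_iff φ q.idem).2 (hφ _)
  have hp' := (stabInd_iff _ (map_idem p.idem ψ)).1 (hp.map ψ)
  have hq' := (stabInd_iff _ (map_idem q.idem ψ)).1 (hq.map ψ)
  have : KZero.kc e he = KZero.kc (q.mat.map ψ) (map_idem q.idem ψ) -
    KZero.kc (p.mat.map ψ) (map_idem p.idem ψ) := by rw [← h1]; abel
  rw [this]
  exact AddSubgroup.sub_mem _ hq' hp'

theorem KZero.map_comp {U : Type*} [Ring U] (ψ : T →+* U) (φ : S →+* T) (x : KZero S) :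
    KZero.map (ψ.comp φ) x = KZero.map ψ (KZero.map φ x) := by
  obtain ⟨p, q, rfl⟩ := KZero.exists_sub x
  simp only [map_sub, KZero.map_cls]
  rfl

theorem KZero.map_id (x : KZero S) : KZero.map (RingHom.id S) x = x := by
  obtain ⟨p, q, rfl⟩ := KZero.exists_sub x
  simp only [map_sub, KZero.map_cls]
  have : ∀ p : IdemMat S, p.map (RingHom.id S) = p := by
    intro p
    cases p
    simp [IdemMat.map]
  rw [this, this]

theorem KZero.map_surjective_comp {U : Type*} [Ring U] {ψ : T →+* U}
    (hφ : Function.Surjective (KZero.map φ)) (hψ : Function.Surjective (KZero.map ψ)) :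
    Function.Surjective (KZero.map (ψ.comp φ)) := by
  intro x
  obtain ⟨y, rfl⟩ := hψ x
  obtain ⟨z, rfl⟩ := hφ y
  exact ⟨z, KZero.map_comp _ _ _⟩

theorem KZero.map_injective_of_leftInverse {ψ : T →+* S} (h : ψ.comp φ = RingHom.id S) :
    Function.Injective (KZero.map φ) := by
  intro x y hxy
  have := congrArg (KZero.map ψ) hxy
  rwa [← KZero.map_comp, ← KZero.map_comp, h, KZero.map_id, KZero.map_id] at this

end StabInd

end Pool.Agent.Lib.MP_c052b4_al
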