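import Mathlib

/-!
# The Grothendieck group `K₀` of a (noncommutative) ring via idempotent matrices
-/

set_option autoImplicit false

namespace Pool.Agent.Lib.MP_c052b4_al

open Matrix

universe u v w

/-- Two square matrices over `S`, possibly of different sizes, are algebraically
(Murray-von Neumann) equivalent if `e = x * y` and `f = y * x` for some matrices `x`, `y`.
For idempotent matrices this holds if and only if the projective modules which are their
images are isomorphic. -/
def MvN {S : Type u} [Ring S] {m : Type v} {n : Type w} [Fintype m] [Fintype n]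
    (e : Matrix m m S) (f : Matrix n n S) : Prop :=
  ∃ (x : Matrix m n S) (y : Matrix n m S), x * y = e ∧ y * x = f

section MvN

variable {S : Type u} [Ring S]

theorem MvN.refl {m : Type*} [Fintype m] {e : Matrix m m S} (he : e * e = e) : MvN e e :=
  ⟨e, e, he, he⟩

theorem MvN.symm {m n : Type*} [Fintype m] [Fintype n] {e : Matrix m m S} {f : Matrix n n S}
    (h : MvN e f) : MvN f e := by
  obtain ⟨x, y, h1, h2⟩ := h
  exact ⟨y, x, h2, h1⟩

theorem MvN.trans {l m n : Type*} [Fintype l] [Fintype m] [Fintype n] {e : Matrix l l S}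
    {f : Matrix m m S} {g : Matrix n n S} (he : e * e = e) (hg : g * g = g)
    (h : MvN e f) (h' : MvN f g) : MvN e g := by
  obtain ⟨x, y, rfl, h2⟩ := h
  obtain ⟨z, w, h3, rfl⟩ := h'
  refine ⟨x * z, w * y, ?_, ?_⟩
  · calc x * z * (w * y) = x * (z * w) * y := by simp only [Matrix.mul_assoc]
      _ = x * y * (x * y) := by rw [h3, ← h2]; simp only [Matrix.mul_assoc]
      _ = x * y := he
  · calc w * y * (x * z) = w * (y * x) * z := by simp only [Matrix.mul_assoc]
      _ = w * z * (w * z) := by rw [h2, ← h3]; simp only [Matrix.mul_assoc]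
      _ = w * z := hg

theorem MvN.blocks {m n m' n' : Type*} [Fintype m] [Fintype n] [Fintype m'] [Fintype n']
    {e : Matrix m m S} {f : Matrix n n S} {e' : Matrix m' m' S} {f' : Matrix n' n' S}
    (h : MvN e f) (h' : MvN e' f') :
    MvN (fromBlocks e 0 0 e') (fromBlocks f 0 0 f') := by
  obtain ⟨x, y, rfl, rfl⟩ := h
  obtain ⟨z, w, rfl, rfl⟩ := h'
  refine ⟨fromBlocks x 0 0 z, fromBlocks y 0 0 w, ?_, ?_⟩ <;> simp [fromBlocks_multiply]

theorem MvN.reindex {m n : Type*} [Fintype m] [Fintype n]
    {e : Matrix m m S} (he : e * e = e) (σ : m ≃ n) : MvN e (Matrix.reindex σ σ e) := by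
  classical
  refine ⟨e.submatrix id σ.symm, e.submatrix σ.symm id, ?_, ?_⟩
  · rw [Matrix.submatrix_mul_equiv, he]; rfl
  · have := Matrix.submatrix_mul_equiv e e σ.symm (Equiv.refl _) σ.symm
    simp only [Equiv.coe_refl] at this
    rw [this, he]; rfl

theorem blocks_idem {m n : Type*} [Fintype m] [Fintype n]
    {e : Matrix m m S} {f : Matrix n n S} (he : e * e = e) (hf : f * f = f) :
    fromBlocks e 0 0 f * fromBlocks e 0 0 f = fromBlocks e 0 0 f := by
  simp [fromBlocks_multiply, he, hf]

theorem reindex_idem {m n : Type*} [Fintype m] [Fintype n]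
    {e : Matrix m m S} (he : e * e = e) (σ : m ≃ n) :
    Matrix.reindex σ σ e * Matrix.reindex σ σ e = Matrix.reindex σ σ e := by
  rw [Matrix.reindex_apply, Matrix.submatrix_mul_equiv, he]

theorem MvN.blocks_comm {m n : Type*} [Fintype m] [Fintype n]
    {e : Matrix m m S} {f : Matrix n n S} (he : e * e = e) (hf : f * f = f) :
    MvN (fromBlocks e 0 0 f) (fromBlocks f 0 0 e) := by
  refine ⟨fromBlocks 0 e f 0, fromBlocks 0 f e 0, ?_, ?_⟩ <;>
    simp [fromBlocks_multiply, he, hf]

theorem MvN.blocks_assoc {l m n : Type*} [Fintype l] [Fintype m] [Fintype n]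
    {d : Matrix l l S} {e : Matrix m m S} {f : Matrix n n S}
    (hd : d * d = d) (he : e * e = e) (hf : f * f = f) :
    MvN (fromBlocks (fromBlocks d 0 0 e) 0 0 f) (fromBlocks d 0 0 (fromBlocks e 0 0 f)) := by
  have h := MvN.reindex (blocks_idem (blocks_idem hd he) hf) (Equiv.sumAssoc l m n)
  convert h using 1
  ext i j
  rcases i with i | i | i <;> rcases j with j | j | j <;> simp [fromBlocks]

theorem MvN.blocks_empty {m n : Type*} [Fintype m] [Fintype n] [IsEmpty m]
    {e : Matrix m m S} {f : Matrix n n S} (hf : f * f = f) :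
    MvN (fromBlocks e 0 0 f) f := by
  refine ⟨Matrix.of fun i j => Sum.elim (fun _ => 0) (fun i' => f i' j) i,
    Matrix.of fun i j => Sum.elim (fun _ => 0) (fun j' => f i j') j, ?_, ?_⟩
  · ext i j
    rcases i with i | i
    · exact isEmptyElim i
    · rcases j with j | j
      · exact isEmptyElim j
      · simpa [Matrix.mul_apply] using congrFun (congrFun hf i) j
  · ext i j
    simpa [Matrix.mul_apply] using congrFun (congrFun hf i) j

/-- Zero matrices of arbitrary size do not contribute. -/
theorem MvN.blocks_zero {m n : Type*} [Fintype m] [Fintype n]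
    {f : Matrix n n S} (hf : f * f = f) :
    MvN (fromBlocks (0 : Matrix m m S) 0 0 f) f := by
  refine ⟨Matrix.of fun i j => Sum.elim (fun _ => 0) (fun i' => f i' j) i,
    Matrix.of fun i j => Sum.elim (fun _ => 0) (fun j' => f i j') j, ?_, ?_⟩
  · ext i j
    rcases i with i | i
    · rcases j with j | j <;> simp [Matrix.mul_apply]
    · rcases j with j | j
      · simp [Matrix.mul_apply]
      · simpa [Matrix.mul_apply] using congrFun (congrFun hf i) j
  · ext i j
    simpa [Matrix.mul_apply] using congrFun (congrFun hf i) j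

theorem MvN.map {T : Type*} [Ring T] {m n : Type*} [Fintype m] [Fintype n]
    {e : Matrix m m S} {f : Matrix n n S} (h : MvN e f) (φ : S →+* T) :
    MvN (e.map φ) (f.map φ) := by
  obtain ⟨x, y, rfl, rfl⟩ := h
  exact ⟨x.map φ, y.map φ, by simp [Matrix.map_mul], by simp [Matrix.map_mul]⟩

theorem map_idem {T : Type*} [Ring T] {m : Type*} [Fintype m]
    {e : Matrix m m S} (he : e * e = e) (φ : S →+* T) : e.map φ * e.map φ = e.map φ := by
  rw [← Matrix.map_mul, he]

/-- An idempotent and its complement add up to a free module. -/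
theorem MvN.compl {m : Type*} [Fintype m] [DecidableEq m]
    {e : Matrix m m S} (he : e * e = e) :
    MvN (fromBlocks e 0 0 (1 - e)) (1 : Matrix m m S) := by
  have h1 : e * (1 - e) = 0 := by rw [mul_sub, he, mul_one, sub_self]
  have h2 : (1 - e) * e = 0 := by rw [sub_mul, he, one_mul, sub_self]
  have h3 : (1 - e) * (1 - e) = 1 - e := by rw [mul_sub, h2, mul_one, sub_zero]
  refine ⟨Matrix.fromRows e (1 - e), Matrix.fromCols e (1 - e), ?_, ?_⟩
  · rw [Matrix.fromRows_mul_fromCols, he, h1, h2, h3]
  · rw [Matrix.fromCols_mul_fromRows, he, h3]; abel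

end MvN

/-- An idempotent matrix (of some finite size) over `S`. -/
structure IdemMat (S : Type u) [Ring S] where
  /-- the size -/
  size : ℕ
  /-- the matrix -/
  mat : Matrix (Fin size) (Fin size) S
  /-- it is idempotent -/
  idem : mat * mat = mat

namespace IdemMat

variable {S : Type u} [Ring S]

instance setoid (S : Type u) [Ring S] : Setoid (IdemMat S) where
  r p q := MvN p.mat q.mat
  iseqv := ⟨fun p => MvN.refl p.idem, fun h => h.symm,
    fun {p _ r} h h' => MvN.trans p.idem r.idem h h'⟩

theorem equiv_def (p q : IdemMat S) : p ≈ q ↔ MvN p.mat q.mat := Iff.rfl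

/-- Block sum of idempotent matrices. -/
def add (p q : IdemMat S) : IdemMat S where
  size := p.size + q.size
  mat := Matrix.reindex finSumFinEquiv finSumFinEquiv (fromBlocks p.mat 0 0 q.mat)
  idem := reindex_idem (blocks_idem p.idem q.idem) _

theorem add_mvN (p q : IdemMat S) : MvN (p.add q).mat (fromBlocks p.mat 0 0 q.mat) :=
  (MvN.reindex (blocks_idem p.idem q.idem) _).symm

/-- The empty matrix. -/
def zero (S : Type u) [Ring S] : IdemMat S where
  size := 0
  mat := 0
  idem := by simp

/-- Image of an idempotent matrix under a ring homomorphism. -/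
def map {T : Type*} [Ring T] (φ : S →+* T) (p : IdemMat S) : IdemMat T where
  size := p.size
  mat := p.mat.map φ
  idem := map_idem p.idem φ

/-- The identity matrix. -/
def one (S : Type u) [Ring S] (n : ℕ) : IdemMat S where
  size := n
  mat := 1
  idem := by simp

/-- The complementary idempotent. -/
def compl (p : IdemMat S) : IdemMat S where
  size := p.size
  mat := 1 - p.mat
  idem := by
    have h2 : (1 - p.mat) * p.mat = 0 := by rw [sub_mul, p.idem, one_mul, sub_self]
    rw [mul_sub, h2, mul_one, sub_zero]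

/-- Any idempotent matrix with a finite index type, as an element of `IdemMat`. -/
noncomputable def ofMatrix {m : Type*} [Fintype m] (e : Matrix m m S) (he : e * e = e) : IdemMat S where
  size := Fintype.card m
  mat := Matrix.reindex (Fintype.equivFin m) (Fintype.equivFin m) e
  idem := reindex_idem he _

theorem ofMatrix_mvN {m : Type*} [Fintype m] (e : Matrix m m S) (he : e * e = e) :
    MvN (ofMatrix e he).mat e :=
  (MvN.reindex he _).symm

end IdemMat

/-- The commutative monoid `V(S)` of equivalence classes of idempotent matrices over `S`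
(equivalently, of isomorphism classes of finitely generated projective `S`-modules), with
block sum as addition. -/
def VMon (S : Type u) [Ring S] : Type u := Quotient (IdemMat.setoid S)

namespace VMon

variable {S : Type u} [Ring S]

/-- the class of an idempotent matrix -/
def mk (p : IdemMat S) : VMon S := Quotient.mk _ p

theorem mk_eq_mk {p q : IdemMat S} : mk p = mk q ↔ MvN p.mat q.mat :=
  ⟨fun h => Quotient.exact h, fun h => Quotient.sound h⟩

instance : Add (VMon S) where
  add := Quotient.map₂ IdemMat.add (by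
    intro p p' hp q q' hq
    have h1 : MvN (p.add q).mat (fromBlocks p'.mat 0 0 q'.mat) :=
      MvN.trans (p.add q).idem (blocks_idem p'.idem q'.idem) (p.add_mvN q) (MvN.blocks hp hq)
    exact MvN.trans (p.add q).idem (p'.add q').idem h1 (p'.add_mvN q').symm)

instance : Zero (VMon S) := ⟨mk (IdemMat.zero S)⟩

theorem mk_add_mk (p q : IdemMat S) : mk p + mk q = mk (p.add q) := rfl

theorem zero_def : (0 : VMon S) = mk (IdemMat.zero S) := rfl

instance : AddCommMonoid (VMon S) where
  add_assoc := by
    rintro ⟨p⟩ ⟨q⟩ ⟨r⟩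
    change mk p + mk q + mk r = mk p + (mk q + mk r)
    simp only [mk_add_mk, mk_eq_mk]
    have h1 : MvN ((p.add q).add r).mat
        (fromBlocks (fromBlocks p.mat 0 0 q.mat) 0 0 r.mat) :=
      MvN.trans ((p.add q).add r).idem (blocks_idem (blocks_idem p.idem q.idem) r.idem)
        ((p.add q).add_mvN r) (MvN.blocks (p.add_mvN q) (MvN.refl r.idem))
    have h2 : MvN (p.add (q.add r)).mat
        (fromBlocks p.mat 0 0 (fromBlocks q.mat 0 0 r.mat)) :=
      MvN.trans (p.add (q.add r)).idem (blocks_idem p.idem (blocks_idem q.idem r.idem))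
        (p.add_mvN (q.add r)) (MvN.blocks (MvN.refl p.idem) (q.add_mvN r))
    exact MvN.trans ((p.add q).add r).idem (p.add (q.add r)).idem
      (MvN.trans ((p.add q).add r).idem (blocks_idem p.idem (blocks_idem q.idem r.idem)) h1
        (MvN.blocks_assoc p.idem q.idem r.idem)) h2.symm
  add_comm := by
    rintro ⟨p⟩ ⟨q⟩
    change mk p + mk q = mk q + mk p
    simp only [mk_add_mk, mk_eq_mk]
    exact MvN.trans (p.add q).idem (q.add p).idem
      (MvN.trans (p.add q).idem (blocks_idem q.idem p.idem) (p.add_mvN q)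
        (MvN.blocks_comm p.idem q.idem)) (q.add_mvN p).symm
  zero_add := by
    rintro ⟨p⟩
    change mk (IdemMat.zero S) + mk p = mk p
    simp only [mk_add_mk, mk_eq_mk]
    have : IsEmpty (Fin (IdemMat.zero S).size) := by
      change IsEmpty (Fin 0); infer_instance
    exact MvN.trans ((IdemMat.zero S).add p).idem p.idem ((IdemMat.zero S).add_mvN p)
      (MvN.blocks_empty p.idem)
  add_zero := by
    rintro ⟨p⟩
    change mk p + mk (IdemMat.zero S) = mk p
    simp only [mk_add_mk, mk_eq_mk]
    have : IsEmpty (Fin (IdemMat.zero S).size) := by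
      change IsEmpty (Fin 0); infer_instance
    exact MvN.trans (p.add (IdemMat.zero S)).idem p.idem
      (MvN.trans (p.add (IdemMat.zero S)).idem (blocks_idem (IdemMat.zero S).idem p.idem)
        (p.add_mvN (IdemMat.zero S)) (MvN.blocks_comm p.idem (IdemMat.zero S).idem))
      (MvN.blocks_empty p.idem)
  nsmul := nsmulRec

theorem ind {P : VMon S → Prop} (h : ∀ p, P (mk p)) (x : VMon S) : P x :=
  Quotient.inductionOn x h

theorem map_add_blocks {T : Type*} [Ring T] (φ : S →+* T) {m n : Type*}
    (e : Matrix m m S) (f : Matrix n n S) :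
    (fromBlocks e 0 0 f).map φ = fromBlocks (e.map φ) 0 0 (f.map φ) := by
  rw [Matrix.fromBlocks_map]
  simp

/-- The map on `V` induced by a ring homomorphism. -/
def map {T : Type*} [Ring T] (φ : S →+* T) : VMon S →+ VMon T where
  toFun := Quotient.map (IdemMat.map φ) (fun _ _ h => MvN.map h φ)
  map_zero' := by
    change mk ((IdemMat.zero S).map φ) = mk (IdemMat.zero T)
    rw [mk_eq_mk]
    refine ⟨0, 0, ?_, ?_⟩
    · ext i j; exact Fin.elim0 i
    · ext i j; exact Fin.elim0 i
  map_add' := by
    rintro ⟨p⟩ ⟨q⟩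
    change mk ((p.add q).map φ) = mk (p.map φ) + mk (q.map φ)
    rw [mk_add_mk, mk_eq_mk]
    have h := MvN.map (p.add_mvN q) φ
    rw [map_add_blocks] at h
    exact MvN.trans ((p.add q).map φ).idem ((p.map φ).add (q.map φ)).idem h
      ((p.map φ).add_mvN (q.map φ)).symm

theorem map_mk {T : Type*} [Ring T] (φ : S →+* T) (p : IdemMat S) :
    map φ (mk p) = mk (p.map φ) := rfl

end VMon

/-- `K₀(S)`: the Grothendieck group of the commutative monoid `V(S)`. -/
abbrev KZero (S : Type u) [Ring S] : Type u := Algebra.GrothendieckAddGroup (VMon S)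

namespace KZero

variable {S : Type u} [Ring S]

/-- The class in `K₀(S)` of an idempotent matrix. -/
noncomputable def cls (p : IdemMat S) : KZero S := Algebra.GrothendieckAddGroup.of (VMon.mk p)

/-- The homomorphism `K₀(S) → K₀(T)` induced by a ring homomorphism `S → T`. -/
noncomputable def map {T : Type*} [Ring T] (φ : S →+* T) : KZero S →+ KZero T :=
  Algebra.GrothendieckAddGroup.lift ((Algebra.GrothendieckAddGroup.of).comp (VMon.map φ))

theorem map_of {T : Type*} [Ring T] (φ : S →+* T) (x : VMon S) :
    map φ (Algebra.GrothendieckAddGroup.of x) = Algebra.GrothendieckAddGroup.of (VMon.map φ x) := by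
  have h := Algebra.GrothendieckAddGroup.lift.symm_apply_apply
    ((Algebra.GrothendieckAddGroup.of).comp (VMon.map φ))
  exact DFunLike.congr_fun h x

theorem map_cls {T : Type*} [Ring T] (φ : S →+* T) (p : IdemMat S) :
    map φ (cls p) = cls (p.map φ) := by
  rw [cls, map_of, VMon.map_mk]; rfl

theorem of_eq_of {x y : VMon S} :
    (Algebra.GrothendieckAddGroup.of x : KZero S) = Algebra.GrothendieckAddGroup.of y ↔
      ∃ c : VMon S, c + x = c + y := by
  have h := (AddLocalization.addMonoidOf (⊤ : AddSubmonoid (VMon S))).eq_iff_exists (x := x) (y := y)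
  constructor
  · intro hxy
    obtain ⟨c, hc⟩ := h.1 hxy
    exact ⟨c, hc⟩
  · rintro ⟨c, hc⟩
    exact h.2 ⟨⟨c, AddSubmonoid.mem_top c⟩, hc⟩

/-- Every element of `K₀` is a difference of classes of idempotent matrices. -/
theorem exists_sub (x : KZero S) : ∃ p q : IdemMat S, x = cls p - cls q := by
  induction x using AddLocalization.ind with
  | _ z =>
    obtain ⟨a, b, hb⟩ := z
    obtain ⟨p, rfl⟩ : ∃ p, VMon.mk p = a := Quotient.exists_rep a
    obtain ⟨q, rfl⟩ : ∃ q, VMon.mk q = b := Quotient.exists_rep b
    refine ⟨p, q, ?_⟩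
    have h1 := Algebra.GrothendieckAddGroup.mk_sub_mk (VMon.mk p) (VMon.mk q) 0 0
    have h2 : (cls p : KZero S) = AddLocalization.mk (VMon.mk p) 0 := rfl
    have h3 : (cls q : KZero S) = AddLocalization.mk (VMon.mk q) 0 := rfl
    rw [h2, h3, h1]
    congr 1
    · simp
    · ext; simp

end KZero

end Pool.Agent.Lib.MP_c052b4_al
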