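import Pool.Agent.Lib.MP_c052b4_al.KOneMap
import Pool.Agent.Lib.MP_c052b4_al.KZero

/-!
# The image of the assembly map `A₁`
-/

set_option autoImplicit false
set_option linter.unusedSectionVars false

namespace Pool.Agent.Lib.MP_c052b4_al

open Matrix

universe u v w

section Smul

variable {S : Type u} {T : Type v} [Ring S] [Ring T] {c : S →+* T} {s : T}
  {m n : Type*} [Fintype m] [Fintype n] [DecidableEq m] [DecidableEq n]

theorem map_mul_smul (hs : ∀ x, s * c x = c x * s) {l : Type*} (X : Matrix l n S)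
    (Y : Matrix n m S) : (X.map c) * (s • Y.map c) = s • (X * Y).map c := by
  rw [Matrix.map_mul]
  ext i j
  simp only [Matrix.mul_apply, Matrix.smul_apply, Matrix.map_apply, smul_eq_mul, Finset.mul_sum]
  refine Finset.sum_congr rfl fun k _ => ?_
  rw [← mul_assoc, ← hs, mul_assoc]

theorem smul_map_mul {l : Type*} (X : Matrix l n S) (Y : Matrix n m S) :
    (s • X.map c) * (Y.map c) = s • (X * Y).map c := by
  rw [Matrix.map_mul, Matrix.smul_mul]

theorem smul_mul_smul_map {s' : T} (hs' : ∀ x, s' * c x = c x * s') {l : Type*} (X : Matrix l n S)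
    (Y : Matrix n m S) : (s • X.map c) * (s' • Y.map c) = (s * s') • (X * Y).map c := by
  rw [Matrix.smul_mul, map_mul_smul hs', smul_smul]

theorem sub_one_comm {g : T} (hg : ∀ x, g * c x = c x * g) (x : S) :
    (g - 1) * c x = c x * (g - 1) := by
  rw [sub_mul, mul_sub, hg, one_mul, mul_one]

theorem inv_comm {g : Tˣ} (hg : ∀ x, (g : T) * c x = c x * g) (x : S) :
    ((g⁻¹ : Tˣ) : T) * c x = c x * ((g⁻¹ : Tˣ) : T) := by
  rw [Units.inv_mul_eq_iff_eq_mul, ← mul_assoc, hg, mul_assoc, Units.mul_inv, mul_one]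

theorem te_mul {g h : T} (hh : ∀ x, h * c x = c x * h)
    {e : Matrix n n S} (he : e * e = e) :
    (1 + (g - 1) • e.map c) * (1 + (h - 1) • e.map c) = 1 + (g * h - 1) • e.map c := by
  have h1 : (1 + (g - 1) • e.map c) * (1 + (h - 1) • e.map c) =
      1 + ((h - 1) • e.map c + (g - 1) • e.map c + (g - 1) • e.map c * (h - 1) • e.map c) := by
    simp only [Matrix.add_mul, Matrix.mul_add, Matrix.one_mul, Matrix.mul_one]
    abel
  rw [h1, smul_mul_smul_map (sub_one_comm hh), he, ← add_smul, ← add_smul]
  congr 2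
  noncomm_ring

/-- the unit `1 - e + g e` -/
def teU (g : Tˣ) (hg : ∀ x, (g : T) * c x = c x * g) (e : Matrix n n S) (he : e * e = e) :
    (Matrix n n T)ˣ where
  val := 1 + ((g : T) - 1) • e.map c
  inv := 1 + (((g⁻¹ : Tˣ) : T) - 1) • e.map c
  val_inv := by
    rw [te_mul (inv_comm hg) he, Units.mul_inv, sub_self, zero_smul, add_zero]
  inv_val := by
    rw [te_mul hg he, Units.inv_mul, sub_self, zero_smul, add_zero]

end Smul

section Assembly

variable {R : Type u} [Ring R] {G : Type v} [Group G]

/-- The unit `g` of the group ring `R[G]`. -/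
noncomputable def gU (R : Type u) [Ring R] (g : G) : (MonoidAlgebra R G)ˣ where
  val := MonoidAlgebra.single g 1
  inv := MonoidAlgebra.single g⁻¹ 1
  val_inv := by simp [MonoidAlgebra.one_def]
  inv_val := by simp [MonoidAlgebra.one_def]

theorem gU_comm (g : G) (r : R) : ((gU R g : (MonoidAlgebra R G)ˣ) : MonoidAlgebra R G) *
    (MonoidAlgebra.singleOneRingHom r : MonoidAlgebra R G) =
    MonoidAlgebra.singleOneRingHom r * ((gU R g : (MonoidAlgebra R G)ˣ) : MonoidAlgebra R G) := by
  change MonoidAlgebra.single g (1 : R) * MonoidAlgebra.single 1 r =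
    MonoidAlgebra.single 1 r * MonoidAlgebra.single g (1 : R)
  simp

/-- For `g ∈ G` and an idempotent matrix `e` over `R` the invertible matrix
`1 + (g - 1) e = (1 - e) + g e` over `R[G]`. -/
noncomputable def elU (g : G) (e : IdemMat R) :
    (Matrix (Fin e.size) (Fin e.size) (MonoidAlgebra R G))ˣ :=
  teU (gU R g) (gU_comm g) e.mat e.idem

/-- The image of the assembly map `A₁`: the subgroup of `K₁(R[G])` generated by the image of
`K₁(R)` and the classes of the matrices `(1 - e) + g e`. -/
noncomputable def imA1 (R : Type u) [Ring R] (G : Type v) [Group G] :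
    AddSubgroup (KOne (MonoidAlgebra R G)) :=
  (KOne.map (MonoidAlgebra.singleOneRingHom : R →+* MonoidAlgebra R G)).range ⊔
    AddSubgroup.closure {x | ∃ (g : G) (e : IdemMat R), x = kf e.size (elU g e)}

end Assembly

end Pool.Agent.Lib.MP_c052b4_al
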