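import Pool.Agent.Lib.MP_c052b4_al.KOneCalc
import Pool.Agent.Lib.MP_c052b4_al.TauDef
import Pool.Agent.Lib.MP_c052b4_al.StabInd

/-!
# Vaserstein's identity and the classes `1 + s c(M)` in `K₁`
-/

set_option autoImplicit false
set_option linter.unusedSectionVars false

namespace Pool.Agent.Lib.MP_c052b4_al

open Matrix

universe u v w

section Vas

variable {T : Type v} [Ring T] {m n : Type*} [Fintype m] [Fintype n] [DecidableEq m]
  [DecidableEq n]

/-- the class of `1 + X` (zero if this is not invertible) -/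
noncomputable def kk (X : Matrix n n T) : KOne T :=
  open Classical in if h : IsUnit (1 + X) then k1 h.unit else 0

theorem kk_eq {X : Matrix n n T} (U : (Matrix n n T)ˣ) (h : (U : Matrix n n T) = 1 + X) :
    kk X = k1 U := by
  have h1 : IsUnit (1 + X) := ⟨U, h⟩
  unfold kk
  rw [dif_pos h1]
  congr 1
  apply Units.ext
  rw [IsUnit.unit_spec, h]

theorem kk_zero : kk (0 : Matrix n n T) = 0 := by
  rw [kk_eq 1 (by rw [Units.val_one, add_zero]), k1_one]

theorem vas_unit (r : Matrix n m T) (c : Matrix m n T) (U : (Matrix n n T)ˣ)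
    (h : (U : Matrix n n T) = 1 + r * c) :
    ∃ V : (Matrix m m T)ˣ, (V : Matrix m m T) = 1 + c * r ∧ k1 V = k1 U := by
  have e1 : (1 + r * c) * ((U⁻¹ : (Matrix n n T)ˣ) : Matrix n n T) = 1 := by
    rw [← h, Units.mul_inv]
  have e2 : ((U⁻¹ : (Matrix n n T)ˣ) : Matrix n n T) * (1 + r * c) = 1 := by
    rw [← h, Units.inv_mul]
  let V : (Matrix m m T)ˣ :=
    { val := 1 + c * r
      inv := 1 - c * ((U⁻¹ : (Matrix n n T)ˣ) : Matrix n n T) * r
      val_inv := by
        have h1 : (1 + c * r) * (1 - c * ((U⁻¹ : (Matrix n n T)ˣ) : Matrix n n T) * r) =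
            1 + c * r - c * ((1 + r * c) * ((U⁻¹ : (Matrix n n T)ˣ) : Matrix n n T)) * r := by
          simp only [Matrix.add_mul, Matrix.mul_add, Matrix.mul_sub, Matrix.one_mul,
            Matrix.mul_one, Matrix.mul_assoc]
        rw [h1, e1, Matrix.mul_one, add_sub_cancel_right]
      inv_val := by
        have h1 : (1 - c * ((U⁻¹ : (Matrix n n T)ˣ) : Matrix n n T) * r) * (1 + c * r) =
            1 + c * r - c * (((U⁻¹ : (Matrix n n T)ˣ) : Matrix n n T) * (1 + r * c)) * r := by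
          simp only [Matrix.add_mul, Matrix.mul_add, Matrix.sub_mul, Matrix.one_mul,
            Matrix.mul_one, Matrix.mul_assoc]
          abel
        rw [h1, e2, Matrix.mul_one, add_sub_cancel_right] }
  refine ⟨V, rfl, ?_⟩
  have h2 : uU (-r) * bl U (1 : (Matrix m m T)ˣ) * lU c =
      lU c * bl (1 : (Matrix n n T)ˣ) V * uU (-r) := by
    apply Units.ext
    simp only [Units.val_mul, coe_uU, coe_lU, coe_bl, fromBlocks_multiply, h, Units.val_one]
    simp [V]
  have h3 : k1 (uU (-r) * bl U (1 : (Matrix m m T)ˣ) * lU c) = k1 U := by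
    rw [k1_mul, k1_mul, k1_uU, k1_lU, k1_bl_one, zero_add, add_zero]
  have h4 : k1 (lU c * bl (1 : (Matrix n n T)ˣ) V * uU (-r)) = k1 V := by
    rw [k1_mul, k1_mul, k1_uU, k1_lU, k1_one_bl, zero_add, add_zero]
  rw [← h3, h2, h4]

theorem kk_comm (r : Matrix n m T) (c : Matrix m n T) : kk (r * c) = kk (c * r) := by
  classical
  by_cases h : IsUnit (1 + r * c)
  · obtain ⟨U, hU⟩ := h
    obtain ⟨V, hV, hVU⟩ := vas_unit r c U hU
    rw [kk_eq U hU, kk_eq V hV, hVU]
  · have h' : ¬ IsUnit (1 + c * r) := by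
      rintro ⟨V, hV⟩
      obtain ⟨U, hU, -⟩ := vas_unit c r V hV
      exact h ⟨U, hU⟩
    unfold kk
    rw [dif_neg h, dif_neg h']

theorem kk_blocks {X : Matrix m m T} {Y : Matrix n n T} (hX : IsUnit (1 + X))
    (hY : IsUnit (1 + Y)) : kk (fromBlocks X 0 0 Y) = kk X + kk Y := by
  obtain ⟨U, hU⟩ := hX
  obtain ⟨V, hV⟩ := hY
  rw [kk_eq U hU, kk_eq V hV, ← k1_bl]
  apply kk_eq
  rw [coe_bl, hU, hV, ← fromBlocks_one, fromBlocks_add]
  simp

theorem kk_mul {X Y : Matrix n n T} (hX : IsUnit (1 + X)) (hY : IsUnit (1 + Y)) :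
    kk (X + Y + X * Y) = kk X + kk Y := by
  obtain ⟨U, hU⟩ := hX
  obtain ⟨V, hV⟩ := hY
  rw [kk_eq U hU, kk_eq V hV, ← k1_mul]
  apply kk_eq
  rw [Units.val_mul, hU, hV]
  simp only [Matrix.add_mul, Matrix.mul_add, Matrix.one_mul, Matrix.mul_one]
  abel

theorem coe_rU_add (σ : n ≃ m) (X : Matrix n n T) (U : (Matrix n n T)ˣ)
    (hU : (U : Matrix n n T) = 1 + X) :
    ((rU σ U : (Matrix m m T)ˣ) : Matrix m m T) = 1 + X.submatrix σ.symm σ.symm := by
  rw [coe_rU, hU, Matrix.submatrix_add]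
  change (1 : Matrix n n T).submatrix σ.symm σ.symm + _ = _
  rw [Matrix.submatrix_one_equiv]

theorem kk_reindex (σ : n ≃ m) (X : Matrix n n T) : kk (X.submatrix σ.symm σ.symm) = kk X := by
  by_cases h : IsUnit (1 + X)
  · obtain ⟨U, hU⟩ := h
    rw [kk_eq U hU, ← k1_rU σ U, kk_eq _ (coe_rU_add σ X U hU)]
  · have h' : ¬ IsUnit (1 + X.submatrix σ.symm σ.symm) := by
      rintro ⟨V, hV⟩
      apply h
      have h1 := coe_rU_add σ.symm _ V hV
      rw [Matrix.submatrix_submatrix] at h1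
      have h2 : (σ.symm ∘ σ.symm.symm : n → n) = id := by funext x; simp
      rw [h2, Matrix.submatrix_id_id] at h1
      exact ⟨_, h1⟩
    unfold kk
    rw [dif_neg h, dif_neg h']

end Vas

section Ks

variable {S : Type u} {T : Type v} [Ring S] [Ring T] (c : S →+* T) (s : T)
  {m n : Type*} [Fintype m] [Fintype n] [DecidableEq m] [DecidableEq n]

/-- the class of `1 + s c(M)` -/
noncomputable def ks (M : Matrix n n S) : KOne T := kk (s • M.map c)

variable {c s}

theorem ks_zero : ks c s (0 : Matrix n n S) = 0 := by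
  unfold ks
  rw [Matrix.map_zero _ (map_zero c), smul_zero, kk_zero]

theorem ks_comm (hs : ∀ x, s * c x = c x * s) (X : Matrix n m S) (Y : Matrix m n S) :
    ks c s (X * Y) = ks c s (Y * X) := by
  unfold ks
  rw [← smul_map_mul, kk_comm, map_mul_smul hs]

theorem ks_reindex (σ : n ≃ m) (M : Matrix n n S) :
    ks c s (M.submatrix σ.symm σ.symm) = ks c s M := by
  unfold ks
  rw [← kk_reindex σ]
  rfl

theorem ks_mvN (hs : ∀ x, s * c x = c x * s) {e : Matrix n n S} {f : Matrix m m S}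
    (h : MvN e f) : ks c s e = ks c s f := by
  obtain ⟨x, y, rfl, rfl⟩ := h
  exact ks_comm hs x y

end Ks

section Te

variable {S : Type u} {T : Type v} [Ring S] [Ring T] {c : S →+* T}
  {m n : Type*} [Fintype m] [Fintype n] [DecidableEq m] [DecidableEq n]

theorem isUnit_te (g : Tˣ) (hg : ∀ x, (g : T) * c x = c x * g) {e : Matrix n n S}
    (he : e * e = e) : IsUnit (1 + ((g : T) - 1) • e.map c) := ⟨teU g hg e he, rfl⟩

theorem ks_te (g : Tˣ) (hg : ∀ x, (g : T) * c x = c x * g) {e : Matrix n n S}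
    (he : e * e = e) : ks c ((g : T) - 1) e = k1 (teU g hg e he) := kk_eq _ rfl

theorem ks_te_mul (g h : Tˣ) (hg : ∀ x, (g : T) * c x = c x * g)
    (hh : ∀ x, (h : T) * c x = c x * h) {e : Matrix n n S} (he : e * e = e) :
    ks c (((g * h : Tˣ) : T) - 1) e = ks c ((g : T) - 1) e + ks c ((h : T) - 1) e := by
  unfold ks
  rw [← kk_mul (isUnit_te g hg he) (isUnit_te h hh he)]
  congr 1
  have h1 := te_mul (c := c) (g := (g : T)) hh he
  have h2 := congrArg (fun X => X - 1) h1
  simp only [add_sub_cancel_left] at h2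
  rw [Units.val_mul, ← h2]
  simp only [Matrix.add_mul, Matrix.mul_add, Matrix.one_mul, Matrix.mul_one]
  abel

theorem ks_blocks_te (g : Tˣ) (hg : ∀ x, (g : T) * c x = c x * g) {e : Matrix m m S}
    (he : e * e = e) {f : Matrix n n S} (hf : f * f = f) :
    ks c ((g : T) - 1) (fromBlocks e 0 0 f) = ks c ((g : T) - 1) e + ks c ((g : T) - 1) f := by
  unfold ks
  rw [← kk_blocks (isUnit_te g hg he) (isUnit_te g hg hf), VMon.map_add_blocks,
    Matrix.fromBlocks_smul, smul_zero, smul_zero]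

/-- the homomorphism `V(S) → K₁(T)` -/
noncomputable def tauV (c : S →+* T) (g : Tˣ) (hg : ∀ x, (g : T) * c x = c x * g) :
    VMon S →+ KOne T where
  toFun := Quotient.lift (fun p : IdemMat S => ks c ((g : T) - 1) p.mat)
    (fun _ _ h => ks_mvN (sub_one_comm hg) h)
  map_zero' := by
    change ks c ((g : T) - 1) (0 : Matrix (Fin 0) (Fin 0) S) = 0
    exact ks_zero
  map_add' := by
    rintro ⟨p⟩ ⟨q⟩
    change ks c ((g : T) - 1) (p.add q).mat = ks c ((g : T) - 1) p.mat + ks c ((g : T) - 1) q.mat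
    rw [ks_mvN (sub_one_comm hg) (p.add_mvN q), ks_blocks_te g hg p.idem q.idem]

/-- The homomorphism `K₀(S) → K₁(T)`, `[e] ↦ [1 - e + g e]`. -/
noncomputable def tau (c : S →+* T) (g : Tˣ) (hg : ∀ x, (g : T) * c x = c x * g) :
    KZero S →+ KOne T :=
  Algebra.GrothendieckAddGroup.lift (tauV c g hg)

theorem tau_cls (g : Tˣ) (hg : ∀ x, (g : T) * c x = c x * g) (p : IdemMat S) :
    tau c g hg (KZero.cls p) = ks c ((g : T) - 1) p.mat := by
  have h := Algebra.GrothendieckAddGroup.lift.symm_apply_apply (tauV c g hg)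
  exact DFunLike.congr_fun h (VMon.mk p)

theorem tau_kc (g : Tˣ) (hg : ∀ x, (g : T) * c x = c x * g) {e : Matrix n n S}
    (he : e * e = e) : tau c g hg (KZero.kc e he) = ks c ((g : T) - 1) e := by
  unfold KZero.kc
  rw [tau_cls]
  exact ks_mvN (sub_one_comm hg) (IdemMat.ofMatrix_mvN e he)

end Te

end Pool.Agent.Lib.MP_c052b4_al
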