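import Pool.Agent.Lib.MP_c052b4_al.Trans
import Pool.Agent.Lib.MP_c052b4_al.Vas

/-!
# The homomorphisms `K₀(R) → K₁(R[G])`
-/

set_option autoImplicit false
set_option linter.unusedSectionVars false

namespace Pool.Agent.Lib.MP_c052b4_al

open Matrix Kern

universe u v w

section General

variable {S : Type u} {T : Type v} [Ring S] [Ring T] {c : S →+* T}

theorem kZero_hom_ext {H : Type w} [AddCommGroup H] {f g : KZero S →+ H}
    (h : ∀ p : IdemMat S, f (KZero.cls p) = g (KZero.cls p)) : f = g := by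
  apply AddMonoidHom.ext
  intro x
  obtain ⟨p, q, rfl⟩ := KZero.exists_sub x
  rw [map_sub, map_sub, h, h]

theorem tau_mul (g h : Tˣ) (hg : ∀ x, (g : T) * c x = c x * g)
    (hh : ∀ x, (h : T) * c x = c x * h) (hgh : ∀ x, ((g * h : Tˣ) : T) * c x = c x * (g * h : Tˣ)) :
    tau c (g * h) hgh = tau c g hg + tau c h hh := by
  apply kZero_hom_ext
  intro p
  rw [AddMonoidHom.add_apply, tau_cls, tau_cls, tau_cls, ks_te_mul g h hg hh p.idem]

theorem tau_one (h1 : ∀ x, ((1 : Tˣ) : T) * c x = c x * (1 : Tˣ)) : tau c 1 h1 = 0 := by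
  apply kZero_hom_ext
  intro p
  rw [tau_cls, Units.val_one, sub_self, AddMonoidHom.zero_apply]
  unfold ks
  rw [zero_smul, kk_zero]

theorem map_ks_te {T' : Type*} [Ring T'] (φ : T →+* T') (g : Tˣ)
    (hg : ∀ x, (g : T) * c x = c x * g) {n : Type*} [Fintype n] [DecidableEq n]
    {e : Matrix n n S} (he : e * e = e) :
    KOne.map φ (ks c ((g : T) - 1) e) = ks (φ.comp c) (φ g - 1) e := by
  rw [ks_te g hg he, KOne.map_k1]
  symm
  apply kk_eq
  rw [coe_mU]
  change (1 + ((g : T) - 1) • e.map c).map φ = _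
  rw [Matrix.map_add _ (map_add φ), Matrix.map_one _ (map_zero φ) (map_one φ)]
  congr 1
  ext i j
  simp

theorem map_tau {T' : Type*} [Ring T'] (φ : T →+* T') (g : Tˣ)
    (hg : ∀ x, (g : T) * c x = c x * g)
    (hg' : ∀ x, ((Units.map (φ : T →* T') g : T'ˣ) : T') * (φ.comp c) x =
      (φ.comp c) x * (Units.map (φ : T →* T') g : T'ˣ)) (x : KZero S) :
    KOne.map φ (tau c g hg x) = tau (φ.comp c) (Units.map (φ : T →* T') g) hg' x := by
  have h : (KOne.map φ).comp (tau c g hg) = tau (φ.comp c) (Units.map (φ : T →* T') g) hg' := by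
    apply kZero_hom_ext
    intro p
    rw [AddMonoidHom.comp_apply, tau_cls, tau_cls, map_ks_te φ g hg p.idem]
    rfl
  exact DFunLike.congr_fun h x

theorem tau_map {S' : Type*} [Ring S'] (ψ : S' →+* S) (g : Tˣ)
    (hg : ∀ x, (g : T) * c x = c x * g)
    (hg' : ∀ x, (g : T) * (c.comp ψ) x = (c.comp ψ) x * g) (x : KZero S') :
    tau c g hg (KZero.map ψ x) = tau (c.comp ψ) g hg' x := by
  have h : (tau c g hg).comp (KZero.map ψ) = tau (c.comp ψ) g hg' := by
    apply kZero_hom_ext
    intro p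
    rw [AddMonoidHom.comp_apply, KZero.map_cls, tau_cls, tau_cls]
    rfl
  exact DFunLike.congr_fun h x

end General

section Group

variable {R : Type u} [Ring R] {G : Type v} [Group G] {Γ : Type w} [Group Γ]

/-- The inclusion of the coefficients. -/
noncomputable abbrev cG (R : Type u) [Ring R] (G : Type v) [Group G] : R →+* MonoidAlgebra R G :=
  MonoidAlgebra.singleOneRingHom

theorem gU_mul (g h : G) : gU R (g * h) = gU R g * gU R h := by
  apply Units.ext
  rw [Units.val_mul]
  change MonoidAlgebra.single (g * h) (1 : R) = MonoidAlgebra.single g 1 * MonoidAlgebra.single h 1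
  simp

theorem gU_one : gU R (1 : G) = 1 := by
  apply Units.ext
  rw [Units.val_one]
  rfl

/-- The homomorphism `K₀(R) → K₁(R[G])` given by a group element. -/
noncomputable def tauG (R : Type u) [Ring R] (g : G) : KZero R →+ KOne (MonoidAlgebra R G) :=
  tau (cG R G) (gU R g) (gU_comm g)

theorem tauG_cls (g : G) (p : IdemMat R) : tauG R g (KZero.cls p) = kf p.size (elU g p) := by
  unfold tauG
  rw [tau_cls, ks_te (gU R g) (gU_comm g) p.idem, k1_fin]
  rfl

theorem tauG_mul (g h : G) : tauG R (g * h) = tauG R g + tauG R h := by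
  have h1 : ∀ x, ((gU R g * gU R h : (MonoidAlgebra R G)ˣ) : MonoidAlgebra R G) * cG R G x =
      cG R G x * (gU R g * gU R h : (MonoidAlgebra R G)ˣ) := by
    intro x
    rw [← gU_mul]
    exact gU_comm _ x
  have h2 : tauG R (g * h) = tau (cG R G) (gU R g * gU R h) h1 := by
    apply kZero_hom_ext
    intro p
    unfold tauG
    rw [tau_cls, tau_cls, gU_mul]
  rw [h2, tau_mul _ _ (gU_comm g) (gU_comm h)]
  rfl

theorem tauG_one : tauG R (1 : G) = 0 := by
  have h := tauG_mul (R := R) (1 : G) 1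
  rw [mul_one] at h
  exact left_eq_add.1 h

theorem tauG_inv (g : G) : tauG R g⁻¹ = - tauG R g := by
  rw [eq_neg_iff_add_eq_zero, ← tauG_mul, inv_mul_cancel, tauG_one]

theorem tauG_conj (g x : G) : tauG R (x * g * x⁻¹) = tauG R g := by
  rw [tauG_mul, tauG_mul, tauG_inv]
  abel

theorem map_gU (f : G →* Γ) (g : G) :
    Units.map ((inc R f : MonoidAlgebra R G →+* MonoidAlgebra R Γ) : MonoidAlgebra R G →* _)
      (gU R g) = gU R (f g) := by
  apply Units.ext
  change inc R f (MonoidAlgebra.single g 1) = MonoidAlgebra.single (f g) 1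
  simp

theorem map_tauG (f : G →* Γ) (g : G) (x : KZero R) :
    KOne.map (inc R f) (tauG R g x) = tauG R (f g) x := by
  have h : (KOne.map (inc R f)).comp (tauG R g) = tauG R (f g) := by
    apply kZero_hom_ext
    intro p
    unfold tauG
    rw [AddMonoidHom.comp_apply, tau_cls, tau_cls, map_ks_te _ _ (gU_comm g) p.idem]
    have h1 : (inc R f).comp (cG R G) = cG R Γ := singleOne_comp f
    have h2 : inc R f (gU R g : (MonoidAlgebra R G)ˣ) = ((gU R (f g) : (MonoidAlgebra R Γ)ˣ) :
        MonoidAlgebra R Γ) := by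
      have := congrArg Units.val (map_gU (R := R) f g)
      exact this
    rw [h1, h2]
  exact DFunLike.congr_fun h x

theorem map_cG (f : G →* Γ) (x : KOne R) :
    KOne.map (inc R f) (KOne.map (cG R G) x) = KOne.map (cG R Γ) x := by
  rw [← KOne.map_comp, singleOne_comp]

/-- membership in the image of the assembly map -/
theorem imA1_le {H : AddSubgroup (KOne (MonoidAlgebra R G))}
    (h1 : ∀ x, KOne.map (cG R G) x ∈ H) (h2 : ∀ g x, tauG R g x ∈ H) : imA1 R G ≤ H := by
  unfold imA1
  refine sup_le ?_ ?_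
  · rintro _ ⟨x, rfl⟩
    exact h1 x
  · rw [AddSubgroup.closure_le]
    rintro _ ⟨g, e, rfl⟩
    rw [← tauG_cls]
    exact h2 g _

theorem map_mem_imA1 (x : KOne R) : KOne.map (cG R G) x ∈ imA1 R G :=
  AddSubgroup.mem_sup_left ⟨x, rfl⟩

theorem tauG_mem_imA1 (g : G) (x : KZero R) : tauG R g x ∈ imA1 R G := by
  obtain ⟨p, q, rfl⟩ := KZero.exists_sub x
  rw [map_sub]
  refine AddSubgroup.sub_mem _ ?_ ?_ <;>
  · apply AddSubgroup.mem_sup_right
    apply AddSubgroup.subset_closure
    exact ⟨g, _, tauG_cls _ _⟩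

theorem map_imA1 (f : G →* Γ) {x : KOne (MonoidAlgebra R G)} (hx : x ∈ imA1 R G) :
    KOne.map (inc R f) x ∈ imA1 R Γ := by
  have h : imA1 R G ≤ (imA1 R Γ).comap (KOne.map (inc R f)) := by
    refine imA1_le ?_ ?_
    · intro x
      rw [AddSubgroup.mem_comap, map_cG]
      exact map_mem_imA1 x
    · intro g x
      rw [AddSubgroup.mem_comap, map_tauG]
      exact tauG_mem_imA1 _ x
  exact h hx

end Group

end Pool.Agent.Lib.MP_c052b4_al
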