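import Pool.Agent.Lib.MP_c052b4_al.Bdry2
import Pool.Agent.Lib.MP_c052b4_al.TauG

/-!
# Values of the boundary map `K₁(S[t, t⁻¹]) → K₀(S)`
-/

set_option autoImplicit false
set_option linter.unusedSectionVars false

namespace Pool.Agent.Lib.MP_c052b4_al.Bdry

open Matrix Kern

universe u v w

variable {S : Type u} [Ring S] {n : Type v} {m : Type w} [Fintype n] [Fintype m] [DecidableEq n]
  [DecidableEq m]

theorem mem_L_zero {v : n → Lau S} : v ∈ L S n (-(0 : ℕ)) ↔ v ∈ L S n 0 := by
  rw [Nat.cast_zero, neg_zero]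

theorem vecMul_const_mem {d : ℤ} {v : n → Lau S} (hv : v ∈ L S n d) (Y : Matrix n m S) :
    v ᵥ* (Y.map (cG S (Multiplicative ℤ))) ∈ L S m d := by
  refine SupV.vecMul (Z := {1}) (W := up d) hv ?_ ?_
  · intro i j
    exact sup_single (Set.mem_singleton _) _
  · rintro z hz _ rfl
    rwa [mul_one]

theorem cz_vecMul (k : ℤ) (v : n → Lau S) (Y : Matrix n m S) :
    cz S m k (v ᵥ* (Y.map (cG S (Multiplicative ℤ)))) = cz S n k v ᵥ* Y := by
  funext j
  change ((v ᵥ* (Y.map (cG S (Multiplicative ℤ)))) j).coeff (Multiplicative.ofAdd k) = _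
  simp only [Matrix.vecMul, dotProduct]
  rw [MonoidAlgebra.coeff_sum, Finsupp.finsetSum_apply]
  refine Finset.sum_congr rfl fun i _ => ?_
  change (v i * MonoidAlgebra.single 1 (Y i j)).coeff (Multiplicative.ofAdd k) = _
  rw [MonoidAlgebra.coeff_mul_single_apply, inv_one, mul_one]
  rfl

theorem single_central (γ : Multiplicative ℤ) (x : Lau S) :
    MonoidAlgebra.single γ (1 : S) * x = x * MonoidAlgebra.single γ 1 := by
  ext z
  rw [MonoidAlgebra.coeff_single_mul_apply, MonoidAlgebra.coeff_mul_single_apply, one_mul, mul_one,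
    mul_comm]

theorem vecMul_single_smul (k : ℤ) (v : n → Lau S) (X : Matrix n m (Lau S)) :
    v ᵥ* ((MonoidAlgebra.single (Multiplicative.ofAdd k) (1 : S) : Lau S) • X) =
      sh S m k (v ᵥ* X) := by
  funext j
  change ∑ i, v i * (MonoidAlgebra.single (Multiplicative.ofAdd k) (1 : S) * X i j) =
    MonoidAlgebra.single (Multiplicative.ofAdd k) (1 : S) * ∑ i, v i * X i j
  rw [Finset.mul_sum]
  refine Finset.sum_congr rfl fun i _ => ?_
  rw [← mul_assoc, ← mul_assoc, single_central]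

/-- constant matrices -/
theorem dd_const (A : (Matrix n n S)ˣ) : dd (mU (cG S (Multiplicative ℤ)) A) = 0 := by
  have h1 : LA (mU (cG S (Multiplicative ℤ)) A) = L S n 0 := by
    ext v
    constructor
    · intro hv
      have h2 := vecMul_const_mem (mem_LA.1 hv) (A : Matrix n n S)
      have h3 := vinv_mul (mU (cG S (Multiplicative ℤ)) A) v
      rw [coe_mU] at h3
      rwa [h3] at h2
    · intro hv
      rw [mem_LA, ← map_inv, coe_mU]
      exact vecMul_const_mem hv _
  have h2 : LA (mU (cG S (Multiplicative ℤ)) A) ≤ L S n (-(0 : ℕ)) := by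
    rw [h1, Nat.cast_zero, neg_zero]
  rw [dd_eq h2, zero_smul, sub_zero]
  have := finiteQ h2
  have := projectiveQ h2
  have hsub : Subsingleton (Q (mU (cG S (Multiplicative ℤ)) A) 0) := by
    constructor
    intro x y
    obtain ⟨x, rfl⟩ := Submodule.Quotient.mk_surjective _ x
    obtain ⟨y, rfl⟩ := Submodule.Quotient.mk_surjective _ y
    apply mk_eq_mk
    rw [h1]
    exact Submodule.sub_mem _ (mem_L_zero.1 x.2) (mem_L_zero.1 y.2)
  exact kmod_eq_zero

theorem del_map_const (x : KOne S) : del S (KOne.map (cG S (Multiplicative ℤ)) x) = 0 := by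
  obtain ⟨k, A, rfl⟩ := exists_k1 x
  rw [KOne.map_k1, del_k1, dd_const]

/-- the class `1 - e + t e` -/
theorem dd_te {e : Matrix n n S} (he : e * e = e) :
    dd (teU (c := cG S (Multiplicative ℤ)) (gU S (Multiplicative.ofAdd (1 : ℤ))) (gU_comm _) e he) =
      KZero.kc e he := by
  set A := teU (c := cG S (Multiplicative ℤ)) (gU S (Multiplicative.ofAdd (1 : ℤ))) (gU_comm _) e he
    with hA
  have hAv : (A : Matrix n n (Lau S)) = (1 - e).map (cG S (Multiplicative ℤ)) +
      (MonoidAlgebra.single (Multiplicative.ofAdd (1 : ℤ)) (1 : S) : Lau S) •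
        e.map (cG S (Multiplicative ℤ)) := by
    change 1 + ((MonoidAlgebra.single (Multiplicative.ofAdd (1 : ℤ)) (1 : S) : Lau S) - 1) •
      e.map (cG S (Multiplicative ℤ)) = _
    rw [Matrix.map_sub _ (map_sub _), Matrix.map_one _ (map_zero _) (map_one _), sub_smul, one_smul]
    abel
  have hAi : ((A⁻¹ : (Matrix n n (Lau S))ˣ) : Matrix n n (Lau S)) =
      (1 - e).map (cG S (Multiplicative ℤ)) +
      (MonoidAlgebra.single (Multiplicative.ofAdd (-1 : ℤ)) (1 : S) : Lau S) •
        e.map (cG S (Multiplicative ℤ)) := by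
    change 1 + ((MonoidAlgebra.single (Multiplicative.ofAdd (-1 : ℤ)) (1 : S) : Lau S) - 1) •
      e.map (cG S (Multiplicative ℤ)) = _
    rw [Matrix.map_sub _ (map_sub _), Matrix.map_one _ (map_zero _) (map_one _), sub_smul, one_smul]
    abel
  have hle0 : LA A ≤ L S n 0 := by
    intro v hv
    set w := v ᵥ* ((A⁻¹ : (Matrix n n (Lau S))ˣ) : Matrix n n (Lau S)) with hw
    have h1 : w ∈ L S n 0 := hv
    have h2 : v = w ᵥ* (A : Matrix n n (Lau S)) := by rw [hw, vinv_mul]
    rw [h2, hAv, Matrix.vecMul_add, vecMul_single_smul]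
    refine Submodule.add_mem _ (vecMul_const_mem h1 _) ?_
    have h3 := sh_mem (c := 1) (vecMul_const_mem h1 e)
    exact L_mono (by norm_num) h3
  have hle : LA A ≤ L S n (-(0 : ℕ)) := by
    rw [Nat.cast_zero, neg_zero]; exact hle0
  have hmem : ∀ v, v ∈ L S n 0 → (v ∈ LA A ↔ cz S n 0 v ᵥ* e = 0) := by
    intro v hv
    rw [mem_LA, hAi, Matrix.vecMul_add, vecMul_single_smul]
    have h1 := vecMul_const_mem hv (1 - e)
    have h2 := vecMul_const_mem hv e
    rw [Submodule.add_mem_iff_right _ h1, ← cz_vecMul]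
    have h3 : sh S n (-1) (v ᵥ* (e.map (cG S (Multiplicative ℤ)))) ∈ L S n 0 ↔
        v ᵥ* (e.map (cG S (Multiplicative ℤ))) ∈ L S n (0 + 1) := by
      have h4 := sh_mem_iff (S := S) (n := n) (c := -1) (d := 0 + 1)
        (v := v ᵥ* (e.map (cG S (Multiplicative ℤ))))
      have h5 : (0 : ℤ) + 1 + -1 = 0 := by norm_num
      rwa [h5] at h4
    rw [h3]
    exact ⟨fun h => cz_of_mem h, fun h => mem_of_cz h2 h⟩
  rw [dd_eq hle, zero_smul, sub_zero]
  have := finiteQ hle
  have := projectiveQ hle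
  let g : L S n (-(0 : ℕ)) →ₗ[S] img e := LinearMap.codRestrict (img e)
    (Matrix.vecMulLinear e ∘ₗ cz S n 0 ∘ₗ (L S n (-(0 : ℕ))).subtype)
    (fun v => vecMul_mem_img e _)
  have hg : ∀ v, ((g v : img e) : n → S) = cz S n 0 (v : n → Lau S) ᵥ* e := fun v => rfl
  have hker : KQ A 0 = LinearMap.ker g := by
    ext v
    have hv : (v : n → Lau S) ∈ L S n 0 := mem_L_zero.1 v.2
    rw [LinearMap.mem_ker]
    have h1 : v ∈ KQ A 0 ↔ (v : n → Lau S) ∈ LA A := Iff.rfl
    rw [h1, hmem _ hv, ← hg]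
    constructor
    · intro h; exact Subtype.ext h
    · intro h; rw [h]; rfl
  have hsurj : Function.Surjective g := by
    intro x
    obtain ⟨v, hv, hvx⟩ := exists_cz (S := S) (n := n) 0 (x : n → S)
    refine ⟨⟨v, by rw [Nat.cast_zero, neg_zero]; exact hv⟩, ?_⟩
    apply Subtype.ext
    rw [hg]
    change cz S n 0 v ᵥ* e = x
    rw [hvx]
    exact (mem_img he).1 x.2
  exact kmod_eq_kc he ((Submodule.quotEquivOfEq _ _ hker).trans
    (g.quotKerEquivOfSurjective hsurj)).symm

theorem del_te {e : Matrix n n S} (he : e * e = e) :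
    del S (ks (cG S (Multiplicative ℤ)) (((gU S (Multiplicative.ofAdd (1 : ℤ)) : (Lau S)ˣ) :
      Lau S) - 1) e) = KZero.kc e he := by
  rw [ks_te _ (gU_comm _) he, del_k1, dd_te]

theorem del_tauG (x : KZero S) : del S (tauG S (Multiplicative.ofAdd (1 : ℤ)) x) = x := by
  have h : (del S).comp (tauG S (Multiplicative.ofAdd (1 : ℤ))) = AddMonoidHom.id _ := by
    apply kZero_hom_ext
    intro p
    rw [AddMonoidHom.comp_apply]
    unfold tauG
    rw [tau_cls, del_te p.idem, AddMonoidHom.id_apply, KZero.cls_eq_kc]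
  exact DFunLike.congr_fun h x

end Pool.Agent.Lib.MP_c052b4_al.Bdry
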