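import Mathlib

/-!
# Twisted Laurent extensions

Let `T` be a twisted Laurent polynomial ring over `S`.  If `S` is (left) regular, then so is `T`,
and `K₀(S) → K₀(T)` is surjective.
-/

set_option autoImplicit false

namespace Pool.Agent.Lib.MP_c052b4_al

open Matrix

universe u v w

/-- `T` is a twisted Laurent polynomial ring over `S`: every element of `T` is uniquely of the
form `∑ₖ tᵏ ι(sₖ)`, where `t` is a unit and `t ι(s) = ι(σ s) t`. -/
structure LaurentExt (S : Type u) (T : Type v) [Ring S] [Ring T] where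
  /-- the inclusion -/
  ι : S →+* T
  /-- the variable -/
  t : Tˣ
  /-- the twist -/
  σ : S ≃+* S
  /-- commutation rule -/
  comm : ∀ s, (t : T) * ι s = ι (σ s) * t
  /-- right coordinates -/
  co : T →+ (ℤ →₀ S)
  co_injective : Function.Injective co
  co_t_mul : ∀ x k, co ((t : T) * x) k = co x (k - 1)
  co_mul_ι : ∀ x s k, co (x * ι s) k = co x k * s
  co_one : co 1 = Finsupp.single 0 1

namespace LaurentExt

variable {S : Type u} {T : Type v} [Ring S] [Ring T] (L : LaurentExt S T)

/-- powers of the variable, as elements of `T` -/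
def tp (k : ℤ) : T := ((L.t ^ k : Tˣ) : T)

theorem tp_zero : L.tp 0 = 1 := by simp [tp]

theorem tp_add (j k : ℤ) : L.tp (j + k) = L.tp j * L.tp k := by simp [tp, _root_.zpow_add]

theorem tp_one : L.tp 1 = L.t := by simp [tp]

theorem tp_mul_neg (k : ℤ) : L.tp k * L.tp (-k) = 1 := by rw [← tp_add]; simp [tp_zero]

theorem tp_neg_mul (k : ℤ) : L.tp (-k) * L.tp k = 1 := by rw [← tp_add]; simp [tp_zero]

/-- powers of the twist -/
def σp (k : ℤ) : S ≃+* S := L.σ ^ k

theorem σp_zero (s : S) : L.σp 0 s = s := by simp [σp]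

theorem σp_add (j k : ℤ) (s : S) : L.σp (j + k) s = L.σp j (L.σp k s) := by
  simp [σp, _root_.zpow_add]

theorem σp_one (s : S) : L.σp 1 s = L.σ s := by simp [σp]

theorem tp_mul_ι (k : ℤ) (s : S) : L.tp k * L.ι s = L.ι (L.σp k s) * L.tp k := by
  induction k using Int.induction_on generalizing s with
  | zero => simp [tp_zero, σp_zero]
  | succ n ih =>
    rw [add_comm, tp_add, tp_one, mul_assoc, ih, ← mul_assoc, L.comm, σp_add, σp_one, mul_assoc]
  | pred n ih =>
    have h1 : (-(n : ℤ) - 1) = -1 + -(n : ℤ) := by ring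
    have h2 : ∀ s, L.tp (-1) * L.ι s = L.ι (L.σp (-1) s) * L.tp (-1) := by
      intro s
      have h3 := L.comm (L.σp (-1) s)
      rw [← σp_one, ← σp_add] at h3
      simp only [Int.reduceNeg, add_neg_cancel, σp_zero] at h3
      have h4 : L.tp (-1) * (L.t * L.ι (L.σp (-1) s)) * L.tp (-1) =
          L.tp (-1) * (L.ι s * L.t) * L.tp (-1) := by rw [h3]
      have h5 : L.tp (-1) * (L.t : T) = 1 := by rw [← tp_one, tp_neg_mul]
      have h6 : (L.t : T) * L.tp (-1) = 1 := by rw [← tp_one, tp_mul_neg]
      rw [← mul_assoc, h5, one_mul, mul_assoc, mul_assoc, h6, mul_one] at h4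
      exact h4.symm
    rw [h1, tp_add, mul_assoc, ih, ← mul_assoc, h2, mul_assoc, σp_add]

theorem co_tp_mul (j : ℤ) (x : T) (k : ℤ) : L.co (L.tp j * x) k = L.co x (k - j) := by
  induction j using Int.induction_on generalizing k with
  | zero => simp [tp_zero]
  | succ n ih =>
    rw [add_comm, tp_add, tp_one, mul_assoc, L.co_t_mul, ih]
    congr 1; ring
  | pred n ih =>
    have h1 : (L.t : T) * (L.tp (-(n : ℤ) - 1) * x) = L.tp (-(n : ℤ)) * x := by
      rw [← mul_assoc, ← tp_one, ← tp_add]; congr 2; ring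
    have h2 := L.co_t_mul (L.tp (-(n : ℤ) - 1) * x) (k + 1)
    rw [h1, ih] at h2
    rw [add_sub_cancel_right] at h2
    rw [← h2]
    congr 1; ring

theorem co_tp_mul_ι (j : ℤ) (s : S) : L.co (L.tp j * L.ι s) = Finsupp.single j s := by
  ext k
  rw [co_tp_mul]
  have := L.co_mul_ι 1 s (k - j)
  rw [one_mul, L.co_one] at this
  rw [this, Finsupp.single_apply, Finsupp.single_apply]
  by_cases h : j = k
  · simp [h]
  · have h' : ¬ (0 = k - j) := fun h' => h (by omega)
    simp [h, h']

theorem expand (x : T) : x = (L.co x).sum fun k s => L.tp k * L.ι s := by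
  apply L.co_injective
  rw [Finsupp.sum, map_sum]
  simp only [co_tp_mul_ι]
  exact (Finsupp.sum_single (L.co x)).symm

theorem induction {P : T → Prop} (h0 : P 0) (hadd : ∀ x y, P x → P y → P (x + y))
    (h1 : ∀ k s, P (L.tp k * L.ι s)) (x : T) : P x := by
  rw [L.expand x, Finsupp.sum]
  exact Finset.sum_induction _ P hadd h0 fun k _ => h1 k _

theorem co_ι_mul (s : S) (x : T) (k : ℤ) : L.co (L.ι s * x) k = L.σp (-k) s * L.co x k := by
  induction x using L.induction with
  | h0 => simp
  | hadd x y hx hy => rw [mul_add, map_add, map_add, Finsupp.add_apply, Finsupp.add_apply, hx, hy,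
      mul_add]
  | h1 j s' =>
    have h2 : L.ι s * (L.tp j * L.ι s') = L.tp j * L.ι (L.σp (-j) s * s') := by
      rw [map_mul, ← mul_assoc, ← mul_assoc, tp_mul_ι, ← σp_add]
      simp [σp_zero]
    rw [h2, co_tp_mul_ι, co_tp_mul_ι, Finsupp.single_apply, Finsupp.single_apply]
    by_cases h : j = k
    · simp [h]
    · simp [h]

theorem co_mul_tp (x : T) (j k : ℤ) : L.co (x * L.tp j) k = L.σp (-j) (L.co x (k - j)) := by
  induction x using L.induction with
  | h0 => simp
  | hadd x y hx hy =>
    rw [add_mul, map_add, map_add, Finsupp.add_apply, Finsupp.add_apply, hx, hy, map_add]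
  | h1 i s =>
    have h2 : L.tp i * L.ι s * L.tp j = L.tp (i + j) * L.ι (L.σp (-j) s) := by
      rw [tp_add, mul_assoc, mul_assoc, tp_mul_ι, ← σp_add]
      simp [σp_zero]
    rw [h2, co_tp_mul_ι, co_tp_mul_ι, Finsupp.single_apply, Finsupp.single_apply]
    by_cases h : i + j = k
    · have h' : i = k - j := by omega
      simp [h, h']
    · have h' : ¬ (i = k - j) := by omega
      simp [h, h']

theorem co_ι (s : S) : L.co (L.ι s) = Finsupp.single 0 s := by
  have := L.co_tp_mul_ι 0 s
  rwa [tp_zero, one_mul] at this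

section Vec

variable {I : Type*}

/-- the `k`-th coordinate vector of a vector over `T` -/
noncomputable def cf (w : I → T) (k : ℤ) : I → S := fun i => L.co (w i) k

theorem cf_ext {w w' : I → T} (h : ∀ k, L.cf w k = L.cf w' k) : w = w' := by
  funext i
  apply L.co_injective
  ext k
  exact congrFun (h k) i

@[simp] theorem cf_zero (k : ℤ) : L.cf (0 : I → T) k = 0 := by
  funext i; simp [cf]

theorem cf_add (w w' : I → T) (k : ℤ) : L.cf (w + w') k = L.cf w k + L.cf w' k := by
  funext i; simp [cf]

theorem cf_sub (w w' : I → T) (k : ℤ) : L.cf (w - w') k = L.cf w k - L.cf w' k := by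
  funext i; simp [cf]

theorem cf_tp_smul (j : ℤ) (w : I → T) (k : ℤ) : L.cf (L.tp j • w) k = L.cf w (k - j) := by
  funext i; simp [cf, co_tp_mul]

theorem cf_ι_smul (s : S) (w : I → T) (k : ℤ) :
    L.cf (L.ι s • w) k = L.σp (-k) s • L.cf w k := by
  funext i; simp [cf, co_ι_mul]

/-- the vector over `T` given by a vector over `S` -/
def emb (v : I → S) : I → T := fun i => L.ι (v i)

theorem emb_add (v v' : I → S) : L.emb (v + v') = L.emb v + L.emb v' := by
  funext i; simp [emb]

@[simp] theorem emb_zero : L.emb (0 : I → S) = 0 := by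
  funext i; simp [emb]

theorem emb_smul (s : S) (v : I → S) : L.emb (s • v) = L.ι s • L.emb v := by
  funext i; simp [emb]

theorem cf_emb (v : I → S) (k : ℤ) : L.cf (L.emb v) k = if k = 0 then v else 0 := by
  funext i
  simp only [cf, emb, co_ι, Finsupp.single_apply]
  by_cases h : k = 0
  · simp [h]
  · have : ¬ (0 = k) := fun h' => h h'.symm
    simp [h, this]

theorem cf_tp_emb (j : ℤ) (v : I → S) (k : ℤ) :
    L.cf (L.tp j • L.emb v) k = if k = j then v else 0 := by
  rw [cf_tp_smul, cf_emb]
  by_cases h : k = j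
  · simp [h]
  · have : ¬ (k - j = 0) := by omega
    simp [h, this]

theorem cf_vecMul [Fintype I] {J : Type*} (w : I → T) (F : Matrix I J S) (k : ℤ) :
    L.cf (w ᵥ* F.map L.ι) k = L.cf w k ᵥ* F := by
  funext j
  simp only [cf, Matrix.vecMul, dotProduct, map_sum, Matrix.map_apply, Finsupp.finsetSum_apply,
    co_mul_ι]

variable [Finite I]

theorem exists_window (w : I → T) : ∃ (a : ℤ) (r : ℕ), ∀ k, (k < a ∨ a + r < k) →
    L.cf w k = 0 := by
  classical
  have : Fintype I := Fintype.ofFinite I
  let s : Finset ℤ := Finset.univ.biUnion fun i => (L.co (w i)).support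
  have hs : ∀ k, k ∉ s → L.cf w k = 0 := by
    intro k hk
    funext i
    by_contra h
    exact hk (Finset.mem_biUnion.2 ⟨i, Finset.mem_univ i, Finsupp.mem_support_iff.2 h⟩)
  obtain ⟨b, hb⟩ := s.bddAbove
  obtain ⟨a, ha⟩ := s.bddBelow
  refine ⟨a, (b - a).toNat, ?_⟩
  intro k hk
  apply hs
  intro hks
  have h1 := hb hks
  have h2 := ha hks
  omega

/-- assemble a vector from finitely many coordinates -/
theorem exists_of_cf (w : I → T) {J : Type*} (v : ℤ → J → S) :
    ∃ w' : J → T, ∀ k, (L.cf w' k = v k ∨ (L.cf w k = 0 ∧ L.cf w' k = 0)) := by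
  classical
  obtain ⟨a, r, h⟩ := L.exists_window w
  refine ⟨∑ k ∈ Finset.Icc a (a + r), L.tp k • L.emb (v k), fun k => ?_⟩
  have h1 : L.cf (∑ k ∈ Finset.Icc a (a + r), L.tp k • L.emb (v k)) k =
      if k ∈ Finset.Icc a (a + r) then v k else 0 := by
    have h2 : ∀ (s : Finset ℤ), L.cf (∑ k ∈ s, L.tp k • L.emb (v k)) k =
        if k ∈ s then v k else 0 := by
      intro s
      induction s using Finset.induction_on with
      | empty => simp
      | insert j s hj ih =>
        rw [Finset.sum_insert hj, cf_add, ih, cf_tp_emb]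
        by_cases hkj : k = j
        · subst hkj; simp [hj]
        · simp [hkj]
    exact h2 _
  rw [h1]
  by_cases hk : k ∈ Finset.Icc a (a + r)
  · left; simp [hk]
  · right
    refine ⟨h k ?_, by simp [hk]⟩
    rw [Finset.mem_Icc] at hk
    omega

theorem vec_expand (w : I → T) : ∃ s : Finset ℤ, w = ∑ k ∈ s, L.tp k • L.emb (L.cf w k) := by
  classical
  obtain ⟨a, r, h⟩ := L.exists_window w
  refine ⟨Finset.Icc a (a + r), ?_⟩
  apply L.cf_ext
  intro k
  have h2 : ∀ (s : Finset ℤ), L.cf (∑ k ∈ s, L.tp k • L.emb (L.cf w k)) k =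
      if k ∈ s then L.cf w k else 0 := by
    intro s
    induction s using Finset.induction_on with
    | empty => simp
    | insert j s hj ih =>
      rw [Finset.sum_insert hj, cf_add, ih, cf_tp_emb]
      by_cases hkj : k = j
      · subst hkj; simp [hj]
      · simp [hkj]
  rw [h2]
  by_cases hk : k ∈ Finset.Icc a (a + r)
  · simp [hk]
  · rw [if_neg hk]
    apply h
    rw [Finset.mem_Icc] at hk
    omega

end Vec

section Ind

variable {I : Type*}

/-- The `T`-module induced from an `S`-submodule of a free module. -/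
def ind (K : Submodule S (I → S)) : Submodule T (I → T) where
  carrier := {w | ∀ k, L.cf w k ∈ K}
  add_mem' := fun {w w'} hw hw' k => by
    rw [cf_add]; exact K.add_mem (hw k) (hw' k)
  zero_mem' := fun k => by rw [cf_zero]; exact K.zero_mem
  smul_mem' := by
    intro x w hw
    induction x using L.induction with
    | h0 => intro k; rw [zero_smul, cf_zero]; exact K.zero_mem
    | hadd x y hx hy => intro k; rw [add_smul, cf_add]; exact K.add_mem (hx k) (hy k)
    | h1 j s =>
      intro k
      rw [mul_smul, cf_tp_smul, cf_ι_smul]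
      exact K.smul_mem _ (hw _)

theorem mem_ind {K : Submodule S (I → S)} {w : I → T} : w ∈ L.ind K ↔ ∀ k, L.cf w k ∈ K :=
  Iff.rfl

theorem emb_mem_ind {K : Submodule S (I → S)} {v : I → S} (hv : v ∈ K) : L.emb v ∈ L.ind K := by
  intro k
  rw [cf_emb]
  split_ifs
  · exact hv
  · exact K.zero_mem

theorem ind_mono {K K' : Submodule S (I → S)} (h : K ≤ K') : L.ind K ≤ L.ind K' :=
  fun _ hw k => h (hw k)

end Ind

end LaurentExt

end Pool.Agent.Lib.MP_c052b4_al
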