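import Mathlib.Algebra.MonoidAlgebra.MapDomain
import Mathlib.LinearAlgebra.Dimension.Free
import Mathlib.GroupTheory.FiniteAbelian.Basic
import Pool.Agent.Lib.MP_c052b4_al.Laurent

/-!
# Group rings of infinite cyclic extensions
-/

set_option autoImplicit false

namespace Pool.Agent.Lib.MP_c052b4_al

open Matrix

universe u v w

/-- `G` is an extension of an infinite cyclic group, generated by the image of `t`,
by the image of `N`. -/
structure CycExt (N : Type v) (G : Type w) [Group N] [Group G] where
  /-- the inclusion -/
  i : N →* G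
  /-- the element of infinite order -/
  t : G
  /-- the twist -/
  α : N ≃* N
  /-- commutation rule -/
  comm : ∀ n, t * i n = i (α n) * t
  bij : Function.Bijective fun p : ℤ × N => t ^ p.1 * i p.2

namespace CycExt

variable {N : Type v} {G : Type w} [Group N] [Group G] (C : CycExt N G)

/-- coordinates on the group -/
noncomputable def e : ℤ × N ≃ G := Equiv.ofBijective _ C.bij

theorem e_apply (p : ℤ × N) : C.e p = C.t ^ p.1 * C.i p.2 := rfl

theorem eq_one {k : ℤ} {n : N} (h : C.t ^ k * C.i n = 1) : k = 0 ∧ n = 1 := by
  have : C.e (k, n) = C.e (0, 1) := by simp [e_apply, h]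
  simpa using C.e.injective this

variable (R : Type u) [Ring R]

open MonoidAlgebra in
/-- coordinates on the group ring -/
noncomputable def co : MonoidAlgebra R G →+ (ℤ →₀ MonoidAlgebra R N) :=
  ((Finsupp.mapRange.addMonoidHom (coeffAddEquiv (R := R) (M := N)).symm.toAddMonoidHom).comp
    (Finsupp.curryAddEquiv (α := ℤ) (β := N) (M := R)).toAddMonoidHom).comp
    ((coeffAddEquiv (R := R) (M := ℤ × N)).toAddMonoidHom.comp
      (mapDomainAddEquiv R C.e.symm).toAddMonoidHom)

theorem co_coeff (x : MonoidAlgebra R G) (k : ℤ) (n : N) :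
    (C.co R x k).coeff n = x.coeff (C.t ^ k * C.i n) := by
  simp only [co, AddMonoidHom.comp_apply, AddEquiv.toAddMonoidHom_eq_coe, AddMonoidHom.coe_coe,
    Finsupp.mapRange.addMonoidHom_apply, Finsupp.mapRange_apply]
  change (MonoidAlgebra.mapDomainAddEquiv R C.e.symm x).coeff (k, n) = _
  rw [MonoidAlgebra.coeff_mapDomainAddEquiv]
  rfl

/-- The group ring is a twisted Laurent extension. -/
noncomputable def laurent : LaurentExt (MonoidAlgebra R N) (MonoidAlgebra R G) where
  ι := MonoidAlgebra.mapDomainRingHom R C.i
  t := ⟨.single C.t 1, .single C.t⁻¹ 1, by simp [MonoidAlgebra.one_def],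
    by simp [MonoidAlgebra.one_def]⟩
  σ := MonoidAlgebra.mapDomainRingEquiv R C.α
  comm := by
    intro s
    induction s using MonoidAlgebra.induction_linear with
    | zero => simp
    | add x y hx hy => simp only [map_add, mul_add, add_mul, hx, hy]
    | single m r =>
      simp only [MonoidAlgebra.mapDomainRingHom_apply, MonoidAlgebra.mapDomain_single,
        MonoidAlgebra.mapDomainRingEquiv_single, MonoidAlgebra.single_mul_single, C.comm]
      simp
  co := C.co R
  co_injective := by
    intro x y hxy
    ext g
    obtain ⟨⟨k, n⟩, rfl⟩ := C.bij.2 g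
    change x.coeff (C.t ^ k * C.i n) = y.coeff (C.t ^ k * C.i n)
    rw [← C.co_coeff R, ← C.co_coeff R, hxy]
  co_t_mul := by
    intro x k
    ext n
    change (C.co R (MonoidAlgebra.single C.t 1 * x) k).coeff n = (C.co R x (k - 1)).coeff n
    rw [co_coeff, co_coeff, MonoidAlgebra.coeff_single_mul_apply, one_mul, ← mul_assoc]
    congr 2
    rw [_root_.zpow_sub, ← _root_.zpow_neg_one]
    rw [← _root_.zpow_add, ← _root_.zpow_sub]
    congr 1; ring
  co_mul_ι := by
    intro x s k
    ext n
    rw [co_coeff]
    induction s using MonoidAlgebra.induction_linear with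
    | zero => simp
    | add y z hy hz =>
      rw [map_add, mul_add, mul_add, MonoidAlgebra.coeff_add, MonoidAlgebra.coeff_add,
        Finsupp.add_apply, Finsupp.add_apply, hy, hz]
    | single m r =>
      simp only [MonoidAlgebra.mapDomainRingHom_apply, MonoidAlgebra.mapDomain_single,
        MonoidAlgebra.coeff_mul_single_apply, co_coeff, map_mul, map_inv, mul_assoc]
  co_one := by
    classical
    ext k n
    rw [co_coeff, MonoidAlgebra.one_def, MonoidAlgebra.coeff_single, Finsupp.single_apply,
      Finsupp.single_apply]
    by_cases h : 1 = C.t ^ k * C.i n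
    · obtain ⟨rfl, rfl⟩ := C.eq_one h.symm
      simp [MonoidAlgebra.one_def]
    · rw [if_neg h]
      by_cases hk : 0 = k
      · subst hk
        simp only [_root_.zpow_zero, one_mul] at h
        have hn : n ≠ 1 := by rintro rfl; exact h (map_one C.i).symm
        simp [MonoidAlgebra.one_def, hn.symm]
      · rw [if_neg hk]; rfl

theorem laurent_ι : (C.laurent R).ι = MonoidAlgebra.mapDomainRingHom R C.i := rfl

end CycExt

end Pool.Agent.Lib.MP_c052b4_al
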