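import Pool.Agent.Lib.MP_c052b4_al.Good

/-!
# Regular rings
-/

set_option autoImplicit false

namespace Pool.Agent.Lib.MP_c052b4_al

universe u v w

/-- `FinProjRes R n M`: the left `R`-module `M` has a resolution
`0 → Pₙ → ⋯ → P₁ → P₀ → M → 0` by finitely generated projective left `R`-modules. -/
def FinProjRes (R : Type u) [Ring R] : ℕ → ∀ (M : Type u) [AddCommGroup M] [Module R M], Prop
  | 0 => fun M _ _ => Module.Finite R M ∧ Module.Projective R M
  | (n + 1) => fun M _ _ => ∃ (P : Type u) (_ : AddCommGroup P) (_ : Module R P)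
      (f : P →ₗ[R] M), Module.Finite R P ∧ Module.Projective R P ∧ Function.Surjective f ∧
        FinProjRes R n (LinearMap.ker f)

/-- A ring is (left) regular if it is left Noetherian and every finitely generated left module
has a finite resolution by finitely generated projective left modules. -/
def IsRegularRing (R : Type u) [Ring R] : Prop :=
  IsNoetherianRing R ∧ ∀ (M : Type u) [AddCommGroup M] [Module R M], Module.Finite R M →
    ∃ n : ℕ, FinProjRes R n M

theorem Good.of_finite_projective {S : Type u} [Ring S] {M : Type w} [AddCommGroup M]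
    [Module S M] [Module.Finite S M] [Module.Projective S M] : Good (RingHom.id S) M := by
  obtain ⟨p, ⟨f⟩⟩ := exists_idemMat (S := S) (M := M)
  rw [good_iff p.idem f]
  exact ⟨_, KZero.map_id _⟩

theorem HasRes.finProjRes {S : Type u} {T : Type v} [Ring S] [Ring T] {φ : S →+* T} {n : ℕ} :
    ∀ {M : Type v} [AddCommGroup M] [Module T M], HasRes φ n M → FinProjRes T n M := by
  induction n with
  | zero => intro M _ _ h; exact ⟨Good.finite h, Good.projective h⟩
  | succ n ih =>
    intro M _ _ h
    obtain ⟨m, f, hf, h⟩ := h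
    exact ⟨Fin m → T, inferInstance, inferInstance, f, inferInstance, inferInstance, hf, ih h⟩

theorem FinProjRes.hasRes {S : Type u} [Ring S] {n : ℕ} :
    ∀ {M : Type u} [AddCommGroup M] [Module S M], FinProjRes S n M →
      HasRes (RingHom.id S) n M := by
  induction n with
  | zero =>
    intro M _ _ h
    have := h.1
    have := h.2
    exact Good.of_finite_projective
  | succ n ih =>
    intro M _ _ h
    obtain ⟨P, _, _, f, hP1, hP2, hf, h⟩ := h
    have h1 : HasRes (RingHom.id S) n P :=
      HasRes.mono (Nat.zero_le n) (show HasRes (RingHom.id S) 0 P from Good.of_finite_projective)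
    exact HasRes.coker (LinearMap.ker f).subtype f Subtype.val_injective hf (by simp) (ih h) h1

theorem IsRegularRing.hasRes {S : Type u} [Ring S] (h : IsRegularRing S) (M : Type u)
    [AddCommGroup M] [Module S M] [Module.Finite S M] :
    ∃ n : ℕ, HasRes (RingHom.id S) n M := by
  obtain ⟨n, hn⟩ := h.2 M inferInstance
  exact ⟨n, hn.hasRes⟩

theorem isRegularRing_of_hasRes {S : Type u} {T : Type v} [Ring S] [Ring T] {φ : S →+* T}
    (hT : IsNoetherianRing T)
    (h : ∀ (n : ℕ) (M : Submodule T (Fin n → T)), ∃ k : ℕ, HasRes φ k M) :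
    IsRegularRing T := by
  refine ⟨hT, ?_⟩
  intro M _ _ hM
  obtain ⟨n, f, hf⟩ := Module.Finite.exists_fin' T M
  obtain ⟨k, hk⟩ := h n (LinearMap.ker f)
  refine ⟨k + 1, HasRes.finProjRes (φ := φ) ?_⟩
  exact ⟨n, f, hf, hk⟩

end Pool.Agent.Lib.MP_c052b4_al
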