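import Pool.Agent.Lib.MP_c052b4_al.LaurentRes
import Pool.Agent.Lib.MP_c052b4_al.RegRing

/-!
# Twisted Laurent extensions of regular rings are regular, and `K₀` is induced
-/

set_option autoImplicit false

namespace Pool.Agent.Lib.MP_c052b4_al

open Matrix

universe u v w

namespace LaurentExt

variable {S : Type u} {T : Type v} [Ring S] [Ring T] (L : LaurentExt S T)

section

variable {J : Type} [Finite J]

/-- elements of `M` with coordinates in the window `[0, d]` -/
def win (M : Submodule T (J → T)) (d : ℕ) (w : J → T) : Prop :=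
  w ∈ M ∧ ∀ k : ℤ, (k < 0 ∨ (d : ℤ) < k) → L.cf w k = 0

/-- leading coefficients -/
def lead (M : Submodule T (J → T)) (d : ℕ) : Submodule S (J → S) where
  carrier := {v | ∃ w, L.win M d w ∧ L.cf w d = v}
  add_mem' := by
    rintro v v' ⟨w, ⟨hw, hw2⟩, rfl⟩ ⟨w', ⟨hw', hw2'⟩, rfl⟩
    refine ⟨w + w', ⟨M.add_mem hw hw', fun k hk => ?_⟩, L.cf_add _ _ _⟩
    rw [cf_add, hw2 k hk, hw2' k hk, add_zero]
  zero_mem' := ⟨0, ⟨M.zero_mem, fun k _ => L.cf_zero k⟩, L.cf_zero _⟩
  smul_mem' := by
    rintro s v ⟨w, ⟨hw, hw2⟩, rfl⟩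
    refine ⟨L.ι (L.σp (d : ℤ) s) • w, ⟨M.smul_mem _ hw, fun k hk => ?_⟩, ?_⟩
    · rw [cf_ι_smul, hw2 k hk, smul_zero]
    · rw [cf_ι_smul, ← σp_add, neg_add_cancel, σp_zero]

theorem lead_mono (M : Submodule T (J → T)) : Monotone (L.lead M) := by
  refine monotone_nat_of_le_succ fun d => ?_
  rintro v ⟨w, ⟨hw, hw2⟩, rfl⟩
  refine ⟨L.tp 1 • w, ⟨M.smul_mem _ hw, fun k hk => ?_⟩, ?_⟩
  · rw [cf_tp_smul]
    apply hw2
    push_cast at hk
    omega
  · rw [cf_tp_smul]
    congr 1
    push_cast; ring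

theorem exists_lat_of_win {M : Submodule T (J → T)} {d : ℕ} {w : J → T} (hw : L.win M d w) :
    ∃ u : L.lat d M, L.Phi d (L.emb (u : _ → S)) = w := by
  let u : Fin (d + 1) × J → S := fun x => L.σp ((x.1 : ℕ) : ℤ) (L.cf w ((x.1 : ℕ) : ℤ) x.2)
  have hu : L.Phi d (L.emb u) = w := by
    funext j
    apply L.co_injective
    ext D
    rw [co_Phi]
    simp only [emb, co_ι, u]
    by_cases hD : D < 0 ∨ (d : ℤ) < D
    · have h1 := congrFun (hw.2 D hD) j
      change L.co (w j) D = 0 at h1
      rw [h1]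
      refine Finset.sum_eq_zero fun a _ => ?_
      have ha : ((a : ℕ) : ℤ) ≤ d := by have := a.2; omega
      rw [Finsupp.single_apply, if_neg (by omega), map_zero]
    · push Not at hD
      obtain ⟨D', rfl⟩ := Int.eq_ofNat_of_zero_le hD.1
      have hD' : D' < d + 1 := by omega
      rw [Finset.sum_eq_single (⟨D', hD'⟩ : Fin (d + 1))]
      · simp only [sub_self, Finsupp.single_eq_same]
        rw [← σp_add, neg_add_cancel, σp_zero]
        rfl
      · intro b _ hb
        have : ¬ ((0 : ℤ) = (D' : ℤ) - ((b : ℕ) : ℤ)) := by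
          intro h0
          apply hb
          apply Fin.ext
          simp only
          omega
        rw [Finsupp.single_apply, if_neg this, map_zero]
      · intro h; exact absurd (Finset.mem_univ _) h
  exact ⟨⟨u, by change L.Phi d (L.emb u) ∈ M; rw [hu]; exact hw.1⟩, hu⟩

theorem exists_gen [IsNoetherianRing S] (M : Submodule T (J → T)) :
    ∃ d : ℕ, M ≤ Submodule.span T
      (Set.range fun u : L.lat d M => L.Phi d (L.emb (u : Fin (d + 1) × J → S))) := by
  obtain ⟨N, hN⟩ := monotone_stabilizes_iff_noetherian.2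
    (inferInstance : IsNoetherian S (J → S)) ⟨L.lead M, L.lead_mono M⟩
  have hN' : ∀ m, N ≤ m → L.lead M N = L.lead M m := hN
  refine ⟨N, ?_⟩
  set G := Submodule.span T
    (Set.range fun u : L.lat N M => L.Phi N (L.emb (u : Fin (N + 1) × J → S))) with hG
  have hbase : ∀ w, L.win M N w → w ∈ G := by
    intro w hw
    obtain ⟨u, hu⟩ := L.exists_lat_of_win hw
    exact Submodule.subset_span ⟨u, hu⟩
  have hstep : ∀ r : ℕ, ∀ w, L.win M (N + r) w → w ∈ G := by
    intro r
    induction r with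
    | zero => exact hbase
    | succ r ih =>
      intro w hw
      have h1 : L.cf w ((N + (r + 1) : ℕ) : ℤ) ∈ L.lead M (N + (r + 1)) := ⟨w, hw, rfl⟩
      rw [← hN' _ (by omega)] at h1
      obtain ⟨w', hw', h2⟩ := h1
      have h3 : L.win M (N + r) (w - L.tp ((r + 1 : ℕ) : ℤ) • w') := by
        refine ⟨M.sub_mem hw.1 (M.smul_mem _ hw'.1), fun k hk => ?_⟩
        rw [cf_sub, cf_tp_smul]
        by_cases hk2 : k = ((N + (r + 1) : ℕ) : ℤ)
        · subst hk2
          have h4 : ((N + (r + 1) : ℕ) : ℤ) - ((r + 1 : ℕ) : ℤ) = (N : ℤ) := by push_cast; ring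
          rw [h4, h2, sub_self]
        · rw [hw.2 k (by push_cast at hk hk2 ⊢; omega),
            hw'.2 _ (by push_cast at hk hk2 ⊢; omega), sub_self]
      have h4 := ih _ h3
      have h5 := G.add_mem h4 (G.smul_mem (L.tp ((r + 1 : ℕ) : ℤ)) (hbase _ hw'))
      simpa using h5
  intro w hw
  obtain ⟨a, r, hwin⟩ := L.exists_window w
  have h1 : L.win M (N + r) (L.tp (-a) • w) := by
    refine ⟨M.smul_mem _ hw, fun k hk => ?_⟩
    rw [cf_tp_smul]
    apply hwin
    push_cast at hk
    omega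
  have h2 := G.smul_mem (L.tp a) (hstep _ _ h1)
  rwa [← mul_smul, tp_mul_neg, one_smul] at h2

end

theorem exists_hasRes (hS : IsRegularRing S) {J : Type} [Finite J] (M : Submodule T (J → T)) :
    ∃ n : ℕ, HasRes L.ι n M := by
  have hN : IsNoetherianRing S := hS.1
  obtain ⟨d, hd⟩ := L.exists_gen M
  obtain ⟨n1, h1⟩ := hS.hasRes (L.lat d M)
  obtain ⟨n2, h2⟩ := hS.hasRes (L.lat0 d M)
  exact ⟨_, L.hasRes_of_lat d hd (h1.mono (le_max_left n1 n2)) (h2.mono (le_max_right n1 n2))⟩

include L in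
theorem isNoetherianRing (hS : IsRegularRing S) : IsNoetherianRing T := by
  have h1 : IsNoetherian T (Fin 1 → T) := by
    refine ⟨fun M => ?_⟩
    obtain ⟨n, hn⟩ := L.exists_hasRes hS M
    have := hn.finite
    exact Module.Finite.iff_fg.1 this
  exact isNoetherian_of_linearEquiv (LinearEquiv.funUnique (Fin 1) T T)

include L in
/-- A twisted Laurent extension of a regular ring is regular. -/
theorem isRegularRing (hS : IsRegularRing S) : IsRegularRing T :=
  isRegularRing_of_hasRes (φ := L.ι) (L.isNoetherianRing hS) fun _ M => L.exists_hasRes hS M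

/-- `K₀(S) → K₀(T)` is surjective for a twisted Laurent extension of a regular ring. -/
theorem map_surjective (hS : IsRegularRing S) : Function.Surjective (KZero.map L.ι) := by
  apply map_surjective_of_forall
  intro m e he
  obtain ⟨n, hn⟩ := L.exists_hasRes hS (img e)
  have := img_projective he
  exact hn.good.stabInd he (LinearEquiv.refl _ _)

end LaurentExt

end Pool.Agent.Lib.MP_c052b4_al
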