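import Pool.Agent.Lib.MP_c052b4_al.Vas
import Pool.Agent.Lib.MP_c052b4_al.RegRing

/-!
# Nilpotent matrices over regular rings do not contribute to `K₁`
-/

set_option autoImplicit false
set_option linter.unusedSectionVars false

namespace Pool.Agent.Lib.MP_c052b4_al

open Matrix

universe u v w

section Nil

variable {R : Type u} {T : Type v} [Ring R] [Ring T] {c : R →+* T} {s : T}

theorem exists_matrix {n m : ℕ} (f : (Fin n → R) →ₗ[R] (Fin m → R)) :
    ∃ M : Matrix (Fin n) (Fin m) R, ∀ v, v ᵥ* M = f v := by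
  refine ⟨LinearMap.toMatrixRight' f, fun v => ?_⟩
  have := LinearMap.toMatrixRight'.symm_apply_apply f
  exact LinearMap.congr_fun this v

theorem matrix_ext {n m : ℕ} {M N : Matrix (Fin n) (Fin m) R} (h : ∀ v, v ᵥ* M = v ᵥ* N) :
    M = N := by
  apply (LinearMap.toMatrixRight' (R := R) (m := Fin n) (n := Fin m)).symm.injective
  apply LinearMap.ext
  intro v
  exact h v

/-- a chain of submodules for a nilpotent matrix -/
structure Chain (q : ℕ) {n : ℕ} (N : Matrix (Fin n) (Fin n) R)
    (K : ℕ → Submodule R (Fin n → R)) : Prop where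
  mono : Monotone K
  zero : K 0 = ⊥
  top : K (q + 1) = ⊤
  step : ∀ j v, v ∈ K (j + 1) → v ᵥ* N ∈ K j

theorem nil_base (hs : ∀ x, s * c x = c x * s) (q : ℕ) : ∀ {n : ℕ}
    (N : Matrix (Fin n) (Fin n) R) (K : ℕ → Submodule R (Fin n → R)), Chain q N K →
    (∀ j, j ≤ q → Good (RingHom.id R) (K j)) → ks c s N = 0 := by
  induction q with
  | zero =>
    intro n N K hK _
    have h : N = 0 := by
      apply matrix_ext
      intro v
      rw [Matrix.vecMul_zero]
      have h1 := hK.step 0 v (by rw [hK.top]; trivial)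
      rwa [hK.zero, Submodule.mem_bot] at h1
    rw [h, ks_zero]
  | succ q ih =>
    intro n N K hK hgood
    obtain ⟨p, ⟨θ⟩, -⟩ := hgood (q + 1) le_rfl
    have hN : ∀ v : Fin n → R, v ᵥ* N ∈ K (q + 1) := fun v => hK.step (q + 1) v (by
      rw [hK.top]; trivial)
    obtain ⟨Rm, hRm⟩ := exists_matrix ((img p.mat).subtype ∘ₗ θ.symm.toLinearMap ∘ₗ
      LinearMap.codRestrict (K (q + 1)) (Matrix.vecMulLinear N) hN)
    obtain ⟨Pm, hPm⟩ := exists_matrix ((K (q + 1)).subtype ∘ₗ θ.toLinearMap ∘ₗ
      LinearMap.codRestrict (img p.mat) (Matrix.vecMulLinear p.mat) (vecMul_mem_img p.mat))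
    have hR1 : ∀ v, v ᵥ* Rm = (θ.symm ⟨v ᵥ* N, hN v⟩ : img p.mat) := hRm
    have hP1 : ∀ v, v ᵥ* Pm = (θ ⟨v ᵥ* p.mat, vecMul_mem_img p.mat v⟩ : K (q + 1)) := hPm
    have hP2 : ∀ v : img p.mat, (v : Fin p.size → R) ᵥ* Pm = (θ v : K (q + 1)) := by
      intro v
      rw [hP1]
      congr 2
      apply Subtype.ext
      exact (mem_img p.idem).1 v.2
    have hRP : ∀ v, (v ᵥ* Rm) ᵥ* Pm = v ᵥ* N := by
      intro v
      rw [hR1, hP2, LinearEquiv.apply_symm_apply]
    have hPmem : ∀ v, v ᵥ* Pm ∈ K (q + 1) := fun v => by rw [hP1]; exact (θ _).2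
    have h1 : N = Rm * Pm := by
      apply matrix_ext
      intro v
      rw [← Matrix.vecMul_vecMul, hRP]
    rw [h1, ks_comm hs]
    refine ih (Pm * Rm) (fun j => if j ≤ q then (img p.mat) ⊓ (K j).comap (Matrix.vecMulLinear Pm)
      else ⊤) ?_ ?_
    · constructor
      · refine monotone_nat_of_le_succ fun j => ?_
        by_cases h : j + 1 ≤ q
        · rw [if_pos h, if_pos (by omega)]
          exact inf_le_inf_left _ (Submodule.comap_mono (hK.mono (Nat.le_succ j)))
        · rw [if_neg h]
          exact le_top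
      · rw [if_pos (Nat.zero_le q), eq_bot_iff]
        rintro v ⟨hv1, hv2⟩
        have hv3 : v ᵥ* Pm ∈ K 0 := hv2
        rw [hK.zero, Submodule.mem_bot] at hv3
        have hv4 := hP2 ⟨v, hv1⟩
        rw [hv3] at hv4
        have hv5 : θ ⟨v, hv1⟩ = 0 := Subtype.ext hv4.symm
        rw [LinearEquiv.map_eq_zero_iff] at hv5
        exact congrArg Subtype.val hv5
      · rw [if_neg (by omega)]
      · intro j v hv
        by_cases h : j ≤ q
        · rw [if_pos h]
          have hv2 : v ᵥ* Pm ∈ K (j + 1) := by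
            by_cases h' : j + 1 ≤ q
            · rw [if_pos h'] at hv
              exact hv.2
            · have : j = q := by omega
              subst this
              exact hPmem v
          refine ⟨?_, ?_⟩
          · rw [← Matrix.vecMul_vecMul, hR1]
            exact (θ.symm _).2
          · change (v ᵥ* (Pm * Rm)) ᵥ* Pm ∈ K j
            rw [← Matrix.vecMul_vecMul, hRP]
            exact hK.step j _ hv2
        · rw [if_neg h]; trivial
    · intro j hj
      rw [if_pos hj]
      have hle : K j ≤ K (q + 1) := hK.mono (by omega)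
      let F : ((img p.mat) ⊓ (K j).comap (Matrix.vecMulLinear Pm) : Submodule R _) →ₗ[R] K j :=
        (Matrix.vecMulLinear Pm).restrict (fun v hv => hv.2)
      have hF : ∀ x, ((F x : K j) : Fin n → R) = (x : Fin p.size → R) ᵥ* Pm := fun x => rfl
      refine (hgood j (by omega)).congr (LinearEquiv.ofBijective F ⟨?_, ?_⟩).symm
      · rw [← LinearMap.ker_eq_bot, LinearMap.ker_eq_bot']
        intro x hx
        have h2 := hF x
        rw [hx] at h2
        have h3 := hP2 ⟨x, x.2.1⟩
        have h4 : θ ⟨x, x.2.1⟩ = 0 := Subtype.ext (h3.symm.trans h2.symm)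
        rw [LinearEquiv.map_eq_zero_iff] at h4
        have h5 : (x : Fin p.size → R) = 0 := congrArg (fun y : img p.mat => (y : Fin p.size → R)) h4
        exact Subtype.ext h5
      · intro w
        have h2 : ((θ.symm ⟨w, hle w.2⟩ : img p.mat) : Fin p.size → R) ᵥ* Pm = w := by
          rw [hP2, LinearEquiv.apply_symm_apply]
        refine ⟨⟨(θ.symm ⟨w, hle w.2⟩ : img p.mat), (θ.symm _).2, ?_⟩, ?_⟩
        · change ((θ.symm ⟨w, hle w.2⟩ : img p.mat) : Fin p.size → R) ᵥ* Pm ∈ K j
          rw [h2]
          exact w.2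
        · apply Subtype.ext
          exact h2

theorem good_bot {n : ℕ} {K : Submodule R (Fin n → R)} (h : K = ⊥) :
    Good (RingHom.id R) K := by
  subst h
  exact Good.of_finite_projective

theorem nil_main (hs : ∀ x, s * c x = c x * s) {q : ℕ} (hq : 0 < q) (k : ℕ) : ∀ {n : ℕ}
    (N : Matrix (Fin n) (Fin n) R) (K : ℕ → Submodule R (Fin n → R)), Chain q N K →
    (∀ i, i < q → HasRes (RingHom.id R) ((k + i) / q) (K (i + 1))) → ks c s N = 0 := by
  induction k with
  | zero =>
    intro n N K hK h
    refine nil_base hs q N K hK ?_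
    intro j hj
    cases j with
    | zero => exact good_bot hK.zero
    | succ i =>
      have h1 := h i (by omega)
      have h2 : (0 + i) / q = 0 := by
        rw [zero_add]
        exact Nat.div_eq_of_lt (by omega)
      rw [h2] at h1
      exact h1
  | succ k ih =>
    intro n N K hK h
    have h0 := h (q - 1) (by omega)
    have h1 : (k + 1 + (q - 1)) / q = k / q + 1 := by
      have : k + 1 + (q - 1) = k + q := by omega
      rw [this, Nat.add_div_right _ hq]
    have h2 : q - 1 + 1 = q := by omega
    rw [h1, h2] at h0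
    obtain ⟨m, π, hπ, hker⟩ := h0
    have hN : ∀ v : Fin n → R, v ᵥ* N ∈ K q := fun v => hK.step q v (by
      rw [hK.top]; trivial)
    obtain ⟨c0, hc0⟩ := Module.projective_lifting_property π
      (LinearMap.codRestrict (K q) (Matrix.vecMulLinear N) hN) hπ
    obtain ⟨C, hC⟩ := exists_matrix c0
    obtain ⟨P, hP⟩ := exists_matrix ((K q).subtype ∘ₗ π)
    have hP1 : ∀ v, v ᵥ* P = (π v : K q) := hP
    have hCP : ∀ v, (v ᵥ* C) ᵥ* P = v ᵥ* N := by
      intro v
      rw [hP1, hC]
      exact congrArg Subtype.val (LinearMap.congr_fun hc0 v)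
    have hNCP : N = C * P := by
      apply matrix_ext
      intro v
      rw [← Matrix.vecMul_vecMul, hCP]
    rw [hNCP, ks_comm hs]
    refine ih (P * C) (fun j => Nat.casesOn j ⊥ (fun i => (K i).comap (Matrix.vecMulLinear P)))
      ?_ ?_
    · constructor
      · refine monotone_nat_of_le_succ fun j => ?_
        cases j with
        | zero => exact bot_le
        | succ j => exact Submodule.comap_mono (hK.mono (Nat.le_succ j))
      · rfl
      · rw [eq_top_iff]
        intro v _
        change v ᵥ* P ∈ K q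
        rw [hP1]
        exact (π v).2
      · intro j v hv
        cases j with
        | zero =>
          have h3 : v ᵥ* P ∈ K 0 := hv
          rw [hK.zero, Submodule.mem_bot] at h3
          change v ᵥ* (P * C) ∈ (⊥ : Submodule R (Fin m → R))
          rw [← Matrix.vecMul_vecMul, h3, Matrix.zero_vecMul]
          exact Submodule.zero_mem _
        | succ j =>
          have h3 : v ᵥ* P ∈ K (j + 1) := hv
          change (v ᵥ* (P * C)) ᵥ* P ∈ K j
          rw [← Matrix.vecMul_vecMul, hCP]
          exact hK.step j _ h3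
    · intro i hi
      have hi1 : K i ≤ K q := hK.mono (by omega)
      have hker2 : ∀ v, π v = 0 ↔ v ᵥ* P = 0 := by
        intro v
        rw [hP1]
        constructor
        · intro h3; rw [h3]; rfl
        · intro h3; exact Subtype.ext h3
      have hle : LinearMap.ker π ≤ (K i).comap (Matrix.vecMulLinear P) := by
        intro v hv
        have h3 : v ᵥ* P = 0 := (hker2 v).1 hv
        change v ᵥ* P ∈ K i
        rw [h3]
        exact Submodule.zero_mem _
      refine HasRes.ext (B := LinearMap.ker π) (A := K i) (Submodule.inclusion hle)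
        ((Matrix.vecMulLinear P).restrict (p := (K i).comap (Matrix.vecMulLinear P)) (q := K i)
          (fun v hv => hv)) (Submodule.inclusion_injective hle) ?_ ?_ ?_ ?_
      · rintro ⟨w, hw⟩
        obtain ⟨v, hv⟩ := hπ ⟨w, hi1 hw⟩
        have h3 : v ᵥ* P = w := by rw [hP1, hv]
        refine ⟨⟨v, ?_⟩, ?_⟩
        · change v ᵥ* P ∈ K i
          rw [h3]; exact hw
        · apply Subtype.ext
          exact h3
      · ext ⟨x, hx⟩
        simp only [LinearMap.mem_range, LinearMap.mem_ker]
        constructor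
        · rintro ⟨⟨y, hy⟩, hyx⟩
          have h3 : y = x := congrArg Subtype.val hyx
          subst h3
          apply Subtype.ext
          exact (hker2 y).1 hy
        · intro h3
          have h4 : x ᵥ* P = 0 := congrArg Subtype.val h3
          exact ⟨⟨x, (hker2 x).2 h4⟩, rfl⟩
      · exact hker.mono (Nat.div_le_div_right (Nat.le_add_right k i))
      · cases i with
        | zero => exact HasRes.mono (Nat.zero_le _) (n := 0) (good_bot hK.zero)
        | succ i =>
          have h3 := h i (by omega)
          have h4 : k + 1 + i = k + (i + 1) := by omega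
          rwa [h4] at h3

theorem ks_nil_fin (hR : IsRegularRing R) (hs : ∀ x, s * c x = c x * s) {n : ℕ}
    (N : Matrix (Fin n) (Fin n) R) (hN : IsNilpotent N) : ks c s N = 0 := by
  obtain ⟨r, hr⟩ := hN
  have hr' : N ^ (r + 1 + 1) = 0 := by
    rw [pow_add, pow_add, hr, zero_mul, zero_mul]
  have hnoeth := hR.1
  let K : ℕ → Submodule R (Fin n → R) := fun j => LinearMap.ker (Matrix.vecMulLinear (N ^ j))
  have hmem : ∀ j v, v ∈ K j ↔ v ᵥ* (N ^ j) = 0 := fun j v => Iff.rfl
  have hK : Chain (r + 1) N K := by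
    constructor
    · refine monotone_nat_of_le_succ fun j v hv => ?_
      rw [hmem] at hv ⊢
      rw [pow_succ, ← Matrix.vecMul_vecMul, hv, Matrix.zero_vecMul]
    · rw [eq_bot_iff]
      intro v hv
      rw [hmem, pow_zero, Matrix.vecMul_one] at hv
      exact hv
    · rw [eq_top_iff]
      intro v _
      rw [hmem, hr', Matrix.vecMul_zero]
    · intro j v hv
      rw [hmem] at hv ⊢
      rwa [pow_succ', ← Matrix.vecMul_vecMul] at hv
  have hfin : ∀ j, ∃ d : ℕ, HasRes (RingHom.id R) d (K j) := fun j => hR.hasRes (K j)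
  choose d hd using hfin
  set D := (Finset.range (r + 1)).sup fun i => d (i + 1) with hD
  refine nil_main hs (Nat.succ_pos r) (D * (r + 1)) N K hK ?_
  intro i hi
  refine (hd (i + 1)).mono ?_
  have h1 : d (i + 1) ≤ D := Finset.le_sup (f := fun i => d (i + 1)) (Finset.mem_range.2 hi)
  refine h1.trans ?_
  rw [Nat.le_div_iff_mul_le (Nat.succ_pos r)]
  exact Nat.le_add_right _ _

/-- nilpotent matrices over a regular ring do not contribute to `K₁` -/
theorem ks_nil (hR : IsRegularRing R) (hs : ∀ x, s * c x = c x * s) {n : Type*} [Fintype n]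
    [DecidableEq n] (N : Matrix n n R) (hN : IsNilpotent N) : ks c s N = 0 := by
  rw [← ks_reindex (Fintype.equivFin n) N]
  apply ks_nil_fin hR hs
  obtain ⟨r, hr⟩ := hN
  refine ⟨r, ?_⟩
  have h1 : ∀ k : ℕ, (N.submatrix (Fintype.equivFin n).symm (Fintype.equivFin n).symm) ^ k =
      (N ^ k).submatrix (Fintype.equivFin n).symm (Fintype.equivFin n).symm := by
    intro k
    induction k with
    | zero => rw [pow_zero, pow_zero, Matrix.submatrix_one_equiv]
    | succ k ih => rw [pow_succ, pow_succ, ih, Matrix.submatrix_mul_equiv]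
  rw [h1, hr]
  rfl

end Nil

end Pool.Agent.Lib.MP_c052b4_al
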