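import Pool.Agent.Lib.MP_c052b4_al.Gen1

/-!
# Generation of `K₁` of Laurent polynomial rings over regular rings
-/

set_option autoImplicit false
set_option linter.unusedSectionVars false

namespace Pool.Agent.Lib.MP_c052b4_al

open Matrix Kern

universe u v w

section Lin

variable {R : Type u} [Ring R] {n : Type v} [Fintype n] [DecidableEq n]

theorem exists_cf_bound (M : Matrix n n (Lau R)) :
    ∃ K : ℕ, ∀ k : ℤ, (K : ℤ) < |k| → cf k M = 0 := by
  obtain ⟨B, hB⟩ := exists_finset_supM M
  refine ⟨∑ b ∈ B, (Multiplicative.toAdd b).natAbs, fun k hk => ?_⟩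
  ext i j
  refine hB i j _ ?_
  intro hmem
  have h1 : (Multiplicative.toAdd (Multiplicative.ofAdd k)).natAbs ≤
      ∑ b ∈ B, (Multiplicative.toAdd b).natAbs :=
    Finset.single_le_sum (f := fun b => (Multiplicative.toAdd b).natAbs)
      (fun _ _ => Nat.zero_le _) (Finset.mem_coe.1 hmem)
  rw [toAdd_ofAdd] at h1
  have h2 : |k| = (k.natAbs : ℤ) := Int.abs_eq_natAbs k
  omega

theorem nilpotent_of_unit {ν : Matrix n n R} {U : (Matrix n n (Lau R))ˣ}
    (hU : (U : Matrix n n (Lau R)) = 1 + (tL R - 1) • ν.map (cL R)) :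
    IsNilpotent (ν * (1 - ν)) := by
  set V : Matrix n n (Lau R) := ((U⁻¹ : (Matrix n n (Lau R))ˣ) : Matrix n n (Lau R)) with hV
  have h1 : V * (1 + (tL R - 1) • ν.map (cL R)) = 1 := by rw [← hU, hV, Units.inv_mul]
  have h2 : V * (1 + (tL R - 1) • ν.map (cL R)) =
      V * ((MonoidAlgebra.single (Multiplicative.ofAdd (0 : ℤ)) (1 : R) : Lau R) •
        (1 - ν).map (cL R)) +
      V * ((MonoidAlgebra.single (Multiplicative.ofAdd (1 : ℤ)) (1 : R) : Lau R) •
        ν.map (cL R)) := by
    rw [← Matrix.mul_add]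
    congr 1
    have h3 : (MonoidAlgebra.single (Multiplicative.ofAdd (0 : ℤ)) (1 : R) : Lau R) = 1 := rfl
    rw [h3, one_smul, Matrix.map_sub _ (map_sub _), Matrix.map_one _ (map_zero _) (map_one _),
      sub_smul, one_smul]
    abel
  have h3 : ∀ k : ℤ, cf k V * (1 - ν) + cf (k - 1) V * ν = if k = 0 then 1 else 0 := by
    intro k
    have h4 := congrArg (cf k) (h2.symm.trans h1)
    rw [cf_add, cf_mul_smul, cf_mul_smul, cf_one, sub_zero] at h4
    exact h4
  obtain ⟨K, hK⟩ := exists_cf_bound V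
  refine nilpotent_of_recursion (fun k => cf k V) K hK ?_ ?_
  · intro k hk
    have h4 := h3 k
    rw [if_neg hk] at h4
    exact eq_neg_of_add_eq_zero_left h4
  · have h4 := h3 0
    rw [if_pos rfl] at h4
    exact h4

theorem smul_map_pow {S : Type*} {T : Type*} [Ring S] [Ring T] {c : S →+* T} {s : T}
    (hs : ∀ x, s * c x = c x * s) (M : Matrix n n S) (k : ℕ) :
    (s • M.map c) ^ k = s ^ k • (M ^ k).map c := by
  induction k with
  | zero => rw [pow_zero, pow_zero, pow_zero, one_smul, Matrix.map_one _ (map_zero _) (map_one _)]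
  | succ k ih => rw [pow_succ, ih, smul_mul_smul_map hs, ← pow_succ, ← pow_succ]

theorem isUnit_nil {S : Type*} {T : Type*} [Ring S] [Ring T] {c : S →+* T} {s : T}
    (hs : ∀ x, s * c x = c x * s) {M : Matrix n n S} (hM : IsNilpotent M) :
    IsUnit (1 + s • M.map c) := by
  apply IsNilpotent.isUnit_one_add
  obtain ⟨k, hk⟩ := hM
  refine ⟨k, ?_⟩
  rw [smul_map_pow hs, hk, Matrix.map_zero _ (map_zero c), smul_zero]

theorem ks_linear (hR : IsRegularRing R) {ν : Matrix n n R} (h : IsNilpotent (ν * (1 - ν))) :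
    ∃ e : Matrix n n R, ∃ _ : e * e = e, ks (cL R) (tL R - 1) ν = ks (cL R) (tL R - 1) e := by
  obtain ⟨e, he, heν, hn0, hn1⟩ := exists_idem_of_nilpotent h
  refine ⟨e, he, ?_⟩
  have ht : ∀ x, (tL R - 1) * cL R x = cL R x * (tL R - 1) := fun x => sub_one_comm tL_comm x
  have hti : ∀ x, (tI R - 1) * cL R x = cL R x * (tI R - 1) := fun x => sub_one_comm tI_comm x
  set η0 := (1 - e) * ν with hη0
  set η1 := e * (1 - ν) with hη1
  have e1 : e * η0 = 0 := by
    rw [hη0, ← mul_assoc, mul_sub, mul_one, he, sub_self, zero_mul]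
  have e2 : (e + η0) * η1 = η1 := by
    have h1 : η0 * η1 = 0 := by
      rw [hη0, hη1, mul_assoc, ← mul_assoc ν, ← heν.eq, mul_assoc e, ← mul_assoc (1 - e),
        sub_mul, one_mul, he, sub_self, zero_mul]
    rw [add_mul, h1, add_zero, hη1, ← mul_assoc, he]
  have e3 : e + η0 - η1 = ν := by
    rw [hη0, hη1]
    noncomm_ring
  have u1 : IsUnit (1 + (tL R - 1) • e.map (cL R)) :=
    isUnit_te (gU R (Multiplicative.ofAdd (1 : ℤ))) (gU_comm _) he
  have u2 : IsUnit (1 + (tL R - 1) • η0.map (cL R)) := isUnit_nil ht hn0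
  have u3 : IsUnit (1 + (tI R - 1) • η1.map (cL R)) := isUnit_nil hti hn1
  have h1 : kk ((tL R - 1) • (e + η0).map (cL R)) =
      kk ((tL R - 1) • e.map (cL R)) + kk ((tL R - 1) • η0.map (cL R)) := by
    rw [← kk_mul u1 u2, smul_mul_smul_map ht, e1, Matrix.map_zero _ (map_zero _), smul_zero,
      add_zero, Matrix.map_add _ (map_add _), smul_add]
  have u12 : IsUnit (1 + (tL R - 1) • (e + η0).map (cL R)) := by
    have h2 := u1.mul u2
    have h3 : (1 + (tL R - 1) • e.map (cL R)) * (1 + (tL R - 1) • η0.map (cL R)) =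
        1 + (tL R - 1) • (e + η0).map (cL R) := by
      have h4 : (1 + (tL R - 1) • e.map (cL R)) * (1 + (tL R - 1) • η0.map (cL R)) =
          1 + ((tL R - 1) • e.map (cL R) + (tL R - 1) • η0.map (cL R) +
            ((tL R - 1) • e.map (cL R)) * ((tL R - 1) • η0.map (cL R))) := by
        simp only [Matrix.add_mul, Matrix.mul_add, Matrix.one_mul, Matrix.mul_one]
        abel
      rw [h4, smul_mul_smul_map ht, e1, Matrix.map_zero _ (map_zero _), smul_zero, add_zero,
        Matrix.map_add _ (map_add _), smul_add]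
    rwa [h3] at h2
  have h2 : kk ((tL R - 1) • ν.map (cL R)) =
      kk ((tL R - 1) • (e + η0).map (cL R)) + kk ((tI R - 1) • η1.map (cL R)) := by
    rw [← kk_mul u12 u3, smul_mul_smul_map hti, e2, add_assoc, ← add_smul]
    have h3 : tI R - 1 + (tL R - 1) * (tI R - 1) = - (tL R - 1) := by
      rw [sub_mul, mul_sub, tL_mul_tI]
      noncomm_ring
    rw [h3, neg_smul, ← sub_eq_add_neg, ← smul_sub, ← Matrix.map_sub _ (map_sub _), e3]
  have h3 : kk ((tL R - 1) • η0.map (cL R)) = 0 := ks_nil hR ht η0 hn0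
  have h4 : kk ((tI R - 1) • η1.map (cL R)) = 0 := ks_nil hR hti η1 hn1
  unfold ks
  rw [h2, h1, h3, h4, add_zero, add_zero]

theorem ks_te_mem {e : Matrix n n R} (he : e * e = e) :
    ks (cL R) (tL R - 1) e ∈ imA1 R (Multiplicative ℤ) := by
  have h := tau_kc (c := cL R) (gU R (Multiplicative.ofAdd (1 : ℤ))) (gU_comm _) he
  have h2 : ks (cL R) (tL R - 1) e = tauG R (Multiplicative.ofAdd (1 : ℤ)) (KZero.kc e he) :=
    h.symm
  rw [h2]
  exact tauG_mem_imA1 _ _

/-- polynomial matrices -/
noncomputable def pol (d : ℕ) (a : ℕ → Matrix n n R) : Matrix n n (Lau R) :=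
  ∑ k ∈ Finset.range d, (tL R) ^ k • (a k).map (cL R)

theorem pol_succ (d : ℕ) (a : ℕ → Matrix n n R) :
    pol (d + 1) a = pol d a + (tL R) ^ d • (a d).map (cL R) := by
  unfold pol
  rw [Finset.sum_range_succ]

/-- the value at `t = 1` -/
noncomputable def aug (R : Type u) [Ring R] : Lau R →+* R :=
  (MonoidAlgebra.uniqueRingEquiv (R := R) PUnit.{1} : MonoidAlgebra R PUnit.{1} →+* R).comp
    (MonoidAlgebra.mapDomainRingHom R (1 : Multiplicative ℤ →* PUnit.{1}))

theorem aug_single (γ : Multiplicative ℤ) (r : R) : aug R (MonoidAlgebra.single γ r) = r := by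
  unfold aug
  rw [RingHom.comp_apply, MonoidAlgebra.mapDomainRingHom_apply]
  simp

theorem aug_cL (x : R) : aug R (cL R x) = x := aug_single _ _

theorem mem_of_linear (hR : IsRegularRing R) {U : (Matrix n n (Lau R))ˣ} {a : ℕ → Matrix n n R}
    (hU : (U : Matrix n n (Lau R)) = pol 2 a) : k1 U ∈ imA1 R (Multiplicative ℤ) := by
  have hU' : (U : Matrix n n (Lau R)) = (a 0).map (cL R) + (tL R) • (a 1).map (cL R) := by
    rw [hU, pol_succ, pol_succ, pow_one, pow_zero, one_smul]
    unfold pol
    rw [Finset.sum_range_zero, zero_add]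
  let C : (Matrix n n R)ˣ := mU (aug R) U
  have hC : (C : Matrix n n R) = a 0 + a 1 := by
    change (U : Matrix n n (Lau R)).map (aug R) = _
    rw [hU']
    ext i j
    change aug R (cL R (a 0 i j) + tL R * cL R (a 1 i j)) = _
    rw [map_add, map_mul, aug_cL, aug_cL, aug_single, one_mul]
    rfl
  set Ci : Matrix n n R := ((C⁻¹ : (Matrix n n R)ˣ) : Matrix n n R) with hCi
  have hsum : Ci * a 0 + Ci * a 1 = 1 := by rw [← mul_add, ← hC, hCi, Units.inv_mul]
  have h1 : ((mU (cL R) C⁻¹ * U : (Matrix n n (Lau R))ˣ) : Matrix n n (Lau R)) =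
      1 + (tL R - 1) • (Ci * a 1).map (cL R) := by
    rw [Units.val_mul, coe_mU, hU', Matrix.mul_add, ← Matrix.map_mul, map_mul_smul tL_comm]
    change (Ci * a 0).map (cL R) + tL R • (Ci * a 1).map (cL R) = _
    have h2 : Ci * a 0 = 1 - Ci * a 1 := by rw [← hsum, add_sub_cancel_right]
    rw [h2, Matrix.map_sub _ (map_sub _), Matrix.map_one _ (map_zero _) (map_one _), sub_smul,
      one_smul]
    abel
  have h2 : k1 (mU (cL R) C⁻¹ * U) ∈ imA1 R (Multiplicative ℤ) := by
    obtain ⟨e, he, h3⟩ := ks_linear hR (nilpotent_of_unit h1)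
    rw [← kk_eq _ h1]
    change ks (cL R) (tL R - 1) (Ci * a 1) ∈ _
    rw [h3]
    exact ks_te_mem he
  rw [k1_mul, ← KOne.map_k1] at h2
  have h3 : KOne.map (cL R) (k1 C⁻¹) ∈ imA1 R (Multiplicative ℤ) := map_mem_imA1 _
  have h4 := AddSubgroup.sub_mem _ h2 h3
  rwa [add_sub_cancel_left] at h4

theorem higman (d : ℕ) : ∀ {n : Type} [Fintype n] [DecidableEq n] (U : (Matrix n n (Lau R))ˣ)
    (a : ℕ → Matrix n n R), (U : Matrix n n (Lau R)) = pol (d + 2) a →
    ∃ (m : Type) (_ : Fintype m) (_ : DecidableEq m) (V : (Matrix m m (Lau R))ˣ)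
      (b : ℕ → Matrix m m R), (V : Matrix m m (Lau R)) = pol 2 b ∧ k1 V = k1 U := by
  induction d with
  | zero =>
    intro n _ _ U a hU
    exact ⟨n, inferInstance, inferInstance, U, a, hU, rfl⟩
  | succ d ih =>
    intro n _ _ U a hU
    let X : Matrix n n (Lau R) := (tL R) ^ (d + 1) • (a (d + 2)).map (cL R)
    let Y : Matrix n n (Lau R) := - ((tL R) • (1 : Matrix n n (Lau R)))
    let b : ℕ → Matrix (n ⊕ n) (n ⊕ n) R := fun k => fromBlocks (if k < d + 2 then a k else 0)
      (if k = d + 1 then a (d + 2) else 0) (if k = 1 then -1 else 0) (if k = 0 then 1 else 0)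
    have hbs : ∀ k, (tL R) ^ k • (b k).map (cL R) = fromBlocks
        (if k < d + 2 then (tL R) ^ k • (a k).map (cL R) else 0)
        (if k = d + 1 then X else 0) (if k = 1 then Y else 0) (if k = 0 then 1 else 0) := by
      intro k
      rw [Matrix.fromBlocks_map, Matrix.fromBlocks_smul]
      congr 1
      · split_ifs
        · rfl
        · rw [Matrix.map_zero _ (map_zero _), smul_zero]
      · split_ifs with h
        · rw [h]
        · rw [Matrix.map_zero _ (map_zero _), smul_zero]
      · split_ifs with h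
        · rw [h, pow_one]
          simp only [Y]
          rw [← smul_neg]
          congr 1
          have h1 : (RingHom.mapMatrix (cL R)) (-1 : Matrix n n R) = -1 := by
            rw [map_neg, map_one]
          exact h1
        · rw [Matrix.map_zero _ (map_zero _), smul_zero]
      · split_ifs with h
        · rw [h, pow_zero, one_smul, Matrix.map_one _ (map_zero _) (map_one _)]
        · rw [Matrix.map_zero _ (map_zero _), smul_zero]
    have hsumb : pol (d + 2) b = fromBlocks (pol (d + 2) a) X Y 1 := by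
      unfold pol
      rw [Finset.sum_congr rfl fun k _ => hbs k]
      have hfb : ∀ (s : Finset ℕ) (A B C D : ℕ → Matrix n n (Lau R)),
          ∑ k ∈ s, fromBlocks (A k) (B k) (C k) (D k) =
            fromBlocks (∑ k ∈ s, A k) (∑ k ∈ s, B k) (∑ k ∈ s, C k) (∑ k ∈ s, D k) := by
        intro s A B C D
        induction s using Finset.induction_on with
        | empty => simp
        | insert x s hx ih =>
          rw [Finset.sum_insert hx, Finset.sum_insert hx, Finset.sum_insert hx,
            Finset.sum_insert hx, Finset.sum_insert hx, ih, Matrix.fromBlocks_add]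
      rw [hfb]
      congr 1
      · refine Finset.sum_congr rfl fun k hk => ?_
        rw [if_pos (Finset.mem_range.1 hk)]
      · rw [Finset.sum_ite_eq' (Finset.range (d + 2)) (d + 1) (fun _ => X),
          if_pos (Finset.mem_range.2 (by omega))]
      · rw [Finset.sum_ite_eq' (Finset.range (d + 2)) 1 (fun _ => Y),
          if_pos (Finset.mem_range.2 (by omega))]
      · rw [Finset.sum_ite_eq' (Finset.range (d + 2)) 0 (fun _ => 1),
          if_pos (Finset.mem_range.2 (by omega))]
    let W : (Matrix (n ⊕ n) (n ⊕ n) (Lau R))ˣ := uU X * bl U 1 * lU Y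
    have hXY : X * Y = - ((tL R) ^ (d + 2) • (a (d + 2)).map (cL R)) := by
      simp only [X, Y]
      rw [Matrix.mul_neg]
      congr 1
      ext i j
      simp only [Matrix.mul_apply, Matrix.smul_apply, Matrix.map_apply, smul_eq_mul,
        Matrix.one_apply]
      rw [Finset.sum_eq_single j]
      · rw [if_pos rfl, mul_one, mul_assoc, ← tL_comm, ← mul_assoc, ← pow_succ]
      · intro k _ hk
        rw [if_neg hk, mul_zero, mul_zero]
      · intro h; exact absurd (Finset.mem_univ _) h
    have hW : (W : Matrix (n ⊕ n) (n ⊕ n) (Lau R)) = pol (d + 2) b := by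
      rw [hsumb]
      simp only [W, Units.val_mul, coe_uU, coe_bl, coe_lU, fromBlocks_multiply, Units.val_one,
        Matrix.one_mul, Matrix.mul_one, Matrix.mul_zero, Matrix.zero_mul, add_zero, zero_add]
      rw [hU, pol_succ, hXY]
      congr 1
      abel
    obtain ⟨m, i1, i2, V, b', hV, hVk⟩ := ih W b hW
    refine ⟨m, i1, i2, V, b', hV, ?_⟩
    rw [hVk, k1_mul, k1_mul, k1_uU, k1_lU, k1_bl_one, zero_add, add_zero]

theorem k1_tpow_mem (N : ℕ) : k1 ((teU (c := cL R) (gU R (Multiplicative.ofAdd (1 : ℤ)))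
    (gU_comm _) (1 : Matrix n n R) (by simp)) ^ N) ∈ imA1 R (Multiplicative ℤ) := by
  induction N with
  | zero => rw [pow_zero, k1_one]; exact AddSubgroup.zero_mem _
  | succ N ih =>
    rw [pow_succ, k1_mul]
    refine AddSubgroup.add_mem _ ih ?_
    rw [← ks_te]
    exact ks_te_mem (by simp)

/-- generation of `K₁` of the Laurent polynomial ring over a regular ring -/
theorem imA1_int (hR : IsRegularRing R) (x : KOne (Lau R)) : x ∈ imA1 R (Multiplicative ℤ) := by
  obtain ⟨k, A, rfl⟩ := exists_k1 x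
  obtain ⟨K, hK⟩ := exists_cf_bound (A : Matrix (Fin k) (Fin k) (Lau R))
  let D := teU (c := cL R) (gU R (Multiplicative.ofAdd (1 : ℤ))) (gU_comm _)
    (1 : Matrix (Fin k) (Fin k) R) (by simp)
  have hD1 : (D : Matrix (Fin k) (Fin k) (Lau R)) = tL R • 1 := by
    change 1 + (tL R - 1) • (1 : Matrix (Fin k) (Fin k) R).map (cL R) = _
    rw [Matrix.map_one _ (map_zero _) (map_one _), sub_smul, one_smul]
    abel
  have hDN : ∀ N : ℕ, ((D ^ N : (Matrix (Fin k) (Fin k) (Lau R))ˣ) :
      Matrix (Fin k) (Fin k) (Lau R)) = (tL R) ^ N • 1 := by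
    intro N
    induction N with
    | zero => rw [pow_zero, pow_zero, one_smul]; rfl
    | succ N ih => rw [pow_succ, Units.val_mul, ih, hD1, Matrix.smul_mul, Matrix.one_mul,
        smul_smul, ← pow_succ]
  have ht : ∀ N : ℕ, (tL R) ^ N = MonoidAlgebra.single (Multiplicative.ofAdd (N : ℤ)) 1 := by
    intro N
    rw [MonoidAlgebra.single_pow, one_pow, ← ofAdd_nsmul]
    simp
  have h1 : ((D ^ K * A : (Matrix (Fin k) (Fin k) (Lau R))ˣ) : Matrix (Fin k) (Fin k) (Lau R)) =
      pol (2 * K + 2) (fun j => cf ((j : ℤ) - K) (A : Matrix (Fin k) (Fin k) (Lau R))) := by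
    rw [Units.val_mul, hDN, Matrix.smul_mul, Matrix.one_mul]
    unfold pol
    ext i j : 2
    rw [Matrix.sum_apply]
    ext z
    obtain ⟨z, rfl⟩ := Multiplicative.ofAdd.surjective z
    rw [MonoidAlgebra.coeff_sum, Finsupp.finsetSum_apply]
    have h2 : ∀ l : ℕ, ((((tL R) ^ l • (cf ((l : ℤ) - K)
        (A : Matrix (Fin k) (Fin k) (Lau R))).map (cL R)) i j : Lau R).coeff
          (Multiplicative.ofAdd z)) = if (l : ℤ) = z then
        cf (z - K) (A : Matrix (Fin k) (Fin k) (Lau R)) i j else 0 := by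
      intro l
      have h3 : ((tL R) ^ l • (cf ((l : ℤ) - K)
        (A : Matrix (Fin k) (Fin k) (Lau R))).map (cL R)) i j =
          MonoidAlgebra.single (Multiplicative.ofAdd (l : ℤ))
            (cf ((l : ℤ) - K) (A : Matrix (Fin k) (Fin k) (Lau R)) i j) := by
        rw [ht]
        change MonoidAlgebra.single (Multiplicative.ofAdd (l : ℤ)) (1 : R) *
          MonoidAlgebra.single 1 _ = _
        rw [MonoidAlgebra.single_mul_single, mul_one, one_mul]
      rw [h3, MonoidAlgebra.coeff_single, Finsupp.single_apply]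
      by_cases hl : (l : ℤ) = z
      · rw [if_pos hl, if_pos (by rw [hl]), hl]
      · rw [if_neg hl, if_neg (fun h => hl (Multiplicative.ofAdd.injective h))]
    rw [Finset.sum_congr rfl fun l _ => h2 l]
    have h4 : (((tL R) ^ K • (A : Matrix (Fin k) (Fin k) (Lau R))) i j).coeff
        (Multiplicative.ofAdd z) = cf (z - K) (A : Matrix (Fin k) (Fin k) (Lau R)) i j := by
      rw [ht]
      change (MonoidAlgebra.single (Multiplicative.ofAdd (K : ℤ)) (1 : R) *
        (A : Matrix (Fin k) (Fin k) (Lau R)) i j).coeff (Multiplicative.ofAdd z) = _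
      rw [MonoidAlgebra.coeff_single_mul_apply, one_mul]
      change _ = ((A : Matrix (Fin k) (Fin k) (Lau R)) i j).coeff (Multiplicative.ofAdd (z - K))
      congr 1
      apply Multiplicative.toAdd.injective
      simp only [toAdd_mul, toAdd_inv, toAdd_ofAdd]
      ring
    rw [h4]
    by_cases hz : 0 ≤ z ∧ z < (2 * K + 2 : ℕ)
    · obtain ⟨l, rfl⟩ := Int.eq_ofNat_of_zero_le hz.1
      rw [Finset.sum_eq_single l]
      · rw [if_pos rfl]
      · intro l' _ hl'
        rw [if_neg (fun h => hl' (by exact_mod_cast h))]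
      · intro h
        exfalso
        apply h
        rw [Finset.mem_range]
        exact_mod_cast hz.2
    · have h5 : cf (z - K) (A : Matrix (Fin k) (Fin k) (Lau R)) = 0 := by
        apply hK
        rw [not_and_or, not_le, not_lt] at hz
        rcases hz with hz | hz
        · rw [abs_of_neg (by omega)]; omega
        · rw [abs_of_nonneg (by push_cast at hz; omega)]; push_cast at hz; omega
      rw [h5, Finset.sum_eq_zero]
      · rfl
      · intro l hl
        rw [if_neg]
        rintro rfl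
        apply hz
        rw [Finset.mem_range] at hl
        exact ⟨by positivity, by exact_mod_cast hl⟩
  obtain ⟨m, i1, i2, V, b, hV, hVk⟩ := higman (2 * K) (D ^ K * A) _ h1
  have h2 := mem_of_linear hR hV
  rw [hVk, k1_mul] at h2
  have h3 := AddSubgroup.sub_mem _ h2 (k1_tpow_mem (n := Fin k) (R := R) K)
  rwa [add_sub_cancel_left] at h3

end Lin

end Pool.Agent.Lib.MP_c052b4_al
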