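import Pool.Agent.Lib.MP_c052b4_al.KOneKernel

/-!
# The kernel lemma for `K₁`, second part
-/

set_option autoImplicit false
set_option linter.unusedSectionVars false

namespace Pool.Agent.Lib.MP_c052b4_al.Kern

open Matrix

universe u v w

variable {R : Type u} [Ring R] {G : Type v} {Γ : Type w} [Group G] [Group Γ] {ι : G →* Γ}
  {n : Type*} [Fintype n] [DecidableEq n]

theorem thI_single {S : Type*} [Fintype S] [DecidableEq S] (t : S → Γ) (x : S × n) :
    thI ι t (Pi.single x (1 : MonoidAlgebra R G)) =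
      Pi.single x.2 (MonoidAlgebra.single (t x.1) 1) := by
  funext b
  unfold thI
  obtain ⟨s, b0⟩ := x
  by_cases hb : b = b0
  · subst hb
    rw [Pi.single_eq_same, Finset.sum_eq_single s]
    · rw [Pi.single_eq_same, map_one, one_mul]
    · intro s' _ hs'
      have : (s', b) ≠ (s, b) := fun h => hs' (congrArg Prod.fst h)
      rw [Pi.single_eq_of_ne this, map_zero, zero_mul]
    · intro h; exact absurd (Finset.mem_univ _) h
  · rw [Pi.single_eq_of_ne hb]
    refine Finset.sum_eq_zero fun s' _ => ?_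
    have : (s', b) ≠ (s, b0) := fun h => hb (congrArg Prod.snd h)
    rw [Pi.single_eq_of_ne this, map_zero, zero_mul]

variable (hs : HalfSpaces ι) {P : Finset Γ}

section Tri

variable (Ef : Trans (ι.comp (hs.C false).subtype) (hs.X false ∩ WW hs P))
  (Et : Trans (ι.comp (hs.C true).subtype) (hs.X true ∩ WW hs P))

/-- the combined transversal -/
def tt : Unit ⊕ (Fin Ef.k ⊕ Fin Et.k) → Γ :=
  Sum.elim (fun _ => 1) (Sum.elim Ef.t Et.t)

theorem Trans.t_mem {H : Type*} [Group H] {j : H →* Γ} {Z : Set Γ} (E : Trans j Z) (s : Fin E.k) :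
    E.t s ∈ Z := by
  have := E.mem s 1
  rwa [map_one, one_mul] at this

/-- which half space does the representative lie in? -/
def side : Fin Ef.k ⊕ Fin Et.k → Bool := Sum.elim (fun _ => false) (fun _ => true)

theorem tt_mem (s : Fin Ef.k ⊕ Fin Et.k) :
    tt hs Ef Et (Sum.inr s) ∈ hs.X (side hs Ef Et s) ∩ WW hs P := by
  rcases s with s | s
  · exact Ef.t_mem s
  · exact Et.t_mem s

theorem tri (hι : Function.Injective ι) (h1 : 1 ∈ P) : TrI ι (tt hs Ef Et) (WW hs P) := by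
  constructor
  · intro s g
    apply WW_left
    rcases s with s | s
    · exact WW_one hs h1
    · exact (tt_mem hs Ef Et s).2
  · intro γ hγ
    rcases hs.cover γ with ⟨g, rfl⟩ | ⟨i, g, hg⟩
    · exact ⟨Sum.inl (), g, by simp [tt]⟩
    · have h2 : (ι g)⁻¹ * γ ∈ WW hs P := by
        rw [← map_inv]; exact WW_left hs P _ hγ
      cases i with
      | false =>
        obtain ⟨s, c, hc⟩ := Ef.cover _ ⟨hg, h2⟩
        refine ⟨Sum.inr (Sum.inl s), g * c, ?_⟩
        change γ = ι (g * c) * Ef.t s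
        rw [map_mul, mul_assoc]
        change γ = ι g * ((ι.comp (hs.C false).subtype) c * Ef.t s)
        rw [← hc]; group
      | true =>
        obtain ⟨s, c, hc⟩ := Et.cover _ ⟨hg, h2⟩
        refine ⟨Sum.inr (Sum.inr s), g * c, ?_⟩
        change γ = ι (g * c) * Et.t s
        rw [map_mul, mul_assoc]
        change γ = ι g * ((ι.comp (hs.C true).subtype) c * Et.t s)
        rw [← hc]; group
  · have key0 : ∀ (s : Fin Ef.k ⊕ Fin Et.k) (g g' : G),
        ι g * tt hs Ef Et (Sum.inl ()) = ι g' * tt hs Ef Et (Sum.inr s) → False := by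
      intro s g g' h
      have h2 := (tt_mem hs Ef Et s).1
      have h3 : tt hs Ef Et (Sum.inr s) = ι (g'⁻¹ * g) := by
        have h4 : ι g * 1 = ι g' * tt hs Ef Et (Sum.inr s) := h
        rw [map_mul, map_inv, eq_inv_mul_iff_mul_eq, ← h4, mul_one]
      rw [h3] at h2
      exact hs.disj0 _ _ h2
    intro s s' g g' h
    rcases s with s | s
    · rcases s' with s' | s'
      · refine ⟨rfl, hι ?_⟩
        have h4 : ι g * 1 = ι g' * 1 := h
        simpa using h4
      · exact (key0 s' g g' h).elim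
    · rcases s' with s' | s'
      · exact (key0 s g' g h.symm).elim
      · have h3 : ι (g'⁻¹ * g) * tt hs Ef Et (Sum.inr s) = tt hs Ef Et (Sum.inr s') := by
          rw [map_mul, map_inv, mul_assoc, h, inv_mul_cancel_left]
        have h4 := hs.disj (side hs Ef Et s) (side hs Ef Et s') (g'⁻¹ * g) _
          (tt_mem hs Ef Et s).1 (by rw [h3]; exact (tt_mem hs Ef Et s').1)
        rcases s with s | s <;> rcases s' with s' | s'
        · have h5 := Ef.inj s s' ⟨g'⁻¹ * g, h4.2⟩ 1 (by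
            rw [map_one, one_mul]; exact h3)
          obtain ⟨rfl, h6⟩ := h5
          have h7 : g'⁻¹ * g = 1 := congrArg Subtype.val h6
          exact ⟨rfl, (inv_mul_eq_one.1 h7).symm⟩
        · exact absurd h4.1 (by simp [side])
        · exact absurd h4.1 (by simp [side])
        · have h5 := Et.inj s s' ⟨g'⁻¹ * g, h4.2⟩ 1 (by
            rw [map_one, one_mul]; exact h3)
          obtain ⟨rfl, h6⟩ := h5
          have h7 : g'⁻¹ * g = 1 := congrArg Subtype.val h6
          exact ⟨rfl, (inv_mul_eq_one.1 h7).symm⟩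

end Tri

section Rows

variable {l : List (Matrix n n (MonoidAlgebra R Γ))}
  (Ef : Trans (ι.comp (hs.C false).subtype) (hs.X false ∩ WW hs (pre l)))
  (Et : Trans (ι.comp (hs.C true).subtype) (hs.X true ∩ WW hs (pre l)))
  (E : TrI ι (tt hs Ef Et) (WW hs (pre l)))
  (B : Matrix n n (MonoidAlgebra R G)) (hB : l.prod = B.map (inc R ι))

theorem row_eq (x : (Unit ⊕ (Fin Ef.k ⊕ Fin Et.k)) × n) :
    (l.map (trunc E)).prod x = kaI E (tau (WW hs (pre l)) l
      (Pi.single x.2 (MonoidAlgebra.single (tt hs Ef Et x.1) 1))) := by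
  have h1 := vecMul_prod_trunc E l (Pi.single x 1)
  rw [thI_single] at h1
  rw [← h1, Matrix.single_one_vecMul]
  rfl

theorem single_vecMul_inc (b : n) (γ : Γ) (b' : n) :
    (Pi.single b (MonoidAlgebra.single γ (1 : R)) ᵥ* (B.map (inc R ι))) b' =
      MonoidAlgebra.single γ 1 * inc R ι (B b b') := by
  rw [Matrix.single_vecMul]
  rfl

include hB in
theorem row_base (hι : Function.Injective ι) (b : n) (s : Unit ⊕ (Fin Ef.k ⊕ Fin Et.k)) (b' : n) :
    (l.map (trunc E)).prod (Sum.inl (), b) (s, b') =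
      Sum.elim (fun _ => B b b') (fun _ => 0) s := by
  have h1 : tau (WW hs (pre l)) l (Pi.single b (MonoidAlgebra.single (tt hs Ef Et (Sum.inl ())) 1)) =
      Pi.single b (MonoidAlgebra.single (1 : Γ) (1 : R)) ᵥ* B.map (inc R ι) := by
    rw [← hB]
    refine tau_eq pref_pre _ l {1} _ ?_ ?_
    · intro k
      by_cases hk : k = b
      · subst hk
        rw [Pi.single_eq_same]
        exact sup_single (Set.mem_singleton _) 1
      · rw [Pi.single_eq_of_ne hk]
        exact sup_zero _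
    · rintro _ rfl δ hδ
      rw [one_mul]
      exact WW_one hs hδ
  rw [row_eq, h1]
  ext g
  rw [coeff_kaI, single_vecMul_inc]
  have h2 : (MonoidAlgebra.single (1 : Γ) (1 : R)) = 1 := rfl
  rw [h2, one_mul]
  rcases s with s | s
  · change (inc R ι (B b b')).coeff (ι g * 1) = _
    rw [mul_one, coeff_inc ι hι]
    rfl
  · change _ = (0 : MonoidAlgebra R G).coeff g
    have h3 : (0 : MonoidAlgebra R G).coeff g = 0 := rfl
    rw [h3]
    refine sup_inc ι _ _ ?_
    rintro ⟨g', hg'⟩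
    have h4 : tt hs Ef Et (Sum.inr s) = ι (g⁻¹ * g') := by
      rw [map_mul, map_inv, hg', inv_mul_cancel_left]
    have h5 := (tt_mem hs Ef Et s).1
    rw [h4] at h5
    exact hs.disj0 _ _ h5

include hB in
theorem supV_row (s : Fin Ef.k ⊕ Fin Et.k) (b : n) :
    SupV (hs.X (side hs Ef Et s)) (tau (WW hs (pre l)) l
      (Pi.single b (MonoidAlgebra.single (tt hs Ef Et (Sum.inr s)) (1 : R)))) := by
  set γ := tt hs Ef Et (Sum.inr s) with hγ
  have hγX : γ ∈ hs.X (side hs Ef Et s) := (tt_mem hs Ef Et s).1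
  have hsup : SupV {γ} (Pi.single b (MonoidAlgebra.single γ (1 : R)) : n → MonoidAlgebra R Γ) := by
    intro k
    by_cases hk : k = b
    · subst hk
      rw [Pi.single_eq_same]
      exact sup_single (Set.mem_singleton _) 1
    · rw [Pi.single_eq_of_ne hk]
      exact sup_zero _
  by_cases h : ∀ p ∈ pre l, γ * p ∈ hs.X (side hs Ef Et s)
  · refine supV_tau pref_pre _ _ l {γ} _ hsup ?_
    rintro _ rfl δ hδ
    exact h δ hδ
  · push Not at h
    obtain ⟨p, hp, hp'⟩ := h
    have hY : γ ∈ hs.Y (pre l) (side hs Ef Et s) := ⟨p, hp, fun h' => hp' (h'.1 hγX)⟩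
    rw [tau_eq pref_pre _ l {γ} _ hsup (by
      rintro _ rfl δ hδ
      exact WW_Y hs hδ hY), hB]
    intro b'
    rw [single_vecMul_inc]
    refine (sup_single (Set.mem_singleton γ) 1).mul (sup_inc ι (B b b')) ?_
    rintro _ rfl _ ⟨g, rfl⟩
    exact hs.right _ g _ hγX

include hB in
theorem row_side (s : Fin Ef.k ⊕ Fin Et.k) (b : n) (s' : Unit ⊕ (Fin Ef.k ⊕ Fin Et.k)) (b' : n)
    (g : G) (h : ((l.map (trunc E)).prod (Sum.inr s, b) (s', b')).coeff g ≠ 0) :
    ∃ s'', s' = Sum.inr s'' ∧ side hs Ef Et s'' = side hs Ef Et s ∧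
      g ∈ hs.C (side hs Ef Et s) := by
  rw [row_eq, coeff_kaI] at h
  have h1 : ι g * tt hs Ef Et s' ∈ hs.X (side hs Ef Et s) := by
    by_contra h2
    exact h (supV_row hs Ef Et B hB s b b' _ h2)
  rcases s' with s' | s'
  · exfalso
    have h2 : ι g * 1 ∈ hs.X (side hs Ef Et s) := h1
    rw [mul_one] at h2
    exact hs.disj0 _ _ h2
  · have h3 := hs.disj _ _ g _ (tt_mem hs Ef Et s').1 h1
    refine ⟨s', rfl, h3.1, ?_⟩
    rw [← h3.1]
    exact h3.2

end Rows

section Final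

/-- the splitting of the index set -/
def sigmaE (kf kt : ℕ) (n : Type*) : (Unit ⊕ (Fin kf ⊕ Fin kt)) × n ≃
    n ⊕ ((Fin kf × n) ⊕ (Fin kt × n)) :=
  (Equiv.sumProdDistrib _ _ _).trans
    (Equiv.sumCongr (Equiv.punitProd n) (Equiv.sumProdDistrib _ _ _))

theorem exists_prod_trunc {S : Type*} [Fintype S] [DecidableEq S] {t : S → Γ} {Z : Set Γ}
    (E : TrI ι t Z) {p : Type*} [Fintype p] [DecidableEq p]
    (l : List (Matrix (p ⊕ p) (p ⊕ p) (MonoidAlgebra R Γ))) (hl : ∀ M ∈ l, IsEl M) :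
    ∃ U : (Matrix (S × (p ⊕ p)) (S × (p ⊕ p)) (MonoidAlgebra R G))ˣ,
      (U : Matrix (S × (p ⊕ p)) (S × (p ⊕ p)) (MonoidAlgebra R G)) = (l.map (trunc E)).prod ∧
      k1 U = 0 := by
  induction l with
  | nil => exact ⟨1, by simp, k1_one⟩
  | cons M l ih =>
    obtain ⟨U, hU, hU'⟩ := ih fun M' hM' => hl M' (List.mem_cons_of_mem _ hM')
    obtain ⟨V, hV, hV'⟩ : ∃ V : (Matrix (S × (p ⊕ p)) (S × (p ⊕ p)) (MonoidAlgebra R G))ˣ,
        (V : Matrix (S × (p ⊕ p)) (S × (p ⊕ p)) (MonoidAlgebra R G)) = trunc E M ∧ k1 V = 0 := by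
      rcases hl M (List.mem_cons_self) with ⟨X, rfl⟩ | ⟨X, rfl⟩
      · refine exists_trunc_transv E _ (fun x => x.isLeft = true) ?_
        intro x y hxy
        rcases x with x | x <;> rcases y with y | y
        · simp [Matrix.one_apply]
        · exact absurd ⟨rfl, by simp⟩ hxy
        · simp
        · simp [Matrix.one_apply]
      · refine exists_trunc_transv E _ (fun x => x.isRight = true) ?_
        intro x y hxy
        rcases x with x | x <;> rcases y with y | y
        · simp [Matrix.one_apply]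
        · simp
        · exact absurd ⟨rfl, by simp⟩ hxy
        · simp [Matrix.one_apply]
    refine ⟨V * U, ?_, ?_⟩
    · rw [Units.val_mul, hU, hV, List.map_cons, List.prod_cons]
    · rw [k1_mul, hU', hV', add_zero]

/-- **Kernel lemma for `K₁`.**  The kernel of `K₁(R[G]) → K₁(R[Γ])` is generated by elements
coming from the subgroups `Cᵢ`. -/
theorem kone_kernel (hι : Function.Injective ι) {m : Type*} [Fintype m] [DecidableEq m]
    (A : (Matrix m m (MonoidAlgebra R G))ˣ) (h : KOne.map (inc R ι) (k1 A) = 0) :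
    k1 A ∈ (KOne.map (inc R (hs.C false).subtype)).range ⊔
      (KOne.map (inc R (hs.C true).subtype)).range := by
  obtain ⟨k, B, hBA, hB⟩ := exists_el (inc R ι) A h
  rw [← hBA]
  obtain ⟨l, hl, hlB⟩ := exists_list_of_el hB
  have hlB' : l.prod = (B : Matrix _ _ (MonoidAlgebra R G)).map (inc R ι) := hlB
  obtain ⟨Ef⟩ := XW_trans hs hι (pre l) false
  obtain ⟨Et⟩ := XW_trans hs hι (pre l) true
  have E := tri hs Ef Et hι (pref_pre.one l)
  obtain ⟨U, hU, hU0⟩ := exists_prod_trunc E l hl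
  let σ := sigmaE Ef.k Et.k (Fin k ⊕ Fin k)
  -- blocks
  let Df : Matrix (Fin Ef.k × (Fin k ⊕ Fin k)) (Fin Ef.k × (Fin k ⊕ Fin k)) (MonoidAlgebra R G) := Matrix.of fun x y =>
    (l.map (trunc E)).prod (Sum.inr (Sum.inl x.1), x.2) (Sum.inr (Sum.inl y.1), y.2)
  let Dt : Matrix (Fin Et.k × (Fin k ⊕ Fin k)) (Fin Et.k × (Fin k ⊕ Fin k)) (MonoidAlgebra R G) := Matrix.of fun x y =>
    (l.map (trunc E)).prod (Sum.inr (Sum.inr x.1), x.2) (Sum.inr (Sum.inr y.1), y.2)
  have hside : ∀ s b s' b', (∀ s'', s' = Sum.inr s'' → side hs Ef Et s'' ≠ side hs Ef Et s) →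
      (l.map (trunc E)).prod (Sum.inr s, b) (s', b') = 0 := by
    intro s b s' b' hne
    ext g
    by_contra h1
    obtain ⟨s'', h2, h3, -⟩ := row_side hs Ef Et E B hlB' s b s' b' g h1
    exact hne s'' h2 h3
  have hblk : ((rU σ U : (Matrix _ _ (MonoidAlgebra R G))ˣ) :
      Matrix ((Fin k ⊕ Fin k) ⊕ ((Fin Ef.k × (Fin k ⊕ Fin k)) ⊕ (Fin Et.k × (Fin k ⊕ Fin k)))) ((Fin k ⊕ Fin k) ⊕ ((Fin Ef.k × (Fin k ⊕ Fin k)) ⊕ (Fin Et.k × (Fin k ⊕ Fin k))))
        (MonoidAlgebra R G)) = fromBlocks B 0 0 (fromBlocks Df 0 0 Dt) := by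
    rw [coe_rU, hU]
    ext1 x y
    rcases x with b | ⟨s, b⟩ | ⟨s, b⟩ <;> rcases y with b' | ⟨s', b'⟩ | ⟨s', b'⟩
    · exact row_base hs Ef Et E B hlB' hι b (Sum.inl ()) b'
    · exact row_base hs Ef Et E B hlB' hι b (Sum.inr (Sum.inl s')) b'
    · exact row_base hs Ef Et E B hlB' hι b (Sum.inr (Sum.inr s')) b'
    · exact hside (Sum.inl s) b (Sum.inl ()) b' (by intro s'' h1; cases h1)
    · rfl
    · exact hside (Sum.inl s) b (Sum.inr (Sum.inr s')) b' (by
        intro s'' h1; cases h1; simp [side])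
    · exact hside (Sum.inr s) b (Sum.inl ()) b' (by intro s'' h1; cases h1)
    · exact hside (Sum.inr s) b (Sum.inr (Sum.inl s')) b' (by
        intro s'' h1; cases h1; simp [side])
    · rfl
  obtain ⟨B', D', hB', hD', hbl⟩ := exists_bl hblk
  obtain ⟨Df', Dt', hDf, hDt, hbl'⟩ := exists_bl hD'
  obtain ⟨Cf, hCf⟩ := exists_over_C (hs.C false) Df' (by
    rw [hDf]
    intro x y g hg
    by_contra h1
    obtain ⟨s'', h2, h3, h4⟩ := row_side hs Ef Et E B hlB' (Sum.inl x.1) x.2
      (Sum.inr (Sum.inl y.1)) y.2 g h1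
    exact hg h4)
  obtain ⟨Ct, hCt⟩ := exists_over_C (hs.C true) Dt' (by
    rw [hDt]
    intro x y g hg
    by_contra h1
    obtain ⟨s'', h2, h3, h4⟩ := row_side hs Ef Et E B hlB' (Sum.inr x.1) x.2
      (Sum.inr (Sum.inr y.1)) y.2 g h1
    exact hg h4)
  have h1 : k1 (rU σ U) = k1 B' + (k1 Df' + k1 Dt') := by rw [hbl, k1_bl, hbl', k1_bl]
  rw [k1_rU, hU0] at h1
  have h2 : B' = B := Units.ext hB'
  rw [h2] at h1
  have h3 : k1 B = - k1 Df' + - k1 Dt' := by
    rw [eq_comm, ← neg_add]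
    exact neg_eq_of_add_eq_zero_left h1.symm
  rw [h3, ← hCf, ← hCt, ← KOne.map_k1, ← KOne.map_k1]
  exact AddSubgroup.add_mem_sup (AddSubgroup.neg_mem _ ⟨_, rfl⟩) (AddSubgroup.neg_mem _ ⟨_, rfl⟩)

end Final

end Pool.Agent.Lib.MP_c052b4_al.Kern
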