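import Pool.Agent.Lib.MP_c052b4_al.Conj

/-!
# Embedding into a group with two conjugacy classes
-/

set_option autoImplicit false
set_option linter.unusedSectionVars false

namespace Pool.Agent.Lib.MP_c052b4_al

open Kern

universe u v w

/-- countable nontrivial torsionfree groups -/
structure TG where
  /-- the group -/
  G : Type
  /-- the group structure -/
  grp : Group G
  ctbl : Countable G
  tf : TorsionfreeGroup G
  nontriv : Nontrivial G

attribute [instance] TG.grp

theorem TG.exists_enum (T : TG) :
    ∃ p : ℕ → {x : T.G // x ≠ 1} × {x : T.G // x ≠ 1}, Function.Surjective p := by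
  have h1 := T.ctbl
  have h2 := T.nontriv
  obtain ⟨x, hx⟩ := exists_ne (1 : T.G)
  have : Nonempty ({x : T.G // x ≠ 1} × {x : T.G // x ≠ 1}) := ⟨(⟨x, hx⟩, ⟨x, hx⟩)⟩
  exact exists_surjective_nat _

/-- an enumeration of the pairs of nontrivial elements -/
noncomputable def TG.enum (T : TG) : ℕ → {x : T.G // x ≠ 1} × {x : T.G // x ≠ 1} :=
  T.exists_enum.choose

theorem TG.enum_surjective (T : TG) : Function.Surjective T.enum := T.exists_enum.choose_spec

/-- the next group -/
noncomputable def TG.next (T : TG) : TG where
  G := U1 T.ctbl T.tf T.enum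
  grp := inferInstance
  ctbl := countable_U1 _ _ _
  tf := torsionfree_U1 _ _ _
  nontriv := by
    have := T.nontriv
    exact (toU1_injective T.ctbl T.tf T.enum).nontrivial

/-- the map to the next group -/
noncomputable def TG.nextHom (T : TG) : T.G →* T.next.G := toU1 T.ctbl T.tf T.enum

/-- the sequence -/
noncomputable def tower (T : TG) : ℕ → TG
  | 0 => T
  | k + 1 => (tower T k).next

/-- the transition maps -/
noncomputable def towerHom (T : TG) (k : ℕ) : (tower T k).G →* (tower T (k + 1)).G :=
  (tower T k).nextHom

theorem towerHom_injective (T : TG) (k : ℕ) : Function.Injective (towerHom T k) :=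
  toU1_injective _ _ _

/-- the group with two conjugacy classes -/
def U2 (T : TG) : Type := Omega.Lim (towerHom T)

noncomputable instance (T : TG) : Group (U2 T) := inferInstanceAs (Group (Omega.Lim (towerHom T)))

/-- the embedding -/
noncomputable def toU2 (T : TG) : T.G →* U2 T := Omega.toLim (towerHom T) 0

theorem countable_U2 (T : TG) : Countable (U2 T) := by
  have : ∀ k, Countable (tower T k).G := fun k => (tower T k).ctbl
  exact Omega.countable_lim (towerHom T)

theorem torsionfree_U2 (T : TG) : TorsionfreeGroup (U2 T) :=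
  Omega.torsionfree_lim (towerHom_injective T) fun k => (tower T k).tf

theorem toU2_injective (T : TG) : Function.Injective (toU2 T) :=
  Omega.toLim_injective (towerHom_injective T) 0

theorem nontrivial_U2 (T : TG) : Nontrivial (U2 T) := by
  have := T.nontriv
  exact (toU2_injective T).nontrivial

theorem down_toU2 (T : TG) {R : Type u} [Ring R] (hR : IsRegularRing R) : Down R (toU2 T) :=
  Omega.down_lim (towerHom_injective T) fun _ => down_toU1 _ _ _ hR

theorem conj_U2 (T : TG) {x y : U2 T} (hx : x ≠ 1) (hy : y ≠ 1) : IsConj x y := by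
  obtain ⟨i, a, ha⟩ := Omega.exists_toLim (towerHom T) x
  obtain ⟨j, b, hb⟩ := Omega.exists_toLim (towerHom T) y
  set k := max i j with hk
  set a' := Omega.tr (towerHom T) i k (le_max_left i j) a with ha'
  set b' := Omega.tr (towerHom T) j k (le_max_right i j) b with hb'
  have h1 : Omega.toLim (towerHom T) k a' = x := by rw [ha', Omega.toLim_tr, ha]
  have h2 : Omega.toLim (towerHom T) k b' = y := by rw [hb', Omega.toLim_tr, hb]
  have h3 : a' ≠ 1 := by
    intro h
    apply hx
    rw [← h1, h, map_one]; rfl
  have h4 : b' ≠ 1 := by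
    intro h
    apply hy
    rw [← h2, h, map_one]; rfl
  have h5 : IsConj ((tower T k).nextHom a') ((tower T k).nextHom b') :=
    conj_U1 _ _ _ (tower T k).enum_surjective h3 h4
  have h6 : ∀ z : (tower T k).G, Omega.toLim (towerHom T) (k + 1) ((tower T k).nextHom z) =
      Omega.toLim (towerHom T) k z := by
    intro z
    have h7 := Omega.toLim_tr (towerHom T) k (k + 1) (Nat.le_succ k) z
    rw [Omega.tr_succ _ k k le_rfl, Omega.tr_self] at h7
    exact h7
  rw [← h1, ← h2, ← h6, ← h6]
  exact (Omega.toLim (towerHom T) (k + 1)).map_isConj h5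

end Pool.Agent.Lib.MP_c052b4_al
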