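import Pool.Agent.Lib.MP_c052b4_al.Bdry3
import Pool.Agent.Lib.MP_c052b4_al.Gen2
import Pool.Agent.Lib.MP_c052b4_al.KOneKer2
import Pool.Agent.Lib.MP_c052b4_al.TwoClasses

/-!
# Descent of the surjectivity of the assembly map `A₁`
-/

set_option autoImplicit false
set_option linter.unusedSectionVars false

namespace Pool.Agent.Lib.MP_c052b4_al

open Matrix Kern HNNExtension

universe u v w

/-- The property of coming from the assembly map `A₁` descends along `ι : G → Γ`. -/
def Down1 (R : Type u) [Ring R] {G : Type v} {Γ : Type w} [Group G] [Group Γ] (ι : G →* Γ) : Prop :=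
  ∀ x : KOne (MonoidAlgebra R G), KOne.map (inc R ι) x ∈ imA1 R Γ → x ∈ imA1 R G

section General

variable {R : Type u} [Ring R] {G : Type v} {Γ : Type w} [Group G] [Group Γ]

theorem map_inc_comp {Δ : Type*} [Group Δ] (ι : G →* Γ) (κ : Γ →* Δ)
    (x : KOne (MonoidAlgebra R G)) :
    KOne.map (inc R κ) (KOne.map (inc R ι) x) = KOne.map (inc R (κ.comp ι)) x := by
  rw [← KOne.map_comp]
  have := MonoidAlgebra.mapDomainRingHom_comp (R := R) κ ι
  rw [← this]

theorem map_inc_id (x : KOne (MonoidAlgebra R G)) :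
    KOne.map (inc R (MonoidHom.id G)) x = x := by
  have h : inc R (MonoidHom.id G) = RingHom.id _ := MonoidAlgebra.mapDomainRingHom_id
  rw [h, KOne.map_id]

theorem Down1.comp {Δ : Type*} [Group Δ] {ι : G →* Γ} {κ : Γ →* Δ} (h : Down1 R ι)
    (h' : Down1 R κ) : Down1 R (κ.comp ι) := by
  intro x hx
  apply h
  apply h'
  rwa [map_inc_comp]

theorem down1_of_retract {ι : G →* Γ} {ρ : Γ →* G} (h : ρ.comp ι = MonoidHom.id G) :
    Down1 R ι := by
  intro x hx
  have h1 := map_imA1 ρ hx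
  rwa [map_inc_comp, h, map_inc_id] at h1

theorem imA1_top_of_down1 {ι : G →* Γ} (h : Down1 R ι) (hΓ : imA1 R Γ = ⊤) : imA1 R G = ⊤ := by
  rw [eq_top_iff]
  intro x _
  apply h
  rw [hΓ]
  trivial

theorem imA1_of_mulEquiv (f : G ≃* Γ) (h : ∀ x, x ∈ imA1 R G) (x : KOne (MonoidAlgebra R Γ)) :
    x ∈ imA1 R Γ := by
  have h1 := map_imA1 (f : G →* Γ) (h (KOne.map (inc R (f.symm : Γ →* G)) x))
  rw [map_inc_comp] at h1
  have h2 : (f : G →* Γ).comp (f.symm : Γ →* G) = MonoidHom.id Γ := by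
    ext y; simp
  rwa [h2, map_inc_id] at h1

end General

section HNN

variable {R : Type u} [Ring R] {G : Type v} [Group G]

/-- the projection of an HNN extension to the integers -/
noncomputable def prZ {A B : Subgroup G} (φ : A ≃* B) :
    HNNExtension G A B φ →* Multiplicative ℤ :=
  HNNExtension.lift 1 (Multiplicative.ofAdd 1) (by intro a; simp)

theorem prZ_of {A B : Subgroup G} (φ : A ≃* B) :
    (prZ φ).comp of = (1 : G →* Multiplicative ℤ) := by
  ext g
  simp [prZ]

theorem prZ_t {A B : Subgroup G} (φ : A ≃* B) : prZ φ t = Multiplicative.ofAdd 1 := by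
  simp [prZ]

theorem inc_one_eq : inc R (1 : G →* Multiplicative ℤ) =
    (cG R (Multiplicative ℤ)).comp ((MonoidAlgebra.uniqueRingEquiv (R := R) PUnit.{1} :
      MonoidAlgebra R PUnit.{1} →+* R).comp
        (MonoidAlgebra.mapDomainRingHom R (1 : G →* PUnit.{1}))) := by
  apply MonoidAlgebra.ringHom_ext
  · intro r
    simp
  · intro g
    simp

theorem del_inc_one (x : KOne (MonoidAlgebra R G)) :
    Bdry.del R (KOne.map (inc R (1 : G →* Multiplicative ℤ)) x) = 0 := by
  rw [inc_one_eq, KOne.map_comp, Bdry.del_map_const]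

theorem imA1_hnn {A B : Subgroup G} (φ : A ≃* B) {z : KOne (MonoidAlgebra R (HNNExtension G A B φ))}
    (hz : z ∈ imA1 R (HNNExtension G A B φ)) :
    ∃ y ∈ imA1 R G, ∃ p : KZero R, z = KOne.map (inc R of) y + tauG R t p := by
  let H : AddSubgroup (KOne (MonoidAlgebra R (HNNExtension G A B φ))) :=
    (imA1 R G).map (KOne.map (inc R of)) ⊔ (tauG R t).range
  have h : imA1 R (HNNExtension G A B φ) ≤ H := by
    refine imA1_le ?_ ?_
    · intro x
      apply AddSubgroup.mem_sup_left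
      exact ⟨_, map_mem_imA1 x, map_cG _ x⟩
    · intro g
      induction g using HNNExtension.induction_on with
      | of g =>
        intro x
        apply AddSubgroup.mem_sup_left
        exact ⟨_, tauG_mem_imA1 g x, map_tauG _ g x⟩
      | t =>
        intro x
        apply AddSubgroup.mem_sup_right
        exact ⟨x, rfl⟩
      | mul g h hg hh =>
        intro x
        rw [tauG_mul]
        exact AddSubgroup.add_mem _ (hg x) (hh x)
      | inv g hg =>
        intro x
        rw [tauG_inv]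
        exact AddSubgroup.neg_mem _ (hg x)
  obtain ⟨_, ⟨y, hy, rfl⟩, _, ⟨p, rfl⟩, rfl⟩ := AddSubgroup.mem_sup.1 (h hz)
  exact ⟨y, hy, p, rfl⟩

theorem imA1_zpowers (htf : TorsionfreeGroup G) (hR : IsRegularRing R) {a : G} (ha : a ≠ 1)
    (x : KOne (MonoidAlgebra R (Subgroup.zpowers a))) : x ∈ imA1 R (Subgroup.zpowers a) :=
  imA1_of_mulEquiv (zEquiv htf ha) (imA1_int hR) x

theorem down1_hnn (htf : TorsionfreeGroup G) (hR : IsRegularRing R) {a b : G} (ha : a ≠ 1) (hb : b ≠ 1) :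
    Down1 R (of : G →* HNNExtension G _ _ (zz htf ha hb)) := by
  intro x hx
  obtain ⟨y, hy, p, hxy⟩ := imA1_hnn _ hx
  have h1 : p = 0 := by
    have h2 := congrArg (fun z => Bdry.del R (KOne.map (inc R (prZ (zz htf ha hb))) z)) hxy
    simp only [map_add, map_inc_comp, prZ_of, del_inc_one, map_tauG, prZ_t, Bdry.del_tauG,
      zero_add] at h2
    exact h2.symm
  rw [h1, map_zero, add_zero] at hxy
  have h2 : KOne.map (inc R (of : G →* HNNExtension G _ _ (zz htf ha hb))) (x - y) = 0 := by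
    rw [map_sub, hxy, sub_self]
  obtain ⟨k, A, hA⟩ := exists_k1 (x - y)
  rw [← hA] at h2
  have h3 := Kern.kone_kernel (HN.halfSpaces (zz htf ha hb)) (of_injective _) A h2
  have h4 : ∀ (C : Subgroup G), (∀ z, z ∈ imA1 R C) →
      (KOne.map (inc R C.subtype)).range ≤ imA1 R G := by
    rintro C hC _ ⟨z, rfl⟩
    exact map_imA1 _ (hC z)
  have h5 : k1 A ∈ imA1 R G := by
    refine (sup_le (h4 _ ?_) (h4 _ ?_)) h3
    · exact imA1_zpowers htf hR hb
    · exact imA1_zpowers htf hR ha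
  rw [hA] at h5
  have h6 := AddSubgroup.add_mem _ h5 hy
  rwa [sub_add_cancel] at h6

end HNN

section El

variable {T : Type v} [Ring T] {n : Type*} [Fintype n] [DecidableEq n]

theorem k1_of_el {U : (Matrix (n ⊕ n) (n ⊕ n) T)ˣ} (hU : U ∈ El n T) : k1 U = 0 := by
  induction hU using Subgroup.closure_induction with
  | mem U hU =>
    rcases hU with ⟨X, rfl⟩ | ⟨X, rfl⟩
    · exact k1_uU X
    · exact k1_lU X
  | one => exact k1_one
  | mul A B _ _ hA hB => rw [k1_mul, hA, hB, add_zero]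
  | inv A _ hA => rw [k1_inv, hA, neg_zero]

theorem mU_uU {S : Type*} [Ring S] (φ : S →+* T) (X : Matrix n n S) :
    mU φ (uU X) = uU (X.map φ) := by
  apply Units.ext
  rw [coe_mU, coe_uU, coe_uU, Matrix.fromBlocks_map]
  simp

theorem mU_lU {S : Type*} [Ring S] (φ : S →+* T) (X : Matrix n n S) :
    mU φ (lU X : (Matrix (n ⊕ n) (n ⊕ n) S)ˣ) = lU (X.map φ) := by
  apply Units.ext
  rw [coe_mU, coe_lU, coe_lU, Matrix.fromBlocks_map]
  simp

end El

namespace Omega

variable {G : ℕ → Type v} [∀ k, Group (G k)] {f : ∀ k, G k →* G (k + 1)}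
  {R : Type u} [Ring R]

theorem toLim_comp_tr {k l : ℕ} (h : k ≤ l) : (toLim f l).comp (tr f k l h) = toLim f k := by
  ext x
  exact toLim_tr f k l h x

theorem tr_comp_tr {i k l : ℕ} (h : i ≤ k) (h' : k ≤ l) :
    (tr f k l h').comp (tr f i k h) = tr f i l (h.trans h') := by
  ext x
  exact tr_trans f i k l h h' x

theorem exists_el_stage {n : Type*} [Fintype n] [DecidableEq n]
    {E : (Matrix (n ⊕ n) (n ⊕ n) (MonoidAlgebra R (Lim f)))ˣ} (hE : E ∈ El n _) :
    ∃ l0, ∀ l, l0 ≤ l → ∃ E' ∈ El n (MonoidAlgebra R (G l)),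
      mU (inc R (toLim f l)) E' = E := by
  induction hE using Subgroup.closure_induction with
  | mem U hU =>
    rcases hU with ⟨X, rfl⟩ | ⟨X, rfl⟩
    · obtain ⟨l0, hl0⟩ := exists_mat f R X
      refine ⟨l0, fun l hl => ?_⟩
      obtain ⟨X', hX'⟩ := hl0 l hl
      exact ⟨uU X', uU_mem _, by rw [mU_uU, hX']⟩
    · obtain ⟨l0, hl0⟩ := exists_mat f R X
      refine ⟨l0, fun l hl => ?_⟩
      obtain ⟨X', hX'⟩ := hl0 l hl
      exact ⟨lU X', lU_mem _, by rw [mU_lU, hX']⟩
  | one => exact ⟨0, fun l _ => ⟨1, Subgroup.one_mem _, map_one _⟩⟩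
  | mul A B _ _ hA hB =>
    obtain ⟨i, hi⟩ := hA
    obtain ⟨j, hj⟩ := hB
    refine ⟨max i j, fun l hl => ?_⟩
    obtain ⟨A', hA', hA''⟩ := hi l (le_trans (le_max_left _ _) hl)
    obtain ⟨B', hB', hB''⟩ := hj l (le_trans (le_max_right _ _) hl)
    exact ⟨A' * B', Subgroup.mul_mem _ hA' hB', by rw [map_mul, hA'', hB'']⟩
  | inv A _ hA =>
    obtain ⟨i, hi⟩ := hA
    refine ⟨i, fun l hl => ?_⟩
    obtain ⟨A', hA', hA''⟩ := hi l hl
    exact ⟨A'⁻¹, Subgroup.inv_mem _ hA', by rw [map_inv, hA'']⟩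

theorem exists_stage_zero (hf : ∀ k, Function.Injective (f k)) {k : ℕ}
    (w : KOne (MonoidAlgebra R (G k))) (hw : KOne.map (inc R (toLim f k)) w = 0) :
    ∃ (l : ℕ) (h : k ≤ l), KOne.map (inc R (tr f k l h)) w = 0 := by
  obtain ⟨m, A, rfl⟩ := exists_k1 w
  obtain ⟨q, B, hBA, hB⟩ := exists_el (inc R (toLim f k)) A hw
  obtain ⟨l0, hl0⟩ := exists_el_stage hB
  obtain ⟨l, hl, hkl⟩ : ∃ l, l0 ≤ l ∧ k ≤ l := ⟨max l0 k, le_max_left _ _, le_max_right _ _⟩
  obtain ⟨E', hE', hE''⟩ := hl0 l hl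
  refine ⟨l, hkl, ?_⟩
  have h1 : mU (inc R (tr f k l hkl)) B = E' := by
    have hinj : Function.Injective (inc R (toLim f l)) :=
      MonoidAlgebra.mapDomain_injective (toLim_injective hf l)
    have h2 : mU (inc R (toLim f l)) (mU (inc R (tr f k l hkl)) B) =
        mU (inc R (toLim f l)) E' := by
      rw [hE'']
      apply Units.ext
      rw [coe_mU, coe_mU, coe_mU, Matrix.map_map]
      have h3 := MonoidAlgebra.mapDomainRingHom_comp (R := R) (toLim f l) (tr f k l hkl)
      rw [toLim_comp_tr] at h3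
      congr 1
      funext s
      exact (RingHom.congr_fun h3 s).symm
    apply Units.ext
    have h3 := congrArg Units.val h2
    rw [coe_mU, coe_mU] at h3
    exact Matrix.map_injective hinj h3
  rw [← hBA, KOne.map_k1, h1]
  exact k1_of_el hE'

theorem imA1_lim {z : KOne (MonoidAlgebra R (Lim f))} (hz : z ∈ imA1 R (Lim f)) :
    ∃ k, ∃ y ∈ imA1 R (G k), KOne.map (inc R (toLim f k)) y = z := by
  let H : AddSubgroup (KOne (MonoidAlgebra R (Lim f))) :=
    { carrier := {z | ∃ k, ∃ y ∈ imA1 R (G k), KOne.map (inc R (toLim f k)) y = z}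
      zero_mem' := ⟨0, 0, AddSubgroup.zero_mem _, map_zero _⟩
      add_mem' := by
        rintro _ _ ⟨i, y, hy, rfl⟩ ⟨j, y', hy', rfl⟩
        refine ⟨max i j, KOne.map (inc R (tr f i (max i j) (le_max_left _ _))) y +
          KOne.map (inc R (tr f j (max i j) (le_max_right _ _))) y',
          AddSubgroup.add_mem _ (map_imA1 _ hy) (map_imA1 _ hy'), ?_⟩
        rw [map_add, map_inc_comp, map_inc_comp, toLim_comp_tr, toLim_comp_tr]
      neg_mem' := by
        rintro _ ⟨i, y, hy, rfl⟩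
        exact ⟨i, -y, AddSubgroup.neg_mem _ hy, map_neg _ _⟩ }
  have h : imA1 R (Lim f) ≤ H := by
    refine imA1_le ?_ ?_
    · intro x
      exact ⟨0, _, map_mem_imA1 x, map_cG _ x⟩
    · intro g x
      obtain ⟨i, g, rfl⟩ := exists_toLim f g
      exact ⟨i, _, tauG_mem_imA1 g x, map_tauG _ g x⟩
  exact h hz

theorem down1_lim (hf : ∀ k, Function.Injective (f k)) (hd : ∀ k, Down1 R (f k)) :
    Down1 R (toLim f 0) := by
  have hdtr : ∀ k (h : 0 ≤ k), Down1 R (tr f 0 k h) := by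
    intro k h
    induction k, h using Nat.le_induction with
    | base =>
      rw [tr_self]
      exact down1_of_retract (ρ := MonoidHom.id _) rfl
    | succ k hk ih =>
      rw [tr_succ f 0 k hk]
      exact ih.comp (hd k)
  intro x hx
  obtain ⟨k, y, hy, hyx⟩ := imA1_lim hx
  have h1 : KOne.map (inc R (toLim f k)) (KOne.map (inc R (tr f 0 k (Nat.zero_le k))) x - y) =
      0 := by
    rw [map_sub, map_inc_comp, toLim_comp_tr, hyx, sub_self]
  obtain ⟨l, hkl, hl⟩ := exists_stage_zero hf _ h1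
  apply hdtr l (Nat.zero_le l)
  rw [map_sub, map_inc_comp, tr_comp_tr, sub_eq_zero] at hl
  rw [hl]
  exact map_imA1 _ hy

end Omega

section Seq

variable {G : Type} [Group G] (hG : Countable G) (htf : TorsionfreeGroup G)
  (p : ℕ → {x : G // x ≠ 1} × {x : G // x ≠ 1})

theorem Ext.down1_nextHom {R : Type u} [Ring R] (hR : IsRegularRing R) (E : Ext G)
    (x y : {x : G // x ≠ 1}) : Down1 R (E.nextHom x y) :=
  down1_hnn E.tf hR (fun h => x.2 (E.inj (by rw [h, map_one])))
    (fun h => y.2 (E.inj (by rw [h, map_one])))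

theorem down1_toU1 {R : Type u} [Ring R] (hR : IsRegularRing R) : Down1 R (toU1 hG htf p) :=
  Omega.down1_lim (seqHom_injective hG htf p) fun k => (seq hG htf p k).down1_nextHom hR _ _

end Seq

theorem down1_toU2 (T : TG) {R : Type u} [Ring R] (hR : IsRegularRing R) : Down1 R (toU2 T) :=
  Omega.down1_lim (towerHom_injective T) fun _ => down1_toU1 _ _ _ hR

end Pool.Agent.Lib.MP_c052b4_al
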