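import Pool.Agent.Lib.MP_c052b4_al.Base
import Pool.Agent.Lib.MP_c052b4_al.DownOne

/-!
# Consequences for `K₁` of group rings of torsionfree groups
-/

set_option autoImplicit false
set_option linter.unusedSectionVars false

namespace Pool.Agent.Lib.MP_c052b4_al

open Matrix Kern

universe u v w

section Compact

variable {R : Type u} [Ring R] {G : Type v} [Group G]

/-- lifting to a free group -/
theorem exists_lift_free (B : Finset G) : ∃ (m : ℕ) (p : FreeGroup (Fin m) →* G),
    ∀ {n : ℕ} (X : Matrix (Fin n) (Fin n) (MonoidAlgebra R G)), SupM (B : Set G) X →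
      ∃ E : Matrix (Fin n) (Fin n) (MonoidAlgebra R (FreeGroup (Fin m))),
        E.map (inc R p) = X := by
  classical
  let m := Fintype.card B
  let v : B ≃ Fin m := Fintype.equivFin B
  let p : FreeGroup (Fin m) →* G := FreeGroup.lift fun k => ((v.symm k : B) : G)
  have hlift : ∀ a : MonoidAlgebra R G, Sup (B : Set G) a →
      ∃ a' : MonoidAlgebra R (FreeGroup (Fin m)), inc R p a' = a := by
    intro a ha
    refine ⟨∑ b : B, MonoidAlgebra.single (FreeGroup.of (v b)) (a.coeff b), ?_⟩
    rw [map_sum]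
    have h1 : ∀ b : B, inc R p (MonoidAlgebra.single (FreeGroup.of (v b)) (a.coeff b)) =
        MonoidAlgebra.single (b : G) (a.coeff b) := by
      intro b
      simp [p]
    rw [Finset.sum_congr rfl fun b _ => h1 b]
    ext g
    rw [MonoidAlgebra.coeff_sum, Finsupp.finsetSum_apply]
    by_cases hg : g ∈ B
    · rw [Finset.sum_eq_single (⟨g, hg⟩ : B)]
      · simp
      · intro b _ hb
        have : (b : G) ≠ g := fun h => hb (Subtype.ext h)
        simp [this]
      · intro h; exact absurd (Finset.mem_univ _) h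
    · rw [ha g (by simpa using hg)]
      apply Finset.sum_eq_zero
      intro b _
      have : (b : G) ≠ g := fun h => hg (h ▸ b.2)
      simp [this]
  refine ⟨m, p, fun X hX => ?_⟩
  choose E hE using fun i j => hlift (X i j) (hX i j)
  exact ⟨Matrix.of E, by funext i j; exact hE i j⟩

/-- imposing finitely many relations -/
theorem exists_block_zero (hG : TorsionfreeGroup G) {m n : ℕ} (p : FreeGroup (Fin m) →* G)
    (D D' : Matrix (Fin n) (Fin n) (MonoidAlgebra R (FreeGroup (Fin m))))
    (hD : D.map (inc R p) = 0) (hD' : D'.map (inc R p) = 0) :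
    ∃ (i : Idx) (q : FreeGroup (Fin m) →* HH i) (f : HH i →* G), f.comp q = p ∧
      D.map (inc R q) = 0 ∧ D'.map (inc R q) = 0 := by
  classical
  obtain ⟨T1, hT1⟩ := exists_finset_supM D
  obtain ⟨T2, hT2⟩ := exists_finset_supM D'
  let T := T1 ∪ T2
  let S : Finset (FreeGroup (Fin m)) :=
    ((T ×ˢ T).filter fun z => p z.1 = p z.2).image fun z => z.1⁻¹ * z.2
  let i0 : Idx := ⟨m, S⟩
  have hpS : ∀ s ∈ (S : Set (FreeGroup (Fin m))), p s = 1 := by
    intro s hs
    simp only [S, Finset.coe_image, Set.mem_image, Finset.mem_coe, Finset.mem_filter] at hs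
    obtain ⟨z, ⟨-, hz⟩, rfl⟩ := hs
    rw [map_mul, map_inv, hz, inv_mul_cancel]
  let q : FreeGroup (Fin m) →* HH i0 := QuotientGroup.mk' _
  let f : HH i0 →* G := tfcLift hG _ p hpS
  have hfq : f.comp q = p := by
    apply MonoidHom.ext
    intro x
    exact tfcLift_mk hG _ p hpS x
  have key : ∀ (D : Matrix (Fin n) (Fin n) (MonoidAlgebra R (FreeGroup (Fin m)))),
      SupM (T : Set (FreeGroup (Fin m))) D → D.map (inc R p) = 0 → D.map (inc R q) = 0 := by
    intro D hDT hDp
    funext i j
    refine inc_eq_zero_of q f (D i j) ?_ ?_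
    · rw [hfq]; exact congrFun (congrFun hDp i) j
    · intro x hx y hy hxy
      have hx' : x ∈ T := by
        by_contra h
        exact (Finsupp.mem_support_iff.1 hx) (hDT i j x (by simpa using h))
      have hy' : y ∈ T := by
        by_contra h
        exact (Finsupp.mem_support_iff.1 hy) (hDT i j y (by simpa using h))
      have hxy' : p x = p y := by
        rw [← hfq]; exact hxy
      change (QuotientGroup.mk x : HH i0) = QuotientGroup.mk y
      rw [QuotientGroup.eq]
      apply subset_tfc
      simp only [i0, S, Finset.coe_image, Set.mem_image, Finset.mem_coe, Finset.mem_filter]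
      exact ⟨(x, y), ⟨Finset.mem_product.2 ⟨hx', hy'⟩, hxy'⟩, rfl⟩
  refine ⟨i0, q, f, hfq, key D ?_ hD, key D' ?_ hD'⟩
  · intro i j
    exact (hT1 i j).mono (by intro b hb; exact Finset.mem_union_left _ hb)
  · intro i j
    exact (hT2 i j).mono (by intro b hb; exact Finset.mem_union_right _ hb)

/-- compactness: every invertible matrix over the group ring of a torsionfree group comes from one
of the building blocks -/
theorem exists_block_unit (hG : TorsionfreeGroup G) {n : ℕ}
    (A : (Matrix (Fin n) (Fin n) (MonoidAlgebra R G))ˣ) :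
    ∃ (i : Idx) (f : HH i →* G) (A' : (Matrix (Fin n) (Fin n) (MonoidAlgebra R (HH i)))ˣ),
      mU (inc R f) A' = A := by
  classical
  obtain ⟨B1, hB1⟩ := exists_finset_supM (A : Matrix (Fin n) (Fin n) (MonoidAlgebra R G))
  obtain ⟨B2, hB2⟩ := exists_finset_supM
    ((A⁻¹ : (Matrix (Fin n) (Fin n) (MonoidAlgebra R G))ˣ) :
      Matrix (Fin n) (Fin n) (MonoidAlgebra R G))
  obtain ⟨m, p, hp⟩ := exists_lift_free (R := R) (B1 ∪ B2)
  obtain ⟨E, hE⟩ := hp (A : Matrix (Fin n) (Fin n) (MonoidAlgebra R G)) (fun i j =>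
    (hB1 i j).mono (by intro b hb; exact Finset.mem_coe.2 (Finset.mem_union_left _ hb)))
  obtain ⟨E', hE'⟩ := hp ((A⁻¹ : (Matrix (Fin n) (Fin n) (MonoidAlgebra R G))ˣ) :
      Matrix (Fin n) (Fin n) (MonoidAlgebra R G)) (fun i j =>
    (hB2 i j).mono (by intro b hb; exact Finset.mem_coe.2 (Finset.mem_union_right _ hb)))
  obtain ⟨i, q, f, hfq, h1, h2⟩ := exists_block_zero hG p (E * E' - 1) (E' * E - 1)
    (by rw [Matrix.map_sub _ (map_sub _), Matrix.map_mul, hE, hE', Units.mul_inv,
      Matrix.map_one _ (map_zero _) (map_one _), sub_self])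
    (by rw [Matrix.map_sub _ (map_sub _), Matrix.map_mul, hE, hE', Units.inv_mul,
      Matrix.map_one _ (map_zero _) (map_one _), sub_self])
  rw [Matrix.map_sub _ (map_sub _), Matrix.map_mul, Matrix.map_one _ (map_zero _) (map_one _),
    sub_eq_zero] at h1 h2
  refine ⟨i, f, ⟨E.map (inc R q), E'.map (inc R q), h1, h2⟩, ?_⟩
  apply Units.ext
  rw [coe_mU]
  change (E.map (inc R q)).map (inc R f) = A
  rw [Matrix.map_map, ← hE]
  congr 1
  funext s
  have h3 := MonoidAlgebra.mapDomainRingHom_comp (R := R) f q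
  rw [hfq] at h3
  exact (RingHom.congr_fun h3 s).symm

theorem imA1_of_UU (hR : IsRegularRing R) (h : imA1 R UU = ⊤) (hG : TorsionfreeGroup G) :
    imA1 R G = ⊤ := by
  rw [eq_top_iff]
  intro x _
  obtain ⟨k, A, rfl⟩ := exists_k1 x
  obtain ⟨i, f, A', rfl⟩ := exists_block_unit hG A
  rw [← KOne.map_k1]
  apply map_imA1
  have h0 : imA1 R U0 = ⊤ := imA1_top_of_down1 (down1_toU2 TG0 hR) h
  have h1 : imA1 R (HH i) = ⊤ := imA1_top_of_down1 (down1_of_retract (prHH_inHH i)) h0
  rw [h1]
  trivial

theorem imA1_eq_range {U : Type v} [Group U] (htf : TorsionfreeGroup U)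
    (hU : ∀ x y : U, x ≠ 1 → y ≠ 1 → IsConj x y) :
    imA1 R U = (KOne.map (cG R U)).range := by
  apply le_antisymm
  · refine imA1_le (fun x => ⟨x, rfl⟩) ?_
    intro g x
    have h0 : tauG R g = 0 := by
      by_cases hg : g = 1
      · rw [hg, tauG_one]
      · have hg2 : g * g ≠ 1 := by
          intro h
          exact hg (htf g 2 (by norm_num) (by rw [pow_two, h]))
        obtain ⟨c, hc⟩ := isConj_iff.1 (hU g (g * g) hg hg2)
        have h1 : tauG R g = tauG R g + tauG R g := by
          conv_lhs => rw [← tauG_conj g c, hc]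
          rw [tauG_mul]
        exact left_eq_add.1 h1
    rw [h0]
    exact AddSubgroup.zero_mem _
  · exact le_sup_left

end Compact

section BHS

variable {R : Type u} [Ring R] {G : Type v} [Group G]

theorem tauG_zpow (g : G) (k : ℤ) : tauG R (g ^ k) = k • tauG R g := by
  let F : G →* Multiplicative (KZero R →+ KOne (MonoidAlgebra R G)) :=
    { toFun := fun g => Multiplicative.ofAdd (tauG R g)
      map_one' := by rw [tauG_one]; rfl
      map_mul' := fun a b => by rw [tauG_mul]; rfl }
  have h := map_zpow F g k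
  exact congrArg Multiplicative.toAdd h

theorem del_tauG_general {S : Type u} [Ring S] (z : Multiplicative ℤ) (y : KZero S) :
    Bdry.del S (tauG S z y) = Multiplicative.toAdd z • y := by
  have h1 : z = (Multiplicative.ofAdd (1 : ℤ)) ^ (Multiplicative.toAdd z) := by
    apply Multiplicative.toAdd.injective
    rw [toAdd_zpow, toAdd_ofAdd]
    simp
  conv_lhs => rw [h1]
  rw [tauG_zpow, AddMonoidHom.smul_apply, map_zsmul, Bdry.del_tauG]

/-- the identification of the group ring of a product -/
noncomputable def cur (R : Type u) [Ring R] (G : Type v) [Group G] :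
    MonoidAlgebra R (Multiplicative ℤ × G) →+* Lau (MonoidAlgebra R G) :=
  (MonoidAlgebra.curryRingEquiv (R := R) (M := Multiplicative ℤ) (N := G) :
    MonoidAlgebra R (Multiplicative ℤ × G) →+* Lau (MonoidAlgebra R G))

theorem cur_single (z : Multiplicative ℤ) (g : G) (r : R) :
    cur R G (MonoidAlgebra.single (z, g) r) = MonoidAlgebra.single z (MonoidAlgebra.single g r) :=
  MonoidAlgebra.curryRingEquiv_single ..

theorem cur_comp : (cur R G).comp (cG R (Multiplicative ℤ × G)) =
    (cG (MonoidAlgebra R G) (Multiplicative ℤ)).comp (cG R G) := by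
  apply RingHom.ext
  intro r
  exact cur_single 1 1 r

theorem map_cur_tauG (z : Multiplicative ℤ) (g : G) (x : KZero R) :
    KOne.map (cur R G) (tauG R (z, g) x) =
      tauG (MonoidAlgebra R G) z (KZero.map (cG R G) x) +
        KOne.map (cG (MonoidAlgebra R G) (Multiplicative ℤ)) (tauG R g x) := by
  have h1 : (z, g) = ((z, 1) : Multiplicative ℤ × G) * (1, g) := by
    rw [Prod.mk_mul_mk, mul_one, one_mul]
  rw [h1, tauG_mul, AddMonoidHom.add_apply, map_add]
  congr 1
  · have h2 : (KOne.map (cur R G)).comp (tauG R ((z, 1) : Multiplicative ℤ × G)) =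
        (tauG (MonoidAlgebra R G) z).comp (KZero.map (cG R G)) := by
      apply kZero_hom_ext
      intro p
      rw [AddMonoidHom.comp_apply, AddMonoidHom.comp_apply, KZero.map_cls]
      unfold tauG
      rw [tau_cls, tau_cls, map_ks_te _ _ (gU_comm _) p.idem, cur_comp]
      have h3 : cur R G (gU R ((z, 1) : Multiplicative ℤ × G) :
          (MonoidAlgebra R (Multiplicative ℤ × G))ˣ) =
          ((gU (MonoidAlgebra R G) z : (Lau (MonoidAlgebra R G))ˣ) : Lau (MonoidAlgebra R G)) :=
        cur_single z 1 1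
      rw [h3]
      unfold ks
      congr 2
    exact DFunLike.congr_fun h2 x
  · have h2 : (KOne.map (cur R G)).comp (tauG R ((1, g) : Multiplicative ℤ × G)) =
        (KOne.map (cG (MonoidAlgebra R G) (Multiplicative ℤ))).comp (tauG R g) := by
      apply kZero_hom_ext
      intro p
      rw [AddMonoidHom.comp_apply, AddMonoidHom.comp_apply]
      unfold tauG
      rw [tau_cls, tau_cls, map_ks_te _ _ (gU_comm _) p.idem, map_ks_te _ _ (gU_comm _) p.idem,
        cur_comp]
      have h3 : cur R G (gU R ((1, g) : Multiplicative ℤ × G) :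
          (MonoidAlgebra R (Multiplicative ℤ × G))ˣ) =
          cG (MonoidAlgebra R G) (Multiplicative ℤ) ((gU R g : (MonoidAlgebra R G)ˣ) :
            MonoidAlgebra R G) := cur_single 1 g 1
      rw [h3]
    exact DFunLike.congr_fun h2 x

/-- If `A₁` is surjective for `ℤ × G` then `A₀` is surjective for `G`. -/
theorem kSurj_of_imA1 (h : imA1 R (Multiplicative ℤ × G) = ⊤) : KSurj R G := by
  intro y
  let H : AddSubgroup (KOne (MonoidAlgebra R (Multiplicative ℤ × G))) :=
    (KZero.map (cG R G)).range.comap ((Bdry.del (MonoidAlgebra R G)).comp (KOne.map (cur R G)))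
  have hH : imA1 R (Multiplicative ℤ × G) ≤ H := by
    refine imA1_le ?_ ?_
    · intro x
      rw [AddSubgroup.mem_comap, AddMonoidHom.comp_apply, ← KOne.map_comp, cur_comp,
        KOne.map_comp, Bdry.del_map_const]
      exact AddSubgroup.zero_mem _
    · rintro ⟨z, g⟩ x
      rw [AddSubgroup.mem_comap, AddMonoidHom.comp_apply, map_cur_tauG, map_add,
        Bdry.del_map_const, add_zero, del_tauG_general]
      have hx : KZero.map (cG R G) x ∈ (KZero.map (cG R G)).range := ⟨x, rfl⟩
      exact AddSubgroup.zsmul_mem _ hx _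
  let ψ : Lau (MonoidAlgebra R G) →+* MonoidAlgebra R (Multiplicative ℤ × G) :=
    ((MonoidAlgebra.curryRingEquiv (R := R) (M := Multiplicative ℤ) (N := G)).symm :
          Lau (MonoidAlgebra R G) →+* MonoidAlgebra R (Multiplicative ℤ × G))
  have h1 : KOne.map ψ (tauG (MonoidAlgebra R G) (Multiplicative.ofAdd (1 : ℤ)) y) ∈ H := by
    apply hH
    rw [h]
    trivial
  rw [AddSubgroup.mem_comap, AddMonoidHom.comp_apply, ← KOne.map_comp] at h1
  have h2 : (cur R G).comp ψ = RingHom.id _ := by
    apply RingHom.ext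
    intro x
    exact (MonoidAlgebra.curryRingEquiv (R := R) (M := Multiplicative ℤ)
      (N := G)).apply_symm_apply x
  rw [h2, KOne.map_id, Bdry.del_tauG] at h1
  exact h1

end BHS

end Pool.Agent.Lib.MP_c052b4_al
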