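import Pool.Agent.Lib.MP_c052b4_al.Trans

/-!
# The kernel lemma: descending the stably induced property along tree-like embeddings
-/

set_option autoImplicit false
set_option linter.unusedSectionVars false

namespace Pool.Agent.Lib.MP_c052b4_al.Kern

open Matrix

universe u v w

/-- Half spaces: `Γ` is the disjoint union of `G` and of translates `g Xᵢ`, `g ∈ G / Cᵢ`, and the
sets `Xᵢ` are almost invariant from the right, modulo finitely many `Cᵢ`-orbits. -/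
structure HalfSpaces {G : Type v} {Γ : Type w} [Group G] [Group Γ] (ι : G →* Γ) where
  /-- the subgroups -/
  C : Bool → Subgroup G
  /-- the half spaces -/
  X : Bool → Set Γ
  left : ∀ i, ∀ c ∈ C i, ∀ γ ∈ X i, ι c * γ ∈ X i
  right : ∀ i (g : G), ∀ γ ∈ X i, γ * ι g ∈ X i
  cover : ∀ γ, γ ∈ Set.range ι ∨ ∃ i g, (ι g)⁻¹ * γ ∈ X i
  disj0 : ∀ i (g : G), ι g ∉ X i
  disj : ∀ i i' (g : G), ∀ γ ∈ X i, ι g * γ ∈ X i' → i = i' ∧ g ∈ C i
  bdry : ∀ i (b : Γ), ∃ T : Finset Γ, ∀ γ ∈ X i, γ * b ∉ X i →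
    ∃ τ ∈ T, ∃ c ∈ C i, γ = ι c * τ

variable {R : Type u} [Ring R] {G : Type v} {Γ : Type w} [Group G] [Group Γ] {ι : G →* Γ}

namespace HalfSpaces

variable (hs : HalfSpaces ι)

theorem left_iff (i : Bool) {c : G} (hc : c ∈ hs.C i) (γ : Γ) :
    ι c * γ ∈ hs.X i ↔ γ ∈ hs.X i := by
  constructor
  · intro h
    have := hs.left i c⁻¹ ((hs.C i).inv_mem hc) _ h
    rwa [map_inv, inv_mul_cancel_left] at this
  · exact hs.left i c hc γ

theorem right_iff (i : Bool) (g : G) (γ : Γ) : γ * ι g ∈ hs.X i ↔ γ ∈ hs.X i := by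
  constructor
  · intro h
    have := hs.right i g⁻¹ _ h
    rwa [map_inv, mul_inv_cancel_right] at this
  · exact hs.right i g γ

/-- the translate `g Xᵢ` -/
def tX (i : Bool) (g : G) : Set Γ := {γ | (ι g)⁻¹ * γ ∈ hs.X i}

theorem tX_eq {i i' : Bool} {g g' : G} {γ : Γ} (h : γ ∈ hs.tX i g) (h' : γ ∈ hs.tX i' g') :
    i = i' ∧ g'⁻¹ * g ∈ hs.C i := by
  have h1 : (ι g)⁻¹ * γ ∈ hs.X i := h
  have h2 : (ι g')⁻¹ * γ ∈ hs.X i' := h'
  have h3 : ι (g'⁻¹ * g) * ((ι g)⁻¹ * γ) ∈ hs.X i' := by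
    rw [map_mul, map_inv]
    have : (ι g')⁻¹ * ι g * ((ι g)⁻¹ * γ) = (ι g')⁻¹ * γ := by group
    rw [this]; exact h2
  exact hs.disj i i' _ _ h1 h3

theorem tX_sub {i : Bool} {g g' : G} (h : g'⁻¹ * g ∈ hs.C i) : hs.tX i g ⊆ hs.tX i g' := by
  intro γ hγ
  have h1 : (ι g)⁻¹ * γ ∈ hs.X i := hγ
  have h2 := hs.left i _ h _ h1
  rw [map_mul, map_inv] at h2
  have : (ι g')⁻¹ * ι g * ((ι g)⁻¹ * γ) = (ι g')⁻¹ * γ := by group
  rw [this] at h2
  exact h2

theorem range_tX {γ : Γ} (h : γ ∈ Set.range ι) (i : Bool) (g : G) : γ ∉ hs.tX i g := by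
  obtain ⟨g', rfl⟩ := h
  intro h1
  have h2 : (ι g)⁻¹ * ι g' ∈ hs.X i := h1
  rw [← map_inv, ← map_mul] at h2
  exact hs.disj0 i _ h2

/-- the boundary set -/
def Y (B : Finset Γ) (i : Bool) : Set Γ :=
  {γ | ∃ b ∈ B, ¬ (γ ∈ hs.X i ↔ γ * b ∈ hs.X i)}

theorem Y_left (B : Finset Γ) (i : Bool) {c : G} (hc : c ∈ hs.C i) {γ : Γ} :
    ι c * γ ∈ hs.Y B i ↔ γ ∈ hs.Y B i := by
  unfold Y
  simp only [Set.mem_ofPred_eq, mul_assoc, hs.left_iff i hc]

theorem exists_transY (hι : Function.Injective ι) (B : Finset Γ) (i : Bool) :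
    Nonempty (Trans (ι.comp (hs.C i).subtype) (hs.Y B i)) := by
  classical
  choose T hT using hs.bdry i
  have hj : Function.Injective (ι.comp (hs.C i).subtype) :=
    hι.comp (hs.C i).subtype_injective
  refine exists_trans _ hj
    (B.biUnion T ∪ B.biUnion fun b => (T b⁻¹).image fun τ => τ * b⁻¹) _ ?_ ?_
  · intro h γ hγ
    exact (hs.Y_left B i h.2).2 hγ
  · rintro γ ⟨b, hb, hγ⟩
    by_cases h1 : γ ∈ hs.X i
    · have h2 : γ * b ∉ hs.X i := fun h => hγ (by simp [h1, h])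
      obtain ⟨τ, hτ, c, hc, rfl⟩ := hT b γ h1 h2
      exact ⟨τ, Finset.mem_union_left _ (Finset.mem_biUnion.2 ⟨b, hb, hτ⟩), ⟨c, hc⟩, rfl⟩
    · have h2 : γ * b ∈ hs.X i := by
        by_contra h
        exact hγ (by simp [h1, h])
      obtain ⟨τ, hτ, c, hc, hγb⟩ := hT b⁻¹ (γ * b) h2 (by rwa [mul_inv_cancel_right])
      refine ⟨τ * b⁻¹, Finset.mem_union_right _ (Finset.mem_biUnion.2 ⟨b, hb,
        Finset.mem_image.2 ⟨τ, hτ, rfl⟩⟩), ⟨c, hc⟩, ?_⟩
      change γ = ι c * (τ * b⁻¹)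
      rw [← mul_assoc, ← hγb, mul_inv_cancel_right]

/-- the finite part -/
def W (B : Finset Γ) : Set Γ :=
  {γ | ∀ i g, (ι g)⁻¹ * γ ∈ hs.X i → (ι g)⁻¹ * γ ∈ hs.Y B i}

theorem exists_transW (hι : Function.Injective ι) (B : Finset Γ) :
    Nonempty (Trans ι (hs.W B)) := by
  classical
  obtain ⟨E0⟩ := hs.exists_transY hι B false
  obtain ⟨E1⟩ := hs.exists_transY hι B true
  refine exists_trans ι hι (insert 1 (Finset.univ.image E0.t ∪ Finset.univ.image E1.t)) _ ?_ ?_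
  · intro h γ hγ i g hg
    have h1 : (ι g)⁻¹ * (ι h * γ) = (ι (h⁻¹ * g))⁻¹ * γ := by
      rw [map_mul, map_inv]; group
    rw [h1] at hg ⊢
    exact hγ i _ hg
  · intro γ hγ
    rcases hs.cover γ with ⟨g, rfl⟩ | ⟨i, g, hg⟩
    · exact ⟨1, Finset.mem_insert_self _ _, g, by rw [mul_one]⟩
    · have h1 := hγ i g hg
      cases i with
      | false =>
        obtain ⟨s, c, hc⟩ := E0.cover _ h1
        refine ⟨E0.t s, ?_, g * c, ?_⟩
        · exact Finset.mem_insert_of_mem (Finset.mem_union_left _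
            (Finset.mem_image.2 ⟨s, Finset.mem_univ _, rfl⟩))
        · rw [map_mul, mul_assoc]
          change γ = ι g * ((ι.comp (hs.C false).subtype) c * E0.t s)
          rw [← hc]; group
      | true =>
        obtain ⟨s, c, hc⟩ := E1.cover _ h1
        refine ⟨E1.t s, ?_, g * c, ?_⟩
        · exact Finset.mem_insert_of_mem (Finset.mem_union_right _
            (Finset.mem_image.2 ⟨s, Finset.mem_univ _, rfl⟩))
        · rw [map_mul, mul_assoc]
          change γ = ι g * ((ι.comp (hs.C true).subtype) c * E1.t s)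
          rw [← hc]; group

end HalfSpaces

/-- The data of the situation: an idempotent matrix `f` over `R[G]` that becomes equivalent to an
identity matrix over `R[Γ]`. -/
structure Setup (R : Type u) [Ring R] (ι : G →* Γ) where
  /-- the half spaces -/
  hs : HalfSpaces ι
  inj : Function.Injective ι
  /-- the size of `f` -/
  m : ℕ
  /-- the size of the identity matrix -/
  n : ℕ
  /-- the idempotent -/
  f : Matrix (Fin m) (Fin m) (MonoidAlgebra R G)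
  /-- the equivalence -/
  x : Matrix (Fin n) (Fin m) (MonoidAlgebra R Γ)
  /-- the equivalence -/
  y : Matrix (Fin m) (Fin n) (MonoidAlgebra R Γ)
  xy : x * y = 1
  yx : y * x = f.map (inc R ι)
  /-- a finite set of group elements -/
  B : Finset Γ
  xB : SupM (B : Set Γ) x
  yB : SupM {γ | γ⁻¹ ∈ B} y

namespace Setup

variable (D : Setup R ι)

/-- the matrix `f` over the big ring -/
noncomputable def F : Matrix (Fin D.m) (Fin D.m) (MonoidAlgebra R Γ) := D.f.map (inc R ι)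

theorem yx' : D.y * D.x = D.F := D.yx

theorem xF : D.x * D.F = D.x := by
  rw [← yx', ← Matrix.mul_assoc, D.xy, Matrix.one_mul]

theorem Fy : D.F * D.y = D.y := by
  rw [← yx', Matrix.mul_assoc, D.xy, Matrix.mul_one]

theorem supF : SupM (Set.range ι) D.F := fun i j => sup_inc ι (D.f i j)

theorem vxy (a : Fin D.n → MonoidAlgebra R Γ) : (a ᵥ* D.x) ᵥ* D.y = a := by
  rw [Matrix.vecMul_vecMul, D.xy, Matrix.vecMul_one]

theorem vyx (b : Fin D.m → MonoidAlgebra R Γ) : (b ᵥ* D.y) ᵥ* D.x = b ᵥ* D.F := by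
  rw [Matrix.vecMul_vecMul, D.yx']

theorem vxF (a : Fin D.n → MonoidAlgebra R Γ) : (a ᵥ* D.x) ᵥ* D.F = a ᵥ* D.x := by
  rw [Matrix.vecMul_vecMul, D.xF]

theorem vFy (b : Fin D.m → MonoidAlgebra R Γ) : (b ᵥ* D.F) ᵥ* D.y = b ᵥ* D.y := by
  rw [Matrix.vecMul_vecMul, D.Fy]

theorem resV_F (i : Bool) (b : Fin D.m → MonoidAlgebra R Γ) :
    resV (D.hs.X i) (b ᵥ* D.F) = resV (D.hs.X i) b ᵥ* D.F := by
  refine resV_vecMul D.supF ?_ b
  rintro γ _ ⟨g, rfl⟩
  exact D.hs.right_iff i g γ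

/-- the projection -/
noncomputable def p (i : Bool) (a : Fin D.n → MonoidAlgebra R Γ) : Fin D.n → MonoidAlgebra R Γ :=
  resV (D.hs.X i) (a ᵥ* D.x) ᵥ* D.y

theorem p_add (i : Bool) (a a' : Fin D.n → MonoidAlgebra R Γ) :
    D.p i (a + a') = D.p i a + D.p i a' := by
  simp only [p, Matrix.add_vecMul, resV_add]

theorem p_zero (i : Bool) : D.p i 0 = 0 := by
  simp only [p, Matrix.zero_vecMul, resV_zero]

theorem p_smul (i : Bool) (s : MonoidAlgebra R (D.hs.C i)) (a : Fin D.n → MonoidAlgebra R Γ) :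
    D.p i (inc R (ι.comp (D.hs.C i).subtype) s • a) =
      inc R (ι.comp (D.hs.C i).subtype) s • D.p i a := by
  induction s using MonoidAlgebra.induction_linear with
  | zero => simp [p_zero]
  | add s s' hs hs' => rw [map_add, add_smul, add_smul, p_add, hs, hs']
  | single c r =>
    have h1 : inc R (ι.comp (D.hs.C i).subtype) (MonoidAlgebra.single c r) =
        MonoidAlgebra.single (ι c) r := by
      simp
    have h2 : {γ | (ι (c : G))⁻¹ * γ ∈ D.hs.X i} = D.hs.X i := by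
      ext γ
      rw [Set.mem_ofPred_eq, ← map_inv]
      exact D.hs.left_iff i ((D.hs.C i).inv_mem c.2) γ
    rw [h1, p, Matrix.smul_vecMul]
    conv_lhs => rw [← h2]
    rw [resV_smul_single, Matrix.smul_vecMul]
    rfl

theorem p_vx (i : Bool) (a : Fin D.n → MonoidAlgebra R Γ) :
    D.p i a ᵥ* D.x = resV (D.hs.X i) (a ᵥ* D.x) := by
  rw [p, vyx, ← resV_F, vxF]

theorem p_eq_self (i : Bool) {a : Fin D.n → MonoidAlgebra R Γ}
    (h : SupV (D.hs.X i) (a ᵥ* D.x)) : D.p i a = a := by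
  rw [p, resV_eq_self h, vxy]

theorem supV_p (i : Bool) (a : Fin D.n → MonoidAlgebra R Γ) :
    SupV (D.hs.X i) (D.p i a ᵥ* D.x) := by
  rw [p_vx]; exact supV_resV _ _

theorem coeff_p_of_mem (i : Bool) (a : Fin D.n → MonoidAlgebra R Γ) {γ : Γ}
    (hγ : γ ∉ D.hs.Y D.B i) (h : γ ∈ D.hs.X i) (b : Fin D.n) :
    (D.p i a b).coeff γ = (a b).coeff γ := by
  have h1 : a = D.p i a + resV (D.hs.X i)ᶜ (a ᵥ* D.x) ᵥ* D.y := by
    rw [p, ← Matrix.add_vecMul, resV_add_compl, vxy]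
  have h2 : ((resV (D.hs.X i)ᶜ (a ᵥ* D.x) ᵥ* D.y) b).coeff γ = 0 := by
    refine coeff_vecMul_eq_zero D.yB (supV_resV _ _) (fun y hy => ?_) b
    intro h3
    apply hγ
    exact ⟨y⁻¹, hy, fun h4 => h3 (h4.1 h)⟩
  conv_rhs => rw [h1]
  rw [Pi.add_apply, MonoidAlgebra.coeff_add, Finsupp.add_apply, h2, add_zero]

theorem coeff_p_of_notMem (i : Bool) (a : Fin D.n → MonoidAlgebra R Γ) {γ : Γ}
    (hγ : γ ∉ D.hs.Y D.B i) (h : γ ∉ D.hs.X i) (b : Fin D.n) :
    (D.p i a b).coeff γ = 0 := by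
  refine coeff_vecMul_eq_zero D.yB (supV_resV _ _) (fun y hy => ?_) b
  intro h3
  apply hγ
  exact ⟨y⁻¹, hy, fun h4 => h (h4.2 h3)⟩

theorem supV_Y_p (i : Bool) {a : Fin D.n → MonoidAlgebra R Γ} (ha : SupV (D.hs.Y D.B i) a) :
    SupV (D.hs.Y D.B i) (D.p i a) := by
  intro b γ hγ
  by_cases h : γ ∈ D.hs.X i
  · rw [D.coeff_p_of_mem i a hγ h, ha b γ hγ]
  · exact D.coeff_p_of_notMem i a hγ h b

theorem supV_vx {i : Bool} {a : Fin D.n → MonoidAlgebra R Γ}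
    (ha : SupV (D.hs.X i \ D.hs.Y D.B i) a) : SupV (D.hs.X i) (a ᵥ* D.x) := by
  refine ha.vecMul D.xB ?_
  rintro γ ⟨hγ, hγ'⟩ b hb
  by_contra h
  exact hγ' ⟨b, hb, fun h' => h (h'.1 hγ)⟩

/-- The part on the boundary set. -/
theorem supV_boundary (i : Bool) {a : Fin D.n → MonoidAlgebra R Γ}
    (h : SupV (D.hs.X i) (a ᵥ* D.x)) :
    SupV (D.hs.X i \ D.hs.Y D.B i) (resV (D.hs.Y D.B i)ᶜ a) ∧
    SupV (D.hs.X i) (resV (D.hs.Y D.B i) a ᵥ* D.x) := by
  have h1 : SupV (D.hs.X i \ D.hs.Y D.B i) (resV (D.hs.Y D.B i)ᶜ a) := by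
    intro b γ hγ
    by_cases h2 : γ ∈ (D.hs.Y D.B i)ᶜ
    · have h3 : γ ∉ D.hs.X i := fun h4 => hγ ⟨h4, h2⟩
      change (res _ (a b)).coeff γ = 0
      rw [coeff_res_of_mem h2]
      have h4 := D.coeff_p_of_notMem i a h2 h3 b
      rwa [D.p_eq_self i h] at h4
    · exact coeff_res_of_notMem h2 _
  refine ⟨h1, ?_⟩
  have h2 : resV (D.hs.Y D.B i) a ᵥ* D.x = a ᵥ* D.x - resV (D.hs.Y D.B i)ᶜ a ᵥ* D.x := by
    rw [eq_sub_iff_add_eq, ← Matrix.add_vecMul, resV_add_compl]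
  rw [h2]
  exact h.sub (D.supV_vx h1)

end Setup

end Pool.Agent.Lib.MP_c052b4_al.Kern
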