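import Mathlib.GroupTheory.HNNExtension
import Pool.Agent.Lib.MP_c052b4_al.Kernel

/-!
# Half spaces in HNN extensions, and torsionfreeness of HNN extensions
-/

set_option autoImplicit false
set_option linter.unusedSectionVars false

namespace Pool.Agent.Lib.MP_c052b4_al

open Kern HNNExtension HNNExtension.NormalWord

universe u v w

namespace HN

variable {G : Type v} [Group G] {A B : Subgroup G} (φ : A ≃* B)

/-- the signs -/
def sg : Bool → ℤˣ
  | false => 1
  | true => -1

theorem sg_inj {i j : Bool} (h : sg i = sg j) : i = j := by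
  revert h
  cases i <;> cases j <;> decide

theorem exists_sg (u : ℤˣ) : ∃ i, sg i = u := by
  rcases Int.units_eq_one_or u with rfl | rfl
  · exact ⟨false, rfl⟩
  · exact ⟨true, rfl⟩

/-- the reducedness condition -/
def Red (A B : Subgroup G) (l : List (ℤˣ × G)) : Prop :=
  l.IsChain fun a b => a.2 ∈ toSubgroup A B a.1 → a.1 = b.1

/-- the product of a list -/
def lp (l : List (ℤˣ × G)) : HNNExtension G A B φ :=
  (l.map fun x => t ^ (x.1 : ℤ) * of x.2).prod

theorem lp_nil : lp φ [] = 1 := rfl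

theorem lp_cons (a : ℤˣ × G) (l : List (ℤˣ × G)) :
    lp φ (a :: l) = t ^ (a.1 : ℤ) * of a.2 * lp φ l := by simp [lp]

theorem lp_append (l l' : List (ℤˣ × G)) : lp φ (l ++ l') = lp φ l * lp φ l' := by
  simp [lp]

theorem lp_single (a : ℤˣ × G) : lp φ [a] = t ^ (a.1 : ℤ) * of a.2 := by simp [lp]

/-- the first letter -/
def first (l : List (ℤˣ × G)) : Option ℤˣ := l.head?.map Prod.fst

theorem first_append_single (l : List (ℤˣ × G)) (u : ℤˣ) (g g' : G) :
    first (l ++ [(u, g)]) = first (l ++ [(u, g')]) := by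
  cases l <;> rfl

theorem first_append {l : List (ℤˣ × G)} (hl : l ≠ []) (l' : List (ℤˣ × G)) :
    first (l ++ l') = first l := by
  cases l with
  | nil => exact absurd rfl hl
  | cons a l => rfl

theorem exists_word (γ : HNNExtension G A B φ) :
    ∃ (h : G) (l : List (ℤˣ × G)), Red A B l ∧ γ = of h * lp φ l := by
  obtain ⟨d⟩ := TransversalPair.nonempty G A B
  let w := equiv φ d γ
  refine ⟨w.head, w.toList, w.chain, ?_⟩
  exact ((equiv φ d).symm_apply_apply γ).symm

/-- the associated subgroup -/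
def CC (A B : Subgroup G) (i : Bool) : Subgroup G := toSubgroup A B (-sg i)

/-- the half space -/
def XX (i : Bool) : Set (HNNExtension G A B φ) :=
  {γ | ∃ (h : G) (l : List (ℤˣ × G)), Red A B l ∧ γ = of h * lp φ l ∧ first l = some (sg i) ∧
    h ∈ CC A B i}

theorem word_unique {h h' : G} {l l' : List (ℤˣ × G)} (hl : Red A B l) (hl' : Red A B l')
    (he : of h * lp φ l = of h' * lp φ l') : first l = first l' ∧
    ∀ u, first l = some u → h⁻¹ * h' ∈ toSubgroup A B (-u) := by
  have h1 := ReducedWord.map_fst_eq_and_of_prod_eq φ (w₁ := ⟨h, l, hl⟩) (w₂ := ⟨h', l', hl'⟩) he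
  refine ⟨?_, fun u hu => h1.2 u hu⟩
  have h2 := congrArg List.head? h1.1
  rw [List.head?_map, List.head?_map] at h2
  exact h2

theorem mem_XX_iff {h : G} {l : List (ℤˣ × G)} (hl : Red A B l) {v : ℤˣ}
    (hv : first l = some v) (i : Bool) : of h * lp φ l ∈ XX φ i ↔ v = sg i ∧ h ∈ CC A B i := by
  constructor
  · rintro ⟨h', l', hl', he, hf, hh'⟩
    obtain ⟨h1, h2⟩ := word_unique φ hl hl' he
    have h3 : v = sg i := by
      rw [hv, hf] at h1
      exact Option.some_injective _ h1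
    refine ⟨h3, ?_⟩
    have h4 := h2 v hv
    rw [h3] at h4
    have h5 := (CC A B i).mul_mem hh' ((CC A B i).inv_mem h4)
    simpa using h5
  · rintro ⟨rfl, hh⟩
    exact ⟨h, l, hl, rfl, hv, hh⟩

theorem of_notMem_XX (i : Bool) (g : G) : of g ∉ XX φ i := by
  rintro ⟨h', l', hl', he, hf, hh'⟩
  have h1 : (of g : HNNExtension G A B φ) = of g * lp φ [] := by rw [lp_nil, mul_one]
  rw [h1] at he
  obtain ⟨h2, -⟩ := word_unique φ (List.isChain_nil) hl' he
  rw [hf] at h2
  exact absurd h2 (by simp [first])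

/-- change the last letter by a group element -/
theorem red_mul_right {l : List (ℤˣ × G)} {u : ℤˣ} {g : G} (h : Red A B (l ++ [(u, g)])) (g' : G) :
    Red A B (l ++ [(u, g')]) := by
  unfold Red at h ⊢
  rw [List.isChain_append] at h ⊢
  refine ⟨h.1, List.isChain_singleton _, ?_⟩
  intro x hx y hy
  have := h.2.2 x hx (u, g) rfl
  simp only [List.head?_cons, Option.mem_def, Option.some.injEq] at hy
  subst hy
  exact this

theorem lp_mul_of (l : List (ℤˣ × G)) (u : ℤˣ) (g g' : G) :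
    lp φ (l ++ [(u, g)]) * of g' = lp φ (l ++ [(u, g * g')]) := by
  simp [lp_append, lp_single, mul_assoc]

theorem XX_right (i : Bool) (g : G) {γ : HNNExtension G A B φ} (hγ : γ ∈ XX φ i) :
    γ * of g ∈ XX φ i := by
  obtain ⟨h, l, hl, rfl, hf, hh⟩ := hγ
  rcases List.eq_nil_or_concat l with rfl | ⟨l, ⟨u, k⟩, rfl⟩
  · exact absurd hf (by simp [first])
  · rw [List.concat_eq_append] at hl hf ⊢
    rw [mul_assoc, lp_mul_of]
    exact ⟨h, _, red_mul_right hl _, rfl, by rw [← hf]; exact first_append_single _ _ _ _, hh⟩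

theorem XX_left (i : Bool) {c : G} (hc : c ∈ CC A B i) {γ : HNNExtension G A B φ}
    (hγ : γ ∈ XX φ i) : of c * γ ∈ XX φ i := by
  obtain ⟨h, l, hl, rfl, hf, hh⟩ := hγ
  exact ⟨c * h, l, hl, by rw [map_mul, mul_assoc], hf, (CC A B i).mul_mem hc hh⟩

theorem XX_disj {i i' : Bool} {g : G} {γ : HNNExtension G A B φ} (hγ : γ ∈ XX φ i)
    (hγ' : of g * γ ∈ XX φ i') : i = i' ∧ g ∈ CC A B i := by
  obtain ⟨h, l, hl, rfl, hf, hh⟩ := hγ
  rw [← mul_assoc, ← map_mul, mem_XX_iff φ hl hf] at hγ'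
  have h1 := sg_inj hγ'.1
  subst h1
  refine ⟨rfl, ?_⟩
  have := (CC A B i).mul_mem hγ'.2 ((CC A B i).inv_mem hh)
  simpa using this

theorem XX_cover (γ : HNNExtension G A B φ) :
    γ ∈ Set.range (of : G →* HNNExtension G A B φ) ∨ ∃ i g, (of g)⁻¹ * γ ∈ XX φ i := by
  obtain ⟨h, l, hl, rfl⟩ := exists_word φ γ
  cases l with
  | nil => exact Or.inl ⟨h, by rw [lp_nil, mul_one]⟩
  | cons a l =>
    right
    obtain ⟨i, hi⟩ := exists_sg a.1
    refine ⟨i, h, 1, a :: l, hl, ?_, ?_, (CC A B i).one_mem⟩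
    · rw [map_one, one_mul, inv_mul_cancel_left]
    · simp [first, hi]

/-- the symmetric boundary property -/
def BP (i : Bool) (b : HNNExtension G A B φ) : Prop :=
  ∃ T : Finset (HNNExtension G A B φ), ∀ γ, ¬ (γ ∈ XX φ i ↔ γ * b ∈ XX φ i) →
    ∃ τ ∈ T, ∃ c ∈ CC A B i, γ = of c * τ

theorem bp_mul {i : Bool} {b b' : HNNExtension G A B φ} (h : BP φ i b) (h' : BP φ i b') :
    BP φ i (b * b') := by
  classical
  obtain ⟨T, hT⟩ := h
  obtain ⟨T', hT'⟩ := h'
  refine ⟨T ∪ T'.image fun τ => τ * b⁻¹, fun γ hγ => ?_⟩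
  by_cases h1 : γ ∈ XX φ i ↔ γ * b ∈ XX φ i
  · have h2 : ¬ (γ * b ∈ XX φ i ↔ γ * b * b' ∈ XX φ i) := by
      rw [← mul_assoc] at hγ
      exact fun h3 => hγ (h1.trans h3)
    obtain ⟨τ, hτ, c, hc, he⟩ := hT' _ h2
    refine ⟨τ * b⁻¹, Finset.mem_union_right _ (Finset.mem_image.2 ⟨τ, hτ, rfl⟩), c, hc, ?_⟩
    rw [← mul_assoc, ← he, mul_inv_cancel_right]
  · obtain ⟨τ, hτ, c, hc, he⟩ := hT _ h1
    exact ⟨τ, Finset.mem_union_left _ hτ, c, hc, he⟩

theorem bp_inv {i : Bool} {b : HNNExtension G A B φ} (h : BP φ i b) : BP φ i b⁻¹ := by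
  classical
  obtain ⟨T, hT⟩ := h
  refine ⟨T.image fun τ => τ * b, fun γ hγ => ?_⟩
  have h1 : ¬ (γ * b⁻¹ ∈ XX φ i ↔ γ * b⁻¹ * b ∈ XX φ i) := by
    rw [inv_mul_cancel_right]
    exact fun h => hγ h.symm
  obtain ⟨τ, hτ, c, hc, he⟩ := hT _ h1
  refine ⟨τ * b, Finset.mem_image.2 ⟨τ, hτ, rfl⟩, c, hc, ?_⟩
  rw [← mul_assoc, ← he, inv_mul_cancel_right]

theorem bp_of (i : Bool) (g : G) : BP φ i (of g) := by
  refine ⟨∅, fun γ hγ => ?_⟩
  exfalso
  apply hγ
  constructor
  · exact XX_right φ i g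
  · intro h
    have := XX_right φ i g⁻¹ h
    rwa [map_inv, mul_inv_cancel_right] at this

theorem t_mem : (t : HNNExtension G A B φ) ∈ XX φ false :=
  ⟨1, [(1, 1)], List.isChain_singleton _, by simp [lp_single], rfl, (CC A B false).one_mem⟩

theorem t_inv_mem : (t⁻¹ : HNNExtension G A B φ) ∈ XX φ true :=
  ⟨1, [(-1, 1)], List.isChain_singleton _, by simp [lp_single], rfl, (CC A B true).one_mem⟩

theorem bp_t (i : Bool) : BP φ i t := by
  classical
  refine ⟨{1, t⁻¹}, fun γ hγ => ?_⟩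
  obtain ⟨h, l, hl, rfl⟩ := exists_word φ γ
  rcases List.eq_nil_or_concat l with rfl | ⟨l, ⟨u, g⟩, rfl⟩
  · rw [lp_nil, mul_one] at hγ ⊢
    have h1 : of h * t ∈ XX φ i := by
      by_contra h2
      exact hγ ⟨fun h3 => absurd h3 (of_notMem_XX φ i h), fun h3 => absurd h3 h2⟩
    obtain ⟨rfl, h2⟩ := XX_disj φ (t_mem φ) h1
    exact ⟨1, Finset.mem_insert_self _ _, h, h2, by rw [mul_one]⟩
  · rw [List.concat_eq_append] at hl hγ ⊢
    by_cases hc : u = -1 ∧ g ∈ toSubgroup A B (-1)
    · obtain ⟨rfl, hg⟩ := hc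
      have key : (t : HNNExtension G A B φ) ^ ((-1 : ℤˣ) : ℤ) * of g =
          of (φ.symm ⟨g, hg⟩ : G) * t⁻¹ := by
        have := inv_t_mul_of (φ := φ) ⟨g, hg⟩
        simpa using this
      rcases List.eq_nil_or_concat l with rfl | ⟨l, ⟨u', g'⟩, rfl⟩
      · simp only [List.nil_append, lp_single, key] at hγ ⊢
        have h1 : of h * (of (φ.symm ⟨g, hg⟩ : G) * t⁻¹) * t =
            (of (h * (φ.symm ⟨g, hg⟩ : G)) : HNNExtension G A B φ) := by
          rw [map_mul]; group
        have h2 : (of h * (of (φ.symm ⟨g, hg⟩ : G) * t⁻¹) : HNNExtension G A B φ) =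
            of (h * (φ.symm ⟨g, hg⟩ : G)) * t⁻¹ := by
          rw [map_mul, mul_assoc]
        rw [h1, h2] at hγ
        rw [h2]
        have h3 : (of (h * (φ.symm ⟨g, hg⟩ : G)) * t⁻¹ : HNNExtension G A B φ) ∈ XX φ i := by
          by_contra h4
          exact hγ ⟨fun h5 => absurd h5 h4, fun h5 => absurd h5 (of_notMem_XX φ i _)⟩
        obtain ⟨rfl, h4⟩ := XX_disj φ (t_inv_mem φ) h3
        exact ⟨t⁻¹, by simp, _, h4, rfl⟩
      · exfalso
        rw [List.concat_eq_append] at hl hγ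
        apply hγ
        have h1 : of h * lp φ (l ++ [(u', g')] ++ [(-1, g)]) * t =
            of h * lp φ (l ++ [(u', g' * (φ.symm ⟨g, hg⟩ : G))]) := by
          rw [lp_append φ (l ++ [(u', g')]), lp_single, key, ← lp_mul_of]
          group
        have hne : l ++ [(u', g')] ≠ [] := by simp
        have h2 : Red A B (l ++ [(u', g')]) := (List.isChain_append.1 hl).1
        have h3 := red_mul_right h2 (g' * (φ.symm ⟨g, hg⟩ : G))
        obtain ⟨v, hv⟩ : ∃ v, first (l ++ [(u', g')]) = some v := by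
          cases l with
          | nil => exact ⟨_, rfl⟩
          | cons a l => exact ⟨_, rfl⟩
        have hv2 : first (l ++ [(u', g')] ++ [(-1, g)]) = some v := by
          rw [first_append hne, hv]
        have hv3 : first (l ++ [(u', g' * (φ.symm ⟨g, hg⟩ : G))]) = some v := by
          rw [← hv]; exact first_append_single _ _ _ _
        rw [h1, mem_XX_iff φ hl hv2, mem_XX_iff φ h3 hv3]
    · exfalso
      apply hγ
      have h1 : of h * lp φ (l ++ [(u, g)]) * t = of h * lp φ (l ++ [(u, g)] ++ [(1, 1)]) := by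
        rw [lp_append φ (l ++ [(u, g)]), lp_single, mul_assoc]
        simp
      have hne : l ++ [(u, g)] ≠ [] := by simp
      have h2 : Red A B (l ++ [(u, g)] ++ [(1, 1)]) := by
        unfold Red
        rw [List.isChain_append]
        refine ⟨hl, List.isChain_singleton _, ?_⟩
        intro x hx y hy hmem
        simp only [List.getLast?_append, List.getLast?_singleton, Option.some_or, Option.mem_def,
          Option.some.injEq] at hx
        simp only [List.head?_cons, Option.mem_def, Option.some.injEq] at hy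
        subst hx hy
        rcases Int.units_eq_one_or u with h3 | h3
        · exact h3
        · exfalso
          apply hc
          refine ⟨h3, ?_⟩
          rw [← h3]; exact hmem
      obtain ⟨v, hv⟩ : ∃ v, first (l ++ [(u, g)]) = some v := by
        cases l with
        | nil => exact ⟨_, rfl⟩
        | cons a l => exact ⟨_, rfl⟩
      have hv2 : first (l ++ [(u, g)] ++ [(1, 1)]) = some v := by
        rw [first_append hne, hv]
      rw [h1, mem_XX_iff φ hl hv, mem_XX_iff φ h2 hv2]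

theorem bp (i : Bool) (b : HNNExtension G A B φ) : BP φ i b := by
  induction b using HNNExtension.induction_on with
  | of g => exact bp_of φ i g
  | t => exact bp_t φ i
  | mul x y hx hy => exact bp_mul φ hx hy
  | inv x hx => exact bp_inv φ hx

/-- The half spaces of an HNN extension. -/
def halfSpaces : HalfSpaces (of : G →* HNNExtension G A B φ) where
  C := CC A B
  X := XX φ
  left := fun i _ hc _ hγ => XX_left φ i hc hγ
  right := fun i g _ hγ => XX_right φ i g hγ
  cover := XX_cover φ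
  disj0 := of_notMem_XX φ
  disj := fun _ _ _ _ hγ hγ' => XX_disj φ hγ hγ'
  bdry := by
    intro i b
    obtain ⟨T, hT⟩ := bp φ i b
    exact ⟨T, fun γ h1 h2 => hT γ fun h => h2 (h.1 h1)⟩

end HN

end Pool.Agent.Lib.MP_c052b4_al
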