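import Pool.Agent.Lib.MP_c052b4_al.Supp

/-!
# Transversals and coordinates
-/

set_option autoImplicit false
set_option linter.unusedSectionVars false

namespace Pool.Agent.Lib.MP_c052b4_al.Kern

open Matrix

universe u v w

variable {R : Type u} [Ring R] {Γ : Type v} [Group Γ] {H : Type w} [Group H]

/-- A finite transversal for the action of `H` on the invariant set `Z`. -/
structure Trans (j : H →* Γ) (Z : Set Γ) where
  /-- the number of orbits -/
  k : ℕ
  /-- the representatives -/
  t : Fin k → Γ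
  mem : ∀ i h, j h * t i ∈ Z
  cover : ∀ z ∈ Z, ∃ i h, z = j h * t i
  inj : ∀ i i' h h', j h * t i = j h' * t i' → i = i' ∧ h = h'

theorem exists_trans (j : H →* Γ) (hj : Function.Injective j) (T : Finset Γ) :
    ∀ (Z : Set Γ), (∀ h, ∀ γ ∈ Z, j h * γ ∈ Z) → (∀ z ∈ Z, ∃ τ ∈ T, ∃ h, z = j h * τ) →
    Nonempty (Trans j Z) := by
  classical
  induction T using Finset.induction_on with
  | empty =>
    intro Z _ hT
    refine ⟨⟨0, fun i => i.elim0, fun i => i.elim0, fun z hz => ?_, fun i => i.elim0⟩⟩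
    obtain ⟨τ, hτ, _⟩ := hT z hz
    exact absurd hτ (Finset.notMem_empty τ)
  | insert τ T _ ih =>
    intro Z hZ hT
    by_cases hτ : τ ∈ Z
    · let Z' : Set Γ := {z | z ∈ Z ∧ ∀ h, z ≠ j h * τ}
      obtain ⟨E⟩ := ih Z' (by
        rintro h γ ⟨hγ, hγ'⟩
        refine ⟨hZ h γ hγ, fun h' hh' => hγ' (h⁻¹ * h') ?_⟩
        rw [map_mul, map_inv, mul_assoc, ← hh', inv_mul_cancel_left]) (by
        rintro z ⟨hz, hz'⟩
        obtain ⟨τ', hτ', h, rfl⟩ := hT z hz
        rcases Finset.mem_insert.1 hτ' with rfl | hτ'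
        · exact absurd rfl (hz' h)
        · exact ⟨τ', hτ', h, rfl⟩)
      refine ⟨⟨E.k + 1, Fin.cons τ E.t, ?_, ?_, ?_⟩⟩
      · intro i h
        refine Fin.cases ?_ (fun i => ?_) i
        · exact hZ h τ hτ
        · exact (E.mem i h).1
      · intro z hz
        by_cases hz' : ∀ h, z ≠ j h * τ
        · obtain ⟨i, h, rfl⟩ := E.cover z ⟨hz, hz'⟩
          exact ⟨i.succ, h, rfl⟩
        · push Not at hz'
          obtain ⟨h, rfl⟩ := hz'
          exact ⟨0, h, rfl⟩
      · intro i i' h h'
        refine Fin.cases ?_ (fun i => ?_) i <;> refine Fin.cases ?_ (fun i' => ?_) i'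
        · intro he
          simp only [Fin.cons_zero] at he
          exact ⟨rfl, hj (mul_right_cancel he)⟩
        · intro he
          simp only [Fin.cons_zero, Fin.cons_succ] at he
          exact absurd he.symm ((E.mem i' h').2 h)
        · intro he
          simp only [Fin.cons_zero, Fin.cons_succ] at he
          exact absurd he ((E.mem i h).2 h')
        · intro he
          simp only [Fin.cons_succ] at he
          obtain ⟨rfl, rfl⟩ := E.inj _ _ _ _ he
          exact ⟨rfl, rfl⟩
    · refine ih Z hZ fun z hz => ?_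
      obtain ⟨τ', hτ', h, rfl⟩ := hT z hz
      rcases Finset.mem_insert.1 hτ' with rfl | hτ'
      · exfalso
        apply hτ
        have := hZ h⁻¹ _ hz
        rwa [map_inv, inv_mul_cancel_left] at this
      · exact ⟨τ', hτ', h, rfl⟩

/-- the inclusion of group rings -/
noncomputable abbrev inc (R : Type u) [Ring R] (j : H →* Γ) :
    MonoidAlgebra R H →+* MonoidAlgebra R Γ :=
  MonoidAlgebra.mapDomainRingHom R j

theorem coeff_inc (j : H →* Γ) (hj : Function.Injective j) (s : MonoidAlgebra R H) (h : H) :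
    (inc R j s).coeff (j h) = s.coeff h := by
  change (Finsupp.mapDomain j s.coeff) (j h) = _
  exact Finsupp.mapDomain_apply hj _ _

theorem sup_inc (j : H →* Γ) (s : MonoidAlgebra R H) : Sup (Set.range j) (inc R j s) := by
  intro γ hγ
  change (Finsupp.mapDomain j s.coeff) γ = 0
  exact Finsupp.mapDomain_of_notMem_range _ _ hγ

section

variable {n : Type*} {k : ℕ}

/-- vectors over the big group ring from coordinates -/
noncomputable def th (j : H →* Γ) (t : Fin k → Γ) (v : Fin k × n → MonoidAlgebra R H) :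
    n → MonoidAlgebra R Γ :=
  fun b => ∑ i, inc R j (v (i, b)) * MonoidAlgebra.single (t i) 1

theorem th_add (j : H →* Γ) (t : Fin k → Γ) (v v' : Fin k × n → MonoidAlgebra R H) :
    th j t (v + v') = th j t v + th j t v' := by
  funext b
  simp only [th, Pi.add_apply, map_add, add_mul, Finset.sum_add_distrib]

theorem th_zero (j : H →* Γ) (t : Fin k → Γ) :
    th j t (0 : Fin k × n → MonoidAlgebra R H) = 0 := by
  funext b
  simp [th]

theorem th_smul (j : H →* Γ) (t : Fin k → Γ) (s : MonoidAlgebra R H)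
    (v : Fin k × n → MonoidAlgebra R H) : th j t (s • v) = inc R j s • th j t v := by
  funext b
  simp only [th, Pi.smul_apply, smul_eq_mul, map_mul, Finset.mul_sum, mul_assoc]

theorem th_sum (j : H →* Γ) (t : Fin k → Γ) {ι : Type*} (s : Finset ι)
    (v : ι → Fin k × n → MonoidAlgebra R H) :
    th j t (∑ i ∈ s, v i) = ∑ i ∈ s, th j t (v i) := by
  classical
  induction s using Finset.induction_on with
  | empty => simp [th_zero]
  | insert a s ha ih => rw [Finset.sum_insert ha, th_add, ih, Finset.sum_insert ha]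

variable {j : H →* Γ} {Z : Set Γ} (E : Trans j Z)

theorem Trans.injective_j (E : Trans j Z) (i : Fin E.k) : Function.Injective j := by
  intro h h' hh
  exact (E.inj i i h h' (by rw [hh])).2

theorem coeff_th (v : Fin E.k × n → MonoidAlgebra R H) (b : n) (i : Fin E.k) (h : H) :
    (th j E.t v b).coeff (j h * E.t i) = (v (i, b)).coeff h := by
  classical
  simp only [th, MonoidAlgebra.coeff_sum, Finsupp.finsetSum_apply,
    MonoidAlgebra.coeff_mul_single_apply, mul_one]
  rw [Finset.sum_eq_single i]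
  · rw [mul_inv_cancel_right, coeff_inc j (E.injective_j i)]
  · intro i' _ hi'
    apply sup_inc
    rintro ⟨h', hh'⟩
    have h1 : j h' * E.t i' = j h * E.t i := by rw [hh', inv_mul_cancel_right]
    exact hi' (E.inj _ _ _ _ h1).1
  · intro h1; exact absurd (Finset.mem_univ _) h1

theorem supV_th (v : Fin E.k × n → MonoidAlgebra R H) : SupV Z (th j E.t v) := by
  intro b
  refine Sup.sum fun i _ => (sup_inc j _).mul (sup_single (Set.mem_singleton _) 1) ?_
  rintro _ ⟨h, rfl⟩ _ rfl
  exact E.mem i h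

/-- coordinates of a vector -/
noncomputable def ka (a : n → MonoidAlgebra R Γ) : Fin E.k × n → MonoidAlgebra R H :=
  fun x => MonoidAlgebra.comapDomain (fun h => j h * E.t x.1)
    (fun _ _ hh => (E.inj _ _ _ _ hh).2) (a x.2)

theorem coeff_ka (a : n → MonoidAlgebra R Γ) (i : Fin E.k) (b : n) (h : H) :
    (ka E a (i, b)).coeff h = (a b).coeff (j h * E.t i) := rfl

theorem ka_add (a a' : n → MonoidAlgebra R Γ) : ka E (a + a') = ka E a + ka E a' := by
  funext ⟨i, b⟩
  ext h
  rw [coeff_ka]
  simp [coeff_ka]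

theorem ka_zero : ka E (0 : n → MonoidAlgebra R Γ) = 0 := by
  funext ⟨i, b⟩
  ext h
  rw [coeff_ka]
  simp

theorem ka_smul (s : MonoidAlgebra R H) (a : n → MonoidAlgebra R Γ) :
    ka E (inc R j s • a) = s • ka E a := by
  induction s using MonoidAlgebra.induction_linear with
  | zero => simp [ka_zero]
  | add s s' hs hs' => rw [map_add, add_smul, ka_add, hs, hs', add_smul]
  | single h0 r =>
    funext ⟨i, b⟩
    ext h
    rw [coeff_ka]
    simp only [Pi.smul_apply, smul_eq_mul, MonoidAlgebra.mapDomainRingHom_apply,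
      MonoidAlgebra.mapDomain_single, MonoidAlgebra.coeff_single_mul_apply, coeff_ka, map_mul,
      map_inv, mul_assoc]

theorem ka_th (v : Fin E.k × n → MonoidAlgebra R H) : ka E (th j E.t v) = v := by
  funext ⟨i, b⟩
  ext h
  rw [coeff_ka, coeff_th]

theorem ka_congr {a a' : n → MonoidAlgebra R Γ}
    (h : ∀ b, ∀ γ ∈ Z, (a b).coeff γ = (a' b).coeff γ) : ka E a = ka E a' := by
  funext ⟨i, b⟩
  ext x
  rw [coeff_ka, coeff_ka, h b _ (E.mem i x)]

theorem ka_res (a : n → MonoidAlgebra R Γ) : ka E (resV Z a) = ka E a :=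
  ka_congr E fun _ _ hγ => coeff_res_of_mem hγ _

theorem th_ka {a : n → MonoidAlgebra R Γ} (ha : SupV Z a) : th j E.t (ka E a) = a := by
  funext b
  ext γ
  by_cases hγ : γ ∈ Z
  · obtain ⟨i, h, rfl⟩ := E.cover γ hγ
    rw [coeff_th, coeff_ka]
  · rw [ha b γ hγ, supV_th E _ b γ hγ]

theorem ka_eq_zero {a : n → MonoidAlgebra R Γ} (ha : SupV Zᶜ a) : ka E a = 0 := by
  rw [← ka_zero E]
  refine ka_congr E fun b γ hγ => ?_
  rw [ha b γ fun h => h hγ]; rfl

theorem supV_of_ka_eq_zero {a : n → MonoidAlgebra R Γ} (ha : ka E a = 0) : SupV Zᶜ a := by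
  intro b γ hγ
  have hγ' : γ ∈ Z := by
    by_contra h; exact hγ h
  obtain ⟨i, h, rfl⟩ := E.cover γ hγ'
  rw [← coeff_ka, ha]; rfl

end

end Pool.Agent.Lib.MP_c052b4_al.Kern
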