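import Pool.Agent.Lib.MP_c052b4_al.Res
import Pool.Agent.Lib.MP_c052b4_al.StabInd

/-!
# Stably induced modules and finite resolutions by them
-/

set_option autoImplicit false

namespace Pool.Agent.Lib.MP_c052b4_al

open Matrix

universe u v w

variable {S : Type u} {T : Type v} [Ring S] [Ring T]

/-- A `T`-module is good (with respect to `φ : S → T`) if it is finitely generated projective and
stably induced from `S`. -/
def Good (φ : S →+* T) (M : Type w) [AddCommGroup M] [Module T M] : Prop :=
  ∃ p : IdemMat T, Nonempty (img p.mat ≃ₗ[T] M) ∧ StabInd φ p.mat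

variable {φ : S →+* T}

section

variable {M : Type*} [AddCommGroup M] [Module T M] {N : Type*} [AddCommGroup N] [Module T N]

theorem Good.congr (h : Good φ M) (e : M ≃ₗ[T] N) : Good φ N := by
  obtain ⟨p, ⟨f⟩, hp⟩ := h
  exact ⟨p, ⟨f.trans e⟩, hp⟩

theorem Good.finite (h : Good φ M) : Module.Finite T M := by
  obtain ⟨p, ⟨f⟩, hp⟩ := h
  exact Module.Finite.equiv f

theorem Good.projective (h : Good φ M) : Module.Projective T M := by
  obtain ⟨p, ⟨f⟩, hp⟩ := h
  have := img_projective p.idem
  exact Module.Projective.of_equiv f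

theorem Good.stabInd {m : Type*} [Fintype m] {e : Matrix m m T} (he : e * e = e)
    (f : img e ≃ₗ[T] M) (h : Good φ M) : StabInd φ e := by
  obtain ⟨p, ⟨g⟩, hp⟩ := h
  exact StabInd.congr p.idem he (MvN.of_equiv p.idem he (g.trans f.symm)) hp

theorem good_iff {m : Type*} [Fintype m] {e : Matrix m m T} (he : e * e = e)
    (f : img e ≃ₗ[T] M) : Good φ M ↔ KZero.kc e he ∈ (KZero.map φ).range := by
  rw [← stabInd_iff]
  constructor
  · exact Good.stabInd he f
  · intro h
    have h1 := IdemMat.ofMatrix_mvN e he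
    obtain ⟨g⟩ := h1.equiv (IdemMat.idem _) he
    exact ⟨IdemMat.ofMatrix e he, ⟨g.trans f⟩, StabInd.congr he (IdemMat.idem _) h1.symm h⟩

theorem Good.prod (h : Good φ M) (h' : Good φ N) : Good φ (M × N) := by
  obtain ⟨p, ⟨f⟩, hp⟩ := h
  obtain ⟨q, ⟨g⟩, hq⟩ := h'
  obtain ⟨θ⟩ := img_blocks_equiv p.idem q.idem
  rw [good_iff (blocks_idem p.idem q.idem) (θ.trans (f.prodCongr g)), KZero.kc_blocks p.idem q.idem]
  exact AddSubgroup.add_mem _ ((stabInd_iff φ p.idem).1 hp) ((stabInd_iff φ q.idem).1 hq)

theorem Good.of_prod (h : Good φ (M × N)) (h' : Good φ N) : Good φ M := by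
  have := h.finite
  have := h.projective
  have h1 : Module.Finite T M := Module.Finite.of_surjective (LinearMap.fst T M N)
    LinearMap.fst_surjective
  have h2 : Module.Projective T M := Module.Projective.of_split (M := M × N)
    (LinearMap.inl T M N) (LinearMap.fst T M N) (by ext; simp)
  obtain ⟨p, ⟨f⟩⟩ := exists_idemMat (S := T) (M := M)
  obtain ⟨q, ⟨g⟩, hq⟩ := h'
  obtain ⟨θ⟩ := img_blocks_equiv p.idem q.idem
  rw [good_iff p.idem f]
  rw [good_iff (blocks_idem p.idem q.idem) (θ.trans (f.prodCongr g)),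
    KZero.kc_blocks p.idem q.idem] at h
  have := AddSubgroup.sub_mem _ h ((stabInd_iff φ q.idem).1 hq)
  simpa using this

theorem Good.of_prod' (h : Good φ (M × N)) (h' : Good φ M) : Good φ N :=
  Good.of_prod (h.congr (LinearEquiv.prodComm T M N)) h'

theorem good_free (φ : S →+* T) (m : Type*) [Fintype m] : Good φ (m → T) := by
  classical
  have h : img (1 : Matrix m m T) ≃ₗ[T] (m → T) :=
    (LinearEquiv.ofEq _ _ img_one).trans Submodule.topEquiv
  rw [good_iff (by simp) h]
  refine ⟨KZero.kc (1 : Matrix m m S) (by simp), ?_⟩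
  rw [KZero.kc_map]
  congr 1
  exact KZero.map_one_mat φ m

/-- If `0 → K → F → M → 0` is exact with `M` projective, then `F ≃ K × M`. -/
theorem split_equiv {F : Type*} [AddCommGroup F] [Module T F] [Module.Projective T M]
    (f : F →ₗ[T] M) (hf : Function.Surjective f) :
    Nonempty ((LinearMap.ker f × M) ≃ₗ[T] F) := by
  obtain ⟨g, hg⟩ := Module.projective_lifting_property f LinearMap.id hf
  have hfg : ∀ x, f (g x) = x := fun x => LinearMap.congr_fun hg x
  refine ⟨LinearEquiv.ofBijective ((LinearMap.ker f).subtype.coprod g) ⟨?_, ?_⟩⟩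
  · rw [← LinearMap.ker_eq_bot, LinearMap.ker_eq_bot']
    rintro ⟨a, b⟩ hab
    have hab' : (a : F) + g b = 0 := by simpa using hab
    have h1 : b = 0 := by
      have := congrArg f hab'
      rw [map_add, hfg, a.2, zero_add, map_zero] at this
      exact this
    subst h1
    have h2 : (a : F) = 0 := by simpa using hab'
    ext
    · exact h2
    · rfl
  · intro x
    refine ⟨(⟨x - g (f x), ?_⟩, f x), ?_⟩
    · simp [hfg]
    · simp

theorem Good.ker {F : Type*} [AddCommGroup F] [Module T F] (hF : Good φ F)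
    (hM : Good φ M) (f : F →ₗ[T] M) (hf : Function.Surjective f) :
    Good φ (LinearMap.ker f) := by
  have := hM.projective
  obtain ⟨θ⟩ := split_equiv f hf
  exact Good.of_prod (hF.congr θ.symm) hM

end

/-- `M` has a resolution of length `n` by finitely generated free modules, with a good module
at the left end. -/
def HasRes (φ : S →+* T) : ℕ → ∀ (M : Type v) [AddCommGroup M] [Module T M], Prop
  | 0 => fun M _ _ => Good φ M
  | (n + 1) => fun M _ _ => ∃ (m : ℕ) (f : (Fin m → T) →ₗ[T] M),
      Function.Surjective f ∧ HasRes φ n (LinearMap.ker f)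

section HasRes

theorem HasRes.congr {n : ℕ} {M N : Type v} [AddCommGroup M] [Module T M] [AddCommGroup N]
    [Module T N] (h : HasRes φ n M) (e : M ≃ₗ[T] N) : HasRes φ n N := by
  cases n with
  | zero => exact Good.congr h e
  | succ n =>
    obtain ⟨m, f, hf, h⟩ := h
    refine ⟨m, e.toLinearMap ∘ₗ f, e.surjective.comp hf, ?_⟩
    rw [LinearEquiv.ker_comp]
    exact h

theorem HasRes.succ {n : ℕ} : ∀ {M : Type v} [AddCommGroup M] [Module T M],
    HasRes φ n M → HasRes φ (n + 1) M := by
  induction n with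
  | zero =>
    intro M _ _ h
    have h' : Good φ M := h
    have := h'.finite
    obtain ⟨m, f, hf⟩ := Module.Finite.exists_fin' T M
    exact ⟨m, f, hf, (good_free φ (Fin m)).ker h' f hf⟩
  | succ n ih =>
    intro M _ _ h
    obtain ⟨m, f, hf, h⟩ := h
    exact ⟨m, f, hf, ih h⟩

theorem HasRes.mono {n k : ℕ} (hnk : n ≤ k) {M : Type v} [AddCommGroup M] [Module T M]
    (h : HasRes φ n M) : HasRes φ k M := by
  induction hnk with
  | refl => exact h
  | step _ ih => exact ih.succ

theorem HasRes.finite {n : ℕ} {M : Type v} [AddCommGroup M] [Module T M]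
    (h : HasRes φ n M) : Module.Finite T M := by
  cases n with
  | zero => exact Good.finite h
  | succ n =>
    obtain ⟨m, f, hf, h⟩ := h
    exact Module.Finite.of_surjective f hf

/-- Extensions. -/
theorem HasRes.ext {n : ℕ} : ∀ {B E A : Type v} [AddCommGroup B] [Module T B]
    [AddCommGroup E] [Module T E] [AddCommGroup A] [Module T A]
    (i : B →ₗ[T] E) (p : E →ₗ[T] A), Function.Injective i → Function.Surjective p →
    LinearMap.range i = LinearMap.ker p → HasRes φ n B → HasRes φ n A → HasRes φ n E := by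
  induction n with
  | zero =>
    intro B E A _ _ _ _ _ _ i p hi hp hip hB hA
    have hA' : Good φ A := hA
    have hB' : Good φ B := hB
    have := hA'.projective
    obtain ⟨θ⟩ := split_equiv p hp
    have e1 : B ≃ₗ[T] LinearMap.ker p :=
      (LinearEquiv.ofInjective i hi).trans (LinearEquiv.ofEq _ _ hip)
    exact ((hB'.congr e1).prod hA').congr θ
  | succ n ih =>
    intro B E A _ _ _ _ _ _ i p hi hp hip hB hA
    obtain ⟨m, f, hf, hB⟩ := hB
    obtain ⟨k, g, hg, hA⟩ := hA
    obtain ⟨g', hg'⟩ := Module.projective_lifting_property p g hp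
    have hg'' : ∀ x, p (g' x) = g x := fun x => LinearMap.congr_fun hg' x
    have hpi : ∀ x, p (i x) = 0 := by
      intro x
      have : i x ∈ LinearMap.ker p := hip ▸ LinearMap.mem_range_self i x
      exact this
    -- the big cover
    let h0 : ((Fin m → T) × (Fin k → T)) →ₗ[T] E := (i ∘ₗ f).coprod g'
    have h0a : ∀ z, h0 z = i (f z.1) + g' z.2 := fun z => by simp [h0]
    let σ : (Fin (m + k) → T) ≃ₗ[T] ((Fin m → T) × (Fin k → T)) :=
      (LinearEquiv.funCongrLeft T T finSumFinEquiv).trans
        (LinearEquiv.sumArrowLequivProdArrow (Fin m) (Fin k) T T)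
    let h1 : (Fin (m + k) → T) →ₗ[T] E := h0 ∘ₗ σ.toLinearMap
    have h0s : Function.Surjective h0 := by
      intro x
      obtain ⟨y, hy⟩ := hg (p x)
      have : x - g' y ∈ LinearMap.ker p := by
        rw [LinearMap.mem_ker, map_sub, hg'', hy, sub_self]
      rw [← hip] at this
      obtain ⟨b, hb⟩ := this
      obtain ⟨c, rfl⟩ := hf b
      refine ⟨(c, y), ?_⟩
      rw [h0a]
      simp only
      rw [hb]; abel
    refine ⟨m + k, h1, h0s.comp σ.surjective, ?_⟩
    -- the kernel of `h0`
    have e1 : LinearMap.ker h0 ≃ₗ[T] LinearMap.ker h1 :=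
      (σ.symm.submoduleMap (LinearMap.ker h0)).trans (LinearEquiv.ofEq _ _ (by
        ext x
        simp only [Submodule.mem_map, LinearMap.mem_ker, h1]
        constructor
        · rintro ⟨y, hy, rfl⟩
          simpa using hy
        · intro hx
          exact ⟨σ x, hx, by simp⟩))
    refine HasRes.congr ?_ e1
    refine ih (B := LinearMap.ker f) (A := LinearMap.ker g)
      (((LinearMap.inl T (Fin m → T) (Fin k → T)).restrict (p := LinearMap.ker f)
        (q := LinearMap.ker h0) ?_))
      (((LinearMap.snd T (Fin m → T) (Fin k → T)).restrict (p := LinearMap.ker h0)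
        (q := LinearMap.ker g) ?_)) ?_ ?_ ?_ hB hA
    · intro x hx
      rw [LinearMap.mem_ker] at hx ⊢
      rw [h0a]
      simp [hx]
    · intro x hx
      rw [LinearMap.mem_ker] at hx ⊢
      rw [h0a] at hx
      have := congrArg p hx
      rw [map_add, hpi, hg'', zero_add, map_zero] at this
      exact this
    · intro x y hxy
      apply Subtype.ext
      have := congrArg (fun z => (z : (Fin m → T) × (Fin k → T)).1) (congrArg Subtype.val hxy)
      simpa using this
    · rintro ⟨y, hy⟩
      rw [LinearMap.mem_ker] at hy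
      have : g' y ∈ LinearMap.ker p := by rw [LinearMap.mem_ker, hg'', hy]
      rw [← hip] at this
      obtain ⟨b, hb⟩ := this
      obtain ⟨c, rfl⟩ := hf b
      refine ⟨⟨(-c, y), ?_⟩, ?_⟩
      · rw [LinearMap.mem_ker, h0a]
        simp [hb]
      · apply Subtype.ext
        rfl
    · ext ⟨⟨a, b⟩, hab⟩
      rw [LinearMap.mem_ker, h0a] at hab
      simp only [LinearMap.mem_range, LinearMap.mem_ker]
      constructor
      · rintro ⟨⟨x, hx⟩, hxy⟩
        have h2 := congrArg (fun z => (z : (Fin m → T) × (Fin k → T)).2)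
          (congrArg Subtype.val hxy)
        apply Subtype.ext
        change b = 0
        exact h2.symm
      · intro h2
        have h3 : b = 0 := congrArg Subtype.val h2
        subst h3
        simp only [map_zero, add_zero] at hab
        have h4 : f a = 0 := by
          apply hi
          rw [hab, map_zero]
        exact ⟨⟨a, h4⟩, rfl⟩

/-- Cokernels: if `0 → A → B → M → 0` is exact and `A`, `B` have resolutions of length `n`,
then `M` has a resolution of length `n + 1`. -/
theorem HasRes.coker {n : ℕ} {A B M : Type v} [AddCommGroup A] [Module T A]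
    [AddCommGroup B] [Module T B] [AddCommGroup M] [Module T M]
    (i : A →ₗ[T] B) (p : B →ₗ[T] M) (hi : Function.Injective i) (hp : Function.Surjective p)
    (hip : LinearMap.range i = LinearMap.ker p) (hA : HasRes φ n A) (hB : HasRes φ n B) :
    HasRes φ (n + 1) M := by
  obtain ⟨m, f, hf, hB'⟩ := hB.succ
  refine ⟨m, p ∘ₗ f, hp.comp hf, ?_⟩
  have hle : LinearMap.ker f ≤ LinearMap.ker (p ∘ₗ f) := LinearMap.ker_le_ker_comp f p
  have e1 : A ≃ₗ[T] LinearMap.ker p :=
    (LinearEquiv.ofInjective i hi).trans (LinearEquiv.ofEq _ _ hip)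
  refine HasRes.ext (Submodule.inclusion hle)
    (f.restrict (p := LinearMap.ker (p ∘ₗ f)) (q := LinearMap.ker p) (fun x hx => hx))
    (Submodule.inclusion_injective hle) ?_ ?_ hB' (hA.congr e1)
  · rintro ⟨y, hy⟩
    obtain ⟨x, rfl⟩ := hf y
    exact ⟨⟨x, hy⟩, rfl⟩
  · ext ⟨x, hx⟩
    simp only [LinearMap.mem_range, LinearMap.mem_ker]
    constructor
    · rintro ⟨⟨y, hy⟩, hyx⟩
      have h1 : y = x := congrArg Subtype.val hyx
      subst h1
      apply Subtype.ext
      exact hy
    · intro h
      exact ⟨⟨x, congrArg Subtype.val h⟩, rfl⟩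

theorem HasRes.good {n : ℕ} : ∀ {M : Type v} [AddCommGroup M] [Module T M]
    [Module.Projective T M], HasRes φ n M → Good φ M := by
  induction n with
  | zero => intro M _ _ _ h; exact h
  | succ n ih =>
    intro M _ _ _ h
    obtain ⟨m, f, hf, h⟩ := h
    obtain ⟨θ⟩ := split_equiv f hf
    have hK : Module.Projective T (LinearMap.ker f) :=
      Module.Projective.of_split (M := Fin m → T)
        (θ.toLinearMap ∘ₗ LinearMap.inl T _ _) (LinearMap.fst T _ _ ∘ₗ θ.symm.toLinearMap)
        (by ext x; simp)
    exact Good.of_prod' ((good_free φ (Fin m)).congr θ.symm) (ih h)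

end HasRes

end Pool.Agent.Lib.MP_c052b4_al
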