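import Mathlib

/-!
# The group `K₁` of a ring by generators and relations
-/

set_option autoImplicit false

namespace Pool.Agent.Lib.MP_c052b4_al

open Matrix

universe u v w

/-- The group `GL_k(S)`. -/
abbrev GLk (S : Type u) [Ring S] (k : ℕ) : Type u := (Matrix (Fin k) (Fin k) S)ˣ

/-- The matrix `B` is the block sum `A ⊕ 1`. -/
def IsPlusOne {S : Type u} [Ring S] {k : ℕ} (A : Matrix (Fin k) (Fin k) S)
    (B : Matrix (Fin (k + 1)) (Fin (k + 1)) S) : Prop :=
  (∀ i j : Fin k, B i.castSucc j.castSucc = A i j) ∧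
    (∀ i : Fin k, B i.castSucc (Fin.last k) = 0 ∧ B (Fin.last k) i.castSucc = 0) ∧
      B (Fin.last k) (Fin.last k) = 1

/-- The map `GL_k(S) → GL_k(T)` induced by a ring homomorphism. -/
def glMap {S : Type u} {T : Type v} [Ring S] [Ring T] (f : S →+* T) {k : ℕ} (A : GLk S k) :
    GLk T k where
  val := A.val.map f
  inv := A.inv.map f
  val_inv := by rw [← Matrix.map_mul, A.val_inv, Matrix.map_one _ (map_zero f) (map_one f)]
  inv_val := by rw [← Matrix.map_mul, A.inv_val, Matrix.map_one _ (map_zero f) (map_one f)]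

/-- The free abelian group on the invertible matrices of all sizes over `S`. -/
abbrev FreeGL (S : Type u) [Ring S] : Type u := FreeAbelianGroup (Σ k : ℕ, GLk S k)

/-- The generator given by an invertible matrix. -/
def gen {S : Type u} [Ring S] {k : ℕ} (A : GLk S k) : FreeGL S := FreeAbelianGroup.of ⟨k, A⟩

/-- The subgroup generated by the relations `[A B] = [A] + [B]` and `[A ⊕ 1] = [A]`. -/
def k1Rel (S : Type u) [Ring S] : AddSubgroup (FreeGL S) :=
  AddSubgroup.closure
    ({x | ∃ (k : ℕ) (A B : GLk S k), x = gen (A * B) - (gen A + gen B)} ∪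
      {x | ∃ (k : ℕ) (A : GLk S k) (B : GLk S (k + 1)), IsPlusOne A.val B.val ∧
        x = gen B - gen A})

/-- `K₁(S)`: the abelian group generated by the invertible matrices over `S` with the relations
`[A B] = [A] + [B]` and `[A ⊕ 1] = [A]`, that is the abelianization of `GL(S) = ⋃ GL_k(S)`. -/
def K1Grp (S : Type u) [Ring S] : AddCommGrpCat.{u} := AddCommGrpCat.of (FreeGL S ⧸ k1Rel S)

/-- The class in `K₁(S)` of an invertible matrix. -/
def k1Cls {S : Type u} [Ring S] {k : ℕ} (A : GLk S k) : K1Grp S := QuotientAddGroup.mk (gen A)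

/-- The map between the free abelian groups induced by a ring homomorphism. -/
def freeMap {S : Type u} {T : Type v} [Ring S] [Ring T] (f : S →+* T) : FreeGL S →+ FreeGL T :=
  FreeAbelianGroup.lift fun x => gen (glMap f x.2)

theorem freeMap_gen {S : Type u} {T : Type v} [Ring S] [Ring T] (f : S →+* T) {k : ℕ}
    (A : GLk S k) : freeMap f (gen A) = gen (glMap f A) :=
  FreeAbelianGroup.lift_apply_of _ _

theorem glMap_mul {S : Type u} {T : Type v} [Ring S] [Ring T] (f : S →+* T) {k : ℕ}
    (A B : GLk S k) : glMap f (A * B) = glMap f A * glMap f B := by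
  apply Units.ext
  exact Matrix.map_mul

theorem IsPlusOne.map {S : Type u} {T : Type v} [Ring S] [Ring T] (f : S →+* T) {k : ℕ}
    {A : Matrix (Fin k) (Fin k) S} {B : Matrix (Fin (k + 1)) (Fin (k + 1)) S}
    (h : IsPlusOne A B) : IsPlusOne (A.map f) (B.map f) := by
  refine ⟨fun i j => ?_, fun i => ⟨?_, ?_⟩, ?_⟩
  · exact congrArg f (h.1 i j)
  · exact (congrArg f (h.2.1 i).1).trans (map_zero f)
  · exact (congrArg f (h.2.1 i).2).trans (map_zero f)
  · exact (congrArg f h.2.2).trans (map_one f)

theorem k1Rel_le {S : Type u} {T : Type v} [Ring S] [Ring T] (f : S →+* T) :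
    k1Rel S ≤ (k1Rel T).comap (freeMap f) := by
  unfold k1Rel
  rw [AddSubgroup.closure_le]
  rintro _ (⟨k, A, B, rfl⟩ | ⟨k, A, B, hAB, rfl⟩)
  · apply AddSubgroup.subset_closure
    rw [map_sub, map_add, freeMap_gen, freeMap_gen, freeMap_gen, glMap_mul]
    exact Or.inl ⟨k, _, _, rfl⟩
  · apply AddSubgroup.subset_closure
    rw [map_sub, freeMap_gen, freeMap_gen]
    exact Or.inr ⟨k, _, _, hAB.map f, rfl⟩

/-- The homomorphism `K₁(S) → K₁(T)` induced by a ring homomorphism. -/
def k1Map {S : Type u} {T : Type v} [Ring S] [Ring T] (f : S →+* T) : K1Grp S →+ K1Grp T :=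
  QuotientAddGroup.map (k1Rel S) (k1Rel T) (freeMap f) (k1Rel_le f)

/-- For `g ∈ G` and a matrix `e` over `R` the matrix `(1 - e) + g e` over `R[G]`. -/
noncomputable def elMat {R : Type u} [Ring R] {G : Type v} [Group G] (g : G) {k : ℕ}
    (e : Matrix (Fin k) (Fin k) R) : Matrix (Fin k) (Fin k) (MonoidAlgebra R G) :=
  Matrix.of fun i j => MonoidAlgebra.single 1 ((1 - e) i j) + MonoidAlgebra.single g (e i j)

/-- The image of the assembly map `A₁`: the subgroup of `K₁(R[G])` generated by the image of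
`K₁(R)` and the classes of the invertible matrices `(1 - e) + g e`, where `e` is an idempotent
matrix over `R` and `g ∈ G`. -/
noncomputable def imA (R : Type u) [Ring R] (G : Type v) [Group G] : AddSubgroup (K1Grp (MonoidAlgebra R G)) :=
  (k1Map (MonoidAlgebra.singleOneRingHom : R →+* MonoidAlgebra R G)).range ⊔
    AddSubgroup.closure {x | ∃ (g : G) (k : ℕ) (e : Matrix (Fin k) (Fin k) R)
      (A : GLk (MonoidAlgebra R G) k), e * e = e ∧ A.val = elMat g e ∧ x = k1Cls A}

end Pool.Agent.Lib.MP_c052b4_al
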