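import Mathlib

/-!
# Torsionfree groups
-/

set_option autoImplicit false

namespace Pool.Agent.Lib.MP_c052b4_al

universe v

/-- A group is torsionfree if its only element of finite order is the identity. -/
def TorsionfreeGroup (G : Type v) [Group G] : Prop :=
  ∀ (g : G) (n : ℕ), 0 < n → g ^ n = 1 → g = 1

end Pool.Agent.Lib.MP_c052b4_al
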