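import Pool.Agent.Lib.MP_c052b4_al.Nice
import Pool.Agent.Lib.MP_c052b4_al.TfDef

/-!
# Finitely generated torsionfree abelian groups and Klein bottle groups are nice
-/

set_option autoImplicit false

namespace Pool.Agent.Lib.MP_c052b4_al

open Matrix

universe u v w

section TF

variable {G : Type v} [Group G]

theorem TorsionfreeGroup.zpow (h : TorsionfreeGroup G) {g : G} {k : ℤ} (hk : k ≠ 0)
    (hg : g ^ k = 1) : g = 1 := by
  rcases Int.natAbs_eq k with h1 | h1
  · rw [h1, _root_.zpow_natCast] at hg
    exact h g _ (Int.natAbs_pos.2 hk) hg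
  · rw [h1, _root_.zpow_neg, _root_.zpow_natCast, inv_eq_one] at hg
    exact h g _ (Int.natAbs_pos.2 hk) hg

theorem TorsionfreeGroup.zpow_inj (h : TorsionfreeGroup G) {g : G} (hg : g ≠ 1) {k l : ℤ}
    (hkl : g ^ k = g ^ l) : k = l := by
  by_contra hne
  apply hg
  apply h.zpow (k := k - l) (by omega)
  rw [_root_.zpow_sub, hkl, mul_inv_cancel]

theorem TorsionfreeGroup.subgroup (h : TorsionfreeGroup G) (H : Subgroup G) :
    TorsionfreeGroup H := by
  intro g n hn hg
  apply Subtype.ext
  exact h g n hn (by simpa using congrArg Subtype.val hg)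

end TF

section Pi

/-- `ℤ^(r+1)` as an extension of `ℤ` by `ℤ^r` -/
def cycPi (r : ℕ) : CycExt (Multiplicative (Fin r → ℤ)) (Multiplicative (Fin (r + 1) → ℤ)) where
  i := AddMonoidHom.toMultiplicative
    { toFun := fun v => Fin.cons (α := fun _ => ℤ) 0 v
      map_zero' := by funext j; refine Fin.cases ?_ (fun j => ?_) j <;> simp
      map_add' := fun v w => by funext j; refine Fin.cases ?_ (fun j => ?_) j <;> simp }
  t := Multiplicative.ofAdd (Fin.cons (α := fun _ => ℤ) 1 0)
  α := MulEquiv.refl _
  comm := fun n => mul_comm _ _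
  bij := by
    have key : ∀ (k : ℤ) (v : Fin r → ℤ),
        (Multiplicative.ofAdd (Fin.cons (α := fun _ => ℤ) 1 0 : Fin (r + 1) → ℤ)) ^ k *
        Multiplicative.ofAdd (Fin.cons (α := fun _ => ℤ) 0 v : Fin (r + 1) → ℤ) =
        Multiplicative.ofAdd (Fin.cons (α := fun _ => ℤ) k v : Fin (r + 1) → ℤ) := by
      intro k v
      apply Multiplicative.toAdd.injective
      funext j
      refine Fin.cases ?_ (fun j => ?_) j <;> simp
    constructor
    · rintro ⟨k, v⟩ ⟨k', v'⟩ h
      have h1 := (key k (Multiplicative.toAdd v)).symm.trans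
        (h.trans (key k' (Multiplicative.toAdd v')))
      have h2 : (Fin.cons (α := fun _ => ℤ) k (Multiplicative.toAdd v) : Fin (r + 1) → ℤ) =
        Fin.cons (α := fun _ => ℤ) k' (Multiplicative.toAdd v') :=
        Multiplicative.ofAdd.injective h1
      have h3 := congrFun h2 0
      simp only [Fin.cons_zero] at h3
      have h4 : Multiplicative.toAdd v = Multiplicative.toAdd v' := by
        funext j
        have := congrFun h2 j.succ
        simpa using this
      exact Prod.ext h3 (Multiplicative.toAdd.injective h4)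
    · intro x
      refine ⟨(Multiplicative.toAdd x 0, Multiplicative.ofAdd fun j => Multiplicative.toAdd x j.succ),
        ?_⟩
      refine (key _ _).trans ?_
      apply Multiplicative.toAdd.injective
      funext j
      refine Fin.cases ?_ (fun j => ?_) j <;> simp

variable {R : Type u} [Ring R]

theorem nice_pi (hR : IsRegularRing R) (r : ℕ) : NiceGroup R (Multiplicative (Fin r → ℤ)) := by
  induction r with
  | zero => exact NiceGroup.of_subsingleton hR
  | succ r ih => exact NiceGroup.of_cycExt (cycPi r) ih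

theorem NiceGroup.of_commGroup (hR : IsRegularRing R) {G : Type v} [CommGroup G] [Group.FG G]
    (htf : TorsionfreeGroup G) : NiceGroup R G := by
  have h1 : IsMulTorsionFree G := by
    rw [isMulTorsionFree_iff_not_isOfFinOrder]
    intro a ha h
    obtain ⟨n, hn, h⟩ := isOfFinOrder_iff_pow_eq_one.1 h
    exact ha (htf a n hn h)
  have h2 : Module.Finite ℤ (Additive G) := Module.Finite.iff_addGroup_fg.2 inferInstance
  let b := Module.finBasis ℤ (Additive G)
  let e : Additive G ≃+ (Fin (Module.finrank ℤ (Additive G)) → ℤ) := b.equivFun.toAddEquiv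
  let e' : Multiplicative (Fin (Module.finrank ℤ (Additive G)) → ℤ) ≃* G :=
    (AddEquiv.toMultiplicativeRight e).symm
  exact NiceGroup.of_mulEquiv e' (nice_pi hR _)

theorem NiceGroup.closure_comm (hR : IsRegularRing R) {G : Type v} [Group G]
    (htf : TorsionfreeGroup G) {s : Set G} (hs : s.Finite)
    (hc : ∀ a ∈ s, ∀ b ∈ s, a * b = b * a) : NiceGroup R (Subgroup.closure s) := by
  have hcm := Subgroup.isMulCommutative_closure hc
  let inst : CommGroup (Subgroup.closure s) :=
    { (inferInstance : Group (Subgroup.closure s)) with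
      mul_comm := fun a b => hcm.is_comm.comm a b }
  have : Finite s := hs
  have hfg : Group.FG (Subgroup.closure s) := Group.closure_finite_fg s
  exact @NiceGroup.of_commGroup R _ hR (Subgroup.closure s) inst hfg (htf.subgroup _)

end Pi

section Klein

variable {R : Type u} [Ring R] {G : Type v} [Group G]

/-- If `h g h⁻¹ = g⁻¹` in a torsionfree group then `⟨g, h⟩` is nice. -/
theorem klein_rel {g h : G} (hgh : h * g = g⁻¹ * h) (k : ℤ) : h * g ^ k = g ^ (-k) * h := by
  have h1 : SemiconjBy h g g⁻¹ := hgh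
  have h2 := h1.zpow_right k
  rw [_root_.inv_zpow, ← _root_.zpow_neg] at h2
  exact h2

theorem klein_pow {g h : G} (htf : TorsionfreeGroup G) (hg : g ≠ 1) (hgh : h * g = g⁻¹ * h)
    {k l : ℤ} (hkl : h ^ k = g ^ l) : k = 0 := by
  by_contra hk
  have h1 : h * g ^ l = g ^ (-l) * h := klein_rel hgh l
  rw [← hkl] at h1
  have h2 : g ^ (-l) = h ^ k := by
    have h3 : h * h ^ k = h ^ k * h := (Commute.refl h).zpow_right k
    rw [h3] at h1
    exact (mul_right_cancel h1).symm
  rw [hkl] at h2
  have h4 := htf.zpow_inj hg h2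
  have h5 : l = 0 := by omega
  subst h5
  rw [_root_.zpow_zero] at hkl
  have h6 := htf.zpow hk hkl
  subst h6
  rw [one_mul, mul_one] at hgh
  apply hg
  apply htf g 2 (by norm_num)
  rw [pow_two]
  nth_rewrite 1 [hgh]
  rw [inv_mul_cancel]

theorem klein_mem {g h : G} (hgh : h * g = g⁻¹ * h) {x : G}
    (hx : x ∈ Subgroup.closure {g, h}) : ∃ k l : ℤ, x = h ^ k * g ^ l := by
  have key : ∀ (k l : ℤ), ∃ l' : ℤ, g ^ l * h ^ k = h ^ k * g ^ l' := by
    intro k
    induction k using Int.induction_on with
    | zero => intro l; exact ⟨l, by simp⟩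
    | succ n ih =>
      intro l
      obtain ⟨l', hl'⟩ := ih l
      refine ⟨-l', ?_⟩
      rw [_root_.zpow_add_one, ← mul_assoc, hl', mul_assoc, mul_assoc, klein_rel hgh]
      simp
    | pred n ih =>
      intro l
      obtain ⟨l', hl'⟩ := ih l
      refine ⟨-l', ?_⟩
      rw [_root_.zpow_sub_one, ← mul_assoc, hl', mul_assoc, mul_assoc]
      congr 1
      rw [mul_inv_eq_iff_eq_mul, mul_assoc, ← klein_rel hgh]
      simp
  induction hx using Subgroup.closure_induction with
  | mem x hx =>
    rcases hx with rfl | rfl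
    · exact ⟨0, 1, by simp⟩
    · exact ⟨1, 0, by simp⟩
  | one => exact ⟨0, 0, by simp⟩
  | mul x y _ _ hx hy =>
    obtain ⟨k, l, rfl⟩ := hx
    obtain ⟨k', l', rfl⟩ := hy
    obtain ⟨l'', h2⟩ := key k' l
    refine ⟨k + k', l'' + l', ?_⟩
    rw [_root_.zpow_add, _root_.zpow_add]
    calc h ^ k * g ^ l * (h ^ k' * g ^ l') = h ^ k * (g ^ l * h ^ k') * g ^ l' := by group
      _ = h ^ k * (h ^ k' * g ^ l'') * g ^ l' := by rw [h2]
      _ = _ := by group
  | inv x _ hx =>
    obtain ⟨k, l, rfl⟩ := hx
    obtain ⟨l', h2⟩ := key (-k) (-l)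
    refine ⟨-k, l', ?_⟩
    rw [_root_.mul_inv_rev, ← _root_.zpow_neg, ← _root_.zpow_neg, h2]

/-- The Klein bottle group as an extension of `ℤ` by `ℤ`. -/
noncomputable def cycKlein {g h : G} (htf : TorsionfreeGroup G) (hg : g ≠ 1)
    (hgh : h * g = g⁻¹ * h) :
    CycExt (Multiplicative ℤ) (Subgroup.closure {g, h}) where
  i := zpowersHom _ ⟨g, Subgroup.subset_closure (by simp)⟩
  t := ⟨h, Subgroup.subset_closure (by simp)⟩
  α := MulEquiv.inv _
  comm := by
    intro n
    apply Subtype.ext
    have := klein_rel hgh (Multiplicative.toAdd n)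
    simpa [zpowersHom_apply] using this
  bij := by
    constructor
    · rintro ⟨k, n⟩ ⟨k', n'⟩ h1
      have h2 : h ^ k * g ^ (Multiplicative.toAdd n) = h ^ k' * g ^ (Multiplicative.toAdd n') := by
        have := congrArg Subtype.val h1
        simpa [zpowersHom_apply] using this
      have h3 : h ^ (k' - k) = g ^ (Multiplicative.toAdd n - Multiplicative.toAdd n') := by
        rw [_root_.zpow_sub, _root_.zpow_sub]
        have h4 : (h ^ k')⁻¹ * (h ^ k * g ^ (Multiplicative.toAdd n)) =
          g ^ (Multiplicative.toAdd n') := by rw [h2]; group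
        have hc : h ^ k' * (h ^ k)⁻¹ = (h ^ k)⁻¹ * h ^ k' := by
          rw [← _root_.zpow_neg, ← _root_.zpow_add, ← _root_.zpow_add, add_comm]
        rw [hc]
        rw [← h4]
        group
      have h5 := klein_pow htf hg hgh h3
      have h6 : k = k' := by omega
      subst h6
      have h7 := mul_left_cancel h2
      have h8 := htf.zpow_inj hg h7
      exact Prod.ext rfl (Multiplicative.toAdd.injective h8)
    · rintro ⟨x, hx⟩
      obtain ⟨k, l, rfl⟩ := klein_mem hgh hx
      refine ⟨(k, Multiplicative.ofAdd l), ?_⟩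
      apply Subtype.ext
      simp [zpowersHom_apply]

theorem NiceGroup.closure_klein (hR : IsRegularRing R) (htf : TorsionfreeGroup G) {g h : G}
    (hg : g ≠ 1) (hgh : h * g = g⁻¹ * h) : NiceGroup R (Subgroup.closure {g, h}) := by
  refine NiceGroup.of_cycExt (cycKlein htf hg hgh) ?_
  have h1 := nice_pi hR 1
  refine NiceGroup.of_mulEquiv ?_ h1
  exact AddEquiv.toMultiplicative (LinearEquiv.funUnique (Fin 1) ℤ ℤ).toAddEquiv

end Klein

end Pool.Agent.Lib.MP_c052b4_al
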