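import Pool.Agent.Lib.MP_c052b4_al.Kernel3

/-!
# Descent of the stably induced property
-/

set_option autoImplicit false
set_option linter.unusedSectionVars false

namespace Pool.Agent.Lib.MP_c052b4_al

open Matrix Kern

universe u v w

/-- `K₀(R) → K₀(R[G])` is surjective. -/
def KSurj (R : Type u) [Ring R] (G : Type v) [Group G] : Prop :=
  Function.Surjective (KZero.map (MonoidAlgebra.singleOneRingHom : R →+* MonoidAlgebra R G))

theorem kSurj_iff (R : Type u) [Ring R] (G : Type v) [Group G] :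
    KSurj R G ↔ ∀ (n : ℕ) (e : Matrix (Fin n) (Fin n) (MonoidAlgebra R G)), e * e = e → SI e := by
  constructor
  · intro h n e he
    exact StabInd.of_surjective _ h he
  · exact map_surjective_of_forall _

/-- The stably induced property descends along `ι : G → Γ`. -/
def Down (R : Type u) [Ring R] {G : Type v} {Γ : Type w} [Group G] [Group Γ] (ι : G →* Γ) : Prop :=
  ∀ (n : ℕ) (e : Matrix (Fin n) (Fin n) (MonoidAlgebra R G)), e * e = e →
    SI (e.map (inc R ι)) → SI e

variable {R : Type u} [Ring R] {G : Type v} {Γ : Type w} [Group G] [Group Γ]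

theorem Down.comp {Δ : Type*} [Group Δ] {ι : G →* Γ} {κ : Γ →* Δ} (h : Down R ι) (h' : Down R κ) :
    Down R (κ.comp ι) := by
  intro n e he hs
  apply h n e he
  apply h' n _ (map_idem he _)
  rw [Matrix.map_map]
  have : ((inc R κ : MonoidAlgebra R Γ → MonoidAlgebra R Δ) ∘
      (inc R ι : MonoidAlgebra R G → MonoidAlgebra R Γ)) = (inc R (κ.comp ι)) := by
    funext s
    have := MonoidAlgebra.mapDomainRingHom_comp (R := R) κ ι
    exact (RingHom.congr_fun this s).symm
  rw [this]
  exact hs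

theorem KSurj.down {ι : G →* Γ} (h : KSurj R Γ) (h' : Down R ι) : KSurj R G := by
  rw [kSurj_iff] at h ⊢
  intro n e he
  exact h' n e he (h n _ (map_idem he _))

/-- A retract. -/
theorem down_of_retract {ι : G →* Γ} {ρ : Γ →* G} (h : ρ.comp ι = MonoidHom.id G) : Down R ι := by
  intro n e he hs
  have h1 := StabInd.map (inc R ρ) hs
  rw [singleOne_comp, Matrix.map_map] at h1
  have : ((inc R ρ : MonoidAlgebra R Γ → MonoidAlgebra R G) ∘
      (inc R ι : MonoidAlgebra R G → MonoidAlgebra R Γ)) = id := by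
    funext s
    have h2 := MonoidAlgebra.mapDomainRingHom_comp (R := R) ρ ι
    have h3 := (RingHom.congr_fun h2 s).symm
    rw [h, MonoidAlgebra.mapDomainRingHom_id] at h3
    exact h3
  rw [this, Matrix.map_id] at h1
  exact h1

theorem si_iff_kc {n : Type*} [Fintype n] {e : Matrix n n (MonoidAlgebra R G)} (he : e * e = e) :
    SI e ↔ KZero.kc e he ∈
      (KZero.map (MonoidAlgebra.singleOneRingHom : R →+* MonoidAlgebra R G)).range :=
  stabInd_iff _ he

/-- Descent along half spaces. -/
theorem down_of_halfSpaces {ι : G →* Γ} (hι : Function.Injective ι) (hs : HalfSpaces ι)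
    (hC : ∀ i, KSurj R (hs.C i)) : Down R ι := by
  classical
  intro n e he hsi
  obtain ⟨p, q, hpq⟩ := hsi
  set φ : R →+* MonoidAlgebra R G := MonoidAlgebra.singleOneRingHom with hφ
  set φ' : R →+* MonoidAlgebra R Γ := MonoidAlgebra.singleOneRingHom with hφ'
  have hcomp : (inc R ι).comp φ = φ' := singleOne_comp ι
  have hcomp' : ∀ s, inc R ι (φ s) = φ' s := fun s => RingHom.congr_fun hcomp s
  let Q : Matrix (Fin q.size) (Fin q.size) R := 1 - q.mat
  have hQ : Q * Q = Q := KZero.one_sub_idem q.idem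
  let f0 : Matrix ((Fin n ⊕ Fin p.size) ⊕ Fin q.size) ((Fin n ⊕ Fin p.size) ⊕ Fin q.size)
    (MonoidAlgebra R G) := fromBlocks (fromBlocks e 0 0 (p.mat.map φ)) 0 0 (Q.map φ)
  have hep := blocks_idem he (map_idem p.idem φ)
  have hf0 : f0 * f0 = f0 := blocks_idem hep (map_idem hQ φ)
  let σ : ((Fin n ⊕ Fin p.size) ⊕ Fin q.size) ≃ Fin (n + p.size + q.size) :=
    (Equiv.sumCongr finSumFinEquiv (Equiv.refl _)).trans finSumFinEquiv
  let f : Matrix (Fin (n + p.size + q.size)) (Fin (n + p.size + q.size)) (MonoidAlgebra R G) :=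
    Matrix.reindex σ σ f0
  have hf : f * f = f := reindex_idem hf0 σ
  have hff0 : MvN f0 f := MvN.reindex hf0 σ
  -- over the big ring
  have h1 : MvN (f.map (inc R ι)) (1 : Matrix (Fin q.size) (Fin q.size) (MonoidAlgebra R Γ)) := by
    have k1 : MvN (f0.map (inc R ι)) (f.map (inc R ι)) := MvN.map hff0 _
    have k2 : f0.map (inc R ι) = fromBlocks (fromBlocks (e.map (inc R ι)) 0 0 (p.mat.map φ')) 0 0
        (Q.map φ') := by
      simp only [f0]
      have hfun : ((inc R ι : MonoidAlgebra R G → MonoidAlgebra R Γ) ∘ (φ : R → MonoidAlgebra R G))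
        = φ' := funext hcomp'
      rw [VMon.map_add_blocks, VMon.map_add_blocks, Matrix.map_map, Matrix.map_map, hfun]
    have k3 : MvN (fromBlocks (fromBlocks (e.map (inc R ι)) 0 0 (p.mat.map φ')) 0 0 (Q.map φ'))
        (fromBlocks (q.mat.map φ') 0 0 (Q.map φ')) :=
      MvN.blocks hpq (MvN.refl (map_idem hQ φ'))
    have k4 : MvN (fromBlocks (q.mat.map φ') 0 0 (Q.map φ'))
        (1 : Matrix (Fin q.size) (Fin q.size) (MonoidAlgebra R Γ)) := by
      have := MvN.map (MvN.compl q.idem) φ'
      rw [VMon.map_add_blocks, KZero.map_one_mat] at this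
      exact this
    rw [k2] at k1
    have i1 := blocks_idem (map_idem q.idem φ') (map_idem hQ φ')
    have i2 : (1 : Matrix (Fin q.size) (Fin q.size) (MonoidAlgebra R Γ)) * 1 = 1 := by simp
    have i3 := map_idem hf (inc R ι)
    exact MvN.trans i3 i2 (MvN.trans i3 i1 k1.symm k3) k4
  obtain ⟨x, y, hxy, hyx⟩ := h1.symm
  obtain ⟨Bx, hBx⟩ := exists_finset_supM x
  obtain ⟨By, hBy⟩ := exists_finset_supM y
  let D : Setup R ι :=
    { hs := hs
      inj := hι
      m := _
      n := _
      f := f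
      x := x
      y := y
      xy := hxy
      yx := hyx
      B := Bx ∪ By.image fun b => b⁻¹
      xB := fun i j => (hBx i j).mono (by
        intro b hb
        exact Finset.mem_coe.2 (Finset.mem_union_left _ (Finset.mem_coe.1 hb)))
      yB := fun i j => (hBy i j).mono (by
        intro b hb
        exact Finset.mem_union_right _ (Finset.mem_image.2 ⟨b, hb, rfl⟩)) }
  have h2 : Good φ (img f) := D.good_f hf hC
  have h3 := (good_iff hf (LinearEquiv.refl _ _)).1 h2
  rw [← KZero.kc_eq_of_mvN hf0 hf hff0] at h3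
  have h4 : KZero.kc f0 hf0 = KZero.kc e he + KZero.kc (p.mat.map φ) (map_idem p.idem φ) +
      KZero.kc (Q.map φ) (map_idem hQ φ) := by
    rw [← KZero.kc_blocks he (map_idem p.idem φ), ← KZero.kc_blocks hep (map_idem hQ φ)]
  rw [h4] at h3
  rw [si_iff_kc he]
  have h5 : KZero.kc (p.mat.map φ) (map_idem p.idem φ) ∈ (KZero.map φ).range :=
    ⟨_, KZero.kc_map φ _ p.idem⟩
  have h6 : KZero.kc (Q.map φ) (map_idem hQ φ) ∈ (KZero.map φ).range :=
    ⟨_, KZero.kc_map φ _ hQ⟩
  have h7 := AddSubgroup.sub_mem _ (AddSubgroup.sub_mem _ h3 h6) h5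
  have h8 : KZero.kc e he + KZero.kc (p.mat.map φ) (map_idem p.idem φ) +
      KZero.kc (Q.map φ) (map_idem hQ φ) - KZero.kc (Q.map φ) (map_idem hQ φ) -
      KZero.kc (p.mat.map φ) (map_idem p.idem φ) = KZero.kc e he := by abel
  rwa [h8] at h7

end Pool.Agent.Lib.MP_c052b4_al
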