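import Mathlib
import Pool.Agent.Lib.MP_c052b4_al.TfDef

/-!
# Unions of chains of groups
-/

set_option autoImplicit false
set_option linter.unusedSectionVars false

namespace Pool.Agent.Lib.MP_c052b4_al

universe u v w

namespace Omega

variable {G : ℕ → Type v} [∀ k, Group (G k)] (f : ∀ k, G k →* G (k + 1))

/-- transition maps -/
def tr (i j : ℕ) (h : i ≤ j) : G i →* G j :=
  Nat.leRec (motive := fun j _ => G i →* G j) (MonoidHom.id _) (fun k _ g => (f k).comp g) h

theorem tr_self (i : ℕ) (h : i ≤ i) : tr f i i h = MonoidHom.id _ := by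
  unfold tr; rw [Nat.leRec_self]

theorem tr_succ (i j : ℕ) (h : i ≤ j) (h' : i ≤ j + 1) :
    tr f i (j + 1) h' = (f j).comp (tr f i j h) := by
  unfold tr; rw [Nat.leRec_succ]

theorem tr_trans (i j k : ℕ) (h : i ≤ j) (h' : j ≤ k) (x : G i) :
    tr f j k h' (tr f i j h x) = tr f i k (h.trans h') x := by
  induction k, h' using Nat.le_induction with
  | base => rw [tr_self]; rfl
  | succ k hk ih =>
    rw [tr_succ f j k hk, tr_succ f i k (h.trans hk)]
    change f k (tr f j k _ (tr f i j h x)) = f k (tr f i k _ x)
    rw [ih]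

instance directed : DirectedSystem G (fun i j h => (tr f i j h : G i → G j)) where
  map_self i x := by rw [tr_self]; rfl
  map_map k j i h h' x := tr_trans f i j k _ _ x

/-- the union -/
abbrev Lim : Type v := DirectLimit G (tr f)

/-- the maps to the union -/
def toLim (i : ℕ) : G i →* Lim f where
  toFun x := ⟦⟨i, x⟩⟧
  map_one' := (DirectLimit.one_def i).symm
  map_mul' x y := (DirectLimit.mul_def i x y).symm

theorem toLim_tr (i j : ℕ) (h : i ≤ j) (x : G i) : toLim f j (tr f i j h x) = toLim f i x :=
  (DirectLimit.eq_of_le (f := tr f) ⟨i, x⟩ j h).symm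

theorem exists_toLim (z : Lim f) : ∃ i x, toLim f i x = z := by
  obtain ⟨i, x, h⟩ := DirectLimit.exists_eq_mk (tr f) z
  exact ⟨i, x, h.symm⟩

variable {f} in
theorem tr_injective (hf : ∀ k, Function.Injective (f k)) (i j : ℕ) (h : i ≤ j) :
    Function.Injective (tr f i j h) := by
  induction j, h using Nat.le_induction with
  | base => rw [tr_self]; exact Function.injective_id
  | succ k hk ih =>
    rw [tr_succ f i k hk]
    exact (hf k).comp ih

variable {f} in
theorem toLim_injective (hf : ∀ k, Function.Injective (f k)) (i : ℕ) :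
    Function.Injective (toLim f i) :=
  DirectLimit.mk_injective (tr f) (fun i j h => tr_injective hf i j h) i

theorem countable_lim [∀ k, Countable (G k)] : Countable (Lim f) := by
  have h : Function.Surjective fun x : Σ i, G i => toLim f x.1 x.2 := by
    intro z
    obtain ⟨i, x, h⟩ := exists_toLim f z
    exact ⟨⟨i, x⟩, h⟩
  exact h.countable

variable {f} in
theorem torsionfree_lim (hf : ∀ k, Function.Injective (f k)) (htf : ∀ k, TorsionfreeGroup (G k)) :
    TorsionfreeGroup (Lim f) := by
  intro z n hn hz
  obtain ⟨i, x, rfl⟩ := exists_toLim f z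
  rw [← map_pow] at hz
  have h1 : x ^ n = 1 := toLim_injective hf i (by rw [hz, map_one])
  rw [htf i x n hn h1, map_one]

end Omega

end Pool.Agent.Lib.MP_c052b4_al
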