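import Mathlib.GroupTheory.HNNExtension
import Pool.Agent.Lib.MP_c052b4_al.Descent
import Pool.Agent.Lib.MP_c052b4_al.OmegaDef

/-!
# Unions of chains of groups: descent
-/

set_option autoImplicit false
set_option linter.unusedSectionVars false

namespace Pool.Agent.Lib.MP_c052b4_al

open Kern

universe u v w

namespace Omega

variable {G : ℕ → Type v} [∀ k, Group (G k)] (f : ∀ k, G k →* G (k + 1))

variable (R : Type u) [Ring R]

/-- elements of the group ring of the union come from a finite stage -/
theorem reach_mono {i j : ℕ} (h : i ≤ j) {a : MonoidAlgebra R (Lim f)}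
    (ha : a ∈ (inc R (toLim f i)).range) : a ∈ (inc R (toLim f j)).range := by
  obtain ⟨b, rfl⟩ := ha
  refine ⟨inc R (tr f i j h) b, ?_⟩
  have h1 := MonoidAlgebra.mapDomainRingHom_comp (R := R) (toLim f j) (tr f i j h)
  have h2 : (toLim f j).comp (tr f i j h) = toLim f i := by
    ext x; exact toLim_tr f i j h x
  rw [h2] at h1
  exact (RingHom.congr_fun h1 b).symm

theorem exists_reach (a : MonoidAlgebra R (Lim f)) : ∃ k, a ∈ (inc R (toLim f k)).range := by
  induction a using MonoidAlgebra.induction_linear with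
  | zero => exact ⟨0, Subring.zero_mem _⟩
  | add a b ha hb =>
    obtain ⟨i, hi⟩ := ha
    obtain ⟨j, hj⟩ := hb
    exact ⟨max i j, Subring.add_mem _ (reach_mono f R (le_max_left i j) hi)
      (reach_mono f R (le_max_right i j) hj)⟩
  | single z r =>
    obtain ⟨i, x, rfl⟩ := exists_toLim f z
    exact ⟨i, MonoidAlgebra.single x r, by simp⟩

theorem exists_mat {m n : Type*} [Finite m] [Finite n]
    (X : Matrix m n (MonoidAlgebra R (Lim f))) :
    ∃ k0, ∀ k, k0 ≤ k → ∃ X' : Matrix m n (MonoidAlgebra R (G k)),
      X'.map (inc R (toLim f k)) = X := by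
  classical
  have : Fintype m := Fintype.ofFinite m
  have : Fintype n := Fintype.ofFinite n
  choose κ hκ using fun (i : m) (j : n) => exists_reach f R (X i j)
  refine ⟨Finset.univ.sup fun i => Finset.univ.sup fun j => κ i j, fun k hk => ?_⟩
  have h1 : ∀ i j, X i j ∈ (inc R (toLim f k)).range := by
    intro i j
    refine reach_mono f R ?_ (hκ i j)
    refine le_trans ?_ hk
    exact le_trans (Finset.le_sup (f := fun j => κ i j) (Finset.mem_univ j))
      (Finset.le_sup (f := fun i => Finset.univ.sup fun j => κ i j) (Finset.mem_univ i))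
  choose X' hX' using h1
  refine ⟨X', ?_⟩
  ext i j : 2
  exact congrArg _ (hX' i j)

variable {f} {R}

/-- descent from the union -/
theorem down_lim (hf : ∀ k, Function.Injective (f k)) (hd : ∀ k, Down R (f k)) :
    Down R (toLim f 0) := by
  have hdtr : ∀ k (h : 0 ≤ k), Down R (tr f 0 k h) := by
    intro k h
    induction k, h using Nat.le_induction with
    | base =>
      rw [tr_self]
      exact down_of_retract (ρ := MonoidHom.id _) rfl
    | succ k hk ih =>
      rw [tr_succ f 0 k hk]
      exact ih.comp (hd k)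
  intro n e he hsi
  obtain ⟨p, q, x, y, hxy, hyx⟩ := hsi
  obtain ⟨kx, hkx⟩ := exists_mat f R x
  obtain ⟨ky, hky⟩ := exists_mat f R y
  obtain ⟨x', hx'⟩ := hkx (max kx ky) (le_max_left _ _)
  obtain ⟨y', hy'⟩ := hky (max kx ky) (le_max_right _ _)
  generalize max kx ky = k at x' y' hx' hy'
  apply hdtr k (Nat.zero_le k) n e he
  have hinj : Function.Injective (inc R (toLim f k)) :=
    MonoidAlgebra.mapDomain_injective (toLim_injective hf k)
  have hphi : ∀ r : R, inc R (toLim f k) (MonoidAlgebra.singleOneRingHom r) =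
      (MonoidAlgebra.singleOneRingHom r : MonoidAlgebra R (Lim f)) :=
    fun r => RingHom.congr_fun (singleOne_comp (R := R) (toLim f k)) r
  have hphif : ((inc R (toLim f k) : MonoidAlgebra R (G k) → MonoidAlgebra R (Lim f)) ∘
      (MonoidAlgebra.singleOneRingHom : R →+* MonoidAlgebra R (G k))) =
      (MonoidAlgebra.singleOneRingHom : R →+* MonoidAlgebra R (Lim f)) := funext hphi
  have hef : ((inc R (toLim f k) : MonoidAlgebra R (G k) → MonoidAlgebra R (Lim f)) ∘
      (inc R (tr f 0 k (Nat.zero_le k)))) = inc R (toLim f 0) := by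
    funext s
    have h1 := MonoidAlgebra.mapDomainRingHom_comp (R := R) (toLim f k) (tr f 0 k (Nat.zero_le k))
    have h2 : (toLim f k).comp (tr f 0 k (Nat.zero_le k)) = toLim f 0 := by
      ext x; exact toLim_tr f 0 k _ x
    rw [h2] at h1
    exact (RingHom.congr_fun h1 s).symm
  refine ⟨p, q, x', y', ?_, ?_⟩
  · have h1 : (x' * y').map (inc R (toLim f k)) = (Matrix.fromBlocks
        (e.map (inc R (tr f 0 k (Nat.zero_le k)))) 0 0
        (p.mat.map (MonoidAlgebra.singleOneRingHom : R →+* MonoidAlgebra R (G k)))).map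
        (inc R (toLim f k)) := by
      rw [Matrix.map_mul, hx', hy', hxy, VMon.map_add_blocks, Matrix.map_map, Matrix.map_map,
        hphif, hef]
    exact Matrix.map_injective hinj h1
  · have h1 : (y' * x').map (inc R (toLim f k)) =
        (q.mat.map (MonoidAlgebra.singleOneRingHom : R →+* MonoidAlgebra R (G k))).map
        (inc R (toLim f k)) := by
      rw [Matrix.map_mul, hx', hy', hyx, Matrix.map_map, hphif]
    exact Matrix.map_injective hinj h1

end Omega

end Pool.Agent.Lib.MP_c052b4_al
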