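import Pool.Agent.Lib.MP_c052b4_al.HNNTf
import Pool.Agent.Lib.MP_c052b4_al.NiceAb
import Pool.Agent.Lib.MP_c052b4_al.Omega

/-!
# Making all nontrivial elements conjugate
-/

set_option autoImplicit false
set_option linter.unusedSectionVars false

namespace Pool.Agent.Lib.MP_c052b4_al

open Kern HNNExtension

universe u v w

section Step

variable {G : Type v} [Group G] (htf : TorsionfreeGroup G)

/-- the infinite cyclic group generated by `a` -/
noncomputable def zEquiv (htf : TorsionfreeGroup G) {a : G} (ha : a ≠ 1) :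
    Multiplicative ℤ ≃* Subgroup.zpowers a :=
  MulEquiv.ofBijective
    ((zpowersHom G a).codRestrict (Subgroup.zpowers a) (fun n => ⟨Multiplicative.toAdd n, rfl⟩))
    ⟨by
      intro n n' h
      have h1 : a ^ (Multiplicative.toAdd n) = a ^ (Multiplicative.toAdd n') :=
        congrArg Subtype.val h
      exact Multiplicative.toAdd.injective (htf.zpow_inj ha h1), by
      rintro ⟨_, n, rfl⟩
      exact ⟨Multiplicative.ofAdd n, rfl⟩⟩

theorem zEquiv_one {a : G} (ha : a ≠ 1) :
    zEquiv htf ha (Multiplicative.ofAdd 1) = ⟨a, Subgroup.mem_zpowers a⟩ := by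
  apply Subtype.ext
  change a ^ (1 : ℤ) = a
  rw [zpow_one]

/-- the isomorphism of infinite cyclic groups -/
noncomputable def zz (htf : TorsionfreeGroup G) {a b : G} (ha : a ≠ 1) (hb : b ≠ 1) :
    Subgroup.zpowers a ≃* Subgroup.zpowers b :=
  (zEquiv htf ha).symm.trans (zEquiv htf hb)

theorem zz_apply {a b : G} (ha : a ≠ 1) (hb : b ≠ 1) :
    zz htf ha hb ⟨a, Subgroup.mem_zpowers a⟩ = ⟨b, Subgroup.mem_zpowers b⟩ := by
  rw [← zEquiv_one htf ha, ← zEquiv_one htf hb]
  simp [zz]

theorem isConj_of {a b : G} (ha : a ≠ 1) (hb : b ≠ 1) :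
    IsConj (of a : HNNExtension G _ _ (zz htf ha hb)) (of b) := by
  rw [isConj_iff]
  refine ⟨t, ?_⟩
  have := equiv_eq_conj (φ := zz htf ha hb) ⟨a, Subgroup.mem_zpowers a⟩
  rw [zz_apply] at this
  exact this.symm

theorem countable_hnn [Countable G] {A B : Subgroup G} (φ : A ≃* B) :
    Countable (HNNExtension G A B φ) := by
  have h : Function.Surjective fun x : G × List (ℤˣ × G) =>
      (of x.1 * HN.lp φ x.2 : HNNExtension G A B φ) := by
    intro γ
    obtain ⟨h, l, -, rfl⟩ := HN.exists_word φ γ
    exact ⟨(h, l), rfl⟩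
  have : Countable ℤˣ := Finite.to_countable
  exact h.countable

variable {R : Type u} [Ring R]

theorem nice_int (hR : IsRegularRing R) : NiceGroup R (Multiplicative ℤ) := by
  refine NiceGroup.of_mulEquiv ?_ (nice_pi hR 1)
  exact AddEquiv.toMultiplicative (LinearEquiv.funUnique (Fin 1) ℤ ℤ).toAddEquiv

theorem nice_zpowers (hR : IsRegularRing R) (htf : TorsionfreeGroup G) {a : G} (ha : a ≠ 1) :
    NiceGroup R (Subgroup.zpowers a) :=
  NiceGroup.of_mulEquiv (zEquiv htf ha) (nice_int hR)

theorem down_hnn (hR : IsRegularRing R) {a b : G} (ha : a ≠ 1) (hb : b ≠ 1) :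
    Down R (of : G →* HNNExtension G _ _ (zz htf ha hb)) := by
  refine down_of_halfSpaces (of_injective _) (HN.halfSpaces _) ?_
  intro i
  cases i with
  | false => exact (nice_zpowers hR htf hb).surj
  | true => exact (nice_zpowers hR htf ha).surj

end Step

/-- a countable torsionfree group containing `G` -/
structure Ext (G : Type) [Group G] where
  /-- the group -/
  H : Type
  /-- the group structure -/
  grp : Group H
  ctbl : Countable H
  tf : TorsionfreeGroup H
  /-- the embedding -/
  ι : G →* H
  inj : Function.Injective ι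

attribute [instance] Ext.grp

section Seq

variable {G : Type} [Group G] (hG : Countable G) (htf : TorsionfreeGroup G)

/-- the next group: make `x` and `y` conjugate -/
noncomputable def Ext.next (E : Ext G) (x y : {x : G // x ≠ 1}) : Ext G :=
  have hx : E.ι x ≠ 1 := fun h => x.2 (E.inj (by rw [h, map_one]))
  have hy : E.ι y ≠ 1 := fun h => y.2 (E.inj (by rw [h, map_one]))
  have := E.ctbl
  { H := HNNExtension E.H _ _ (zz E.tf hx hy)
    grp := inferInstance
    ctbl := countable_hnn _
    tf := HN.torsionfree _ E.tf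
    ι := (of : E.H →* HNNExtension E.H _ _ (zz E.tf hx hy)).comp E.ι
    inj := (of_injective _).comp E.inj }

/-- the inclusion into the next group -/
noncomputable def Ext.nextHom (E : Ext G) (x y : {x : G // x ≠ 1}) : E.H →* (E.next x y).H :=
  have hx : E.ι x ≠ 1 := fun h => x.2 (E.inj (by rw [h, map_one]))
  have hy : E.ι y ≠ 1 := fun h => y.2 (E.inj (by rw [h, map_one]))
  (of : E.H →* HNNExtension E.H _ _ (zz E.tf hx hy))

theorem Ext.nextHom_ι (E : Ext G) (x y : {x : G // x ≠ 1}) :
    (E.nextHom x y).comp E.ι = (E.next x y).ι := rfl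

theorem Ext.nextHom_injective (E : Ext G) (x y : {x : G // x ≠ 1}) :
    Function.Injective (E.nextHom x y) := of_injective _

theorem Ext.next_conj (E : Ext G) (x y : {x : G // x ≠ 1}) :
    IsConj ((E.next x y).ι x) ((E.next x y).ι y) :=
  isConj_of E.tf (fun h => x.2 (E.inj (by rw [h, map_one])))
    (fun h => y.2 (E.inj (by rw [h, map_one])))

theorem Ext.down_nextHom {R : Type u} [Ring R] (hR : IsRegularRing R) (E : Ext G)
    (x y : {x : G // x ≠ 1}) : Down R (E.nextHom x y) :=
  down_hnn E.tf hR (fun h => x.2 (E.inj (by rw [h, map_one])))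
    (fun h => y.2 (E.inj (by rw [h, map_one])))

variable (p : ℕ → {x : G // x ≠ 1} × {x : G // x ≠ 1})

/-- the sequence of groups -/
noncomputable def seq (hG : Countable G) (htf : TorsionfreeGroup G)
    (p : ℕ → {x : G // x ≠ 1} × {x : G // x ≠ 1}) : ℕ → Ext G
  | 0 => ⟨G, inferInstance, hG, htf, MonoidHom.id G, Function.injective_id⟩
  | k + 1 => (seq hG htf p k).next (p k).1 (p k).2

/-- the transition maps -/
noncomputable def seqHom (k : ℕ) : (seq hG htf p k).H →* (seq hG htf p (k + 1)).H :=
  (seq hG htf p k).nextHom (p k).1 (p k).2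

theorem seqHom_injective (k : ℕ) : Function.Injective (seqHom hG htf p k) :=
  (seq hG htf p k).nextHom_injective _ _

/-- the union of the sequence -/
def U1 : Type := Omega.Lim (seqHom hG htf p)

noncomputable instance : Group (U1 hG htf p) := inferInstanceAs (Group (Omega.Lim (seqHom hG htf p)))

/-- the embedding -/
noncomputable def toU1 : G →* U1 hG htf p := Omega.toLim (seqHom hG htf p) 0

theorem toU1_injective : Function.Injective (toU1 hG htf p) :=
  Omega.toLim_injective (seqHom_injective hG htf p) 0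

theorem toU1_eq (k : ℕ) (x : G) :
    toU1 hG htf p x = Omega.toLim (seqHom hG htf p) k ((seq hG htf p k).ι x) := by
  induction k with
  | zero => rfl
  | succ k ih =>
    rw [ih]
    have h1 : (seq hG htf p (k + 1)).ι x = seqHom hG htf p k ((seq hG htf p k).ι x) := rfl
    rw [h1]
    have h2 := Omega.toLim_tr (seqHom hG htf p) k (k + 1) (Nat.le_succ k) ((seq hG htf p k).ι x)
    rw [Omega.tr_succ _ k k le_rfl, Omega.tr_self] at h2
    exact h2.symm

theorem countable_U1 : Countable (U1 hG htf p) := by
  have : ∀ k, Countable (seq hG htf p k).H := fun k => (seq hG htf p k).ctbl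
  exact Omega.countable_lim (seqHom hG htf p)

theorem torsionfree_U1 : TorsionfreeGroup (U1 hG htf p) :=
  Omega.torsionfree_lim (seqHom_injective hG htf p) fun k => (seq hG htf p k).tf

theorem down_toU1 {R : Type u} [Ring R] (hR : IsRegularRing R) : Down R (toU1 hG htf p) :=
  Omega.down_lim (seqHom_injective hG htf p) fun k => (seq hG htf p k).down_nextHom hR _ _

theorem conj_U1 (hp : Function.Surjective p) {x y : G} (hx : x ≠ 1) (hy : y ≠ 1) :
    IsConj (toU1 hG htf p x) (toU1 hG htf p y) := by
  obtain ⟨k, hk⟩ := hp (⟨x, hx⟩, ⟨y, hy⟩)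
  rw [toU1_eq hG htf p (k + 1), toU1_eq hG htf p (k + 1)]
  exact (Omega.toLim (seqHom hG htf p) (k + 1)).map_isConj (by
    have h3 : IsConj ((seq hG htf p (k + 1)).ι ((p k).1 : G)) ((seq hG htf p (k + 1)).ι ((p k).2 : G)) :=
      (seq hG htf p k).next_conj (p k).1 (p k).2
    rw [hk] at h3
    exact h3)

end Seq

end Pool.Agent.Lib.MP_c052b4_al
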