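import Pool.Agent.Lib.MP_c052b4_al.Mg.G079
import Mathlib.GroupTheory.FreeGroup.CyclicallyReduced
import Mathlib.GroupTheory.SemidirectProduct

/-!
# Free groups of infinite rank
-/

set_option autoImplicit false
set_option linter.unusedSectionVars false

namespace Pool.Agent.Lib.MP_c052b4_al

open Matrix Kern HNNExtension

universe u v w

section Nat

variable {R : Type u} [Ring R]

/-- the truncation of the free group -/
noncomputable def rN (n : ℕ) : FreeGroup ℕ →* FreeGroup (Fin n) :=
  FreeGroup.lift fun j => if h : j < n then FreeGroup.of ⟨j, h⟩ else 1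

/-- the inclusion -/
noncomputable def iN (n : ℕ) : FreeGroup (Fin n) →* FreeGroup ℕ := FreeGroup.map Fin.val

theorem exists_fix (γ : FreeGroup ℕ) : ∃ N, ∀ n, N ≤ n → iN n (rN n γ) = γ := by
  induction γ using FreeGroup.induction_on with
  | C1 => exact ⟨0, fun n _ => by rw [map_one, map_one]⟩
  | of j =>
    refine ⟨j + 1, fun n hn => ?_⟩
    have h : j < n := hn
    simp [iN, rN, h]
  | inv_of j ih =>
    obtain ⟨N, hN⟩ := ih
    exact ⟨N, fun n hn => by rw [map_inv, map_inv, hN n hn]⟩
  | mul x y hx hy =>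
    obtain ⟨N, hN⟩ := hx
    obtain ⟨M, hM⟩ := hy
    exact ⟨max N M, fun n hn => by
      rw [map_mul, map_mul, hN n (le_trans (le_max_left _ _) hn),
        hM n (le_trans (le_max_right _ _) hn)]⟩

theorem inc_fix {f : FreeGroup ℕ →* FreeGroup ℕ} {B : Finset (FreeGroup ℕ)}
    (hf : ∀ γ ∈ B, f γ = γ) {a : MonoidAlgebra R (FreeGroup ℕ)}
    (ha : Sup (B : Set (FreeGroup ℕ)) a) : inc R f a = a := by
  have h1 : a = ∑ γ ∈ a.coeff.support, MonoidAlgebra.single γ (a.coeff γ) := by
    conv_lhs => rw [← MonoidAlgebra.sum_coeff_single a]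
    rfl
  conv_lhs => rw [h1]
  conv_rhs => rw [h1]
  rw [map_sum]
  refine Finset.sum_congr rfl fun γ hγ => ?_
  have h2 : γ ∈ B := by
    by_contra h3
    exact (Finsupp.mem_support_iff.1 hγ) (ha γ (by simpa using h3))
  simp [hf γ h2]

/-- **`K₁` of the free group of countable rank.** -/
theorem imA1_freeGroup_nat (hR : IsRegularRing R) (x : KOne (MonoidAlgebra R (FreeGroup ℕ))) :
    x ∈ imA1 R (FreeGroup ℕ) := by
  classical
  obtain ⟨k, A, rfl⟩ := exists_k1 x
  obtain ⟨B, hB⟩ := exists_finset_supM (A : Matrix (Fin k) (Fin k) (MonoidAlgebra R (FreeGroup ℕ)))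
  choose N hN using exists_fix
  let n := B.sup N
  have h1 : ∀ γ ∈ B, ((iN n).comp (rN n)) γ = γ := fun γ hγ => hN γ n (Finset.le_sup hγ)
  have h2 : mU (inc R ((iN n).comp (rN n))) A = A := by
    apply Units.ext
    rw [coe_mU]
    refine Matrix.ext fun i j => ?_
    rw [Matrix.map_apply]
    exact inc_fix h1 (hB i j)
  have h3 : KOne.map (inc R ((iN n).comp (rN n))) (k1 A) = k1 A := by
    rw [KOne.map_k1, h2]
  rw [← h3, ← map_inc_comp]
  exact map_imA1 _ (imA1_freeGroup hR n _)

end Nat

section Inj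

/-- the shift action -/
noncomputable def shiftA : Multiplicative ℤ →* MulAut (FreeGroup ℤ) where
  toFun k := FreeGroup.freeGroupCongr (Equiv.addRight (Multiplicative.toAdd k))
  map_one' := by
    ext x : 1
    change FreeGroup.map _ x = x
    have : (⇑(Equiv.addRight (Multiplicative.toAdd (1 : Multiplicative ℤ))) : ℤ → ℤ) = id := by
      funext z; simp
    rw [this]
    exact FreeGroup.map.id x
  map_mul' k l := by
    ext x : 1
    change FreeGroup.map _ x = FreeGroup.map _ (FreeGroup.map _ x)
    rw [FreeGroup.map.comp]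
    congr 2
    funext z
    simp [add_comm, add_left_comm]

theorem shiftA_of (k : Multiplicative ℤ) (z : ℤ) :
    shiftA k (FreeGroup.of z) = FreeGroup.of (z + Multiplicative.toAdd k) := by
  change FreeGroup.map _ (FreeGroup.of z) = _
  simp

/-- the semidirect product -/
abbrev SD : Type := SemidirectProduct (FreeGroup ℤ) (Multiplicative ℤ) shiftA

/-- the shift -/
noncomputable def sdT : SD := SemidirectProduct.inr (Multiplicative.ofAdd 1)

/-- the free generator -/
noncomputable def sdX : SD := SemidirectProduct.inl (FreeGroup.of 0)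

theorem sd_conj (i : ℕ) : (sdT ^ i)⁻¹ * sdX * sdT ^ i =
    SemidirectProduct.inl (FreeGroup.of (-(i : ℤ))) := by
  have h1 : sdT ^ i = SemidirectProduct.inr (Multiplicative.ofAdd (i : ℤ)) := by
    unfold sdT
    rw [← map_pow]
    congr 1
    apply Multiplicative.toAdd.injective
    simp
  have h2 := SemidirectProduct.inl_aut (φ := shiftA) (Multiplicative.ofAdd (-(i : ℤ)))
    (FreeGroup.of (0 : ℤ))
  rw [shiftA_of, zero_add, toAdd_ofAdd] at h2
  rw [h2, h1, ← map_inv, ← ofAdd_neg, ← ofAdd_neg, neg_neg]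
  rfl

/-- conjugates of an element by the powers of another one generate freely -/
theorem lift_injective {F : Type} [Group F] {p q : F} (θ : F →* SD) (hp : θ p = sdT)
    (hq : θ q = sdX) :
    Function.Injective (FreeGroup.lift fun i : ℕ => (p ^ i)⁻¹ * q * p ^ i : FreeGroup ℕ →* F) := by
  have h1 : θ.comp (FreeGroup.lift fun i : ℕ => (p ^ i)⁻¹ * q * p ^ i) =
      (SemidirectProduct.inl : FreeGroup ℤ →* SD).comp
        (FreeGroup.map fun i : ℕ => -(i : ℤ)) := by
    apply FreeGroup.ext_hom
    intro i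
    rw [MonoidHom.comp_apply, MonoidHom.comp_apply, FreeGroup.lift_apply_of, FreeGroup.map.of,
      map_mul, map_mul, map_inv, map_pow, hp, hq, sd_conj]
  have h2 : Function.Injective (θ.comp (FreeGroup.lift fun i : ℕ => (p ^ i)⁻¹ * q * p ^ i)) := by
    rw [h1]
    refine SemidirectProduct.inl_injective.comp (FreeGroup.map_injective ?_)
    intro i j hij
    simpa using hij
  exact Function.Injective.of_comp (f := θ) h2

end Inj

end Pool.Agent.Lib.MP_c052b4_al
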