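import Pool.Agent.Lib.MP_c052b4_al.BassK
import Pool.Agent.Lib.MP_c052b4_al.NiceAb
import Pool.Agent.Lib.MP_c052b4_al.NilK
import Pool.Agent.Lib.MP_c052b4_al.TauG

/-!
# Linear invertible matrices over Laurent polynomial rings
-/

set_option autoImplicit false
set_option linter.unusedSectionVars false

namespace Pool.Agent.Lib.MP_c052b4_al

open Matrix Kern

universe u v w

section Idem

open Polynomial

theorem exists_idem_of_nilpotent {M : Type*} [Ring M] {ν : M} (h : IsNilpotent (ν * (1 - ν))) :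
    ∃ e : M, e * e = e ∧ Commute e ν ∧ IsNilpotent ((1 - e) * ν) ∧ IsNilpotent (e * (1 - ν)) := by
  obtain ⟨N, hN⟩ := h
  have hcop : IsCoprime ((X : ℤ[X]) ^ N) ((1 - X) ^ N) := by
    apply IsCoprime.pow
    exact ⟨1, 1, by ring⟩
  obtain ⟨a, b, hab⟩ := hcop
  let φ : ℤ[X] →ₐ[ℤ] M := aeval ν
  have hX : φ X = ν := aeval_X ν
  have hX1 : φ (1 - X) = 1 - ν := by rw [map_sub, map_one, hX]
  have hzero : ∀ p : ℤ[X], (X * (1 - X)) ^ N ∣ p → φ p = 0 := by
    rintro _ ⟨q, rfl⟩
    rw [map_mul, map_pow, map_mul, hX, hX1, hN, zero_mul]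
  have h1e : 1 - φ (a * X ^ N) = φ (b * (1 - X) ^ N) := by
    have h : 1 - a * X ^ N = b * (1 - X) ^ N := by
      rw [sub_eq_iff_eq_add, add_comm]
      exact hab.symm
    rw [← h, map_sub, map_one]
  refine ⟨φ (a * X ^ N), ?_, ?_, ?_, ?_⟩
  · have h2 : φ (a * X ^ N) * (1 - φ (a * X ^ N)) = 0 := by
      rw [h1e, ← map_mul]
      apply hzero
      exact ⟨a * b, by rw [mul_pow]; ring⟩
    rw [mul_sub, mul_one, sub_eq_zero] at h2
    exact h2.symm
  · have h2 : φ (a * X ^ N) * φ X = φ X * φ (a * X ^ N) := by rw [← map_mul, mul_comm, map_mul]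
    rw [hX] at h2
    exact h2
  · refine ⟨N, ?_⟩
    rw [h1e]
    have h2 : φ (b * (1 - X) ^ N) * ν = φ (b * (1 - X) ^ N * X) := by rw [map_mul φ _ X, hX]
    rw [h2, ← map_pow]
    apply hzero
    have h3 : (b * (1 - X) ^ N * X) ^ N = b ^ N * ((1 - X) ^ (N * N) * X ^ N) := by
      rw [mul_pow, mul_pow, pow_mul]; ring
    rw [h3, mul_pow, mul_comm (X ^ N : ℤ[X])]
    apply Dvd.dvd.mul_left
    exact mul_dvd_mul (pow_dvd_pow _ (Nat.le_mul_self N)) dvd_rfl
  · refine ⟨N, ?_⟩
    have h2 : φ (a * X ^ N) * (1 - ν) = φ (a * X ^ N * (1 - X)) := by rw [map_mul φ _ (1 - X), hX1]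
    rw [h2, ← map_pow]
    apply hzero
    have h3 : (a * X ^ N * (1 - X)) ^ N = a ^ N * (X ^ (N * N) * (1 - X) ^ N) := by
      rw [mul_pow, mul_pow, pow_mul]; ring
    rw [h3, mul_pow]
    apply Dvd.dvd.mul_left
    exact mul_dvd_mul (pow_dvd_pow _ (Nat.le_mul_self N)) dvd_rfl

/-- the recursion for the coefficients of an inverse -/
theorem nilpotent_of_recursion {M : Type*} [Ring M] {ν : M} (B : ℤ → M) (K : ℕ)
    (h0 : ∀ k : ℤ, (K : ℤ) < |k| → B k = 0)
    (h1 : ∀ k : ℤ, k ≠ 0 → B k * (1 - ν) = - (B (k - 1) * ν))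
    (h2 : B 0 * (1 - ν) + B (-1) * ν = 1) : IsNilpotent (ν * (1 - ν)) := by
  have hc : ∀ j : ℕ, (1 - ν) * ν ^ j = ν ^ j * (1 - ν) := by
    intro j
    rw [sub_mul, mul_sub, one_mul, mul_one, ← pow_succ, ← pow_succ']
  have hc' : ∀ j : ℕ, ν * (1 - ν) ^ j = (1 - ν) ^ j * ν := by
    intro j
    have : Commute ν (1 - ν) := by
      change ν * (1 - ν) = (1 - ν) * ν
      noncomm_ring
    exact this.pow_right j
  have hA : ∀ (j : ℕ) (k : ℤ), 0 ≤ k → (K : ℤ) + 1 ≤ k + j → B k * ν ^ j = 0 := by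
    intro j
    induction j with
    | zero =>
      intro k hk hkj
      rw [h0 k (by rw [abs_of_nonneg hk]; push_cast at hkj; omega), zero_mul]
    | succ j ih =>
      intro k hk hkj
      have h3 := h1 (k + 1) (by omega)
      rw [add_sub_cancel_right] at h3
      have h4 : B k * ν = - (B (k + 1) * (1 - ν)) := by rw [h3, neg_neg]
      rw [pow_succ', ← mul_assoc, h4, neg_mul, mul_assoc, hc, ← mul_assoc,
        ih (k + 1) (by omega) (by push_cast at hkj ⊢; omega), zero_mul, neg_zero]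
  have hB : ∀ (j : ℕ) (k : ℤ), k ≤ -1 → (K : ℤ) + 1 ≤ -k + j → B k * (1 - ν) ^ j = 0 := by
    intro j
    induction j with
    | zero =>
      intro k hk hkj
      rw [h0 k (by rw [abs_of_nonpos (by omega)]; push_cast at hkj; omega), zero_mul]
    | succ j ih =>
      intro k hk hkj
      rw [pow_succ', ← mul_assoc, h1 k (by omega), neg_mul, mul_assoc, hc', ← mul_assoc,
        ih (k - 1) (by omega) (by push_cast at hkj ⊢; omega), zero_mul, neg_zero]
  refine ⟨K + 1, ?_⟩
  have hcomm : Commute ν (1 - ν) := by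
    change ν * (1 - ν) = (1 - ν) * ν
    noncomm_ring
  have hA' := hA (K + 1) 0 le_rfl (by push_cast; omega)
  have hB' := hB (K + 1) (-1) le_rfl (by push_cast; omega)
  have e1 : B 0 * (1 - ν) * (ν ^ (K + 1) * (1 - ν) ^ (K + 1)) = 0 := by
    rw [← mul_assoc, mul_assoc (B 0), hc, ← mul_assoc (B 0), hA', zero_mul, zero_mul]
  have e2 : B (-1) * ν * (ν ^ (K + 1) * (1 - ν) ^ (K + 1)) = 0 := by
    rw [(hcomm.pow_pow (K + 1) (K + 1)).eq, ← mul_assoc, mul_assoc (B (-1)), hc',
      ← mul_assoc (B (-1)), hB', zero_mul, zero_mul]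
  have e3 : (B 0 * (1 - ν) + B (-1) * ν) * (ν ^ (K + 1) * (1 - ν) ^ (K + 1)) = 0 := by
    rw [add_mul, e1, e2, add_zero]
  rw [h2, one_mul] at e3
  rw [hcomm.mul_pow]
  exact e3

end Idem

section Lin

variable {R : Type u} [Ring R] {n : Type v} [Fintype n] [DecidableEq n]

/-- the variable -/
noncomputable abbrev tL (R : Type u) [Ring R] : Lau R :=
  MonoidAlgebra.single (Multiplicative.ofAdd (1 : ℤ)) 1

/-- the inverse of the variable -/
noncomputable abbrev tI (R : Type u) [Ring R] : Lau R :=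
  MonoidAlgebra.single (Multiplicative.ofAdd (-1 : ℤ)) 1

theorem tL_mul_tI : tL R * tI R = 1 := by simp [MonoidAlgebra.one_def]

theorem tI_mul_tL : tI R * tL R = 1 := by simp [MonoidAlgebra.one_def]

/-- the inclusion of constants -/
noncomputable abbrev cL (R : Type u) [Ring R] : R →+* Lau R := MonoidAlgebra.singleOneRingHom

theorem tL_comm (x : R) : tL R * cL R x = cL R x * tL R := by simp

theorem tI_comm (x : R) : tI R * cL R x = cL R x * tI R := by simp

/-- coefficient matrices -/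
def cf (k : ℤ) (M : Matrix n n (Lau R)) : Matrix n n R :=
  Matrix.of fun i j => (M i j).coeff (Multiplicative.ofAdd k)

theorem cf_add (k : ℤ) (M N : Matrix n n (Lau R)) : cf k (M + N) = cf k M + cf k N := rfl

theorem cf_one (k : ℤ) : cf k (1 : Matrix n n (Lau R)) = if k = 0 then 1 else 0 := by
  ext i j
  change ((1 : Matrix n n (Lau R)) i j).coeff (Multiplicative.ofAdd k) = _
  rw [Matrix.one_apply]
  by_cases h : i = j
  · subst h
    rw [if_pos rfl, MonoidAlgebra.one_def, MonoidAlgebra.coeff_single]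
    by_cases hk : k = 0
    · subst hk
      rw [if_pos rfl, Matrix.one_apply_eq]
      exact Finsupp.single_eq_same
    · rw [if_neg hk, Finsupp.single_apply, if_neg]
      · rfl
      · intro h
        apply hk
        exact (Multiplicative.ofAdd.injective h).symm
  · rw [if_neg h]
    by_cases hk : k = 0
    · rw [if_pos hk, Matrix.one_apply_ne h]; rfl
    · rw [if_neg hk]; rfl

theorem cf_mul_smul (k l : ℤ) (M : Matrix n n (Lau R)) (X : Matrix n n R) :
    cf k (M * ((MonoidAlgebra.single (Multiplicative.ofAdd l) (1 : R) : Lau R) • X.map (cL R))) =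
      cf (k - l) M * X := by
  ext i j
  change ((M * ((MonoidAlgebra.single (Multiplicative.ofAdd l) (1 : R) : Lau R) •
    X.map (cL R))) i j).coeff (Multiplicative.ofAdd k) = _
  rw [Matrix.mul_apply, MonoidAlgebra.coeff_sum, Finsupp.finsetSum_apply, Matrix.mul_apply]
  refine Finset.sum_congr rfl fun a _ => ?_
  have h1 : ((MonoidAlgebra.single (Multiplicative.ofAdd l) (1 : R) : Lau R) • X.map (cL R)) a j =
      MonoidAlgebra.single (Multiplicative.ofAdd l) (X a j) := by
    change MonoidAlgebra.single (Multiplicative.ofAdd l) (1 : R) * MonoidAlgebra.single 1 (X a j) = _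
    rw [MonoidAlgebra.single_mul_single, mul_one, one_mul]
  rw [h1, MonoidAlgebra.coeff_mul_single_apply]
  rfl

end Lin

end Pool.Agent.Lib.MP_c052b4_al
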