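import Pool.Agent.Lib.MP_c052b4_al.Nice

/-!
# Matrices over group rings
-/

set_option autoImplicit false
set_option linter.unusedSectionVars false

namespace Pool.Agent.Lib.MP_c052b4_al

open Matrix

universe u v w

section Ms

variable {R : Type u} [Ring R] {G : Type v} [Group G] {n : Type w} [Fintype n]

/-- the matrix `B · g` -/
noncomputable def ms (g : G) (B : Matrix n n R) : Matrix n n (MonoidAlgebra R G) :=
  B.map (MonoidAlgebra.single g)

/-- the coefficient matrix at `k` -/
def mcf (k : G) (X : Matrix n n (MonoidAlgebra R G)) : Matrix n n R :=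
  X.map fun x => x.coeff k

theorem ms_add (g : G) (B C : Matrix n n R) : ms g (B + C) = ms g B + ms g C := by
  ext i j : 2
  simp [ms, MonoidAlgebra.single_add]

theorem ms_zero (g : G) : ms g (0 : Matrix n n R) = 0 := by
  ext i j : 2
  simp [ms]

theorem ms_mul (g h : G) (B C : Matrix n n R) : ms g B * ms h C = ms (g * h) (B * C) := by
  ext i j : 2
  rw [Matrix.mul_apply]
  simp only [ms, Matrix.map_apply, MonoidAlgebra.single_mul_single]
  have : ∀ (s : Finset n) (f : n → R), ∑ x ∈ s, MonoidAlgebra.single (g * h) (f x) =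
      MonoidAlgebra.single (g * h) (∑ x ∈ s, f x) := by
    intro s f
    exact (map_sum (MonoidAlgebra.singleAddHom (g * h)) f s).symm
  rw [this, Matrix.mul_apply]

theorem mcf_add (k : G) (X Y : Matrix n n (MonoidAlgebra R G)) :
    mcf k (X + Y) = mcf k X + mcf k Y := by
  ext i j
  simp [mcf]

theorem mcf_sub (k : G) (X Y : Matrix n n (MonoidAlgebra R G)) :
    mcf k (X - Y) = mcf k X - mcf k Y := by
  ext i j
  simp [mcf]

theorem mcf_neg (k : G) (X : Matrix n n (MonoidAlgebra R G)) :
    mcf k (-X) = - mcf k X := by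
  ext i j
  simp [mcf]

theorem mcf_zero (k : G) : mcf k (0 : Matrix n n (MonoidAlgebra R G)) = 0 := by
  ext i j
  simp [mcf]

theorem mcf_ms_self (g : G) (B : Matrix n n R) : mcf g (ms g B) = B := by
  ext i j
  simp [mcf, ms]

theorem mcf_ms_of_ne {g k : G} (h : g ≠ k) (B : Matrix n n R) : mcf k (ms g B) = 0 := by
  classical
  ext i j
  simp [mcf, ms, h]

theorem mcf_ms [DecidableEq G] (g k : G) (B : Matrix n n R) :
    mcf k (ms g B) = if g = k then B else 0 := by
  split_ifs with h
  · subst h; exact mcf_ms_self _ _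
  · exact mcf_ms_of_ne h _

theorem mat_ext {X Y : Matrix n n (MonoidAlgebra R G)} (h : ∀ k, mcf k X = mcf k Y) : X = Y := by
  ext i j : 2
  ext k
  exact congrFun (congrFun (h k) i) j

/-- the support of a matrix is contained in `Y` -/
def SuppIn (Y : Set G) (X : Matrix n n (MonoidAlgebra R G)) : Prop :=
  ∀ k, k ∉ Y → mcf k X = 0

theorem SuppIn.mono {Y Z : Set G} (h : Y ⊆ Z) {X : Matrix n n (MonoidAlgebra R G)}
    (hX : SuppIn Y X) : SuppIn Z X := fun k hk => hX k fun hk' => hk (h hk')

theorem SuppIn.add {Y : Set G} {X X' : Matrix n n (MonoidAlgebra R G)}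
    (hX : SuppIn Y X) (hX' : SuppIn Y X') : SuppIn Y (X + X') := fun k hk => by
  rw [mcf_add, hX k hk, hX' k hk, add_zero]

theorem SuppIn.neg {Y : Set G} {X : Matrix n n (MonoidAlgebra R G)}
    (hX : SuppIn Y X) : SuppIn Y (-X) := fun k hk => by
  rw [mcf_neg, hX k hk, neg_zero]

theorem SuppIn.sub {Y : Set G} {X X' : Matrix n n (MonoidAlgebra R G)}
    (hX : SuppIn Y X) (hX' : SuppIn Y X') : SuppIn Y (X - X') := fun k hk => by
  rw [mcf_sub, hX k hk, hX' k hk, sub_zero]

theorem suppIn_zero (Y : Set G) : SuppIn Y (0 : Matrix n n (MonoidAlgebra R G)) :=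
  fun _ _ => mcf_zero _

theorem suppIn_ms {Y : Set G} {g : G} (hg : g ∈ Y) (B : Matrix n n R) : SuppIn Y (ms g B) :=
  fun k hk => mcf_ms_of_ne (fun h : g = k => hk (h ▸ hg)) B

/-- coefficient of a product -/
theorem coeff_mul_eq_zero {x y : MonoidAlgebra R G} {k : G} {Y Z : Set G}
    (hx : ∀ a, a ∉ Y → x.coeff a = 0) (hy : ∀ a, a ∉ Z → y.coeff a = 0)
    (h : ∀ a ∈ Y, ∀ b ∈ Z, a * b ≠ k) : (x * y).coeff k = 0 := by
  rw [MonoidAlgebra.coeff_mul_apply_left, Finsupp.sum]
  refine Finset.sum_eq_zero fun a ha => ?_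
  have haY : a ∈ Y := by
    by_contra h1
    exact (Finsupp.mem_support_iff.1 ha) (hx a h1)
  rw [hy, mul_zero]
  intro hb
  exact h a haY _ hb (mul_inv_cancel_left a k)

theorem SuppIn.mul {Y Z W : Set G} {X X' : Matrix n n (MonoidAlgebra R G)}
    (hX : SuppIn Y X) (hX' : SuppIn Z X') (hW : ∀ a ∈ Y, ∀ b ∈ Z, a * b ∈ W) :
    SuppIn W (X * X') := by
  intro k hk
  ext i j
  change ((X * X') i j).coeff k = 0
  rw [Matrix.mul_apply, MonoidAlgebra.coeff_sum, Finsupp.finsetSum_apply]
  refine Finset.sum_eq_zero fun l _ => ?_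
  refine coeff_mul_eq_zero (Y := Y) (Z := Z) (fun a ha => ?_) (fun a ha => ?_) ?_
  · exact congrFun (congrFun (hX a ha) i) l
  · exact congrFun (congrFun (hX' a ha) l) j
  · intro a ha b hb hab
    exact hk (hab ▸ hW a ha b hb)

/-- If `X + Y = Z + W` with `X`, `Z` supported in `A`, and `Y`, `W` supported in a disjoint set,
then `X = Z` and `Y = W`. -/
theorem suppIn_split {A B : Set G} (hAB : ∀ a ∈ A, a ∉ B)
    {X Y Z W : Matrix n n (MonoidAlgebra R G)} (hX : SuppIn A X) (hZ : SuppIn A Z)
    (hY : SuppIn B Y) (hW : SuppIn B W) (h : X + Y = Z + W) : X = Z ∧ Y = W := by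
  have key : ∀ k, mcf k X = mcf k Z ∧ mcf k Y = mcf k W := by
    intro k
    have hk := congrArg (mcf k) h
    rw [mcf_add, mcf_add] at hk
    by_cases hA : k ∈ A
    · have h1 := hY k (hAB k hA)
      have h2 := hW k (hAB k hA)
      rw [h1, h2, add_zero, add_zero] at hk
      exact ⟨hk, by rw [h1, h2]⟩
    · have h1 := hX k hA
      have h2 := hZ k hA
      rw [h1, h2, zero_add, zero_add] at hk
      exact ⟨by rw [h1, h2], hk⟩
  exact ⟨mat_ext fun k => (key k).1, mat_ext fun k => (key k).2⟩

/-- A matrix supported in a subgroup comes from the group ring of the subgroup. -/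
theorem exists_lift {H : Type*} [Group H] (f : H →* G) (hf : Function.Injective f)
    {X : Matrix n n (MonoidAlgebra R G)} (hX : SuppIn (Set.range f) X) :
    ∃ X' : Matrix n n (MonoidAlgebra R H), X'.map (MonoidAlgebra.mapDomainRingHom R f) = X := by
  refine ⟨X.map fun x => MonoidAlgebra.comapDomain f hf x, ?_⟩
  ext i j : 2
  simp only [Matrix.map_apply, MonoidAlgebra.mapDomainRingHom_apply]
  have h1 : ((X i j).coeff.support : Set G) ⊆ Set.range f := by
    intro k hk
    by_contra h
    have := congrFun (congrFun (hX k h) i) j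
    exact (Finsupp.mem_support_iff.1 hk) this
  have h2 := MonoidAlgebra.mapDomain_comapDomain (R := R) (f := f) (x := X i j) h1 hf
  rw [h2]

theorem map_injective' {H : Type*} [Group H] (f : H →* G) (hf : Function.Injective f) :
    Function.Injective fun X : Matrix n n (MonoidAlgebra R H) =>
      X.map (MonoidAlgebra.mapDomainRingHom R f) := by
  intro X Y hXY
  ext i j : 2
  have := congrFun (congrFun hXY i) j
  exact congrArg _ (MonoidAlgebra.mapDomain_injective hf this)

/-- the stably induced property from the coefficient ring -/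
def SI (X : Matrix n n (MonoidAlgebra R G)) : Prop :=
  StabInd (MonoidAlgebra.singleOneRingHom : R →+* MonoidAlgebra R G) X

/-- An idempotent supported in a nice subgroup is stably induced. -/
theorem si_of_lift {H : Type*} [Group H] (f : H →* G) (hf : Function.Injective f)
    (hH : Function.Surjective
      (KZero.map (MonoidAlgebra.singleOneRingHom : R →+* MonoidAlgebra R H)))
    {X : Matrix n n (MonoidAlgebra R G)} (hX : X * X = X) (hXs : SuppIn (Set.range f) X) :
    SI X := by
  obtain ⟨X', rfl⟩ := exists_lift f hf hXs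
  have h1 : X' * X' = X' := by
    apply map_injective' f hf
    change (X' * X').map (MonoidAlgebra.mapDomainRingHom R f) = _
    rw [Matrix.map_mul]
    exact hX
  have h2 := StabInd.of_surjective _ hH h1
  have h3 := h2.map (MonoidAlgebra.mapDomainRingHom R f)
  rw [singleOne_comp] at h3
  exact h3

theorem si_of_subgroup (H : Subgroup G)
    (hH : Function.Surjective
      (KZero.map (MonoidAlgebra.singleOneRingHom : R →+* MonoidAlgebra R H)))
    {X : Matrix n n (MonoidAlgebra R G)} (hX : X * X = X) (hXs : SuppIn (H : Set G) X) :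
    SI X :=
  si_of_lift H.subtype H.subtype_injective hH hX (by simpa using hXs)

/-- constants -/
theorem si_const {A : Matrix n n R} (hA : A * A = A) : SI (G := G) (ms 1 A) := by
  have h1 : StabInd (RingHom.id R) A := by
    rw [stabInd_iff _ hA]
    exact ⟨_, KZero.map_id _⟩
  have h2 := h1.map (MonoidAlgebra.singleOneRingHom : R →+* MonoidAlgebra R G)
  exact h2

end Ms

section Nilp

variable {S : Type u} [Ring S] {n : Type w} [Fintype n] [DecidableEq n]

/-- Idempotents `e`, `f` with `(e - f)²` nilpotent are equivalent. -/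
theorem mvN_of_nilpotent {e f : Matrix n n S} (he : e * e = e) (hf : f * f = f)
    (h : IsNilpotent ((e - f) * (e - f))) : MvN e f := by
  set u := e * f + (1 - e) * (1 - f) with hu
  set u' := f * e + (1 - f) * (1 - e) with hu'
  have h1 : u * u' = 1 - (e - f) * (e - f) := by
    rw [hu, hu']
    have a1 : e * f * (f * e) = e * f * e := by
      rw [mul_assoc, ← mul_assoc f f e, hf, ← mul_assoc]
    have a2 : e * f * ((1 - f) * (1 - e)) = 0 := by
      have : f * (1 - f) = 0 := by rw [mul_sub, mul_one, hf, sub_self]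
      rw [mul_assoc, ← mul_assoc f, this, zero_mul, mul_zero]
    have a3 : (1 - e) * (1 - f) * (f * e) = 0 := by
      have : (1 - f) * f = 0 := by rw [sub_mul, one_mul, hf, sub_self]
      rw [mul_assoc, ← mul_assoc (1 - f), this, zero_mul, mul_zero]
    have a4 : (1 - e) * (1 - f) * ((1 - f) * (1 - e)) = (1 - e) * (1 - f) * (1 - e) := by
      have : (1 - f) * (1 - f) = 1 - f := by
        rw [mul_sub, mul_one, sub_mul, one_mul, hf]; abel
      rw [mul_assoc, ← mul_assoc (1 - f) (1 - f), this, ← mul_assoc]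
    rw [add_mul, mul_add, mul_add, a1, a2, a3, a4]
    have b1 : (1 - e) * (1 - f) * (1 - e) = 1 - e - e + e * e - f + e * f + f * e - e * f * e := by
      noncomm_ring
    have b2 : (e - f) * (e - f) = e * e - e * f - f * e + f * f := by noncomm_ring
    rw [b1, b2, he, hf]
    abel
  have h1' : u' * u = 1 - (e - f) * (e - f) := by
    rw [hu, hu']
    have a1 : f * e * (e * f) = f * e * f := by
      rw [mul_assoc, ← mul_assoc e e f, he, ← mul_assoc]
    have a2 : f * e * ((1 - e) * (1 - f)) = 0 := by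
      have : e * (1 - e) = 0 := by rw [mul_sub, mul_one, he, sub_self]
      rw [mul_assoc, ← mul_assoc e, this, zero_mul, mul_zero]
    have a3 : (1 - f) * (1 - e) * (e * f) = 0 := by
      have : (1 - e) * e = 0 := by rw [sub_mul, one_mul, he, sub_self]
      rw [mul_assoc, ← mul_assoc (1 - e), this, zero_mul, mul_zero]
    have a4 : (1 - f) * (1 - e) * ((1 - e) * (1 - f)) = (1 - f) * (1 - e) * (1 - f) := by
      have : (1 - e) * (1 - e) = 1 - e := by
        rw [mul_sub, mul_one, sub_mul, one_mul, he]; abel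
      rw [mul_assoc, ← mul_assoc (1 - e) (1 - e), this, ← mul_assoc]
    rw [add_mul, mul_add, mul_add, a1, a2, a3, a4]
    have b1 : (1 - f) * (1 - e) * (1 - f) = 1 - f - f + f * f - e + f * e + e * f - f * e * f := by
      noncomm_ring
    have b2 : (e - f) * (e - f) = e * e - e * f - f * e + f * f := by noncomm_ring
    rw [b1, b2, he, hf]
    abel
  have hun : IsUnit (1 - (e - f) * (e - f)) := h.isUnit_one_sub
  have hu1 : IsUnit u := by
    rw [isUnit_iff_exists_and_exists]
    obtain ⟨v, hv⟩ := hun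
    constructor
    · exact ⟨u' * (v⁻¹ : (Matrix n n S)ˣ), by rw [← mul_assoc, h1, ← hv, Units.mul_inv]⟩
    · exact ⟨(v⁻¹ : (Matrix n n S)ˣ) * u', by rw [mul_assoc, h1', ← hv, Units.inv_mul]⟩
  obtain ⟨w, hw⟩ := hu1
  have h2 : e * u = u * f := by
    rw [hu]
    have c1 : e * (e * f + (1 - e) * (1 - f)) = e * f := by
      have : e * (1 - e) = 0 := by rw [mul_sub, mul_one, he, sub_self]
      rw [mul_add, ← mul_assoc, ← mul_assoc, he, this, zero_mul, add_zero]
    have c2 : (e * f + (1 - e) * (1 - f)) * f = e * f := by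
      have : (1 - f) * f = 0 := by rw [sub_mul, one_mul, hf, sub_self]
      rw [add_mul, mul_assoc, mul_assoc, hf, this, mul_zero, add_zero]
    rw [c1, c2]
  refine ⟨e * w, (w⁻¹ : (Matrix n n S)ˣ) * e, ?_, ?_⟩
  · rw [mul_assoc, ← mul_assoc (w : Matrix n n S), Units.mul_inv, one_mul, he]
  · rw [mul_assoc, ← mul_assoc e, he, hw, h2, ← hw, ← mul_assoc, Units.inv_mul, one_mul]

end Nilp

end Pool.Agent.Lib.MP_c052b4_al
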