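import Pool.Agent.Lib.MP_c052b4_al.HNN
import Pool.Agent.Lib.MP_c052b4_al.TfDef

/-!
# HNN extensions of torsionfree groups are torsionfree
-/

set_option autoImplicit false
set_option linter.unusedSectionVars false

namespace Pool.Agent.Lib.MP_c052b4_al

open Kern HNNExtension HNNExtension.NormalWord

universe u v w

namespace HN

variable {G : Type v} [Group G] {A B : Subgroup G} (φ : A ≃* B)

/-- powers of a cyclically reduced list are reduced -/
theorem red_pow {l : List (ℤˣ × G)} (hl : Red A B l) (hne : l ≠ [])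
    (hc : ∀ x ∈ l.getLast?, ∀ y ∈ l.head?, x.2 ∈ toSubgroup A B x.1 → x.1 = y.1) (n : ℕ) :
    ∃ l' : List (ℤˣ × G), Red A B l' ∧ lp φ l' = lp φ l ^ n ∧
      (n = 0 ∨ (l' ≠ [] ∧ l'.head? = l.head?)) := by
  induction n with
  | zero => exact ⟨[], List.isChain_nil, by simp [lp_nil], Or.inl rfl⟩
  | succ n ih =>
    obtain ⟨l', h1, h2, h3⟩ := ih
    refine ⟨l ++ l', ?_, ?_, Or.inr ⟨by simp [hne], ?_⟩⟩
    · unfold Red
      rw [List.isChain_append]
      refine ⟨hl, h1, ?_⟩
      intro x hx y hy
      rcases h3 with rfl | ⟨h4, h5⟩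
      · have : l' = [] := by
          rw [pow_zero] at h2
          have h6 := ReducedWord.toList_eq_nil_of_mem_of_range φ ⟨1, l', h1⟩ ⟨1, by
            rw [map_one]
            have : ReducedWord.prod φ ⟨1, l', h1⟩ = of 1 * lp φ l' := rfl
            rw [this, h2, map_one, mul_one]⟩
          exact h6
        subst this
        simp at hy
      · rw [h5] at hy
        exact hc x hx y hy
    · rw [lp_append, h2, pow_succ']
    · cases l with
      | nil => exact absurd rfl hne
      | cons a l => rfl

theorem toSubgroupEquiv_conj (v : ℤˣ) (k : G) (hk : k ∈ toSubgroup A B v) :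
    ∃ k' : G, (t : HNNExtension G A B φ) ^ (v : ℤ) * of k * (t ^ (v : ℤ))⁻¹ = of k' := by
  rcases Int.units_eq_one_or v with rfl | rfl
  · refine ⟨φ ⟨k, hk⟩, ?_⟩
    have := equiv_eq_conj (φ := φ) ⟨k, hk⟩
    rw [this]
    simp
  · refine ⟨φ.symm ⟨k, hk⟩, ?_⟩
    have := equiv_symm_eq_conj (φ := φ) ⟨k, hk⟩
    rw [this]
    simp

theorem tf_aux (htf : TorsionfreeGroup G) (N : ℕ) : ∀ (h : G) (l : List (ℤˣ × G)), l.length ≤ N →
    Red A B l → ∀ n : ℕ, 0 < n → (of h * lp φ l) ^ n = 1 → of h * lp φ l = 1 := by
  induction N using Nat.strong_induction_on with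
  | _ N ih =>
  intro h l hlen hl n hn hpow
  rcases List.eq_nil_or_concat l with rfl | ⟨l0, ⟨v, k⟩, rfl⟩
  · rw [lp_nil, mul_one, ← map_pow] at hpow
    have h1 : h ^ n = 1 := by
      apply of_injective (φ := φ)
      rw [hpow, map_one]
    rw [lp_nil, mul_one, htf h n hn h1, map_one]
  · rw [List.concat_eq_append] at hl hlen hpow ⊢
    -- conjugate by `of h`
    have conj1 : of h * lp φ (l0 ++ [(v, k)]) = of h * lp φ (l0 ++ [(v, k * h)]) * (of h)⁻¹ := by
      rw [← lp_mul_of]; group
    have hl' := red_mul_right hl (k * h)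
    set l' := l0 ++ [(v, k * h)] with hl'def
    have hne : l' ≠ [] := by simp [hl'def]
    have hpow' : lp φ l' ^ n = 1 := by
      have h1 : of h * lp φ (l0 ++ [(v, k)]) = of h * lp φ l' * (of h)⁻¹ := conj1
      rw [h1, conj_pow, mul_inv_eq_one, mul_eq_left] at hpow
      exact hpow
    suffices lp φ l' = 1 by
      rw [conj1, this, mul_one, mul_inv_cancel]
    by_cases hc : ∀ x ∈ l'.getLast?, ∀ y ∈ l'.head?, x.2 ∈ toSubgroup A B x.1 → x.1 = y.1
    · exfalso
      obtain ⟨l'', h1, h2, h3⟩ := red_pow φ hl' hne hc n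
      rw [hpow'] at h2
      have h6 := ReducedWord.toList_eq_nil_of_mem_of_range φ ⟨1, l'', h1⟩ ⟨1, by
        rw [map_one]
        have : ReducedWord.prod φ ⟨1, l'', h1⟩ = of 1 * lp φ l'' := rfl
        rw [this, h2, map_one, mul_one]⟩
      rcases h3 with h3 | ⟨h3, -⟩
      · omega
      · exact h3 h6
    · push Not at hc
      obtain ⟨x, hx, y, hy, hmem, hneq⟩ := hc
      have hx' : x = (v, k * h) := by
        rw [hl'def] at hx
        simpa using hx.symm
      subst hx'
      simp only at hmem hneq
      -- the list starts with `y`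
      cases l0 with
      | nil =>
        exfalso
        rw [hl'def] at hy
        simp only [List.nil_append, List.head?_cons, Option.mem_def, Option.some.injEq] at hy
        rw [← hy] at hneq
        exact hneq rfl
      | cons a l1 =>
        have hya : y = a := by
          rw [hl'def] at hy
          simpa using hy.symm
        subst hya
        obtain ⟨u, g1⟩ := y
        simp only at hneq
        have huv : v = -u := Int.units_ne_iff_eq_neg.1 hneq
        obtain ⟨k', hk'⟩ := toSubgroupEquiv_conj φ v (k * h) hmem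
        -- `l' = (u, g1) :: l1 ++ [(v, k h)]`
        have e1 : lp φ l' = t ^ (u : ℤ) * of g1 * lp φ l1 * (t ^ (v : ℤ) * of (k * h)) := by
          rw [hl'def, List.cons_append, lp_cons, lp_append, lp_single, ← mul_assoc]
        have hvu : (t : HNNExtension G A B φ) ^ (v : ℤ) = (t ^ (u : ℤ))⁻¹ := by
          rw [huv, Units.val_neg, zpow_neg]
        have e2 : lp φ l' = t ^ (u : ℤ) * (of g1 * lp φ l1 * of k') * (t ^ (u : ℤ))⁻¹ := by
          rw [e1, ← hk', hvu]
          group
        have hpow2 : (of g1 * lp φ l1 * of k') ^ n = 1 := by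
          rw [e2, conj_pow, mul_inv_eq_one, mul_eq_left] at hpow'
          exact hpow'
        have hlen1 : l1.length + 2 ≤ N := by
          simp at hlen
          omega
        have hl1 : Red A B l1 := by
          have h1 : Red A B ((u, g1) :: l1) := (List.isChain_append.1 hl).1
          exact (List.isChain_cons.1 h1).2
        have key : of g1 * lp φ l1 * of k' = 1 := by
          rcases List.eq_nil_or_concat l1 with rfl | ⟨l2, ⟨w, k2⟩, rfl⟩
          · rw [lp_nil, mul_one, ← map_mul] at hpow2 ⊢
            have h1 := ih 0 (by omega) (g1 * k') [] (by simp) List.isChain_nil n hn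
              (by rw [lp_nil, mul_one]; exact hpow2)
            rwa [lp_nil, mul_one] at h1
          · rw [List.concat_eq_append] at hl1 hlen1 hpow2 ⊢
            rw [mul_assoc, lp_mul_of] at hpow2 ⊢
            refine ih (l2.length + 1) ?_ g1 _ ?_ (red_mul_right hl1 _) n hn hpow2
            · simp at hlen1; omega
            · simp
        rw [e2, key, mul_one, mul_inv_cancel]

/-- HNN extensions of torsionfree groups are torsionfree. -/
theorem torsionfree (htf : TorsionfreeGroup G) : TorsionfreeGroup (HNNExtension G A B φ) := by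
  intro γ n hn hγ
  obtain ⟨h, l, hl, rfl⟩ := exists_word φ γ
  exact tf_aux φ htf l.length h l le_rfl hl n hn hγ

end HN

end Pool.Agent.Lib.MP_c052b4_al
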