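import Pool.Agent.Lib.MP_c052b4_al.Good

/-!
# The class in `K₀` of a finitely generated projective module
-/

set_option autoImplicit false
set_option linter.unusedSectionVars false

namespace Pool.Agent.Lib.MP_c052b4_al

open Matrix

universe u v w

variable {S : Type u} [Ring S]

/-- the class of a finitely generated projective module -/
noncomputable def kmod (S : Type u) [Ring S] (M : Type w) [AddCommGroup M] [Module S M]
    [Module.Finite S M] [Module.Projective S M] : KZero S :=
  KZero.cls (exists_idemMat (S := S) (M := M)).choose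

variable {M : Type v} [AddCommGroup M] [Module S M] [Module.Finite S M] [Module.Projective S M]
  {N : Type w} [AddCommGroup N] [Module S N] [Module.Finite S N] [Module.Projective S N]

theorem kmod_eq_kc {m : Type*} [Fintype m] {e : Matrix m m S} (he : e * e = e)
    (f : img e ≃ₗ[S] M) : kmod S M = KZero.kc e he := by
  obtain ⟨g⟩ := (exists_idemMat (S := S) (M := M)).choose_spec
  unfold kmod
  rw [KZero.cls_eq_kc]
  exact KZero.kc_eq_of_mvN _ he (MvN.of_equiv (IdemMat.idem _) he (g.trans f.symm))

theorem kmod_img {m : Type*} [Fintype m] {e : Matrix m m S} (he : e * e = e)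
    [Module.Projective S (img e)] : kmod S (img e) = KZero.kc e he :=
  kmod_eq_kc he (LinearEquiv.refl _ _)

theorem kmod_congr (f : M ≃ₗ[S] N) : kmod S M = kmod S N := by
  obtain ⟨p, ⟨g⟩⟩ := exists_idemMat (S := S) (M := M)
  rw [kmod_eq_kc p.idem g, kmod_eq_kc p.idem (g.trans f)]

theorem kmod_prod : kmod S (M × N) = kmod S M + kmod S N := by
  obtain ⟨p, ⟨f⟩⟩ := exists_idemMat (S := S) (M := M)
  obtain ⟨q, ⟨g⟩⟩ := exists_idemMat (S := S) (M := N)
  obtain ⟨θ⟩ := img_blocks_equiv p.idem q.idem
  rw [kmod_eq_kc (blocks_idem p.idem q.idem) (θ.trans (f.prodCongr g)),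
    KZero.kc_blocks p.idem q.idem, kmod_eq_kc p.idem f, kmod_eq_kc q.idem g]

theorem kmod_eq_zero [Subsingleton M] : kmod S M = 0 := by
  let f : (M × M) ≃ₗ[S] M :=
    LinearEquiv.ofLinearMap (LinearMap.fst S M M) (LinearMap.inl S M M)
      (by apply LinearMap.ext; intro x; exact Subsingleton.elim _ _)
      (by apply LinearMap.ext; intro x; exact Subsingleton.elim _ _)
  have h := kmod_congr f
  rw [kmod_prod] at h
  simpa using h

/-- additivity on short exact sequences -/
theorem kmod_exact {F : Type*} [AddCommGroup F] [Module S F] [Module.Finite S F]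
    [Module.Projective S F] (i : M →ₗ[S] F) (p : F →ₗ[S] N) (hi : Function.Injective i)
    (hp : Function.Surjective p) (h1 : ∀ x, p (i x) = 0) (h2 : ∀ y, p y = 0 → ∃ x, i x = y) :
    kmod S F = kmod S M + kmod S N := by
  obtain ⟨θ⟩ := split_equiv p hp
  have h3 : LinearMap.range i = LinearMap.ker p := by
    ext y
    rw [LinearMap.mem_range, LinearMap.mem_ker]
    constructor
    · rintro ⟨x, rfl⟩; exact h1 x
    · exact h2 y
  let e1 : M ≃ₗ[S] LinearMap.ker p :=
    (LinearEquiv.ofInjective i hi).trans (LinearEquiv.ofEq _ _ h3)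
  have h4 := kmod_congr ((e1.prodCongr (LinearEquiv.refl S N)).trans θ)
  rw [← h4, kmod_prod]

end Pool.Agent.Lib.MP_c052b4_al
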