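import Pool.Agent.Lib.MP_c052b4_al.OmegaDef

/-!
# The group `K₁` of a ring: the abelianization of the infinite general linear group
-/

set_option autoImplicit false
set_option linter.unusedSectionVars false

namespace Pool.Agent.Lib.MP_c052b4_al

open Matrix

universe u v w

section Units

variable {S : Type u} [Ring S] {m n l : Type*} [Fintype m] [Fintype n] [Fintype l]
  [DecidableEq m] [DecidableEq n] [DecidableEq l]

/-- The block diagonal matrix with blocks `A` and `B`. -/
def bl (A : (Matrix m m S)ˣ) (B : (Matrix n n S)ˣ) : (Matrix (m ⊕ n) (m ⊕ n) S)ˣ where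
  val := fromBlocks A 0 0 B
  inv := fromBlocks (A⁻¹ : (Matrix m m S)ˣ) 0 0 (B⁻¹ : (Matrix n n S)ˣ)
  val_inv := by simp [fromBlocks_multiply]
  inv_val := by simp [fromBlocks_multiply]

/-- Reindexing an invertible matrix. -/
def rU (σ : m ≃ n) (A : (Matrix m m S)ˣ) : (Matrix n n S)ˣ where
  val := Matrix.reindex σ σ A
  inv := Matrix.reindex σ σ (A⁻¹ : (Matrix m m S)ˣ)
  val_inv := by
    rw [Matrix.reindex_apply, Matrix.reindex_apply, Matrix.submatrix_mul_equiv, Units.mul_inv,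
      Matrix.submatrix_one_equiv]
  inv_val := by
    rw [Matrix.reindex_apply, Matrix.reindex_apply, Matrix.submatrix_mul_equiv, Units.inv_mul,
      Matrix.submatrix_one_equiv]

theorem coe_bl (A : (Matrix m m S)ˣ) (B : (Matrix n n S)ˣ) :
    ((bl A B : (Matrix (m ⊕ n) (m ⊕ n) S)ˣ) : Matrix (m ⊕ n) (m ⊕ n) S) = fromBlocks A 0 0 B := rfl

theorem coe_rU (σ : m ≃ n) (A : (Matrix m m S)ˣ) :
    ((rU σ A : (Matrix n n S)ˣ) : Matrix n n S) = (A : Matrix m m S).submatrix σ.symm σ.symm := rfl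

theorem bl_mul (A A' : (Matrix m m S)ˣ) (B B' : (Matrix n n S)ˣ) :
    bl (A * A') (B * B') = bl A B * bl A' B' := by
  apply Units.ext
  simp [coe_bl, fromBlocks_multiply]

theorem bl_one : bl (1 : (Matrix m m S)ˣ) (1 : (Matrix n n S)ˣ) = 1 := by
  apply Units.ext
  simp [coe_bl]

theorem rU_mul (σ : m ≃ n) (A A' : (Matrix m m S)ˣ) : rU σ (A * A') = rU σ A * rU σ A' := by
  apply Units.ext
  rw [Units.val_mul, coe_rU, coe_rU, coe_rU, Units.val_mul, Matrix.submatrix_mul_equiv]

theorem rU_one (σ : m ≃ n) : rU σ (1 : (Matrix m m S)ˣ) = 1 := by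
  apply Units.ext
  rw [coe_rU, Units.val_one, Matrix.submatrix_one_equiv, Units.val_one]

theorem rU_rU (σ : m ≃ n) (τ : n ≃ l) (A : (Matrix m m S)ˣ) :
    rU τ (rU σ A) = rU (σ.trans τ) A := rfl

/-- reindexing by a permutation is a conjugation -/
theorem exists_conj (σ : n ≃ n) : ∃ P : (Matrix n n S)ˣ, ∀ A : (Matrix n n S)ˣ,
    rU σ A = P * A * P⁻¹ := by
  let P : (Matrix n n S)ˣ :=
    { val := (1 : Matrix n n S).submatrix σ.symm id
      inv := (1 : Matrix n n S).submatrix id σ.symm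
      val_inv := by
        have := Matrix.submatrix_mul_equiv (1 : Matrix n n S) (1 : Matrix n n S) σ.symm
          (Equiv.refl n) σ.symm
        rw [Equiv.coe_refl] at this
        rw [this, Matrix.one_mul, Matrix.submatrix_one_equiv]
      inv_val := by
        have := Matrix.submatrix_mul_equiv (1 : Matrix n n S) (1 : Matrix n n S) id σ.symm id
        rw [this, Matrix.one_mul, Matrix.submatrix_id_id] }
  refine ⟨P, fun A => ?_⟩
  rw [eq_mul_inv_iff_mul_eq]
  apply Units.ext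
  rw [Units.val_mul, Units.val_mul, coe_rU]
  change _ * (1 : Matrix n n S).submatrix σ.symm id = (1 : Matrix n n S).submatrix σ.symm id * _
  rw [Matrix.submatrix_mul_equiv (A : Matrix n n S) (1 : Matrix n n S) σ.symm σ.symm id,
    Matrix.mul_one]
  have h := Matrix.submatrix_mul_equiv (1 : Matrix n n S) (A : Matrix n n S) σ.symm
    (Equiv.refl n) id
  rw [Equiv.coe_refl, Matrix.submatrix_id_id, Matrix.one_mul] at h
  rw [h]

end Units

/-- Stabilization `GL_k(S) → GL_{k+1}(S)`, `A ↦ A ⊕ 1`. -/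
def stabHom (S : Type u) [Ring S] (k : ℕ) :
    (Matrix (Fin k) (Fin k) S)ˣ →* (Matrix (Fin (k + 1)) (Fin (k + 1)) S)ˣ where
  toFun A := rU finSumFinEquiv (bl A (1 : (Matrix (Fin 1) (Fin 1) S)ˣ))
  map_one' := by rw [bl_one, rU_one]
  map_mul' A B := by
    rw [← rU_mul, ← bl_mul, mul_one]

/-- The infinite general linear group `GL(S)`, the union of the groups `GL_k(S)`. -/
def GLinf (S : Type u) [Ring S] : Type u := Omega.Lim (stabHom S)

noncomputable instance instGLinf (S : Type u) [Ring S] : Group (GLinf S) :=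
  inferInstanceAs (Group (Omega.Lim (stabHom S)))

/-- The map `GL_k(S) → GL(S)`. -/
noncomputable def toGL (S : Type u) [Ring S] (k : ℕ) : (Matrix (Fin k) (Fin k) S)ˣ →* GLinf S :=
  Omega.toLim (stabHom S) k

/-- `K₁(S)`, the abelianization of `GL(S)`. -/
def KOne (S : Type u) [Ring S] : Type u := Additive (Abelianization (GLinf S))

noncomputable instance instKOne (S : Type u) [Ring S] : AddCommGroup (KOne S) :=
  inferInstanceAs (AddCommGroup (Additive (Abelianization (GLinf S))))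

/-- The class in `K₁(S)` of an element of `GL(S)`. -/
noncomputable def clGL (S : Type u) [Ring S] : GLinf S →* Multiplicative (KOne S) :=
  Abelianization.of

/-- The class in `K₁(S)` of an element of `GL_k(S)`. -/
noncomputable def kf {S : Type u} [Ring S] (k : ℕ) (A : (Matrix (Fin k) (Fin k) S)ˣ) : KOne S :=
  Multiplicative.toAdd (clGL S (toGL S k A))

section Kf

variable {S : Type u} [Ring S]

theorem kf_mul (k : ℕ) (A B : (Matrix (Fin k) (Fin k) S)ˣ) : kf k (A * B) = kf k A + kf k B := by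
  unfold kf
  rw [map_mul, map_mul, toAdd_mul]

theorem kf_one (k : ℕ) : kf k (1 : (Matrix (Fin k) (Fin k) S)ˣ) = 0 := by
  unfold kf
  rw [map_one, map_one, toAdd_one]

theorem kf_stab (k : ℕ) (A : (Matrix (Fin k) (Fin k) S)ˣ) :
    kf (k + 1) (stabHom S k A) = kf k A := by
  unfold kf
  have h := Omega.toLim_tr (stabHom S) k (k + 1) (Nat.le_succ k) A
  rw [Omega.tr_succ _ k k le_rfl, Omega.tr_self] at h
  exact congrArg (fun x => Multiplicative.toAdd (clGL S x)) h

theorem kf_conj (k : ℕ) (P A : (Matrix (Fin k) (Fin k) S)ˣ) : kf k (P * A * P⁻¹) = kf k A := by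
  have h : kf k P + kf k P⁻¹ = 0 := by rw [← kf_mul, mul_inv_cancel, kf_one]
  rw [kf_mul, kf_mul, add_right_comm, h, zero_add]

/-- The class in `K₁(S)` of an invertible matrix with arbitrary finite index type. -/
noncomputable def k1 {n : Type*} [Fintype n] [DecidableEq n] (A : (Matrix n n S)ˣ) : KOne S :=
  kf (Fintype.card n) (rU (Fintype.equivFin n) A)

variable {m n l : Type*} [Fintype m] [Fintype n] [Fintype l]
  [DecidableEq m] [DecidableEq n] [DecidableEq l]

theorem k1_eq {k : ℕ} (e : n ≃ Fin k) (A : (Matrix n n S)ˣ) : k1 A = kf k (rU e A) := by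
  obtain rfl : k = Fintype.card n := by simpa using (Fintype.card_congr e).symm
  obtain ⟨P, hP⟩ := exists_conj (S := S) ((Fintype.equivFin n).symm.trans e)
  have h1 := hP (rU (Fintype.equivFin n) A)
  rw [rU_rU] at h1
  have h2 : (Fintype.equivFin n).trans ((Fintype.equivFin n).symm.trans e) = e := by
    ext x; simp
  rw [h2] at h1
  rw [h1, kf_conj]
  rfl

theorem k1_fin {k : ℕ} (A : (Matrix (Fin k) (Fin k) S)ˣ) : k1 A = kf k A :=
  k1_eq (Equiv.refl _) A

theorem k1_mul (A B : (Matrix n n S)ˣ) : k1 (A * B) = k1 A + k1 B := by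
  unfold k1
  rw [rU_mul, kf_mul]

theorem k1_one : k1 (1 : (Matrix n n S)ˣ) = 0 := by
  unfold k1
  rw [rU_one, kf_one]

theorem k1_inv (A : (Matrix n n S)ˣ) : k1 A⁻¹ = - k1 A := by
  rw [eq_neg_iff_add_eq_zero, ← k1_mul, inv_mul_cancel, k1_one]

theorem k1_rU (σ : m ≃ n) (A : (Matrix m m S)ˣ) : k1 (rU σ A) = k1 A := by
  rw [k1_eq (Fintype.equivFin n), rU_rU, ← k1_eq]

theorem k1_bl_one_fin1 (A : (Matrix n n S)ˣ) :
    k1 (bl A (1 : (Matrix (Fin 1) (Fin 1) S)ˣ)) = k1 A := by
  let e := Fintype.equivFin n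
  have h : rU (Equiv.sumCongr e (Equiv.refl (Fin 1))) (bl A (1 : (Matrix (Fin 1) (Fin 1) S)ˣ)) =
      bl (rU e A) 1 := by
    apply Units.ext
    rw [coe_rU, coe_bl, coe_bl, coe_rU]
    ext i j
    rcases i with i | i <;> rcases j with j | j <;> simp [Matrix.one_apply]
  calc k1 (bl A (1 : (Matrix (Fin 1) (Fin 1) S)ˣ))
      = kf (Fintype.card n + 1) (rU ((Equiv.sumCongr e (Equiv.refl (Fin 1))).trans finSumFinEquiv)
          (bl A 1)) := k1_eq _ _
    _ = kf (Fintype.card n + 1) (rU finSumFinEquiv (bl (rU e A) 1)) := by rw [← rU_rU, h]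
    _ = kf (Fintype.card n + 1) (stabHom S _ (rU e A)) := rfl
    _ = kf (Fintype.card n) (rU e A) := kf_stab _ _
    _ = k1 A := rfl

theorem k1_bl_one_fin (A : (Matrix n n S)ˣ) (k : ℕ) :
    k1 (bl A (1 : (Matrix (Fin k) (Fin k) S)ˣ)) = k1 A := by
  induction k with
  | zero =>
    rw [← k1_rU (Equiv.sumEmpty n (Fin 0))]
    congr 1
  | succ k ih =>
    rw [← ih, ← k1_bl_one_fin1 (bl A (1 : (Matrix (Fin k) (Fin k) S)ˣ))]
    let σ : n ⊕ Fin (k + 1) ≃ (n ⊕ Fin k) ⊕ Fin 1 :=
      (Equiv.sumCongr (Equiv.refl n) finSumFinEquiv.symm).trans (Equiv.sumAssoc _ _ _).symm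
    rw [← k1_rU σ]
    congr 1
    apply Units.ext
    rw [coe_rU, coe_bl, coe_bl, coe_bl]
    ext i j
    rcases i with (i | i) | i <;> rcases j with (j | j) | j <;>
      simp [σ, Matrix.one_apply] <;>
      (intro h; exfalso; have h' := congrArg Fin.val h; simp at h'; omega)

theorem k1_bl_one (A : (Matrix n n S)ˣ) : k1 (bl A (1 : (Matrix m m S)ˣ)) = k1 A := by
  rw [← k1_bl_one_fin A (Fintype.card m),
    ← k1_rU (Equiv.sumCongr (Equiv.refl n) (Fintype.equivFin m))]
  congr 1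
  apply Units.ext
  rw [coe_rU, coe_bl, coe_bl]
  ext i j
  rcases i with i | i <;> rcases j with j | j <;> simp [Matrix.one_apply]

theorem k1_one_bl (A : (Matrix n n S)ˣ) : k1 (bl (1 : (Matrix m m S)ˣ) A) = k1 A := by
  rw [← k1_bl_one (m := m) A, ← k1_rU (Equiv.sumComm n m)]
  congr 1
  apply Units.ext
  rw [coe_rU, coe_bl, coe_bl]
  ext i j
  rcases i with i | i <;> rcases j with j | j <;> simp

theorem k1_bl (A : (Matrix n n S)ˣ) (B : (Matrix m m S)ˣ) : k1 (bl A B) = k1 A + k1 B := by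
  have h : bl A B = bl A 1 * bl 1 B := by rw [← bl_mul, mul_one, one_mul]
  rw [h, k1_mul, k1_bl_one, k1_one_bl]

end Kf

end Pool.Agent.Lib.MP_c052b4_al
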