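import Pool.Agent.Lib.MP_c052b4_al.KOneTrans
import Pool.Agent.Lib.MP_c052b4_al.Kernel

/-!
# The kernel lemma for `K₁`
-/

set_option autoImplicit false
set_option linter.unusedSectionVars false

namespace Pool.Agent.Lib.MP_c052b4_al.Kern

open Matrix

universe u v w

section List

variable {T : Type u} [Ring T] {p : Type*} [Fintype p] [DecidableEq p]

/-- upper or lower unitriangular -/
def IsEl (M : Matrix (p ⊕ p) (p ⊕ p) T) : Prop :=
  (∃ X : Matrix p p T, M = fromBlocks 1 X 0 1) ∨ ∃ X : Matrix p p T, M = fromBlocks 1 0 X 1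

theorem exists_list_of_el_aux {U : (Matrix (p ⊕ p) (p ⊕ p) T)ˣ} (hU : U ∈ El p T) :
    (∃ l : List (Matrix (p ⊕ p) (p ⊕ p) T), (∀ M ∈ l, IsEl M) ∧ l.prod = U) ∧
    ∃ l : List (Matrix (p ⊕ p) (p ⊕ p) T), (∀ M ∈ l, IsEl M) ∧
      l.prod = (U⁻¹ : (Matrix (p ⊕ p) (p ⊕ p) T)ˣ) := by
  induction hU using Subgroup.closure_induction with
  | mem U hU =>
    rcases hU with ⟨X, rfl⟩ | ⟨X, rfl⟩
    · refine ⟨⟨[uU X], ?_, by simp⟩, ⟨[((uU X)⁻¹ : (Matrix (p ⊕ p) (p ⊕ p) T)ˣ)], ?_, by simp⟩⟩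
      · intro M hM
        rw [List.mem_singleton] at hM
        exact Or.inl ⟨X, hM⟩
      · intro M hM
        rw [List.mem_singleton] at hM
        exact Or.inl ⟨-X, hM⟩
    · refine ⟨⟨[lU X], ?_, by simp⟩, ⟨[((lU X)⁻¹ : (Matrix (p ⊕ p) (p ⊕ p) T)ˣ)], ?_, by simp⟩⟩
      · intro M hM
        rw [List.mem_singleton] at hM
        exact Or.inr ⟨X, hM⟩
      · intro M hM
        rw [List.mem_singleton] at hM
        exact Or.inr ⟨-X, hM⟩
  | one => exact ⟨⟨[], by simp, by simp⟩, ⟨[], by simp, by simp⟩⟩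
  | mul U V _ _ hU hV =>
    obtain ⟨⟨l, hl, hl'⟩, ⟨k, hk, hk'⟩⟩ := hU
    obtain ⟨⟨l2, hl2, hl2'⟩, ⟨k2, hk2, hk2'⟩⟩ := hV
    refine ⟨⟨l ++ l2, ?_, ?_⟩, ⟨k2 ++ k, ?_, ?_⟩⟩
    · intro M hM
      rcases List.mem_append.1 hM with h | h
      · exact hl M h
      · exact hl2 M h
    · rw [List.prod_append, hl', hl2', Units.val_mul]
    · intro M hM
      rcases List.mem_append.1 hM with h | h
      · exact hk2 M h
      · exact hk M h
    · rw [List.prod_append, hk', hk2', _root_.mul_inv_rev, Units.val_mul]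
  | inv U _ hU => exact ⟨hU.2, by rw [inv_inv]; exact hU.1⟩

theorem exists_list_of_el {U : (Matrix (p ⊕ p) (p ⊕ p) T)ˣ} (hU : U ∈ El p T) :
    ∃ l : List (Matrix (p ⊕ p) (p ⊕ p) T), (∀ M ∈ l, IsEl M) ∧ l.prod = U :=
  (exists_list_of_el_aux hU).1

end List

section Blocks

variable {S : Type u} [Ring S] {m n : Type*} [Fintype m] [Fintype n] [DecidableEq m]
  [DecidableEq n]

theorem exists_bl {V : (Matrix (m ⊕ n) (m ⊕ n) S)ˣ} {A : Matrix m m S} {D : Matrix n n S}
    (h : (V : Matrix (m ⊕ n) (m ⊕ n) S) = fromBlocks A 0 0 D) :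
    ∃ (A' : (Matrix m m S)ˣ) (D' : (Matrix n n S)ˣ), (A' : Matrix m m S) = A ∧
      (D' : Matrix n n S) = D ∧ V = bl A' D' := by
  have h1 : (V : Matrix (m ⊕ n) (m ⊕ n) S) * (V⁻¹ : (Matrix (m ⊕ n) (m ⊕ n) S)ˣ) = 1 :=
    V.mul_inv
  have h2 : ((V⁻¹ : (Matrix (m ⊕ n) (m ⊕ n) S)ˣ) : Matrix (m ⊕ n) (m ⊕ n) S) * V = 1 :=
    V.inv_mul
  obtain ⟨P, Q, Q', T, hV⟩ : ∃ P Q Q' T,
      ((V⁻¹ : (Matrix (m ⊕ n) (m ⊕ n) S)ˣ) : Matrix (m ⊕ n) (m ⊕ n) S) = fromBlocks P Q Q' T :=
    ⟨_, _, _, _, (fromBlocks_toBlocks _).symm⟩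
  rw [h, hV, fromBlocks_multiply, ← fromBlocks_one, fromBlocks_inj] at h1
  rw [h, hV, fromBlocks_multiply, ← fromBlocks_one, fromBlocks_inj] at h2
  simp only [Matrix.zero_mul, Matrix.mul_zero, add_zero, zero_add] at h1 h2
  let A' : (Matrix m m S)ˣ := ⟨A, P, h1.1, h2.1⟩
  let D' : (Matrix n n S)ˣ := ⟨D, T, h1.2.2.2, h2.2.2.2⟩
  exact ⟨A', D', rfl, rfl, Units.ext h⟩

end Blocks

section Proj

variable {R : Type u} [Ring R] {G : Type v} [Group G] (C : Subgroup G)

/-- the projection of `R[G]` onto `R[C]` -/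
noncomputable def prC (a : MonoidAlgebra R G) : MonoidAlgebra R C :=
  MonoidAlgebra.comapDomain (Subtype.val : C → G) Subtype.val_injective a

theorem coeff_prC (a : MonoidAlgebra R G) (c : C) : (prC C a).coeff c = a.coeff (c : G) := rfl

theorem prC_add (a b : MonoidAlgebra R G) : prC C (a + b) = prC C a + prC C b := by
  ext c; simp [coeff_prC]

theorem prC_zero : prC C (0 : MonoidAlgebra R G) = 0 := by
  ext c; simp [coeff_prC]

theorem prC_sum {ι : Type*} (s : Finset ι) (a : ι → MonoidAlgebra R G) :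
    prC C (∑ i ∈ s, a i) = ∑ i ∈ s, prC C (a i) := by
  classical
  induction s using Finset.induction_on with
  | empty => simp [prC_zero]
  | insert x s hx ih => rw [Finset.sum_insert hx, prC_add, ih, Finset.sum_insert hx]

theorem prC_inc_mul (s : MonoidAlgebra R C) (a : MonoidAlgebra R G) :
    prC C (inc R C.subtype s * a) = s * prC C a := by
  induction s using MonoidAlgebra.induction_linear with
  | zero => simp [prC_zero]
  | add s s' hs hs' => rw [map_add, add_mul, prC_add, hs, hs', add_mul]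
  | single h0 r =>
    ext h
    rw [coeff_prC]
    simp only [MonoidAlgebra.mapDomainRingHom_apply,
      MonoidAlgebra.mapDomain_single, MonoidAlgebra.coeff_single_mul_apply, coeff_prC,
      Subgroup.coe_mul, Subgroup.coe_inv, Subgroup.coe_subtype]

theorem prC_mul_inc (s : MonoidAlgebra R C) (a : MonoidAlgebra R G) :
    prC C (a * inc R C.subtype s) = prC C a * s := by
  induction s using MonoidAlgebra.induction_linear with
  | zero => simp [prC_zero]
  | add s s' hs hs' => rw [map_add, mul_add, prC_add, hs, hs', mul_add]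
  | single h0 r =>
    ext h
    rw [coeff_prC]
    simp only [MonoidAlgebra.mapDomainRingHom_apply,
      MonoidAlgebra.mapDomain_single, MonoidAlgebra.coeff_mul_single_apply, coeff_prC,
      Subgroup.coe_mul, Subgroup.coe_inv, Subgroup.coe_subtype]

theorem inc_prC {a : MonoidAlgebra R G} (h : Sup (C : Set G) a) : inc R C.subtype (prC C a) = a := by
  ext g
  by_cases hg : g ∈ C
  · have := coeff_inc (R := R) C.subtype C.subtype_injective (prC C a) ⟨g, hg⟩
    exact this
  · rw [h g hg]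
    refine sup_inc C.subtype _ g ?_
    rintro ⟨c, rfl⟩
    exact hg c.2

theorem prC_one : prC C (1 : MonoidAlgebra R G) = 1 := by
  have h := prC_inc_mul C (1 : MonoidAlgebra R C) 1
  rw [map_one, one_mul, one_mul] at h
  have h1 : inc R C.subtype (1 : MonoidAlgebra R C) = 1 := map_one _
  ext c
  rw [coeff_prC, ← h1]
  exact coeff_inc (R := R) C.subtype C.subtype_injective 1 c

variable {p : Type*} [Fintype p] [DecidableEq p]

/-- An invertible matrix over `R[G]` with entries in `R[C]` is invertible over `R[C]`. -/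
theorem exists_over_C (D : (Matrix p p (MonoidAlgebra R G))ˣ)
    (h : SupM (C : Set G) (D : Matrix p p (MonoidAlgebra R G))) :
    ∃ D0 : (Matrix p p (MonoidAlgebra R C))ˣ, mU (inc R C.subtype) D0 = D := by
  let D1 : Matrix p p (MonoidAlgebra R C) := (D : Matrix p p (MonoidAlgebra R G)).map (prC C)
  let T : Matrix p p (MonoidAlgebra R G) := ((D⁻¹ : (Matrix p p (MonoidAlgebra R G))ˣ) : Matrix _ _ _)
  have hDT : (D : Matrix p p (MonoidAlgebra R G)) * T = 1 := D.mul_inv
  have hTD : T * (D : Matrix p p (MonoidAlgebra R G)) = 1 := D.inv_mul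
  have hD : ∀ x y, inc R C.subtype (D1 x y) = (D : Matrix p p (MonoidAlgebra R G)) x y :=
    fun x y => inc_prC C (h x y)
  let D0 : (Matrix p p (MonoidAlgebra R C))ˣ :=
    { val := D1
      inv := T.map (prC C)
      val_inv := by
        ext1 x y
        have h1 : (D1 * T.map (prC C)) x y =
            prC C (((D : Matrix p p (MonoidAlgebra R G)) * T) x y) := by
          simp only [Matrix.mul_apply, Matrix.map_apply, prC_sum]
          refine Finset.sum_congr rfl fun z _ => ?_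
          rw [← hD x z, prC_inc_mul]
        rw [h1, hDT, Matrix.one_apply, Matrix.one_apply]
        split_ifs
        · exact prC_one C
        · exact prC_zero C
      inv_val := by
        ext1 x y
        have h1 : (T.map (prC C) * D1) x y =
            prC C ((T * (D : Matrix p p (MonoidAlgebra R G))) x y) := by
          simp only [Matrix.mul_apply, Matrix.map_apply, prC_sum]
          refine Finset.sum_congr rfl fun z _ => ?_
          rw [← hD z y, prC_mul_inc]
        rw [h1, hTD, Matrix.one_apply, Matrix.one_apply]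
        split_ifs
        · exact prC_one C
        · exact prC_zero C }
  refine ⟨D0, ?_⟩
  apply Units.ext
  ext1 x y
  exact hD x y

end Proj

section Main

variable {R : Type u} [Ring R] {G : Type v} {Γ : Type w} [Group G] [Group Γ] {ι : G →* Γ}
  {n : Type*} [Fintype n] [DecidableEq n]

/-- the support of a matrix -/
noncomputable def msupp (M : Matrix n n (MonoidAlgebra R Γ)) : Finset Γ := by
  classical
  exact Finset.univ.biUnion fun i => Finset.univ.biUnion fun k => (M i k).coeff.support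

/-- the set of products of supports -/
noncomputable def pre : List (Matrix n n (MonoidAlgebra R Γ)) → Finset Γ
  | [] => {1}
  | M :: l => by
    classical
    exact insert 1 ((msupp M ×ˢ pre l).image fun z => z.1 * z.2)

theorem pref_pre : Pref (fun l : List (Matrix n n (MonoidAlgebra R Γ)) => (pre l : Set Γ)) := by
  classical
  constructor
  · intro l
    cases l with
    | nil => simp [pre]
    | cons M l => simp [pre]
  · intro M l i k γ hγ δ hδ
    have h1 : γ ∈ msupp M := by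
      simp only [msupp, Finset.mem_biUnion, Finset.mem_univ, true_and, Finsupp.mem_support_iff]
      exact ⟨i, k, hγ⟩
    have h2 : γ * δ ∈ (pre (M :: l) : Finset Γ) := by
      rw [pre]
      exact Finset.mem_insert_of_mem (Finset.mem_image.2 ⟨(γ, δ), Finset.mem_product.2 ⟨h1, hδ⟩, rfl⟩)
    exact h2

variable (hs : HalfSpaces ι)

/-- the cofinite set -/
def WW (P : Finset Γ) : Set Γ :=
  {γ | ∃ (g : G) (d : Γ), (d = 1 ∨ ∃ i, d ∈ hs.Y P i) ∧ ∃ p ∈ P, γ = ι g * d * p}

theorem WW_left (P : Finset Γ) (g : G) {γ : Γ} (h : γ ∈ WW hs P) : ι g * γ ∈ WW hs P := by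
  obtain ⟨g', d, hd, p, hp, rfl⟩ := h
  exact ⟨g * g', d, hd, p, hp, by rw [map_mul]; group⟩

theorem WW_one {P : Finset Γ} {p : Γ} (hp : p ∈ P) : p ∈ WW hs P :=
  ⟨1, 1, Or.inl rfl, p, hp, by simp⟩

theorem WW_Y {P : Finset Γ} {p d : Γ} (hp : p ∈ P) {i : Bool} (hd : d ∈ hs.Y P i) :
    d * p ∈ WW hs P :=
  ⟨1, d, Or.inr ⟨i, hd⟩, p, hp, by simp⟩

theorem WW_cofinite (hι : Function.Injective ι) (P : Finset Γ) :
    ∃ T : Finset Γ, ∀ γ ∈ WW hs P, ∃ τ ∈ T, ∃ h, γ = ι h * τ := by
  classical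
  have E := fun i => (hs.exists_transY hι P i).some
  refine ⟨P ∪ (Finset.univ.biUnion fun i => ((Finset.univ.image (E i).t) ×ˢ P).image
    fun z => z.1 * z.2), ?_⟩
  rintro γ ⟨g, d, hd | ⟨i, hd⟩, p, hp, rfl⟩
  · subst hd
    exact ⟨p, Finset.mem_union_left _ hp, g, by simp⟩
  · obtain ⟨s, c, hc⟩ := (E i).cover d hd
    refine ⟨(E i).t s * p, ?_, g * c, ?_⟩
    · refine Finset.mem_union_right _ (Finset.mem_biUnion.2 ⟨i, Finset.mem_univ _, ?_⟩)
      exact Finset.mem_image.2 ⟨((E i).t s, p), Finset.mem_product.2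
        ⟨Finset.mem_image.2 ⟨s, Finset.mem_univ _, rfl⟩, hp⟩, rfl⟩
    · rw [map_mul, hc]
      change ι g * (ι (c : G) * (E i).t s) * p = _
      group

theorem XW_trans (hι : Function.Injective ι) (P : Finset Γ) (i : Bool) :
    Nonempty (Trans (ι.comp (hs.C i).subtype) (hs.X i ∩ WW hs P)) := by
  classical
  obtain ⟨T, hT⟩ := WW_cofinite hs hι P
  have hj : Function.Injective (ι.comp (hs.C i).subtype) :=
    hι.comp (hs.C i).subtype_injective
  refine exists_trans _ hj (T.image fun τ => if h : ∃ g, ι g * τ ∈ hs.X i then ι h.choose * τ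
    else 1) _ ?_ ?_
  · rintro c γ ⟨h1, h2⟩
    exact ⟨hs.left i c c.2 γ h1, WW_left hs P c h2⟩
  · rintro γ ⟨h1, h2⟩
    obtain ⟨τ, hτ, g, rfl⟩ := hT γ h2
    have hex : ∃ g, ι g * τ ∈ hs.X i := ⟨g, h1⟩
    refine ⟨ι hex.choose * τ, Finset.mem_image.2 ⟨τ, hτ, dif_pos hex⟩, ?_⟩
    have h3 : ι (g * hex.choose⁻¹) * (ι hex.choose * τ) ∈ hs.X i := by
      rw [map_mul, map_inv]
      have : ι g * (ι hex.choose)⁻¹ * (ι hex.choose * τ) = ι g * τ := by group
      rw [this]; exact h1
    have h4 := (hs.disj i i _ _ hex.choose_spec h3).2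
    refine ⟨⟨_, h4⟩, ?_⟩
    change ι g * τ = ι (g * hex.choose⁻¹) * (ι hex.choose * τ)
    rw [map_mul, map_inv]
    group

end Main

end Pool.Agent.Lib.MP_c052b4_al.Kern
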