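import Pool.Agent.Lib.MP_c052b4_al.KOneDef

/-!
# Functoriality of `K₁`
-/

set_option autoImplicit false
set_option linter.unusedSectionVars false

namespace Pool.Agent.Lib.MP_c052b4_al

open Matrix

universe u v w

section Lift

namespace Omega

variable {G : ℕ → Type v} [∀ k, Group (G k)] (f : ∀ k, G k →* G (k + 1))

/-- homomorphisms out of a union -/
def lift {H : Type w} [Group H] (g : ∀ k, G k →* H) (hg : ∀ k x, g (k + 1) (f k x) = g k x) :
    Lim f →* H where
  toFun := DirectLimit.lift (tr f) (fun k => (g k : G k → H)) (by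
    intro i j h x
    induction j, h using Nat.le_induction with
    | base => rw [tr_self]; rfl
    | succ k hk ih =>
      rw [tr_succ f i k hk]
      exact ih.trans (hg k _).symm)
  map_one' := by
    rw [DirectLimit.one_def 0, DirectLimit.lift_def, map_one]
  map_mul' x y := by
    refine DirectLimit.induction₂ (tr f) (fun i x y => ?_) x y
    rw [DirectLimit.mul_def, DirectLimit.lift_def, DirectLimit.lift_def, DirectLimit.lift_def,
      map_mul]

theorem lift_toLim {H : Type w} [Group H] (g : ∀ k, G k →* H)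
    (hg : ∀ k x, g (k + 1) (f k x) = g k x) (k : ℕ) (x : G k) :
    lift f g hg (toLim f k x) = g k x := rfl

end Omega

end Lift

section Map

variable {S : Type u} {T : Type v} [Ring S] [Ring T] (φ : S →+* T)
  {m n : Type*} [Fintype m] [Fintype n] [DecidableEq m] [DecidableEq n]

/-- applying a ring homomorphism to an invertible matrix -/
def mU : (Matrix n n S)ˣ →* (Matrix n n T)ˣ := Units.map (φ.mapMatrix : Matrix n n S →+* _)

theorem coe_mU (A : (Matrix n n S)ˣ) :
    ((mU φ A : (Matrix n n T)ˣ) : Matrix n n T) = (A : Matrix n n S).map φ := rfl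

theorem mU_bl (A : (Matrix m m S)ˣ) (B : (Matrix n n S)ˣ) :
    mU φ (bl A B) = bl (mU φ A) (mU φ B) := by
  apply Units.ext
  rw [coe_mU, coe_bl, coe_bl, Matrix.fromBlocks_map]
  simp [coe_mU]

theorem mU_rU (σ : m ≃ n) (A : (Matrix m m S)ˣ) : mU φ (rU σ A) = rU σ (mU φ A) := rfl

theorem mU_stab (k : ℕ) (A : (Matrix (Fin k) (Fin k) S)ˣ) :
    mU φ (stabHom S k A) = stabHom T k (mU φ A) := by
  change mU φ (rU finSumFinEquiv (bl A 1)) = rU finSumFinEquiv (bl (mU φ A) 1)
  rw [mU_rU, mU_bl, map_one]

/-- The map `GL(S) → GL(T)`. -/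
noncomputable def GLinf.map : GLinf S →* GLinf T :=
  Omega.lift (stabHom S) (fun k => (toGL T k).comp (mU φ)) (by
    intro k A
    rw [MonoidHom.comp_apply, MonoidHom.comp_apply, mU_stab]
    have h := Omega.toLim_tr (stabHom T) k (k + 1) (Nat.le_succ k) (mU φ A)
    rw [Omega.tr_succ _ k k le_rfl, Omega.tr_self] at h
    exact h)

/-- The homomorphism from `K₁(S)` induced by a homomorphism from `GL(S)` to an abelian group. -/
noncomputable def KOne.desc {A : Type w} [AddCommGroup A] (f : GLinf S →* Multiplicative A) :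
    KOne S →+ A :=
  MonoidHom.toAdditiveLeft (Abelianization.lift f)

/-- The homomorphism `K₁(S) → K₁(T)` induced by a ring homomorphism `S → T`. -/
noncomputable def KOne.map : KOne S →+ KOne T := KOne.desc ((clGL T).comp (GLinf.map φ))

end Map

end Pool.Agent.Lib.MP_c052b4_al
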