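import Pool.Agent.Lib.MP_c052b4_al.KOneCalc
import Pool.Agent.Lib.MP_c052b4_al.Trans

/-!
# Truncation of matrices to a cofinite set
-/

set_option autoImplicit false
set_option linter.unusedSectionVars false

namespace Pool.Agent.Lib.MP_c052b4_al.Kern

open Matrix

universe u v w

section Transv

variable {S : Type u} [Ring S] {N : Type*} [Fintype N] [DecidableEq N]

/-- Matrices which are unitriangular with respect to a splitting of the index set. -/
theorem exists_transv (A : Matrix N N S) (p : N → Prop) [DecidablePred p]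
    (h : ∀ x y, ¬ (p x ∧ ¬ p y) → A x y = (1 : Matrix N N S) x y) :
    ∃ U : (Matrix N N S)ˣ, (U : Matrix N N S) = A ∧ k1 U = 0 := by
  let σ : N ≃ {x // p x} ⊕ {x // ¬ p x} := (Equiv.sumCompl p).symm
  let X : Matrix {x // p x} {x // ¬ p x} S := Matrix.of fun x y => A x y
  refine ⟨rU σ.symm (uU X), ?_, ?_⟩
  · rw [coe_rU, coe_uU]
    ext x y
    simp only [Matrix.submatrix_apply, Equiv.symm_symm]
    by_cases hx : p x
    · have h1 : σ x = Sum.inl ⟨x, hx⟩ := Equiv.sumCompl_symm_apply_of_pos hx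
      by_cases hy : p y
      · have h2 : σ y = Sum.inl ⟨y, hy⟩ := Equiv.sumCompl_symm_apply_of_pos hy
        rw [h1, h2, h x y (fun h' => h'.2 hy)]
        simp [Matrix.one_apply]
      · have h2 : σ y = Sum.inr ⟨y, hy⟩ := Equiv.sumCompl_symm_apply_of_neg hy
        rw [h1, h2]
        rfl
    · have h1 : σ x = Sum.inr ⟨x, hx⟩ := Equiv.sumCompl_symm_apply_of_neg hx
      by_cases hy : p y
      · have h2 : σ y = Sum.inl ⟨y, hy⟩ := Equiv.sumCompl_symm_apply_of_pos hy
        rw [h1, h2, h x y (fun h' => hx h'.1)]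
        have h3 : x ≠ y := by rintro rfl; exact hx hy
        simp [h3]
      · have h2 : σ y = Sum.inr ⟨y, hy⟩ := Equiv.sumCompl_symm_apply_of_neg hy
        rw [h1, h2, h x y (fun h' => hx h'.1)]
        simp [Matrix.one_apply]
  · rw [k1_rU, k1_uU]

end Transv

variable {R : Type u} [Ring R] {Γ : Type v} [Group Γ] {H : Type w} [Group H]
  {S : Type*} [Fintype S] [DecidableEq S] {n : Type*}

/-- `t` is a transversal for the action of `H` on the invariant set `Z`. -/
structure TrI (j : H →* Γ) (t : S → Γ) (Z : Set Γ) : Prop where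
  mem : ∀ s h, j h * t s ∈ Z
  cover : ∀ z ∈ Z, ∃ s h, z = j h * t s
  inj : ∀ s s' h h', j h * t s = j h' * t s' → s = s' ∧ h = h'

/-- vectors over the big group ring from coordinates -/
noncomputable def thI (j : H →* Γ) (t : S → Γ) (v : S × n → MonoidAlgebra R H) :
    n → MonoidAlgebra R Γ :=
  fun b => ∑ i, inc R j (v (i, b)) * MonoidAlgebra.single (t i) 1

variable {j : H →* Γ} {t : S → Γ} {Z : Set Γ} (E : TrI j t Z)

include E in
theorem TrI.injective_j (i : S) : Function.Injective j := by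
  intro h h' hh
  exact (E.inj i i h h' (by rw [hh])).2

include E in
theorem coeff_thI (v : S × n → MonoidAlgebra R H) (b : n) (i : S) (h : H) :
    (thI j t v b).coeff (j h * t i) = (v (i, b)).coeff h := by
  simp only [thI, MonoidAlgebra.coeff_sum, Finsupp.finsetSum_apply,
    MonoidAlgebra.coeff_mul_single_apply, mul_one]
  rw [Finset.sum_eq_single i]
  · rw [mul_inv_cancel_right, coeff_inc j (E.injective_j i)]
  · intro i' _ hi'
    apply sup_inc
    rintro ⟨h', hh'⟩
    have h1 : j h' * t i' = j h * t i := by rw [hh', inv_mul_cancel_right]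
    exact hi' (E.inj _ _ _ _ h1).1
  · intro h1; exact absurd (Finset.mem_univ _) h1

include E in
theorem supV_thI (v : S × n → MonoidAlgebra R H) : SupV Z (thI j t v) := by
  intro b
  refine Sup.sum fun i _ => (sup_inc j _).mul (sup_single (Set.mem_singleton _) 1) ?_
  rintro _ ⟨h, rfl⟩ _ rfl
  exact E.mem i h

/-- coordinates of a vector -/
noncomputable def kaI (a : n → MonoidAlgebra R Γ) : S × n → MonoidAlgebra R H :=
  fun x => MonoidAlgebra.comapDomain (fun h => j h * t x.1)
    (fun _ _ hh => (E.inj _ _ _ _ hh).2) (a x.2)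

theorem coeff_kaI (a : n → MonoidAlgebra R Γ) (i : S) (b : n) (h : H) :
    (kaI E a (i, b)).coeff h = (a b).coeff (j h * t i) := rfl

theorem kaI_add (a a' : n → MonoidAlgebra R Γ) : kaI E (a + a') = kaI E a + kaI E a' := by
  funext ⟨i, b⟩
  ext h
  rw [coeff_kaI]
  simp [coeff_kaI]

theorem kaI_zero : kaI E (0 : n → MonoidAlgebra R Γ) = 0 := by
  funext ⟨i, b⟩
  ext h
  rw [coeff_kaI]
  simp

theorem kaI_sum {ι : Type*} (s : Finset ι) (a : ι → n → MonoidAlgebra R Γ) :
    kaI E (∑ i ∈ s, a i) = ∑ i ∈ s, kaI E (a i) := by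
  classical
  induction s using Finset.induction_on with
  | empty => simp [kaI_zero]
  | insert x s hx ih => rw [Finset.sum_insert hx, kaI_add, ih, Finset.sum_insert hx]

theorem kaI_smul (s : MonoidAlgebra R H) (a : n → MonoidAlgebra R Γ) :
    kaI E (inc R j s • a) = s • kaI E a := by
  induction s using MonoidAlgebra.induction_linear with
  | zero => simp [kaI_zero]
  | add s s' hs hs' => rw [map_add, add_smul, kaI_add, hs, hs', add_smul]
  | single h0 r =>
    funext ⟨i, b⟩
    ext h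
    rw [coeff_kaI]
    simp only [Pi.smul_apply, smul_eq_mul, MonoidAlgebra.mapDomainRingHom_apply,
      MonoidAlgebra.mapDomain_single, MonoidAlgebra.coeff_single_mul_apply, coeff_kaI, map_mul,
      map_inv, mul_assoc]

theorem kaI_thI (v : S × n → MonoidAlgebra R H) : kaI E (thI j t v) = v := by
  funext ⟨i, b⟩
  ext h
  rw [coeff_kaI, coeff_thI E]

theorem kaI_congr {a a' : n → MonoidAlgebra R Γ}
    (h : ∀ b, ∀ γ ∈ Z, (a b).coeff γ = (a' b).coeff γ) : kaI E a = kaI E a' := by
  funext ⟨i, b⟩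
  ext x
  rw [coeff_kaI, coeff_kaI, h b _ (E.mem i x)]

theorem kaI_res (a : n → MonoidAlgebra R Γ) : kaI E (resV Z a) = kaI E a :=
  kaI_congr E fun _ _ hγ => coeff_res_of_mem hγ _

theorem thI_kaI {a : n → MonoidAlgebra R Γ} (ha : SupV Z a) : thI j t (kaI E a) = a := by
  funext b
  ext γ
  by_cases hγ : γ ∈ Z
  · obtain ⟨i, h, rfl⟩ := E.cover γ hγ
    rw [coeff_thI E, coeff_kaI]
  · rw [ha b γ hγ, supV_thI E _ b γ hγ]

variable [Fintype n] [DecidableEq n]

/-- truncation of a matrix -/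
noncomputable def trunc (M : Matrix n n (MonoidAlgebra R Γ)) :
    Matrix (S × n) (S × n) (MonoidAlgebra R H) :=
  fun x => kaI E fun b => MonoidAlgebra.single (t x.1) 1 * M x.2 b

theorem vecMul_trunc (M : Matrix n n (MonoidAlgebra R Γ)) (v : S × n → MonoidAlgebra R H) :
    v ᵥ* trunc E M = kaI E (thI j t v ᵥ* M) := by
  have h1 : v ᵥ* trunc E M = ∑ x, v x • trunc E M x := by
    funext y
    simp [Matrix.vecMul, dotProduct]
  have h2 : thI j t v ᵥ* M =
      ∑ x : S × n, inc R j (v x) • fun b => MonoidAlgebra.single (t x.1) 1 * M x.2 b := by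
    funext b
    simp only [Matrix.vecMul, dotProduct, thI, Finset.sum_mul, Finset.sum_apply, Pi.smul_apply,
      smul_eq_mul]
    rw [Fintype.sum_prod_type_right]
    simp only [mul_assoc]
  rw [h1, h2, kaI_sum]
  refine Finset.sum_congr rfl fun x _ => ?_
  rw [kaI_smul]
  rfl

theorem trunc_one : trunc E (1 : Matrix n n (MonoidAlgebra R Γ)) = 1 := by
  apply Matrix.ext_of_single_vecMul
  intro z
  rw [vecMul_trunc, Matrix.vecMul_one, kaI_thI, Matrix.vecMul_one]

theorem trunc_apply_congr {M M' : Matrix n n (MonoidAlgebra R Γ)} {x y : S × n}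
    (h : M x.2 y.2 = M' x.2 y.2) : trunc E M x y = trunc E M' x y := by
  have hinj : Function.Injective fun h => j h * t y.1 := fun _ _ hh => (E.inj _ _ _ _ hh).2
  change MonoidAlgebra.comapDomain _ hinj (MonoidAlgebra.single (t x.1) 1 * M x.2 y.2) =
    MonoidAlgebra.comapDomain _ hinj (MonoidAlgebra.single (t x.1) 1 * M' x.2 y.2)
  rw [h]

/-- truncations of unitriangular matrices -/
theorem exists_trunc_transv (M : Matrix n n (MonoidAlgebra R Γ)) (p : n → Prop) [DecidablePred p]
    (h : ∀ x y, ¬ (p x ∧ ¬ p y) → M x y = (1 : Matrix n n (MonoidAlgebra R Γ)) x y) :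
    ∃ U : (Matrix (S × n) (S × n) (MonoidAlgebra R H))ˣ,
      (U : Matrix (S × n) (S × n) (MonoidAlgebra R H)) = trunc E M ∧ k1 U = 0 := by
  refine exists_transv _ (fun x => p x.2) ?_
  intro x y hxy
  rw [trunc_apply_congr E (h x.2 y.2 hxy), trunc_one]

/-- iterated truncated multiplication -/
noncomputable def tau (W : Set Γ) :
    List (Matrix n n (MonoidAlgebra R Γ)) → (n → MonoidAlgebra R Γ) → (n → MonoidAlgebra R Γ)
  | [], a => a
  | M :: l, a => tau W l (resV W (a ᵥ* M))

theorem vecMul_prod_trunc (l : List (Matrix n n (MonoidAlgebra R Γ))) :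
    ∀ v : S × n → MonoidAlgebra R H, v ᵥ* (l.map (trunc E)).prod = kaI E (tau Z l (thI j t v)) := by
  induction l with
  | nil =>
    intro v
    simp [tau, kaI_thI]
  | cons M l ih =>
    intro v
    rw [List.map_cons, List.prod_cons, ← Matrix.vecMul_vecMul, ih, vecMul_trunc, tau,
      ← kaI_res E (thI j t v ᵥ* M), thI_kaI E (supV_resV _ _)]

theorem tau_add (W : Set Γ) (l : List (Matrix n n (MonoidAlgebra R Γ))) :
    ∀ a a' : n → MonoidAlgebra R Γ, tau W l (a + a') = tau W l a + tau W l a' := by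
  induction l with
  | nil => intro a a'; rfl
  | cons M l ih => intro a a'; rw [tau, tau, tau, Matrix.add_vecMul, resV_add, ih]

theorem tau_zero (W : Set Γ) (l : List (Matrix n n (MonoidAlgebra R Γ))) :
    tau W l 0 = 0 := by
  induction l with
  | nil => rfl
  | cons M l ih => rw [tau, Matrix.zero_vecMul, resV_zero, ih]

/-- the set of products of supports -/
structure Pref (P : List (Matrix n n (MonoidAlgebra R Γ)) → Set Γ) : Prop where
  one : ∀ l, (1 : Γ) ∈ P l
  cons : ∀ M l, ∀ i k, ∀ γ, (M i k).coeff γ ≠ 0 → ∀ δ ∈ P l, γ * δ ∈ P (M :: l)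

variable {P : List (Matrix n n (MonoidAlgebra R Γ)) → Set Γ}

theorem tau_eq (hP : Pref P) (W : Set Γ) (l : List (Matrix n n (MonoidAlgebra R Γ))) :
    ∀ (Y : Set Γ) (a : n → MonoidAlgebra R Γ), SupV Y a → (∀ y ∈ Y, ∀ δ ∈ P l, y * δ ∈ W) →
      tau W l a = a ᵥ* l.prod := by
  induction l with
  | nil => intro Y a _ _; simp [tau]
  | cons M l ih =>
    intro Y a ha hY
    let Y' : Set Γ := {γ | ∃ y ∈ Y, ∃ i k, ∃ δ, (M i k).coeff δ ≠ 0 ∧ γ = y * δ}
    have h1 : SupV Y' (a ᵥ* M) := by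
      intro k γ hγ
      simp only [Matrix.vecMul, dotProduct, MonoidAlgebra.coeff_sum, Finsupp.finsetSum_apply]
      refine Finset.sum_eq_zero fun i _ => ?_
      refine coeff_mul_eq_zero (Y := Y) (Z := {δ | (M i k).coeff δ ≠ 0}) (ha i) ?_ ?_
      · intro δ hδ
        by_contra h
        exact hδ h
      · rintro y hy δ hδ rfl
        exact hγ ⟨y, hy, i, k, δ, hδ, rfl⟩
    have h2 : ∀ γ ∈ Y', ∀ δ ∈ P l, γ * δ ∈ W := by
      rintro _ ⟨y, hy, i, k, δ, hδ, rfl⟩ δ' hδ'
      rw [mul_assoc]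
      exact hY y hy _ (hP.cons M l i k δ hδ δ' hδ')
    have h3 : SupV W (a ᵥ* M) := h1.mono fun γ hγ => by
      have := h2 γ hγ 1 (hP.one l)
      rwa [mul_one] at this
    rw [tau, resV_eq_self h3, ih Y' _ h1 h2, List.prod_cons, Matrix.vecMul_vecMul]

theorem supV_tau (hP : Pref P) (W X : Set Γ) (l : List (Matrix n n (MonoidAlgebra R Γ))) :
    ∀ (Y : Set Γ) (a : n → MonoidAlgebra R Γ), SupV Y a → (∀ y ∈ Y, ∀ δ ∈ P l, y * δ ∈ X) →
      SupV X (tau W l a) := by
  induction l with
  | nil =>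
    intro Y a ha hY
    exact ha.mono fun γ hγ => by
      have := hY γ hγ 1 (hP.one [])
      rwa [mul_one] at this
  | cons M l ih =>
    intro Y a ha hY
    let Y' : Set Γ := {γ | ∃ y ∈ Y, ∃ i k, ∃ δ, (M i k).coeff δ ≠ 0 ∧ γ = y * δ}
    have h1 : SupV Y' (a ᵥ* M) := by
      intro k γ hγ
      simp only [Matrix.vecMul, dotProduct, MonoidAlgebra.coeff_sum, Finsupp.finsetSum_apply]
      refine Finset.sum_eq_zero fun i _ => ?_
      refine coeff_mul_eq_zero (Y := Y) (Z := {δ | (M i k).coeff δ ≠ 0}) (ha i) ?_ ?_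
      · intro δ hδ
        by_contra h
        exact hδ h
      · rintro y hy δ hδ rfl
        exact hγ ⟨y, hy, i, k, δ, hδ, rfl⟩
    have h2 : ∀ γ ∈ Y', ∀ δ ∈ P l, γ * δ ∈ X := by
      rintro _ ⟨y, hy, i, k, δ, hδ, rfl⟩ δ' hδ'
      rw [mul_assoc]
      exact hY y hy _ (hP.cons M l i k δ hδ δ' hδ')
    rw [tau]
    refine ih Y' _ ?_ h2
    intro k γ hγ
    by_cases h : γ ∈ W
    · change (res W ((a ᵥ* M) k)).coeff γ = 0
      rw [coeff_res_of_mem h]
      exact h1 k γ hγ
    · exact coeff_res_of_notMem h _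

theorem supV_tau_W (W : Set Γ) (l : List (Matrix n n (MonoidAlgebra R Γ))) :
    ∀ (a : n → MonoidAlgebra R Γ), SupV W a → SupV W (tau W l a) := by
  induction l with
  | nil => intro a ha; exact ha
  | cons M l ih =>
    intro a _
    rw [tau]
    exact ih _ (supV_resV _ _)

end Pool.Agent.Lib.MP_c052b4_al.Kern
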