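import Pool.Agent.Lib.MP_c052b4_al.Kernel

/-!
# The kernel lemma, second part: the induced idempotents
-/

set_option autoImplicit false
set_option linter.unusedSectionVars false

namespace Pool.Agent.Lib.MP_c052b4_al.Kern

open Matrix

universe u v w

variable {R : Type u} [Ring R] {G : Type v} {Γ : Type w} [Group G] [Group Γ] {ι : G →* Γ}

namespace Setup

variable (D : Setup R ι) {i : Bool} (E : Trans (ι.comp (D.hs.C i).subtype) (D.hs.Y D.B i))

/-- the projection in coordinates -/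
noncomputable def L : (Fin E.k × Fin D.n → MonoidAlgebra R (D.hs.C i)) →ₗ[MonoidAlgebra R (D.hs.C i)]
    (Fin E.k × Fin D.n → MonoidAlgebra R (D.hs.C i)) where
  toFun v := ka E (D.p i (th (ι.comp (D.hs.C i).subtype) E.t v))
  map_add' v v' := by rw [th_add, p_add, ka_add]
  map_smul' s v := by
    rw [th_smul, p_smul, ka_smul]; rfl

theorem L_apply (v : Fin E.k × Fin D.n → MonoidAlgebra R (D.hs.C i)) :
    D.L E v = ka E (D.p i (th (ι.comp (D.hs.C i).subtype) E.t v)) := rfl

theorem th_L (v : Fin E.k × Fin D.n → MonoidAlgebra R (D.hs.C i)) :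
    th (ι.comp (D.hs.C i).subtype) E.t (D.L E v) =
      D.p i (th (ι.comp (D.hs.C i).subtype) E.t v) := by
  rw [L_apply, th_ka]
  exact D.supV_Y_p i (supV_th E v)

theorem L_L (v : Fin E.k × Fin D.n → MonoidAlgebra R (D.hs.C i)) :
    D.L E (D.L E v) = D.L E v := by
  rw [L_apply, th_L, D.p_eq_self i (D.supV_p i _), ← L_apply]

open Classical in
/-- the matrix of the projection -/
noncomputable def c : Matrix (Fin E.k × Fin D.n) (Fin E.k × Fin D.n)
    (MonoidAlgebra R (D.hs.C i)) :=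
  LinearMap.toMatrixRight' (D.L E)

theorem vc (v : Fin E.k × Fin D.n → MonoidAlgebra R (D.hs.C i)) : v ᵥ* D.c E = D.L E v := by
  have : Matrix.vecMulLinear (D.c E) = D.L E := by
    have := LinearMap.toMatrixRight'.symm_apply_apply (D.L E)
    exact this
  exact LinearMap.congr_fun this v

theorem c_idem : D.c E * D.c E = D.c E := by
  classical
  apply Matrix.ext_of_single_vecMul
  intro z
  rw [← Matrix.vecMul_vecMul, vc, vc, L_L]

/-- the induced matrix over `R[G]` -/
noncomputable def c' : Matrix (Fin E.k × Fin D.n) (Fin E.k × Fin D.n) (MonoidAlgebra R G) :=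
  (D.c E).map (inc R (D.hs.C i).subtype)

theorem c'_idem : D.c' E * D.c' E = D.c' E := by
  rw [c', ← Matrix.map_mul, c_idem]

theorem inc_inc (s : MonoidAlgebra R (D.hs.C i)) :
    inc R ι (inc R (D.hs.C i).subtype s) = inc R (ι.comp (D.hs.C i).subtype) s := by
  have := MonoidAlgebra.mapDomainRingHom_comp (R := R) ι (D.hs.C i).subtype
  exact (RingHom.congr_fun this s).symm

theorem th_inc (w : Fin E.k × Fin D.n → MonoidAlgebra R (D.hs.C i)) :
    th ι E.t (fun z => inc R (D.hs.C i).subtype (w z)) =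
      th (ι.comp (D.hs.C i).subtype) E.t w := by
  funext b
  simp only [th, inc_inc]

/-- the images of the standard basis vectors -/
noncomputable def e (z : Fin E.k × Fin D.n) : Fin D.n → MonoidAlgebra R Γ :=
  open Classical in
  D.p i (th (ι.comp (D.hs.C i).subtype) E.t (Pi.single z 1))

theorem th_vc' (v : Fin E.k × Fin D.n → MonoidAlgebra R G) :
    th ι E.t (v ᵥ* D.c' E) = ∑ z, inc R ι (v z) • D.e E z := by
  classical
  have h1 : v ᵥ* D.c' E = ∑ z, v z • fun z' => inc R (D.hs.C i).subtype (D.c E z z') := by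
    funext z'
    simp [Matrix.vecMul, dotProduct, c']
  rw [h1, th_sum]
  refine Finset.sum_congr rfl fun z _ => ?_
  rw [th_smul, th_inc]
  have h2 : (fun z' => D.c E z z') = D.L E (Pi.single z 1) := by
    rw [← vc, Matrix.single_one_vecMul]; rfl
  have h3 : th (ι.comp (D.hs.C i).subtype) E.t (D.c E z) = D.e E z := by
    have h4 : D.c E z = D.L E (Pi.single z 1) := h2
    rw [h4, th_L, e]
  rw [h3]

theorem supV_e (z : Fin E.k × Fin D.n) : SupV (D.hs.X i) (D.e E z ᵥ* D.x) := by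
  unfold e
  exact D.supV_p i _

/-- supports of the images -/
theorem supV_th_vx {S : Set G} {v : Fin E.k × Fin D.n → MonoidAlgebra R G}
    (hv : v ᵥ* D.c' E = v) (hS : SupV S v) :
    SupV {γ | ∃ g ∈ S, γ ∈ D.hs.tX i g} (th ι E.t v ᵥ* D.x) := by
  rw [← hv, th_vc']
  rw [Matrix.sum_vecMul]
  refine SupV.sum fun z _ => ?_
  rw [Matrix.smul_vecMul]
  intro k
  refine Sup.mul (Y := ι '' S) ?_ (D.supV_e E z k) ?_
  · intro γ hγ
    by_cases h : γ ∈ Set.range ι
    · obtain ⟨g, rfl⟩ := h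
      rw [coeff_inc ι D.inj]
      exact hS z g fun h' => hγ ⟨g, h', rfl⟩
    · exact sup_inc ι _ γ h
  · rintro _ ⟨g, hg, rfl⟩ γ hγ
    refine ⟨g, hg, ?_⟩
    change (ι g)⁻¹ * (ι g * γ) ∈ D.hs.X i
    rwa [inv_mul_cancel_left]

/-- the coset `g Cᵢ` -/
def coset (i : Bool) (g : G) : Set G := {h | g⁻¹ * h ∈ D.hs.C i}

theorem resV_coset_vc' (g : G) {v : Fin E.k × Fin D.n → MonoidAlgebra R G}
    (hv : v ᵥ* D.c' E = v) : resV (D.coset i g) v ᵥ* D.c' E = resV (D.coset i g) v := by
  have h1 : SupM (D.hs.C i : Set G) (D.c' E) := by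
    intro z z'
    refine (sup_inc (D.hs.C i).subtype _).mono ?_
    rintro _ ⟨c, rfl⟩
    exact c.2
  rw [← resV_vecMul h1, hv]
  intro γ c hc
  constructor
  · intro h
    have h2 : g⁻¹ * (γ * c) ∈ D.hs.C i := h
    have h3 := (D.hs.C i).mul_mem h2 ((D.hs.C i).inv_mem hc)
    have h4 : g⁻¹ * (γ * c) * c⁻¹ = g⁻¹ * γ := by group
    rw [h4] at h3
    exact h3
  · intro h
    have h2 : g⁻¹ * γ ∈ D.hs.C i := h
    have h3 := (D.hs.C i).mul_mem h2 hc
    rw [mul_assoc] at h3
    exact h3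

/-- restriction to one translate -/
theorem resV_tX_th (g : G) {v : Fin E.k × Fin D.n → MonoidAlgebra R G}
    (hv : v ᵥ* D.c' E = v) : resV (D.hs.tX i g) (th ι E.t v ᵥ* D.x) =
      th ι E.t (resV (D.coset i g) v) ᵥ* D.x := by
  have h1 : v = resV (D.coset i g) v + resV (D.coset i g)ᶜ v := (resV_add_compl _ _).symm
  have h2 := D.resV_coset_vc' E g hv
  have h3 : resV (D.coset i g)ᶜ v ᵥ* D.c' E = resV (D.coset i g)ᶜ v := by
    have h4 : resV (D.coset i g)ᶜ v = v - resV (D.coset i g) v := by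
      rw [eq_sub_iff_add_eq, add_comm]; exact h1.symm
    rw [h4, Matrix.sub_vecMul, hv, h2]
  have h5 := D.supV_th_vx E h2 (supV_resV _ _)
  have h6 := D.supV_th_vx E h3 (supV_resV _ _)
  conv_lhs => rw [h1]
  rw [th_add, Matrix.add_vecMul, resV_add]
  rw [resV_eq_self, resV_eq_zero h6, add_zero]
  · rintro γ ⟨h, hh, hγ⟩ hγ'
    exact hh (D.hs.tX_eq hγ hγ').2
  · refine h5.mono ?_
    rintro γ ⟨h, hh, hγ⟩
    exact D.hs.tX_sub hh hγ

/-- restriction to the other translates and to `G` -/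
theorem resV_other_th {v : Fin E.k × Fin D.n → MonoidAlgebra R G}
    (hv : v ᵥ* D.c' E = v) :
    resV (Set.range ι) (th ι E.t v ᵥ* D.x) = 0 ∧
    ∀ i', i ≠ i' → ∀ g, resV (D.hs.tX i' g) (th ι E.t v ᵥ* D.x) = 0 := by
  have h0 : SupV (Set.univ : Set G) v := fun _ _ h => absurd trivial h
  have h1 := D.supV_th_vx E hv h0
  constructor
  · refine resV_eq_zero h1 ?_
    rintro γ ⟨g, -, hg⟩ h
    exact D.hs.range_tX h i g hg
  · intro i' hi g
    refine resV_eq_zero h1 ?_
    rintro γ ⟨g', -, hg⟩ h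
    exact hi (D.hs.tX_eq hg h).1

/-- support of the image of a vector supported on a coset -/
theorem supV_th_coset (g : G) {v : Fin E.k × Fin D.n → MonoidAlgebra R G}
    (hv : SupV (D.coset i g) v) :
    SupV {γ | (ι g)⁻¹ * γ ∈ D.hs.Y D.B i} (th ι E.t v) := by
  intro b
  refine Sup.sum fun s _ => ?_
  refine Sup.mul (Y := ι '' D.coset i g) (Z := {E.t s}) ?_
    (sup_single (Set.mem_singleton _) 1) ?_
  · intro γ hγ
    by_cases h : γ ∈ Set.range ι
    · obtain ⟨h, rfl⟩ := h
      rw [coeff_inc ι D.inj]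
      exact hv _ h fun h' => hγ ⟨h, h', rfl⟩
    · exact sup_inc ι _ γ h
  · rintro _ ⟨h, hh, rfl⟩ _ rfl
    change (ι g)⁻¹ * (ι h * E.t s) ∈ D.hs.Y D.B i
    rw [← mul_assoc, ← map_inv, ← map_mul]
    exact E.mem s ⟨g⁻¹ * h, hh⟩

/-- coefficients of the image of a vector supported on a coset -/
theorem coeff_th_coset (g : G) {v : Fin E.k × Fin D.n → MonoidAlgebra R G}
    (hv : SupV (D.coset i g) v) (s : Fin E.k) (b : Fin D.n) :
    (th ι E.t v b).coeff (ι g * E.t s) = (v (s, b)).coeff g := by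
  classical
  simp only [th, MonoidAlgebra.coeff_sum, Finsupp.finsetSum_apply,
    MonoidAlgebra.coeff_mul_single_apply, mul_one]
  rw [Finset.sum_eq_single s]
  · rw [mul_inv_cancel_right, coeff_inc ι D.inj]
  · intro s' _ hs'
    by_cases h : ι g * E.t s * (E.t s')⁻¹ ∈ Set.range ι
    · obtain ⟨h, hh⟩ := h
      rw [← hh, coeff_inc ι D.inj]
      refine hv _ h fun hhc => ?_
      apply hs'
      have h1 : ι h * E.t s' = ι g * E.t s := by rw [hh, inv_mul_cancel_right]
      have h2 : (ι.comp (D.hs.C i).subtype) ⟨g⁻¹ * h, hhc⟩ * E.t s' =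
          (ι.comp (D.hs.C i).subtype) 1 * E.t s := by
        rw [map_one, one_mul]
        change ι (g⁻¹ * h) * E.t s' = E.t s
        rw [map_mul, mul_assoc, h1, map_inv, inv_mul_cancel_left]
      exact (E.inj _ _ _ _ h2).1
    · exact sup_inc ι _ _ h
  · intro h1; exact absurd (Finset.mem_univ _) h1

/-- the induced idempotent is stably induced from `R` -/
theorem good_c' (hC : Function.Surjective
    (KZero.map (MonoidAlgebra.singleOneRingHom : R →+* MonoidAlgebra R (D.hs.C i)))) :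
    Good (MonoidAlgebra.singleOneRingHom : R →+* MonoidAlgebra R G) (img (D.c' E)) := by
  rw [good_iff (D.c'_idem E) (LinearEquiv.refl _ _), ← stabInd_iff]
  have h1 := StabInd.of_surjective _ hC (D.c_idem E)
  have h2 := h1.map (inc R (D.hs.C i).subtype)
  rw [singleOne_comp] at h2
  exact h2

end Setup

end Pool.Agent.Lib.MP_c052b4_al.Kern
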