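import Pool.Agent.Lib.MP_c052b4_al.Kernel2

/-!
# The kernel lemma, third part: the isomorphism with a free module
-/

set_option autoImplicit false
set_option linter.unusedSectionVars false

namespace Pool.Agent.Lib.MP_c052b4_al.Kern

open Matrix

universe u v w

variable {R : Type u} [Ring R] {G : Type v} {Γ : Type w} [Group G] [Group Γ] {ι : G →* Γ}

namespace Setup

variable (D : Setup R ι) (E : ∀ i, Trans (ι.comp (D.hs.C i).subtype) (D.hs.Y D.B i))
  (EW : Trans ι (D.hs.W D.B))

/-- vectors over `R[G]` as vectors over `R[Γ]` -/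
noncomputable def incv (w : Fin D.m → MonoidAlgebra R G) : Fin D.m → MonoidAlgebra R Γ :=
  fun k => inc R ι (w k)

theorem incv_add (w w' : Fin D.m → MonoidAlgebra R G) :
    D.incv (w + w') = D.incv w + D.incv w' := by
  funext k; simp only [incv, Pi.add_apply, map_add]

theorem incv_smul (s : MonoidAlgebra R G) (w : Fin D.m → MonoidAlgebra R G) :
    D.incv (s • w) = inc R ι s • D.incv w := by
  funext k; simp only [incv, Pi.smul_apply, smul_eq_mul, map_mul]

theorem incv_vecMul (w : Fin D.m → MonoidAlgebra R G) : D.incv (w ᵥ* D.f) = D.incv w ᵥ* D.F := by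
  funext k
  simp only [incv, F, Matrix.vecMul, dotProduct, map_sum, map_mul, Matrix.map_apply]

theorem supV_incv (w : Fin D.m → MonoidAlgebra R G) : SupV (Set.range ι) (D.incv w) :=
  fun k => sup_inc ι (w k)

theorem incv_eq_zero {w : Fin D.m → MonoidAlgebra R G} (h : D.incv w = 0) : w = 0 := by
  funext k
  ext g
  have h1 := congrFun h k
  rw [← coeff_inc (R := R) ι D.inj]
  change (D.incv w k).coeff (ι g) = _
  rw [h1]; rfl

/-- the module on the left hand side -/
abbrev LHS : Type _ :=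
  img D.f × (img (D.c' (E false)) × img (D.c' (E true)))

/-- the underlying vector -/
noncomputable def vec (z : D.LHS E) : Fin D.n → MonoidAlgebra R Γ :=
  D.incv (z.1 : Fin D.m → MonoidAlgebra R G) ᵥ* D.y +
    (th ι (E false).t (z.2.1 : Fin (E false).k × Fin D.n → MonoidAlgebra R G) +
      th ι (E true).t (z.2.2 : Fin (E true).k × Fin D.n → MonoidAlgebra R G))

theorem vec_add (z z' : D.LHS E) : D.vec E (z + z') = D.vec E z + D.vec E z' := by
  simp only [vec, Prod.fst_add, Prod.snd_add, Submodule.coe_add, incv_add, th_add,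
    Matrix.add_vecMul]
  abel

theorem vec_smul (s : MonoidAlgebra R G) (z : D.LHS E) :
    D.vec E (s • z) = inc R ι s • D.vec E z := by
  simp only [vec, Prod.smul_fst, Prod.smul_snd, Submodule.coe_smul, incv_smul, th_smul,
    Matrix.smul_vecMul, smul_add]

/-- the map to the free module -/
noncomputable def Th : D.LHS E →ₗ[MonoidAlgebra R G] (Fin EW.k × Fin D.n → MonoidAlgebra R G) where
  toFun z := ka EW (D.vec E z)
  map_add' z z' := by rw [vec_add, ka_add]
  map_smul' s z := by rw [vec_smul, ka_smul]; rfl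

theorem Th_apply (z : D.LHS E) : D.Th E EW z = ka EW (D.vec E z) := rfl

theorem not_mem_W {γ : Γ} (h : γ ∉ D.hs.W D.B) :
    ∃ i g, γ ∈ D.hs.tX i g ∧ (ι g)⁻¹ * γ ∉ D.hs.Y D.B i := by
  have h1 : ¬ ∀ i g, (ι g)⁻¹ * γ ∈ D.hs.X i → (ι g)⁻¹ * γ ∈ D.hs.Y D.B i := h
  push Not at h1
  exact h1

/-- vectors supported outside the finite part -/
theorem outside {z : Fin D.n → MonoidAlgebra R Γ} (hz : SupV (D.hs.W D.B)ᶜ z) :
    resV (Set.range ι) (z ᵥ* D.x) = 0 ∧
    ∀ i g, resV (D.hs.tX i g) (z ᵥ* D.x) = resV (D.hs.tX i g) z ᵥ* D.x := by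
  classical
  refine supV_induction (P := fun z => resV (Set.range ι) (z ᵥ* D.x) = 0 ∧
    ∀ i g, resV (D.hs.tX i g) (z ᵥ* D.x) = resV (D.hs.tX i g) z ᵥ* D.x) ?_ ?_ ?_ hz
  · simp only [Matrix.zero_vecMul, resV_zero, implies_true, and_self]
  · rintro a b ⟨ha, ha'⟩ ⟨hb, hb'⟩
    refine ⟨by rw [Matrix.add_vecMul, resV_add, ha, hb, add_zero], fun i g => ?_⟩
    rw [Matrix.add_vecMul, resV_add, resV_add, ha', hb', Matrix.add_vecMul]
  · intro b γ hγ r
    obtain ⟨i, g, h1, h2⟩ := D.not_mem_W hγ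
    have h3 : SupV ({γ} : Set Γ) (Pi.single b (MonoidAlgebra.single γ r) :
        Fin D.n → MonoidAlgebra R Γ) := by
      intro b'
      by_cases hb : b' = b
      · subst hb
        rw [Pi.single_eq_same]
        exact sup_single (Set.mem_singleton _) r
      · rw [Pi.single_eq_of_ne hb]
        exact sup_zero _
    have h4 : SupV (D.hs.tX i g) ((Pi.single b (MonoidAlgebra.single γ r) :
        Fin D.n → MonoidAlgebra R Γ) ᵥ* D.x) := by
      refine h3.vecMul D.xB ?_
      rintro _ rfl b' hb'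
      change (ι g)⁻¹ * (_ * b') ∈ D.hs.X i
      rw [← mul_assoc]
      by_contra h5
      exact h2 ⟨b', hb', fun h' => h5 (h'.1 h1)⟩
    refine ⟨resV_eq_zero h4 fun γ' h5 h6 => D.hs.range_tX h6 i g h5, fun i' g' => ?_⟩
    by_cases h5 : γ ∈ D.hs.tX i' g'
    · obtain ⟨rfl, h6⟩ := D.hs.tX_eq h1 h5
      rw [resV_eq_self (h4.mono (D.hs.tX_sub h6)),
        resV_eq_self (h3.mono (by rintro _ rfl; exact h5))]
    · rw [resV_eq_zero h3 (by rintro _ rfl; exact h5), Matrix.zero_vecMul]
      refine resV_eq_zero h4 fun γ' h6 h7 => h5 ?_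
      obtain ⟨rfl, h8⟩ := D.hs.tX_eq h6 h7
      exact D.hs.tX_sub h8 h1

/-- membership in an image -/
theorem mem_img_c' {i : Bool} {Ei : Trans (ι.comp (D.hs.C i).subtype) (D.hs.Y D.B i)}
    (v : img (D.c' Ei)) : (v : Fin Ei.k × Fin D.n → MonoidAlgebra R G) ᵥ* D.c' Ei = v :=
  (mem_img (D.c'_idem Ei)).1 v.2

/-- vanishing of one coordinate -/
theorem coord_zero {i : Bool} (Ei : Trans (ι.comp (D.hs.C i).subtype) (D.hs.Y D.B i))
    {z : Fin D.n → MonoidAlgebra R Γ} (hz : SupV (D.hs.W D.B)ᶜ z)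
    {v : Fin Ei.k × Fin D.n → MonoidAlgebra R G} (hv : v ᵥ* D.c' Ei = v)
    (h : ∀ g, resV (D.hs.tX i g) (z ᵥ* D.x) = resV (D.hs.tX i g) (th ι Ei.t v ᵥ* D.x)) :
    v = 0 := by
  have key : ∀ g, th ι Ei.t (resV (D.coset i g) v) = 0 := by
    intro g
    have h1 := h g
    rw [(D.outside hz).2, D.resV_tX_th Ei g hv] at h1
    have h2 := congrArg (fun a => a ᵥ* D.y) h1
    simp only [D.vxy] at h2
    have h3 := D.supV_th_coset Ei g (supV_resV (D.coset i g) v)
    have h4 : SupV {γ | γ ∈ D.hs.tX i g ∧ γ ∉ D.hs.W D.B} (resV (D.hs.tX i g) z) := by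
      intro b γ hγ
      by_cases h5 : γ ∈ D.hs.tX i g
      · change (res _ (z b)).coeff γ = 0
        rw [coeff_res_of_mem h5]
        exact hz b γ fun h6 => hγ ⟨h5, h6⟩
      · exact coeff_res_of_notMem h5 _
    rw [h2] at h4
    refine eq_zero_of_supV h4 h3 ?_
    rintro γ ⟨h5, h6⟩ h7
    obtain ⟨i', g', h8, h9⟩ := D.not_mem_W h6
    obtain ⟨rfl, h10⟩ := D.hs.tX_eq h8 h5
    apply h9
    have h11 : (ι g')⁻¹ * γ = ι (g'⁻¹ * g) * ((ι g)⁻¹ * γ) := by
      rw [map_mul, map_inv]; group
    rw [h11]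
    have h12 : g'⁻¹ * g ∈ D.hs.C i' := by
      have := (D.hs.C i').inv_mem h10
      rwa [_root_.mul_inv_rev, inv_inv] at this
    exact (D.hs.Y_left D.B i' h12).2 h7
  funext ⟨s, b⟩
  ext g
  have h1 := D.coeff_th_coset Ei g (supV_resV (D.coset i g) v) s b
  rw [key g] at h1
  have h2 : (resV (D.coset i g) v (s, b)).coeff g = (v (s, b)).coeff g := by
    change (res _ (v (s, b))).coeff g = _
    refine coeff_res_of_mem ?_ _
    change g⁻¹ * g ∈ D.hs.C i
    rw [inv_mul_cancel]
    exact (D.hs.C i).one_mem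
  rw [h2] at h1
  rw [← h1]; rfl

variable (hf : D.f * D.f = D.f)

include hf in
theorem Th_injective : Function.Injective (D.Th E EW) := by
  rw [← LinearMap.ker_eq_bot, LinearMap.ker_eq_bot']
  rintro ⟨w, v0, v1⟩ hz
  rw [Th_apply] at hz
  have hW := supV_of_ka_eq_zero EW hz
  have hout := D.outside hW
  have hw : (w : Fin D.m → MonoidAlgebra R G) ᵥ* D.f = w := (mem_img hf).1 w.2
  have h0 := D.mem_img_c' v0
  have h1 := D.mem_img_c' v1
  have hvx : D.vec E (w, v0, v1) ᵥ* D.x = D.incv (w : Fin D.m → MonoidAlgebra R G) +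
      (th ι (E false).t (v0 : Fin (E false).k × Fin D.n → MonoidAlgebra R G) ᵥ* D.x +
      th ι (E true).t (v1 : Fin (E true).k × Fin D.n → MonoidAlgebra R G) ᵥ* D.x) := by
    simp only [vec, Matrix.add_vecMul]
    rw [vyx, ← incv_vecMul, hw]
  obtain ⟨k0, k0'⟩ := D.resV_other_th (E false) h0
  obtain ⟨k1, k1'⟩ := D.resV_other_th (E true) h1
  have hw0 : (w : Fin D.m → MonoidAlgebra R G) = 0 := by
    apply D.incv_eq_zero
    have h2 := hout.1
    rw [hvx, resV_add, resV_add, k0, k1, add_zero, add_zero, resV_eq_self (D.supV_incv _)] at h2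
    exact h2
  have hwr : ∀ i g, resV (D.hs.tX i g) (D.incv (w : Fin D.m → MonoidAlgebra R G)) = 0 :=
    fun i g => resV_eq_zero (D.supV_incv _) fun γ h => D.hs.range_tX h i g
  have hv0 : (v0 : Fin (E false).k × Fin D.n → MonoidAlgebra R G) = 0 := by
    refine D.coord_zero (E false) hW h0 fun g => ?_
    rw [hvx, resV_add, resV_add, hwr, k1' false (by simp) g, zero_add, add_zero]
  have hv1 : (v1 : Fin (E true).k × Fin D.n → MonoidAlgebra R G) = 0 := by
    refine D.coord_zero (E true) hW h1 fun g => ?_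
    rw [hvx, resV_add, resV_add, hwr, k0' true (by simp) g, zero_add, zero_add]
  refine Prod.ext (Subtype.ext hw0) (Prod.ext (Subtype.ext hv0) (Subtype.ext hv1))

/-- a single vector in a translate is hit -/
theorem hit {i : Bool} (Ei : Trans (ι.comp (D.hs.C i).subtype) (D.hs.Y D.B i))
    {b : Fin D.m → MonoidAlgebra R Γ} {g : G} (hb : SupV (D.hs.tX i g) (b ᵥ* D.F)) :
    ∃ v : img (D.c' Ei), ka EW (b ᵥ* D.y) =
      ka EW (th ι Ei.t (v : Fin Ei.k × Fin D.n → MonoidAlgebra R G)) := by
  set a : Fin D.n → MonoidAlgebra R Γ := MonoidAlgebra.single (ι g)⁻¹ (1 : R) • (b ᵥ* D.y) with ha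
  have h1 : a ᵥ* D.x = MonoidAlgebra.single (ι g)⁻¹ (1 : R) • (b ᵥ* D.F) := by
    rw [ha, Matrix.smul_vecMul, vyx]
  have h2 : SupV (D.hs.X i) (a ᵥ* D.x) := by
    rw [h1]
    exact hb.smul_single 1 fun γ hγ => hγ
  obtain ⟨h3, h4⟩ := D.supV_boundary i h2
  set v := ka Ei a with hv
  have h5 : th (ι.comp (D.hs.C i).subtype) Ei.t v = resV (D.hs.Y D.B i) a := by
    rw [hv, ← ka_res, th_ka Ei (supV_resV _ _)]
  have h6 : D.L Ei v = v := by
    rw [L_apply, h5, D.p_eq_self i h4, ka_res]
  let V : Fin Ei.k × Fin D.n → MonoidAlgebra R G :=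
    MonoidAlgebra.single g (1 : R) • fun z => inc R (D.hs.C i).subtype (v z)
  have h7 : V ᵥ* D.c' Ei = V := by
    have h8 : (fun z => inc R (D.hs.C i).subtype (v z)) ᵥ* D.c' Ei =
        fun z => inc R (D.hs.C i).subtype (v z) := by
      have h9 : (fun z => inc R (D.hs.C i).subtype (v z)) ᵥ* D.c' Ei =
          fun z => inc R (D.hs.C i).subtype ((v ᵥ* D.c Ei) z) := by
        funext z
        simp only [Matrix.vecMul, dotProduct, c', Matrix.map_apply, map_sum, map_mul]
      rw [h9, vc, h6]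
    change (MonoidAlgebra.single g (1 : R) • fun z => inc R (D.hs.C i).subtype (v z)) ᵥ* D.c' Ei = _
    rw [Matrix.smul_vecMul, h8]
  refine ⟨⟨V, (mem_img (D.c'_idem Ei)).2 h7⟩, ?_⟩
  have h8 : th ι Ei.t V = MonoidAlgebra.single (ι g) (1 : R) • resV (D.hs.Y D.B i) a := by
    change th ι Ei.t (MonoidAlgebra.single g (1 : R) •
      fun z => inc R (D.hs.C i).subtype (v z)) = _
    rw [th_smul, th_inc, h5]
    congr 1
    simp
  have h9 : b ᵥ* D.y = MonoidAlgebra.single (ι g) (1 : R) • a := by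
    rw [ha, smul_smul, MonoidAlgebra.single_mul_single, mul_inv_cancel, mul_one,
      ← MonoidAlgebra.one_def, one_smul]
  change ka EW (b ᵥ* D.y) = ka EW (th ι Ei.t V)
  rw [h8, h9]
  conv_lhs => rw [← resV_add_compl (D.hs.Y D.B i) a]
  rw [smul_add, ka_add]
  rw [ka_eq_zero EW (a := MonoidAlgebra.single (ι g) (1 : R) • resV (D.hs.Y D.B i)ᶜ a), add_zero]
  refine h3.smul_single 1 ?_
  rintro γ ⟨h10, h11⟩ h12
  have h13 : (ι g)⁻¹ * (ι g * γ) ∈ D.hs.X i := by rwa [inv_mul_cancel_left]
  have h14 := h12 i g h13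
  rw [inv_mul_cancel_left] at h14
  exact h11 h14

include hf in
theorem Th_surjective : Function.Surjective (D.Th E EW) := by
  classical
  have key : ∀ b : Fin D.m → MonoidAlgebra R Γ, ka EW (b ᵥ* D.y) ∈ LinearMap.range (D.Th E EW) := by
    intro b
    have hb : SupV (Set.univ : Set Γ) b := fun _ _ h => absurd trivial h
    refine supV_induction (P := fun b => ka EW (b ᵥ* D.y) ∈ LinearMap.range (D.Th E EW))
      ?_ ?_ ?_ hb
    · rw [Matrix.zero_vecMul, ka_zero]; exact Submodule.zero_mem _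
    · intro a b ha hb
      rw [Matrix.add_vecMul, ka_add]; exact Submodule.add_mem _ ha hb
    · intro k γ _ r
      rcases D.hs.cover γ with ⟨g, rfl⟩ | ⟨i, g, hg⟩
      · let w : Fin D.m → MonoidAlgebra R G := (Pi.single k (MonoidAlgebra.single g r)) ᵥ* D.f
        have hw : w ᵥ* D.f = w := by
          change ((Pi.single k (MonoidAlgebra.single g r)) ᵥ* D.f) ᵥ* D.f = _
          rw [Matrix.vecMul_vecMul, hf]
        refine ⟨(⟨w, (mem_img hf).2 hw⟩, 0, 0), ?_⟩
        rw [Th_apply]
        congr 1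
        have h1 : D.incv w = (Pi.single k (MonoidAlgebra.single (ι g) r)) ᵥ* D.F := by
          rw [incv_vecMul]
          congr 1
          funext k'
          by_cases h2 : k' = k
          · subst h2
            simp [incv]
          · simp [incv, Pi.single_eq_of_ne h2]
        simp only [vec, ZeroMemClass.coe_zero, th_zero, add_zero]
        rw [h1, vFy]
      · have h1 : SupV (D.hs.tX i g) ((Pi.single k (MonoidAlgebra.single γ r) :
            Fin D.m → MonoidAlgebra R Γ) ᵥ* D.F) := by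
          have h3 : SupV ({γ} : Set Γ) (Pi.single k (MonoidAlgebra.single γ r) :
              Fin D.m → MonoidAlgebra R Γ) := by
            intro b'
            by_cases hb : b' = k
            · subst hb
              rw [Pi.single_eq_same]
              exact sup_single (Set.mem_singleton _) r
            · rw [Pi.single_eq_of_ne hb]
              exact sup_zero _
          refine h3.vecMul D.supF ?_
          rintro _ rfl _ ⟨g', rfl⟩
          change (ι g)⁻¹ * (_ * ι g') ∈ D.hs.X i
          rw [← mul_assoc]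
          exact D.hs.right i g' _ hg
        cases i with
        | false =>
          obtain ⟨v, hv⟩ := D.hit EW (E false) h1
          refine ⟨(0, v, 0), ?_⟩
          rw [hv, Th_apply]
          congr 1
          simp only [vec, ZeroMemClass.coe_zero, th_zero, add_zero]
          have : D.incv 0 = 0 := by funext k'; simp [incv]
          rw [this, Matrix.zero_vecMul, zero_add]
        | true =>
          obtain ⟨v, hv⟩ := D.hit EW (E true) h1
          refine ⟨(0, 0, v), ?_⟩
          rw [hv, Th_apply]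
          congr 1
          simp only [vec, ZeroMemClass.coe_zero, th_zero, zero_add]
          have : D.incv 0 = 0 := by funext k'; simp [incv]
          rw [this, Matrix.zero_vecMul, zero_add]
  intro u
  have h1 := key (th ι EW.t u ᵥ* D.x)
  rw [vxy, ka_th] at h1
  exact h1

include hf in
/-- The kernel lemma. -/
theorem good_f (hC : ∀ i, Function.Surjective
    (KZero.map (MonoidAlgebra.singleOneRingHom : R →+* MonoidAlgebra R (D.hs.C i)))) :
    Good (MonoidAlgebra.singleOneRingHom : R →+* MonoidAlgebra R G) (img D.f) := by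
  have E : ∀ i, Trans (ι.comp (D.hs.C i).subtype) (D.hs.Y D.B i) :=
    fun i => (D.hs.exists_transY D.inj D.B i).some
  have EW : Trans ι (D.hs.W D.B) := (D.hs.exists_transW D.inj D.B).some
  have h1 : Good (MonoidAlgebra.singleOneRingHom : R →+* MonoidAlgebra R G) (D.LHS E) :=
    (good_free _ (Fin EW.k × Fin D.n)).congr
      (LinearEquiv.ofBijective (D.Th E EW) ⟨D.Th_injective E EW hf, D.Th_surjective E EW hf⟩).symm
  exact h1.of_prod ((D.good_c' (E false) (hC false)).prod (D.good_c' (E true) (hC true)))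

end Setup

end Pool.Agent.Lib.MP_c052b4_al.Kern
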