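import Pool.Agent.Lib.MP_c052b4_al.Good
import Pool.Agent.Lib.MP_c052b4_al.Laurent

/-!
# Resolutions over twisted Laurent extensions
-/

set_option autoImplicit false

namespace Pool.Agent.Lib.MP_c052b4_al

open Matrix

universe u v w

namespace LaurentExt

variable {S : Type u} {T : Type v} [Ring S] [Ring T] (L : LaurentExt S T)

/-- vectors over `T` from row vectors over `S` and a matrix -/
theorem emb_vecMul {I J : Type*} [Fintype I] (v : I → S) (F : Matrix I J S) :
    L.emb v ᵥ* F.map L.ι = L.emb (v ᵥ* F) := by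
  funext j
  simp [emb, Matrix.vecMul, dotProduct]

theorem ind_good {I : Type} [Finite I] (K : Submodule S (I → S))
    (h : Good (RingHom.id S) K) : Good L.ι (L.ind K) := by
  obtain ⟨p, ⟨θ⟩, -⟩ := h
  let F : Matrix (Fin p.size) I S := fun i => (θ ⟨p.mat i, row_mem_img p.idem i⟩ : I → S)
  have hF : ∀ x : img p.mat, ((θ x : K) : I → S) = (x : Fin p.size → S) ᵥ* F := by
    intro x
    have := img_map_eq p.idem (θ : img p.mat →ₗ[S] K) x
    have h2 := congrArg Subtype.val this
    rw [LinearEquiv.coe_coe] at h2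
    rw [h2, AddSubmonoidClass.coe_finsetSum]
    funext j
    simp [Matrix.vecMul, dotProduct, F]
  have hF2 : ∀ v : Fin p.size → S, v ᵥ* F ∈ K := by
    intro v
    have : v ᵥ* F = ∑ i, v i • (θ ⟨p.mat i, row_mem_img p.idem i⟩ : I → S) := by
      funext j
      simp [Matrix.vecMul, dotProduct, F]
    rw [this]
    exact K.sum_mem fun i _ => K.smul_mem _ (θ _).2
  have hpι := map_idem p.idem L.ι
  have hmem : ∀ w : Fin p.size → T, w ∈ img (p.mat.map L.ι) ↔ ∀ k, L.cf w k ∈ img p.mat := by
    intro w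
    rw [mem_img hpι]
    constructor
    · intro hw k
      rw [mem_img p.idem, ← cf_vecMul, hw]
    · intro hw
      apply L.cf_ext
      intro k
      rw [cf_vecMul]
      exact (mem_img p.idem).1 (hw k)
  let g : img (p.mat.map L.ι) →ₗ[T] L.ind K :=
    (Matrix.vecMulLinear (F.map L.ι)).restrict (fun w _ k => by
      change L.cf (w ᵥ* F.map L.ι) k ∈ K
      rw [cf_vecMul]; exact hF2 _)
  have hg : ∀ w, ((g w : L.ind K) : I → T) = (w : Fin p.size → T) ᵥ* F.map L.ι := fun _ => rfl
  have hginj : Function.Injective g := by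
    rw [← LinearMap.ker_eq_bot, LinearMap.ker_eq_bot']
    intro w hw
    have h1 : (w : Fin p.size → T) ᵥ* F.map L.ι = 0 := by
      rw [← hg, hw]; rfl
    apply Subtype.ext
    apply L.cf_ext
    intro k
    have h2 : L.cf (w : Fin p.size → T) k ᵥ* F = 0 := by
      rw [← cf_vecMul, h1, cf_zero]
    have h3 := (hmem _).1 w.2 k
    have h4 : θ ⟨_, h3⟩ = 0 := by
      apply Subtype.ext
      rw [hF]
      exact h2
    have h5 : (⟨L.cf (w : Fin p.size → T) k, h3⟩ : img p.mat) = 0 := by
      apply θ.injective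
      rw [h4, map_zero]
    have h6 := congrArg Subtype.val h5
    simpa using h6
  have hgsurj : Function.Surjective g := by
    rintro ⟨w, hw⟩
    obtain ⟨w', hw'⟩ := L.exists_of_cf w
      (fun k => ((θ.symm ⟨L.cf w k, hw k⟩ : img p.mat) : Fin p.size → S))
    have h1 : ∀ k, L.cf w' k = ((θ.symm ⟨L.cf w k, hw k⟩ : img p.mat) : Fin p.size → S) := by
      intro k
      rcases hw' k with h | ⟨h, h'⟩
      · exact h
      · rw [h']
        have : (⟨L.cf w k, hw k⟩ : K) = 0 := Subtype.ext h
        rw [this, map_zero]; rfl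
    have h2 : w' ∈ img (p.mat.map L.ι) := by
      rw [hmem]
      intro k
      rw [h1]
      exact (θ.symm _).2
    refine ⟨⟨w', h2⟩, ?_⟩
    apply Subtype.ext
    apply L.cf_ext
    intro k
    rw [hg]
    change L.cf (w' ᵥ* F.map L.ι) k = L.cf w k
    rw [cf_vecMul, h1, ← hF, LinearEquiv.apply_symm_apply]
  rw [good_iff hpι (LinearEquiv.ofBijective g ⟨hginj, hgsurj⟩)]
  exact ⟨_, KZero.kc_map L.ι p.mat p.idem⟩

theorem ind_hasRes {n : ℕ} : ∀ {I : Type} [Finite I] (K : Submodule S (I → S)),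
    HasRes (RingHom.id S) n K → HasRes L.ι n (L.ind K) := by
  induction n with
  | zero => intro I _ K h; exact L.ind_good K h
  | succ n ih =>
    intro I _ K h
    obtain ⟨m, f, hf, h⟩ := h
    let F : Matrix (Fin m) I S := fun i => (f (Pi.single i 1) : I → S)
    have hF : ∀ v : Fin m → S, ((f v : K) : I → S) = v ᵥ* F := by
      intro v
      have h1 : v = ∑ i, v i • (Pi.single i (1 : S) : Fin m → S) := by
        funext j
        simp [Pi.single_apply]
      have h2 : f v = ∑ i, v i • f (Pi.single i 1) := by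
        conv_lhs => rw [h1]
        rw [map_sum]
        exact Finset.sum_congr rfl fun i _ => map_smul f _ _
      rw [h2, AddSubmonoidClass.coe_finsetSum]
      funext j
      simp [Matrix.vecMul, dotProduct, F]
    let g : (Fin m → T) →ₗ[T] L.ind K :=
      (Matrix.vecMulLinear (F.map L.ι)).codRestrict (L.ind K) (fun w k => by
        change L.cf (w ᵥ* F.map L.ι) k ∈ K
        rw [cf_vecMul, ← hF]; exact (f _).2)
    have hg : ∀ w, ((g w : L.ind K) : I → T) = w ᵥ* F.map L.ι := fun _ => rfl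
    have hgsurj : Function.Surjective g := by
      rintro ⟨w, hw⟩
      choose v hv using fun k => hf ⟨L.cf w k, hw k⟩
      obtain ⟨w', hw'⟩ := L.exists_of_cf w v
      refine ⟨w', ?_⟩
      apply Subtype.ext
      apply L.cf_ext
      intro k
      rw [hg]
      change L.cf (w' ᵥ* F.map L.ι) k = L.cf w k
      rw [cf_vecMul]
      rcases hw' k with h | ⟨h, h'⟩
      · rw [h, ← hF, hv]
      · rw [h', h, Matrix.zero_vecMul]
    refine ⟨m, g, hgsurj, ?_⟩
    have hker : L.ind (LinearMap.ker f) = LinearMap.ker g := by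
      ext w
      rw [LinearMap.mem_ker, mem_ind]
      constructor
      · intro hw
        apply Subtype.ext
        apply L.cf_ext
        intro k
        rw [hg, cf_vecMul, ← hF]
        have : f (L.cf w k) = 0 := hw k
        rw [this]
        simp
      · intro hw k
        rw [LinearMap.mem_ker]
        apply Subtype.ext
        rw [hF, ← cf_vecMul, ← hg, hw]
        simp
    exact (ih _ h).congr (LinearEquiv.ofEq _ _ hker)

section MV

variable {J : Type} [Finite J] (d : ℕ)

/-- the map `(w_a) ↦ ∑ w_a t^a` -/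
def Phi : (Fin (d + 1) × J → T) →ₗ[T] (J → T) where
  toFun w j := ∑ a : Fin (d + 1), w (a, j) * L.tp a
  map_add' w w' := by funext j; simp [add_mul, Finset.sum_add_distrib]
  map_smul' x w := by funext j; simp [mul_assoc, Finset.mul_sum]

theorem Phi_apply (w : Fin (d + 1) × J → T) (j : J) :
    L.Phi d w j = ∑ a : Fin (d + 1), w (a, j) * L.tp a := rfl

theorem co_Phi (w : Fin (d + 1) × J → T) (j : J) (D : ℤ) :
    L.co (L.Phi d w j) D = ∑ a : Fin (d + 1), L.σp (-(a : ℕ)) (L.co (w (a, j)) (D - (a : ℕ))) := by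
  rw [Phi_apply, map_sum, Finsupp.finsetSum_apply]
  exact Finset.sum_congr rfl fun a _ => L.co_mul_tp _ _ _

/-- lattice of `M` -/
def lat (M : Submodule T (J → T)) : Submodule S (Fin (d + 1) × J → S) where
  carrier := {u | L.Phi d (L.emb u) ∈ M}
  add_mem' := fun {u u'} hu hu' => by
    change L.Phi d (L.emb (u + u')) ∈ M
    rw [emb_add, map_add]; exact M.add_mem hu hu'
  zero_mem' := by
    change L.Phi d (L.emb 0) ∈ M
    rw [emb_zero, map_zero]; exact M.zero_mem
  smul_mem' := fun s u hu => by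
    change L.Phi d (L.emb (s • u)) ∈ M
    rw [emb_smul, map_smul]; exact M.smul_mem _ hu

/-- the part of the lattice with vanishing zeroth coordinate -/
def lat0 (M : Submodule T (J → T)) : Submodule S (Fin (d + 1) × J → S) where
  carrier := {u | L.Phi d (L.emb u) ∈ M ∧ ∀ j, u (0, j) = 0}
  add_mem' := fun {u u'} hu hu' =>
    ⟨(L.lat d M).add_mem hu.1 hu'.1, fun j => by simp [hu.2 j, hu'.2 j]⟩
  zero_mem' := ⟨(L.lat d M).zero_mem, fun j => rfl⟩
  smul_mem' := fun s u hu => ⟨(L.lat d M).smul_mem s hu.1, fun j => by simp [hu.2 j]⟩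

theorem lat0_le (M : Submodule T (J → T)) : L.lat0 d M ≤ L.lat d M := fun _ h => h.1

/-- shift down over `T`: `(w_a) ↦ (w_{a+1} t)` -/
def dnT (w : Fin (d + 1) × J → T) : Fin (d + 1) × J → T :=
  fun x => Fin.lastCases (motive := fun _ => T) 0 (fun b : Fin d => w (b.succ, x.2) * L.t) x.1

/-- shift down over `S` -/
def dnS (u : Fin (d + 1) × J → S) : Fin (d + 1) × J → S :=
  fun x => Fin.lastCases (motive := fun _ => S) 0 (fun b : Fin d => L.σ.symm (u (b.succ, x.2))) x.1

/-- shift up over `S` -/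
def upS (u : Fin (d + 1) × J → S) : Fin (d + 1) × J → S :=
  fun x => Fin.cases (motive := fun _ => S) 0 (fun b : Fin d => L.σ (u (b.castSucc, x.2))) x.1

theorem dnT_last (w : Fin (d + 1) × J → T) (j : J) : L.dnT d w (Fin.last d, j) = 0 := by
  simp [dnT]

theorem dnT_castSucc (w : Fin (d + 1) × J → T) (b : Fin d) (j : J) :
    L.dnT d w (b.castSucc, j) = w (b.succ, j) * L.t := by
  simp [dnT]

theorem dnS_last (w : Fin (d + 1) × J → S) (j : J) : L.dnS d w (Fin.last d, j) = 0 := by
  simp [dnS]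

theorem dnS_castSucc (w : Fin (d + 1) × J → S) (b : Fin d) (j : J) :
    L.dnS d w (b.castSucc, j) = L.σ.symm (w (b.succ, j)) := by
  simp [dnS]

theorem upS_zero (w : Fin (d + 1) × J → S) (j : J) : L.upS d w (0, j) = 0 := by
  simp [upS]

theorem upS_succ (w : Fin (d + 1) × J → S) (b : Fin d) (j : J) :
    L.upS d w (b.succ, j) = L.σ (w (b.castSucc, j)) := by
  simp [upS]

/-- `Ψ(w) = w - dn(w)` -/
def Psi : (Fin (d + 1) × J → T) →ₗ[T] (Fin (d + 1) × J → T) where
  toFun w := w - L.dnT d w
  map_add' w w' := by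
    funext ⟨a, j⟩
    refine Fin.lastCases ?_ (fun b => ?_) a
    · simp [dnT_last]
    · simp [dnT_castSucc, add_mul]; abel
  map_smul' x w := by
    funext ⟨a, j⟩
    refine Fin.lastCases ?_ (fun b => ?_) a
    · simp [dnT_last]
    · simp [dnT_castSucc, mul_sub, mul_assoc]

theorem Psi_apply (w : Fin (d + 1) × J → T) : L.Psi d w = w - L.dnT d w := rfl

theorem Psi_injective : Function.Injective (L.Psi (J := J) d) := by
  rw [← LinearMap.ker_eq_bot, LinearMap.ker_eq_bot']
  intro w hw
  have h : w = L.dnT d w := sub_eq_zero.1 hw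
  have key : ∀ (a : Fin (d + 1)) (j : J), w (a, j) = 0 := by
    intro a
    refine Fin.reverseInduction (motive := fun a => ∀ j : J, w (a, j) = 0) ?_ ?_ a
    · intro j
      rw [h, dnT_last]
    · intro b ih j
      rw [h, dnT_castSucc, ih, zero_mul]
  funext ⟨a, j⟩
  exact key a j

theorem Phi_Psi (w : Fin (d + 1) × J → T) (j : J) : L.Phi d (L.Psi d w) j = w (0, j) := by
  rw [Psi_apply, map_sub, Pi.sub_apply, Phi_apply, Phi_apply, Fin.sum_univ_succ,
    Fin.sum_univ_castSucc (n := d) (fun a => L.dnT d w (a, j) * L.tp a)]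
  simp only [dnT_castSucc, dnT_last, zero_mul, add_zero, Fin.val_zero, Nat.cast_zero, tp_zero,
    mul_one, Fin.val_succ, Fin.val_castSucc]
  have : ∀ b : Fin d, w (b.succ, j) * (L.t : T) * L.tp ((b : ℕ) : ℤ) =
      w (b.succ, j) * L.tp (((b : ℕ) + 1 : ℕ) : ℤ) := by
    intro b
    rw [mul_assoc, ← tp_one, ← tp_add]
    congr 2
    push_cast; ring
  simp only [this]
  abel

theorem cf_dnT (w : Fin (d + 1) × J → T) (k : ℤ) :
    L.cf (L.dnT d w) k = L.dnS d (L.cf w (k - 1)) := by
  funext ⟨a, j⟩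
  refine Fin.lastCases ?_ (fun b => ?_) a
  · simp [cf, dnT_last, dnS_last]
  · simp only [cf, dnT_castSucc, dnS_castSucc]
    rw [← tp_one, co_mul_tp]
    have : L.σp (-1) = L.σ.symm := by
      simp [σp]; rfl
    rw [this]

/-- shifting up -/
theorem Phi_upS (u : Fin (d + 1) × J → S) (hu : ∀ j, u (Fin.last d, j) = 0) :
    L.Phi d (L.emb (L.upS d u)) = L.tp 1 • L.Phi d (L.emb u) := by
  funext j
  rw [Pi.smul_apply, Phi_apply, Phi_apply, Fin.sum_univ_succ,
    Fin.sum_univ_castSucc (n := d) (fun a => L.emb u (a, j) * L.tp a)]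
  simp only [emb, upS_zero, upS_succ, hu, map_zero, zero_mul, zero_add, add_zero, Fin.val_succ,
    Fin.val_castSucc, smul_eq_mul, Finset.mul_sum]
  refine Finset.sum_congr rfl fun b _ => ?_
  rw [← mul_assoc, tp_one, L.comm, mul_assoc, ← tp_one, ← tp_add]
  congr 2
  push_cast; ring

theorem Phi_dnS (u : Fin (d + 1) × J → S) (hu : ∀ j, u (0, j) = 0) :
    L.tp 1 • L.Phi d (L.emb (L.dnS d u)) = L.Phi d (L.emb u) := by
  funext j
  rw [Pi.smul_apply, Phi_apply, Phi_apply,
    Fin.sum_univ_succ (n := d) (fun a => L.emb u (a, j) * L.tp a),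
    Fin.sum_univ_castSucc (n := d) (fun a => L.emb (L.dnS d u) (a, j) * L.tp a)]
  simp only [emb, dnS_last, dnS_castSucc, hu, map_zero, zero_mul, zero_add, add_zero, Fin.val_succ,
    Fin.val_castSucc, smul_eq_mul, Finset.mul_sum]
  refine Finset.sum_congr rfl fun b _ => ?_
  rw [← mul_assoc, tp_one, L.comm, mul_assoc, ← tp_one, ← tp_add, RingEquiv.apply_symm_apply]
  congr 2
  push_cast; ring

theorem Psi_emb_upS (u : Fin (d + 1) × J → S) (hu : ∀ j, u (Fin.last d, j) = 0) :
    L.Psi d (L.emb (L.upS d u)) = L.emb (L.upS d u) - L.tp 1 • L.emb u := by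
  rw [Psi_apply]
  congr 1
  funext ⟨a, j⟩
  refine Fin.lastCases ?_ (fun b => ?_) a
  · simp [dnT_last, emb, hu]
  · simp only [dnT_castSucc, emb, upS_succ, Pi.smul_apply, smul_eq_mul]
    rw [tp_one, L.comm]

theorem upS_mem_lat0 {M : Submodule T (J → T)} {u : Fin (d + 1) × J → S} (hu : u ∈ L.lat d M)
    (hu' : ∀ j, u (Fin.last d, j) = 0) : L.upS d u ∈ L.lat0 d M := by
  refine ⟨?_, fun j => L.upS_zero d u j⟩
  rw [L.Phi_upS d u hu']
  exact M.smul_mem _ hu

theorem dnS_mem_lat {M : Submodule T (J → T)} {u : Fin (d + 1) × J → S} (hu : u ∈ L.lat0 d M) :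
    L.dnS d u ∈ L.lat d M := by
  change L.Phi d (L.emb (L.dnS d u)) ∈ M
  have h1 := L.Phi_dnS d u hu.2
  have h2 : L.Phi d (L.emb (L.dnS d u)) = L.tp (-1) • L.Phi d (L.emb u) := by
    rw [← h1, ← mul_smul, tp_neg_mul, one_smul]
  rw [h2]
  exact M.smul_mem _ hu.1

theorem Psi_mem {M : Submodule T (J → T)} {w : Fin (d + 1) × J → T}
    (hw : w ∈ L.ind (L.lat0 d M)) : L.Psi d w ∈ L.ind (L.lat d M) := by
  intro k
  rw [Psi_apply, cf_sub, cf_dnT]
  exact (L.lat d M).sub_mem (hw k).1 (L.dnS_mem_lat d (hw _))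

theorem Phi_mem {M : Submodule T (J → T)} {w : Fin (d + 1) × J → T}
    (hw : w ∈ L.ind (L.lat d M)) : L.Phi d w ∈ M := by
  obtain ⟨s, hs⟩ := L.vec_expand w
  rw [hs, map_sum]
  refine M.sum_mem fun k _ => ?_
  rw [map_smul]
  exact M.smul_mem _ (hw k)

theorem emb_eq_zero_of_Phi {u : Fin (d + 1) × J → S} (h : L.Phi d (L.emb u) = 0) : u = 0 := by
  funext ⟨a, j⟩
  have h1 := L.co_Phi d (L.emb u) j (a : ℕ)
  rw [h] at h1
  simp only [Pi.zero_apply, map_zero, Finsupp.coe_zero, emb, co_ι, Finsupp.single_apply] at h1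
  rw [Finset.sum_eq_single a] at h1
  · simp only [sub_self, if_true] at h1
    have h2 := h1.symm
    rwa [map_eq_zero_iff _ (RingEquiv.injective _)] at h2
  · intro b _ hb
    have : ¬ ((0 : ℤ) = ((a : ℕ) : ℤ) - ((b : ℕ) : ℤ)) := by
      intro h0
      apply hb
      apply Fin.ext
      omega
    rw [if_neg this, map_zero]
  · intro h; exact absurd (Finset.mem_univ a) h

theorem ker_Phi_aux {M : Submodule T (J → T)} (r : ℕ) : ∀ (a : ℤ) (w : Fin (d + 1) × J → T),
    w ∈ L.ind (L.lat d M) → L.Phi d w = 0 → (∀ k, (k < a ∨ a + r < k) → L.cf w k = 0) →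
    ∃ w' ∈ L.ind (L.lat0 d M), L.Psi d w' = w := by
  induction r with
  | zero =>
    intro a w hw h0 hwin
    have h1 : w = L.tp a • L.emb (L.cf w a) := by
      apply L.cf_ext
      intro k
      rw [cf_tp_emb]
      split_ifs with hk
      · rw [hk]
      · apply hwin; push_cast; omega
    have h2 : L.cf w a = 0 := by
      apply L.emb_eq_zero_of_Phi d
      rw [h1, map_smul] at h0
      have h3 := congrArg (fun z => L.tp (-a) • z) h0
      simp only [← mul_smul, tp_neg_mul, one_smul, smul_zero] at h3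
      exact h3
    refine ⟨0, Submodule.zero_mem _, ?_⟩
    rw [map_zero, h1, h2, emb_zero, smul_zero]
  | succ r ih =>
    intro a w hw h0 hwin
    set b : ℤ := a + r + 1 with hb
    set u := L.cf w b with hu
    have huK : u ∈ L.lat d M := hw b
    have hlast : ∀ j, u (Fin.last d, j) = 0 := by
      intro j
      have h1 := L.co_Phi d w j (b + d)
      rw [h0] at h1
      simp only [Pi.zero_apply, map_zero, Finsupp.coe_zero] at h1
      rw [Finset.sum_eq_single (Fin.last d)] at h1
      · have h2 := h1.symm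
        rw [map_eq_zero_iff _ (RingEquiv.injective _), Fin.val_last] at h2
        have h3 : b + (d : ℤ) - (d : ℤ) = b := by ring
        rw [h3] at h2
        exact h2
      · intro c _ hc
        have hc' : (c : ℕ) < d := by
          rcases lt_or_eq_of_le (Nat.lt_succ_iff.1 c.2) with h | h
          · exact h
          · exact absurd (Fin.ext (by simpa using h)) hc
        have h2 : L.cf w (b + d - (c : ℕ)) = 0 := by
          apply hwin
          right
          push_cast
          omega
        have h3 := congrFun h2 (c, j)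
        change L.co (w (c, j)) (b + d - (c : ℕ)) = 0 at h3
        rw [h3, map_zero]
      · intro h; exact absurd (Finset.mem_univ _) h
    have hup := L.upS_mem_lat0 d huK hlast
    have e1 : L.tp (b - 1) • L.emb (L.upS d u) ∈ L.ind (L.lat0 d M) :=
      Submodule.smul_mem _ _ (L.emb_mem_ind hup)
    have h4 : L.Psi d (L.tp (b - 1) • L.emb (L.upS d u)) =
        L.tp (b - 1) • L.emb (L.upS d u) - L.tp b • L.emb u := by
      rw [map_smul, L.Psi_emb_upS d u hlast, smul_sub, ← mul_smul, ← tp_add]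
      congr 3
      ring
    obtain ⟨w'', hw'', hw2⟩ := ih a (w + L.Psi d (L.tp (b - 1) • L.emb (L.upS d u)))
      (Submodule.add_mem _ hw (L.Psi_mem d e1)) (by
        rw [map_add, h0, zero_add]
        funext j
        rw [Phi_Psi]
        simp [emb, upS_zero]) (by
        intro k hk
        rw [h4, cf_add, cf_sub, cf_tp_emb, cf_tp_emb]
        have hk1 : ¬ (k = b - 1) := by omega
        rw [if_neg hk1]
        by_cases hkb : k = b
        · rw [if_pos hkb, hkb, ← hu]; abel
        · rw [if_neg hkb, hwin k (by push_cast; omega)]; abel)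
    refine ⟨w'' - L.tp (b - 1) • L.emb (L.upS d u), Submodule.sub_mem _ hw'' e1, ?_⟩
    rw [map_sub, hw2]
    abel

/-- Resolution of a submodule of a free `T`-module generated by a lattice. -/
theorem hasRes_of_lat {n : ℕ} {M : Submodule T (J → T)}
    (hgen : M ≤ Submodule.span T (Set.range fun u : L.lat d M => L.Phi d (L.emb (u : _ → S))))
    (h1 : HasRes (RingHom.id S) n (L.lat d M)) (h2 : HasRes (RingHom.id S) n (L.lat0 d M)) :
    HasRes L.ι (n + 1) M := by
  refine HasRes.coker
    ((L.Psi d).restrict (p := L.ind (L.lat0 d M)) (q := L.ind (L.lat d M))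
      (fun w hw => L.Psi_mem d hw))
    ((L.Phi d).restrict (p := L.ind (L.lat d M)) (q := M) (fun w hw => L.Phi_mem d hw))
    ?_ ?_ ?_ (L.ind_hasRes _ h2) (L.ind_hasRes _ h1)
  · intro x y hxy
    apply Subtype.ext
    exact L.Psi_injective d (congrArg Subtype.val hxy)
  · rintro ⟨m, hm⟩
    have h3 : M ≤ (L.ind (L.lat d M)).map (L.Phi d) := by
      refine hgen.trans ?_
      rw [Submodule.span_le]
      rintro _ ⟨u, rfl⟩
      exact ⟨L.emb u, L.emb_mem_ind u.2, rfl⟩
    obtain ⟨w, hw, hwm⟩ := h3 hm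
    exact ⟨⟨w, hw⟩, Subtype.ext hwm⟩
  · ext ⟨w, hw⟩
    rw [LinearMap.mem_range, LinearMap.mem_ker]
    constructor
    · rintro ⟨⟨w', hw'⟩, h⟩
      have h4 : L.Psi d w' = w := congrArg Subtype.val h
      subst h4
      apply Subtype.ext
      change L.Phi d (L.Psi d w') = 0
      funext j
      rw [Phi_Psi]
      obtain ⟨s, hs⟩ := L.vec_expand w'
      apply L.co_injective
      ext k
      have := (hw' k).2 j
      simpa [cf] using this
    · intro h
      have h5 : L.Phi d w = 0 := congrArg Subtype.val h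
      obtain ⟨a, r, hwin⟩ := L.exists_window w
      obtain ⟨w', hw', hww⟩ := L.ker_Phi_aux d r a w hw h5 hwin
      exact ⟨⟨w', hw'⟩, Subtype.ext hww⟩

end MV

end LaurentExt

end Pool.Agent.Lib.MP_c052b4_al
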