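import Pool.Agent.Lib.MP_c052b4_al.GroupLaurent
import Pool.Agent.Lib.MP_c052b4_al.LaurentReg

/-!
# Transport along ring isomorphisms; groups whose group rings are covered
-/

set_option autoImplicit false

namespace Pool.Agent.Lib.MP_c052b4_al

open Matrix

universe u v w

section Transport

variable {S : Type u} {T : Type v} [Ring S] [Ring T] (f : S ≃+* T)

theorem KZero.map_ringEquiv_surjective :
    Function.Surjective (KZero.map (f : S →+* T)) := by
  intro x
  refine ⟨KZero.map (f.symm : T →+* S) x, ?_⟩
  rw [← KZero.map_comp]
  have : ((f : S →+* T).comp (f.symm : T →+* S)) = RingHom.id T := by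
    ext x; simp
  rw [this, KZero.map_id]

theorem good_of_equiv {M : Type*} [AddCommGroup M] [Module T M] [Module.Finite T M]
    [Module.Projective T M] : Good (f : S →+* T) M := by
  obtain ⟨p, ⟨g⟩⟩ := exists_idemMat (S := T) (M := M)
  rw [good_iff p.idem g]
  exact KZero.map_ringEquiv_surjective f _

/-- transport of a submodule of a free module -/
def tr {I : Type*} (K : Submodule S (I → S)) : Submodule T (I → T) where
  carrier := {w | (fun i => f.symm (w i)) ∈ K}
  add_mem' := fun {w w'} hw hw' => by
    have := K.add_mem hw hw'
    have h : (fun i => f.symm ((w + w') i)) = (fun i => f.symm (w i)) + fun i => f.symm (w' i) := by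
      funext i; simp
    change (fun i => f.symm ((w + w') i)) ∈ K
    rw [h]; exact this
  zero_mem' := by
    have h : (fun i => f.symm ((0 : I → T) i)) = (0 : I → S) := by funext i; simp
    change (fun i => f.symm ((0 : I → T) i)) ∈ K
    rw [h]; exact K.zero_mem
  smul_mem' := fun t w hw => by
    have := K.smul_mem (f.symm t) hw
    have h : (fun i => f.symm ((t • w) i)) = f.symm t • fun i => f.symm (w i) := by
      funext i; simp
    change (fun i => f.symm ((t • w) i)) ∈ K
    rw [h]; exact this

theorem mem_tr {I : Type*} {K : Submodule S (I → S)} {w : I → T} :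
    w ∈ tr f K ↔ (fun i => f.symm (w i)) ∈ K := Iff.rfl

theorem exists_tr {I : Type*} (M : Submodule T (I → T)) : ∃ K : Submodule S (I → S),
    tr f K = M := by
  refine ⟨tr f.symm M, ?_⟩
  ext w
  rw [mem_tr, mem_tr]
  simp

/-- the semilinear equivalence -/
def trEquiv {I : Type*} (K : Submodule S (I → S)) :
    letI := RingHomInvPair.of_ringEquiv f
    letI := RingHomInvPair.symm (f : S →+* T) (f.symm : T →+* S)
    K ≃ₛₗ[(f : S →+* T)] tr f K :=
  letI := RingHomInvPair.of_ringEquiv f
  letI := RingHomInvPair.symm (f : S →+* T) (f.symm : T →+* S)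
  { toFun := fun v => ⟨fun i => f ((v : I → S) i), by rw [mem_tr]; simp⟩
    invFun := fun w => ⟨fun i => f.symm ((w : I → T) i), w.2⟩
    map_add' := fun v v' => by apply Subtype.ext; funext i; simp
    map_smul' := fun s v => by apply Subtype.ext; funext i; simp
    left_inv := fun v => by apply Subtype.ext; funext i; simp
    right_inv := fun v => by apply Subtype.ext; funext i; simp }

theorem tr_projective {I : Type*} (K : Submodule S (I → S)) [Module.Projective S K] :
    Module.Projective T (tr f K) := by
  letI := RingHomInvPair.of_ringEquiv f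
  letI := RingHomInvPair.symm (f : S →+* T) (f.symm : T →+* S)
  exact Module.Projective.of_equiv (trEquiv f K)

theorem tr_cover {I : Type*} (K : Submodule S (I → S)) {m : ℕ} (g : (Fin m → S) →ₗ[S] K)
    (hg : Function.Surjective g) : ∃ g' : (Fin m → T) →ₗ[T] tr f K, Function.Surjective g' ∧
      LinearMap.ker g' = tr f (LinearMap.ker g) := by
  let g' : (Fin m → T) →ₗ[T] tr f K :=
    { toFun := fun w => ⟨fun i => f ((g (fun j => f.symm (w j)) : I → S) i), by
        rw [mem_tr]; simp⟩
      map_add' := fun w w' => by
        apply Subtype.ext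
        funext i
        have : (fun j => f.symm ((w + w') j)) =
          (fun j => f.symm (w j)) + fun j => f.symm (w' j) := by funext j; simp
        simp only [this, map_add]
        simp
      map_smul' := fun t w => by
        apply Subtype.ext
        funext i
        have : (fun j => f.symm ((t • w) j)) = f.symm t • fun j => f.symm (w j) := by
          funext j; simp
        simp only [this, map_smul]
        simp }
  have hg' : ∀ w i, (g' w : I → T) i = f ((g (fun j => f.symm (w j)) : I → S) i) :=
    fun _ _ => rfl
  refine ⟨g', ?_, ?_⟩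
  · rintro ⟨w, hw⟩
    obtain ⟨v, hv⟩ := hg ⟨_, hw⟩
    refine ⟨fun j => f (v j), ?_⟩
    apply Subtype.ext
    funext i
    rw [hg']
    have : (fun j => f.symm (f (v j))) = v := by funext j; simp
    rw [this, hv]
    simp
  · ext w
    rw [LinearMap.mem_ker, mem_tr, LinearMap.mem_ker]
    constructor
    · intro h
      apply Subtype.ext
      funext i
      have := congrFun (congrArg Subtype.val h) i
      rw [hg'] at this
      apply f.injective
      rw [this]
      simp
    · intro h
      apply Subtype.ext
      funext i
      rw [hg', h]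
      simp

theorem tr_hasRes {n : ℕ} : ∀ {I : Type} [Finite I] (K : Submodule S (I → S)),
    HasRes (RingHom.id S) n K → HasRes (f : S →+* T) n (tr f K) := by
  induction n with
  | zero =>
    intro I _ K h
    have h' : Good (RingHom.id S) K := h
    have := h'.finite
    have := h'.projective
    obtain ⟨m, g, hg⟩ := Module.Finite.exists_fin' S K
    obtain ⟨g', hg', -⟩ := tr_cover f K g hg
    have := Module.Finite.of_surjective g' hg'
    have := tr_projective f K
    exact (good_of_equiv f : Good (f : S →+* T) (tr f K))
  | succ n ih =>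
    intro I _ K h
    obtain ⟨m, g, hg, h⟩ := h
    obtain ⟨g', hg', hk⟩ := tr_cover f K g hg
    exact ⟨m, g', hg', by rw [hk]; exact ih _ h⟩

include f in
/-- Regularity is invariant under ring isomorphisms. -/
theorem IsRegularRing.of_ringEquiv (hS : IsRegularRing S) : IsRegularRing T := by
  have hN : IsNoetherianRing S := hS.1
  refine isRegularRing_of_hasRes (φ := (f : S →+* T)) (isNoetherianRing_of_ringEquiv S f) ?_
  intro n M
  obtain ⟨K, rfl⟩ := exists_tr f M
  obtain ⟨k, hk⟩ := hS.hasRes K
  exact ⟨k, tr_hasRes f K hk⟩

end Transport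

/-- A group is nice with respect to `R` if the group ring `R[G]` is regular and
`K₀(R) → K₀(R[G])` is surjective. -/
structure NiceGroup (R : Type u) [Ring R] (G : Type v) [Group G] : Prop where
  reg : IsRegularRing (MonoidAlgebra R G)
  surj : Function.Surjective
    (KZero.map (MonoidAlgebra.singleOneRingHom : R →+* MonoidAlgebra R G))

section Nice

variable {R : Type u} [Ring R] {N : Type v} {G : Type w} [Group N] [Group G]

theorem singleOne_comp (f : N →* G) :
    (MonoidAlgebra.mapDomainRingHom R f).comp
      (MonoidAlgebra.singleOneRingHom : R →+* MonoidAlgebra R N) =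
      (MonoidAlgebra.singleOneRingHom : R →+* MonoidAlgebra R G) := by
  ext r g
  simp

theorem NiceGroup.of_cycExt (C : CycExt N G) (h : NiceGroup R N) : NiceGroup R G := by
  refine ⟨(C.laurent R).isRegularRing h.reg, ?_⟩
  rw [← singleOne_comp (R := R) C.i]
  exact KZero.map_surjective_comp h.surj ((C.laurent R).map_surjective h.reg)

theorem NiceGroup.of_mulEquiv (e : N ≃* G) (h : NiceGroup R N) : NiceGroup R G := by
  refine ⟨h.reg.of_ringEquiv (MonoidAlgebra.mapDomainRingEquiv R e), ?_⟩
  rw [← singleOne_comp (R := R) (e : N →* G)]
  refine KZero.map_surjective_comp h.surj ?_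
  have := KZero.map_ringEquiv_surjective (MonoidAlgebra.mapDomainRingEquiv R e)
  convert this using 3
  ext <;> simp

theorem NiceGroup.of_subsingleton (hR : IsRegularRing R) [Subsingleton G] : NiceGroup R G := by
  refine ⟨hR.of_ringEquiv (MonoidAlgebra.uniqueRingEquiv G).symm, ?_⟩
  have := KZero.map_ringEquiv_surjective (MonoidAlgebra.uniqueRingEquiv (R := R) G).symm
  convert this using 3
  ext r g
  simp

end Nice

end Pool.Agent.Lib.MP_c052b4_al
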