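import Pool.Agent.Lib.MP_c052b4_al.GroupMat

/-!
# Idempotents supported on a subgroup and one further element
-/

set_option autoImplicit false
set_option linter.unusedSectionVars false

namespace Pool.Agent.Lib.MP_c052b4_al

open Matrix

universe u v w

section Alg

variable {S : Type u} [Ring S]

theorem alg_lift {e y : S} (h1 : e * e + y * y = e) (h2 : e * y + y * e = y)
    (h3 : y * y * y = 0) :
    (3 * (e * e) - 2 * (e * e * e)) * (3 * (e * e) - 2 * (e * e * e)) =
      3 * (e * e) - 2 * (e * e * e) ∧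
    (e + y - (3 * (e * e) - 2 * (e * e * e))) * (e + y - (3 * (e * e) - 2 * (e * e * e))) =
      y * y := by
  have h4 : e * e - e = -(y * y) := by
    have : e * e = e - y * y := by rw [eq_sub_iff_add_eq]; exact h1
    rw [this]; abel
  have hy4 : y * y * (y * y) = 0 := by rw [← mul_assoc, h3, zero_mul]
  constructor
  · have id1 : (3 * (e * e) - 2 * (e * e * e)) * (3 * (e * e) - 2 * (e * e * e)) -
        (3 * (e * e) - 2 * (e * e * e)) =
        (e * e - e) * (e * e - e) * (4 * (e * e) - 4 * e - 3) := by noncomm_ring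
    rw [h4] at id1
    rw [neg_mul_neg, hy4, zero_mul, sub_eq_zero] at id1
    exact id1
  · have id2 : e - (3 * (e * e) - 2 * (e * e * e)) = -((e * e - e) * (1 - 2 * e)) := by
      noncomm_ring
    rw [h4] at id2
    have id3 : e + y - (3 * (e * e) - 2 * (e * e * e)) = y + y * y * (1 - 2 * e) := by
      have : e + y - (3 * (e * e) - 2 * (e * e * e)) =
        y + (e - (3 * (e * e) - 2 * (e * e * e))) := by abel
      rw [this, id2]
      noncomm_ring
    rw [id3]
    have a1 : (1 - 2 * e) * y = -(y * (1 - 2 * e)) := by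
      have : e * y = y - y * e := by rw [eq_sub_iff_add_eq]; exact h2
      have h5 : (1 - 2 * e) * y = y - 2 * (e * y) := by noncomm_ring
      rw [h5, this]
      noncomm_ring
    have a2 : y * y * (1 - 2 * e) * y = 0 := by
      rw [mul_assoc, a1, mul_neg, ← mul_assoc, h3, zero_mul, neg_zero]
    have a3 : y * (y * y * (1 - 2 * e)) = 0 := by
      rw [← mul_assoc, ← mul_assoc, h3, zero_mul]
    have a4 : y * y * (1 - 2 * e) * (y * y * (1 - 2 * e)) = 0 := by
      rw [mul_assoc y y (1 - 2 * e), ← mul_assoc (y * (y * (1 - 2 * e))), ← mul_assoc,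
        ← mul_assoc y y (1 - 2 * e), a2]
      simp
    rw [add_mul, mul_add, mul_add, a2, a3, a4]
    abel

theorem alg_cube {a E y : S} (h1 : (a + E) * (a + E) + y * y = a + E) (h7 : E * y = 0)
    (h4 : a * y + y * a = y) : y * y * y = a * y * a := by
  have b1 : y * y = (a + E) - (a + E) * (a + E) := by
    rw [eq_sub_iff_add_eq, add_comm]; exact h1
  have b2 : (a + E) * y = a * y := by rw [add_mul, h7, add_zero]
  have b3 : a * y = y - y * a := by rw [eq_sub_iff_add_eq, h4]
  have b4 : (a + E) * (a + E) * y = a * y - a * y * a := by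
    rw [mul_assoc, b2]
    nth_rewrite 1 [b3]
    rw [mul_sub, b2, ← mul_assoc, b2]
  rw [b1, sub_mul, b2, b4]
  abel

end Alg

section OneExtra

variable {R : Type u} [Ring R] {G : Type v} [Group G] {n : Type w} [Fintype n]

theorem SI.congr {e f : Matrix n n (MonoidAlgebra R G)} (he : e * e = e) (hf : f * f = f)
    (h : MvN e f) (h1 : SI f) : SI e :=
  StabInd.congr hf he h.symm h1

theorem si_one_extra (htf : TorsionfreeGroup G) (N : Subgroup G)
    (hN : Function.Surjective
      (KZero.map (MonoidAlgebra.singleOneRingHom : R →+* MonoidAlgebra R N)))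
    {c : G} (hc : c ∉ N) {A C : Matrix n n R} {E : Matrix n n (MonoidAlgebra R G)} {S : Set G}
    (hSN : S ⊆ N) (hS1 : (1 : G) ∉ S) (hE : SuppIn S E)
    (hcS : c * c ∈ N → ∀ a ∈ S, ∀ b ∈ S, a * c ≠ c * b)
    (he : (ms 1 A + E + ms c C) * (ms 1 A + E + ms c C) = ms 1 A + E + ms c C) :
    SI (ms 1 A + E + ms c C) := by
  classical
  set a : Matrix n n (MonoidAlgebra R G) := ms 1 A with ha
  set y : Matrix n n (MonoidAlgebra R G) := ms c C with hy
  have haS : SuppIn ({1} : Set G) a := suppIn_ms (Set.mem_singleton _) A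
  have hyS : SuppIn ({c} : Set G) y := suppIn_ms (Set.mem_singleton _) C
  have haN : SuppIn (N : Set G) a := haS.mono (by rintro _ rfl; exact N.one_mem)
  have hEN : SuppIn (N : Set G) E := hE.mono hSN
  set e0 := a + E with he0
  have he0N : SuppIn (N : Set G) e0 := haN.add hEN
  have he00N : SuppIn (N : Set G) (e0 * e0) := he0N.mul he0N fun x hx y hy => N.mul_mem hx hy
  have hexp : (e0 + y) * (e0 + y) = e0 * e0 + (e0 * y + y * e0) + y * y := by noncomm_ring
  rw [hexp] at he
  -- the set `Nc ∪ cN`
  let B : Set G := {k | k * c⁻¹ ∈ N} ∪ {k | c⁻¹ * k ∈ N}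
  have hBN : ∀ x ∈ (N : Set G), x ∉ B := by
    rintro x hx (h | h)
    · apply hc
      have h1 : (x * c⁻¹) ∈ N := h
      have h2 := N.mul_mem (N.inv_mem h1) hx
      simpa using h2
    · apply hc
      have h1 : (c⁻¹ * x) ∈ N := h
      have h2 := N.mul_mem hx (N.inv_mem h1)
      simpa using h2
  have hyB : SuppIn B y := hyS.mono (by
    rintro _ rfl
    left
    change _ * _ ∈ N
    rw [mul_inv_cancel]; exact N.one_mem)
  have hmid : SuppIn B (e0 * y + y * e0) := by
    refine SuppIn.add (he0N.mul hyS ?_) (hyS.mul he0N ?_)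
    · rintro x hx _ rfl
      left
      change _ * _ ∈ N
      rw [mul_inv_cancel_right]; exact hx
    · rintro _ rfl x hx
      right
      change _ * _ ∈ N
      rw [inv_mul_cancel_left]; exact hx
  have hyyS : SuppIn ({c * c} : Set G) (y * y) := hyS.mul hyS (by rintro _ rfl _ rfl; rfl)
  have hccB : c * c ∉ B := by
    rintro (h | h)
    · apply hc
      have h1 : c * c * c⁻¹ ∈ N := h
      simpa using h1
    · apply hc
      have h1 : c⁻¹ * (c * c) ∈ N := h
      simpa using h1
  by_cases hcc : c * c ∈ N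
  · have hyyN : SuppIn (N : Set G) (y * y) := hyyS.mono (by rintro _ rfl; exact hcc)
    have h0 : (e0 * e0 + y * y) + (e0 * y + y * e0) = e0 + y := by rw [← he]; abel
    obtain ⟨h1, h2⟩ := suppIn_split hBN (he00N.add hyyN) he0N hmid hyB h0
    -- split further
    let D : Set G := {k | k * c⁻¹ ∈ S} ∪ {k | c⁻¹ * k ∈ S}
    have hcD : ∀ x ∈ ({c} : Set G), x ∉ D := by
      intro x hx h
      rw [Set.mem_singleton_iff] at hx
      rw [hx] at h
      rcases h with h | h
      · apply hS1
        have h3 : c * c⁻¹ ∈ S := h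
        simpa using h3
      · apply hS1
        have h3 : c⁻¹ * c ∈ S := h
        simpa using h3
    have h3 : (a * y + y * a) + (E * y + y * E) = y + 0 := by
      rw [add_zero]
      refine Eq.trans ?_ h2
      rw [he0]; noncomm_ring
    have hA1 : SuppIn ({c} : Set G) (a * y + y * a) := by
      refine SuppIn.add (haS.mul hyS ?_) (hyS.mul haS ?_)
      · rintro _ rfl _ rfl; exact one_mul _
      · rintro _ rfl _ rfl; exact mul_one _
    have hEy : SuppIn {k | k * c⁻¹ ∈ S} (E * y) := hE.mul hyS (by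
      rintro x hx _ rfl
      change _ * _ ∈ S
      rw [mul_inv_cancel_right]; exact hx)
    have hyE : SuppIn {k | c⁻¹ * k ∈ S} (y * E) := hyS.mul hE (by
      rintro _ rfl x hx
      change _ * _ ∈ S
      rw [inv_mul_cancel_left]; exact hx)
    have hD1 : SuppIn D (E * y + y * E) :=
      (hEy.mono Set.subset_union_left).add (hyE.mono Set.subset_union_right)
    obtain ⟨h4, h5⟩ := suppIn_split hcD hA1 hyS hD1 (suppIn_zero D) h3
    have h6 : E * y + y * E = 0 + 0 := by rw [h5, add_zero]
    have hdis : ∀ x ∈ {k | k * c⁻¹ ∈ S}, x ∉ {k | c⁻¹ * k ∈ S} := by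
      intro x hx hx'
      have hx1 : x * c⁻¹ ∈ S := hx
      have hx2 : c⁻¹ * x ∈ S := hx'
      apply hcS hcc _ hx1 _ hx2
      rw [inv_mul_cancel_right, mul_inv_cancel_left]
    obtain ⟨h7, h8⟩ := suppIn_split hdis hEy (suppIn_zero _) hyE (suppIn_zero _) h6
    -- the cube of `y`
    have h9 : y * y * y = a * y * a := alg_cube h1 h7 h4
    have hccc : ∀ x ∈ ({c * c * c} : Set G), x ∉ ({c} : Set G) := by
      rintro _ rfl h
      have h10 : c * c * c = c := h
      have h11 : c * c = 1 := by simpa using h10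
      have h12 := htf c 2 (by norm_num) (by rw [pow_two]; exact h11)
      exact hc (h12 ▸ N.one_mem)
    have h13 : y * y * y + 0 = 0 + a * y * a := by rw [h9]; abel
    obtain ⟨h14, -⟩ := suppIn_split hccc (hyyS.mul hyS (by rintro _ rfl _ rfl; rfl))
      (suppIn_zero _) (suppIn_zero _) ((haS.mul hyS (W := {c})
        (by rintro _ rfl _ rfl; exact one_mul _)).mul haS
        (by rintro _ rfl _ rfl; exact mul_one _)) h13
    obtain ⟨h15, h16⟩ := alg_lift h1 h2 h14
    set f := 3 * (e0 * e0) - 2 * (e0 * e0 * e0) with hf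
    have hfN : SuppIn (N : Set G) f := by
      have k1 := he00N.mul he0N fun x hx y hy => N.mul_mem hx hy
      have k2 : f = e0 * e0 + e0 * e0 + e0 * e0 - (e0 * e0 * e0 + e0 * e0 * e0) := by
        rw [hf]; noncomm_ring
      rw [k2]
      exact ((he00N.add he00N).add he00N).sub (k1.add k1)
    have he' : (e0 + y) * (e0 + y) = e0 + y := by rw [hexp]; exact he
    refine SI.congr he' h15 (mvN_of_nilpotent he' h15 ?_) (si_of_subgroup N hN h15 hfN)
    rw [h16]
    exact ⟨2, by rw [pow_two, ← mul_assoc, h14, zero_mul]⟩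
  · have h0 : e0 * e0 + (e0 * y + y * e0 + y * y) = e0 + y := by rw [← he]; abel
    have hN2 : ∀ x ∈ (N : Set G), x ∉ B ∪ {c * c} := by
      rintro x hx (h | h)
      · exact hBN x hx h
      · have : x = c * c := h
        exact hcc (this ▸ hx)
    obtain ⟨h1, h2⟩ := suppIn_split hN2 he00N he0N
      ((hmid.mono Set.subset_union_left).add (hyyS.mono Set.subset_union_right))
      (hyB.mono Set.subset_union_left) h0
    have h3 : (e0 * y + y * e0) + y * y = y + 0 := by rw [h2, add_zero]
    have hB2 : ∀ x ∈ B, x ∉ ({c * c} : Set G) := by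
      intro x hx h
      have : x = c * c := h
      exact hccB (this ▸ hx)
    obtain ⟨-, h4⟩ := suppIn_split hB2 hmid hyB hyyS (suppIn_zero _) h3
    have he' : (e0 + y) * (e0 + y) = e0 + y := by rw [hexp]; exact he
    refine SI.congr he' h1 (mvN_of_nilpotent he' h1 ?_) (si_of_subgroup N hN h1 he0N)
    rw [add_sub_cancel_left, h4]
    exact ⟨1, by simp⟩

end OneExtra

end Pool.Agent.Lib.MP_c052b4_al
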