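import Pool.Agent.Lib.MP_c052b4_al.OneExtra

/-!
# Product free supports and supports of the form `{1, g, h, gh}`
-/

set_option autoImplicit false
set_option linter.unusedSectionVars false

namespace Pool.Agent.Lib.MP_c052b4_al

open Matrix

universe u v w

variable {R : Type u} [Ring R] {G : Type v} [Group G] {n : Type w} [Fintype n]

theorem ms_one_idem {A : Matrix n n R} (hA : (ms (1 : G) A) * ms 1 A = ms 1 A) : A * A = A := by
  rw [ms_mul, one_mul] at hA
  have := congrArg (mcf 1) hA
  rwa [mcf_ms_self, mcf_ms_self] at this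

theorem si_of_nilp {A : Matrix n n R} {E : Matrix n n (MonoidAlgebra R G)}
    (he : (ms 1 A + E) * (ms 1 A + E) = ms 1 A + E)
    (hA : (ms (1 : G) A) * ms 1 A = ms 1 A) (hE : E * E * (E * E) = 0) : SI (ms 1 A + E) := by
  classical
  refine SI.congr he hA (mvN_of_nilpotent he hA ?_) (si_const (ms_one_idem hA))
  rw [add_sub_cancel_left]
  exact ⟨2, by rw [pow_two, hE]⟩

/-- Product free supports. -/
theorem si_productFree {X : Set G} (h1 : (1 : G) ∉ X)
    (hX : ∀ a ∈ X, ∀ b ∈ X, a * b ≠ 1 ∧ a * b ∉ X) {A : Matrix n n R}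
    {E : Matrix n n (MonoidAlgebra R G)} (hE : SuppIn X E)
    (he : (ms 1 A + E) * (ms 1 A + E) = ms 1 A + E) : SI (ms 1 A + E) := by
  set a : Matrix n n (MonoidAlgebra R G) := ms 1 A with ha
  have haS : SuppIn ({1} : Set G) a := suppIn_ms (Set.mem_singleton _) A
  have hexp : (a + E) * (a + E) = a * a + ((a * E + E * a) + E * E) := by noncomm_ring
  have haa : SuppIn ({1} : Set G) (a * a) := haS.mul haS (by rintro _ rfl _ rfl; exact one_mul _)
  have haE : SuppIn X (a * E + E * a) := by
    refine SuppIn.add (haS.mul hE ?_) (hE.mul haS ?_)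
    · rintro _ rfl x hx; rw [one_mul]; exact hx
    · rintro x hx _ rfl; rw [mul_one]; exact hx
  let Y : Set G := {k | k ≠ 1 ∧ k ∉ X}
  have hEE : SuppIn Y (E * E) := hE.mul hE fun x hx y hy => hX x hx y hy
  have h2 : a * a + ((a * E + E * a) + E * E) = a + E := by rw [← hexp]; exact he
  obtain ⟨h3, h4⟩ := suppIn_split (A := {1}) (B := X ∪ Y) (by
    rintro _ rfl (h | h)
    · exact h1 h
    · exact h.1 rfl) haa haS
    ((haE.mono Set.subset_union_left).add (hEE.mono Set.subset_union_right))
    (hE.mono Set.subset_union_left) h2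
  have h5 : (a * E + E * a) + E * E = E + 0 := by rw [h4, add_zero]
  obtain ⟨-, h6⟩ := suppIn_split (A := X) (B := Y) (fun x hx hx' => hx'.2 hx) haE hE hEE
    (suppIn_zero _) h5
  refine si_of_nilp he h3 ?_
  rw [h6, zero_mul]

theorem si_gh (htf : TorsionfreeGroup G) {g h : G} (hg : g ≠ 1) (hh : h ≠ 1) (hne : g ≠ h)
    (hgh1 : g * h ≠ 1) (hc : g * h ≠ h * g) (hk1 : h * (g * h) ≠ g) (hk2 : g * h * g ≠ h)
    {A B C D : Matrix n n R}
    (he : (ms 1 A + (ms g B + ms h C + ms (g * h) D)) *
      (ms 1 A + (ms g B + ms h C + ms (g * h) D)) = ms 1 A + (ms g B + ms h C + ms (g * h) D)) :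
    SI (ms 1 A + (ms g B + ms h C + ms (g * h) D)) := by
  classical
  have hgg : g * g ≠ 1 := fun h0 => hg (htf g 2 (by norm_num) (by rw [pow_two]; exact h0))
  have hhh : h * h ≠ 1 := fun h0 => hh (htf h 2 (by norm_num) (by rw [pow_two]; exact h0))
  have hghgh : g * h * (g * h) ≠ 1 :=
    fun h0 => hgh1 (htf (g * h) 2 (by norm_num) (by rw [pow_two]; exact h0))
  have c1 : g * (g * h) ≠ 1 := by
    intro h0
    rw [← mul_assoc] at h0
    have h1 : h = (g * g)⁻¹ := eq_inv_of_mul_eq_one_right h0
    apply hc; rw [h1]; group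
  have c2 : h * g ≠ 1 := by
    intro h0
    have h1 : h = g⁻¹ := eq_inv_of_mul_eq_one_left h0
    apply hc; rw [h1]; group
  have c3 : h * (g * h) ≠ 1 := by
    intro h0
    have h1 : g * h = h⁻¹ := eq_inv_of_mul_eq_one_right h0
    have h2 : g = h⁻¹ * h⁻¹ := by
      calc g = (g * h) * h⁻¹ := by group
        _ = h⁻¹ * h⁻¹ := by rw [h1]
    apply hc; rw [h2]; group
  have c4 : g * h * g ≠ 1 := by
    intro h0
    have h1 : g * h = g⁻¹ := eq_inv_of_mul_eq_one_left h0
    have h2 : h = g⁻¹ * g⁻¹ := by
      calc h = g⁻¹ * (g * h) := by group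
        _ = g⁻¹ * g⁻¹ := by rw [h1]
    apply hc; rw [h2]; group
  have c5 : g * (h * h) ≠ 1 := by
    intro h0
    have h1 : g = (h * h)⁻¹ := eq_inv_of_mul_eq_one_left h0
    apply hc; rw [h1]; group
  have c6 : h * h ≠ g := by
    intro h0; apply hc; rw [← h0]; group
  have c7 : g * g ≠ h := by
    intro h0; apply hc; rw [← h0]; group
  let W : Set G := {g * g, g * (g * h), h * g, h * h, h * (g * h), g * h * g, g * h * h,
    g * h * (g * h)}
  have hW : ∀ k ∈ W, k ≠ 1 ∧ k ≠ g ∧ k ≠ h ∧ k ≠ g * h := by
    rintro k (rfl | rfl | rfl | rfl | rfl | rfl | rfl | rfl)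
    · exact ⟨hgg, by simpa using hg, c7, by simpa using hne⟩
    · refine ⟨c1, by simpa using hgh1, ?_, by simpa using hg⟩
      intro h0; rw [← mul_assoc] at h0; exact hgg (by simpa using h0)
    · exact ⟨c2, by simpa using hh, by simpa using hg, hc.symm⟩
    · exact ⟨hhh, c6, by simpa using hh, by simpa using hne.symm⟩
    · exact ⟨c3, hk1, by simpa using hgh1, by simpa using hh⟩
    · exact ⟨c4, by simpa using hgh1, hk2, by simpa using hg⟩
    · refine ⟨by rw [mul_assoc]; exact c5, ?_, by simpa using hgh1, by simpa using hh⟩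
      intro h0; rw [mul_assoc] at h0; exact hhh (by simpa using h0)
    · refine ⟨hghgh, ?_, ?_, by simpa using hgh1⟩
      · intro h0; rw [mul_assoc] at h0; exact c3 (by simpa using h0)
      · intro h0; rw [← mul_assoc] at h0; exact c4 (by simpa using h0)
  set a : Matrix n n (MonoidAlgebra R G) := ms 1 A with ha
  set E : Matrix n n (MonoidAlgebra R G) := ms g B + ms h C + ms (g * h) D with hE
  let Z : Matrix n n (MonoidAlgebra R G) := ms (g * g) (B * B) + ms (g * (g * h)) (B * D) +
    ms (h * g) (C * B) + ms (h * h) (C * C) + ms (h * (g * h)) (C * D) + ms (g * h * g) (D * B) +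
    ms (g * h * h) (D * C) + ms (g * h * (g * h)) (D * D)
  have hEE : E * E = ms (g * h) (B * C) + Z := by
    simp only [hE, add_mul, mul_add, ms_mul, Z]
    abel
  have hZ : SuppIn W Z := by
    refine SuppIn.add (SuppIn.add (SuppIn.add (SuppIn.add (SuppIn.add (SuppIn.add (SuppIn.add
      ?_ ?_) ?_) ?_) ?_) ?_) ?_) ?_ <;> exact suppIn_ms (by simp [W]) _
  let X : Set G := {g, h, g * h}
  have hEX : SuppIn X E := by
    refine SuppIn.add (SuppIn.add ?_ ?_) ?_ <;> exact suppIn_ms (by simp [X]) _
  have haS : SuppIn ({1} : Set G) a := suppIn_ms (Set.mem_singleton _) A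
  have haa : SuppIn ({1} : Set G) (a * a) := haS.mul haS (by rintro _ rfl _ rfl; exact one_mul _)
  have haE : SuppIn X (a * E + E * a) := by
    refine SuppIn.add (haS.mul hEX ?_) (hEX.mul haS ?_)
    · rintro _ rfl x hx; rw [one_mul]; exact hx
    · rintro x hx _ rfl; rw [mul_one]; exact hx
  have hBC : SuppIn X (ms (g * h) (B * C)) := suppIn_ms (by simp [X]) _
  have h2 : a * a + ((a * E + E * a + ms (g * h) (B * C)) + Z) = a + E := by
    refine Eq.trans ?_ he
    have : (a + E) * (a + E) = a * a + (a * E + E * a) + E * E := by noncomm_ring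
    rw [this, hEE]
    abel
  have h1XW : (1 : G) ∉ X ∪ W := by
    rintro (h0 | h0)
    · rcases h0 with h0 | h0 | h0
      · exact hg h0.symm
      · exact hh h0.symm
      · exact hgh1 h0.symm
    · exact (hW _ h0).1 rfl
  obtain ⟨h3, h4⟩ := suppIn_split (A := {1}) (B := X ∪ W) (by
    rintro _ rfl h0
    exact h1XW h0) haa haS
    (((haE.add hBC).mono Set.subset_union_left).add (hZ.mono Set.subset_union_right))
    (hEX.mono Set.subset_union_left) h2
  have h5 : (a * E + E * a + ms (g * h) (B * C)) + Z = E + 0 := by rw [h4, add_zero]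
  obtain ⟨-, h6⟩ := suppIn_split (A := X) (B := W) (by
    intro x hx hx'
    obtain ⟨-, k2, k3, k4⟩ := hW x hx'
    rcases hx with h0 | h0 | h0
    · exact k2 h0
    · exact k3 h0
    · exact k4 h0) (haE.add hBC) hEX hZ
    (suppIn_zero _) h5
  have h7 : E * E = ms (g * h) (B * C) := by rw [hEE, h6, add_zero]
  -- second phase
  have h8 : E * (E * E) = (E * E) * E := (mul_assoc _ _ _).symm
  rw [h7, hE] at h8
  simp only [add_mul, mul_add, ms_mul] at h8
  have s12 : g * (g * h) ≠ h * (g * h) := by simpa using hne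
  have s13 : g * (g * h) ≠ g * h * (g * h) := by
    intro h0; apply hh; simpa using h0
  have s14 : g * (g * h) ≠ g * h * g := by
    intro h0; rw [mul_assoc g h g] at h0; exact hc (mul_left_cancel h0)
  have s15 : g * (g * h) ≠ g * h * h := by
    intro h0; rw [mul_assoc g h h] at h0; exact hne (mul_right_cancel (mul_left_cancel h0))
  have s52 : g * h * h ≠ h * (g * h) := by
    intro h0; rw [← mul_assoc h g h] at h0; exact hc (mul_right_cancel h0)
  have s53 : g * h * h ≠ g * h * (g * h) := by
    intro h0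
    have h1 := mul_left_cancel h0
    exact hg (by simpa using h1)
  have s54 : g * h * h ≠ g * h * g := by
    intro h0; exact hne (mul_left_cancel h0).symm
  have s43 : g * h * g ≠ g * h * (g * h) := by
    intro h0
    have h1 := mul_left_cancel h0
    exact hh (by simpa using h1)
  have s23 : h * (g * h) ≠ g * h * (g * h) := by
    intro h0
    have h1 := mul_right_cancel h0
    exact hg (by simpa using h1)
  have k1 : B * (B * C) = 0 := by
    have := congrArg (mcf (g * (g * h))) h8
    simp only [mcf_add, mcf_ms, s12.symm, s13.symm, s14.symm, s15.symm, if_true, if_false,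
      add_zero] at this
    exact this
  have k2 : B * C * C = 0 := by
    have := congrArg (mcf (g * h * h)) h8
    simp only [mcf_add, mcf_ms, s15, s52.symm, s53.symm, s54.symm, if_true, if_false,
      add_zero, zero_add] at this
    exact this.symm
  have k3 : B * C * B * C = 0 := by
    by_cases hb : h * (g * h) = g * h * g
    · have := congrArg (mcf (g * h * g)) h8
      simp only [mcf_add, mcf_ms, s14, s43.symm, s54, hb, if_true, if_false,
        add_zero, zero_add] at this
      have h9 : B * C * B = C * (B * C) := this.symm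
      rw [h9, mul_assoc C, k2, mul_zero]
    · have := congrArg (mcf (g * h * g)) h8
      simp only [mcf_add, mcf_ms, s14, s43.symm, s54, hb, if_true, if_false,
        add_zero, zero_add] at this
      have h9 : B * C * B = 0 := this.symm
      rw [h9, zero_mul]
  refine si_of_nilp he h3 ?_
  rw [h7, ms_mul, ← mul_assoc (B * C), k3, ms_zero]

end Pool.Agent.Lib.MP_c052b4_al
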