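import Pool.Agent.Lib.MP_c052b4_al.KZero

/-!
# Modules, idempotent matrices and finite resolutions
-/

set_option autoImplicit false

namespace Pool.Agent.Lib.MP_c052b4_al

open Matrix

universe u v w

section Img

variable {S : Type u} [Ring S]

/-- The image of a square matrix acting on row vectors from the right, a left submodule. -/
def img {m : Type*} [Fintype m] (e : Matrix m m S) : Submodule S (m → S) :=
  LinearMap.range (Matrix.vecMulLinear e)

theorem mem_img {m : Type*} [Fintype m] {e : Matrix m m S} (he : e * e = e) {v : m → S} :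
    v ∈ img e ↔ v ᵥ* e = v := by
  constructor
  · rintro ⟨w, rfl⟩
    change (w ᵥ* e) ᵥ* e = w ᵥ* e
    rw [Matrix.vecMul_vecMul, he]
  · intro h
    exact ⟨v, h⟩

theorem vecMul_mem_img {m : Type*} [Fintype m] (e : Matrix m m S) (v : m → S) :
    v ᵥ* e ∈ img e := ⟨v, rfl⟩

/-- Equivalent idempotents have isomorphic images. -/
theorem MvN.equiv {m n : Type*} [Fintype m] [Fintype n] {e : Matrix m m S} {f : Matrix n n S}
    (he : e * e = e) (hf : f * f = f) (h : MvN e f) : Nonempty (img e ≃ₗ[S] img f) := by
  obtain ⟨x, y, hxy, hyx⟩ := h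
  refine ⟨LinearEquiv.ofLinearMap
    ((Matrix.vecMulLinear x).restrict (p := img e) (q := img f) ?_)
    ((Matrix.vecMulLinear y).restrict (p := img f) (q := img e) ?_) ?_ ?_⟩
  · intro v hv
    rw [mem_img he] at hv
    rw [mem_img hf]
    change (v ᵥ* x) ᵥ* f = v ᵥ* x
    rw [Matrix.vecMul_vecMul, ← hyx, ← Matrix.mul_assoc, hxy, ← Matrix.vecMul_vecMul, hv]
  · intro v hv
    rw [mem_img hf] at hv
    rw [mem_img he]
    change (v ᵥ* y) ᵥ* e = v ᵥ* y
    rw [Matrix.vecMul_vecMul, ← hxy, ← Matrix.mul_assoc, hyx, ← Matrix.vecMul_vecMul, hv]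
  · ext1 v
    apply Subtype.ext
    have hv := (mem_img hf).1 v.2
    change ((v : n → S) ᵥ* y) ᵥ* x = v
    rw [Matrix.vecMul_vecMul, hyx, hv]
  · ext1 v
    apply Subtype.ext
    have hv := (mem_img he).1 v.2
    change ((v : m → S) ᵥ* x) ᵥ* y = v
    rw [Matrix.vecMul_vecMul, hxy, hv]

theorem row_mem_img {m : Type*} [Fintype m] {e : Matrix m m S} (he : e * e = e) (i : m) :
    e i ∈ img e := by
  rw [mem_img he]
  have := congrFun he i
  rwa [Matrix.mul_apply_eq_vecMul] at this

/-- A linear map out of `img e` is determined by the images of the rows of `e`. -/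
theorem img_map_eq {m : Type*} [Fintype m] {e : Matrix m m S} (he : e * e = e)
    {M : Type*} [AddCommGroup M] [Module S M] (θ : img e →ₗ[S] M) (v : img e) :
    θ v = ∑ i, (v : m → S) i • θ ⟨e i, row_mem_img he i⟩ := by
  have hv : v = ∑ i, (v : m → S) i • (⟨e i, row_mem_img he i⟩ : img e) := by
    apply Subtype.ext
    conv_lhs => rw [← (mem_img he).1 v.2]
    rw [AddSubmonoidClass.coe_finsetSum]
    funext j
    simp [Matrix.vecMul, dotProduct]
  conv_lhs => rw [hv]
  rw [map_sum]
  exact Finset.sum_congr rfl fun i _ => map_smul θ _ _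

/-- Idempotents with isomorphic images are equivalent. -/
theorem MvN.of_equiv {m n : Type*} [Fintype m] [Fintype n] {e : Matrix m m S} {f : Matrix n n S}
    (he : e * e = e) (hf : f * f = f) (θ : img e ≃ₗ[S] img f) : MvN e f := by
  let x : Matrix m n S := fun i => (θ ⟨e i, row_mem_img he i⟩ : n → S)
  let y : Matrix n m S := fun j => (θ.symm ⟨f j, row_mem_img hf j⟩ : m → S)
  have hx : ∀ v : img e, ((θ v : img f) : n → S) = (v : m → S) ᵥ* x := by
    intro v
    have := img_map_eq he (θ : img e →ₗ[S] img f) v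
    have h2 := congrArg Subtype.val this
    rw [LinearEquiv.coe_coe] at h2
    rw [h2, AddSubmonoidClass.coe_finsetSum]
    funext j
    simp [Matrix.vecMul, dotProduct, x]
  have hy : ∀ v : img f, ((θ.symm v : img e) : m → S) = (v : n → S) ᵥ* y := by
    intro v
    have := img_map_eq hf (θ.symm : img f →ₗ[S] img e) v
    have h2 := congrArg Subtype.val this
    rw [LinearEquiv.coe_coe] at h2
    rw [h2, AddSubmonoidClass.coe_finsetSum]
    funext j
    simp [Matrix.vecMul, dotProduct, y]
  refine ⟨x, y, ?_, ?_⟩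
  · ext i j
    have h1 := hy (θ ⟨e i, row_mem_img he i⟩)
    rw [LinearEquiv.symm_apply_apply] at h1
    have h2 := congrFun h1 j
    rw [Matrix.mul_apply_eq_vecMul]
    exact h2.symm
  · ext i j
    have h1 := hx (θ.symm ⟨f i, row_mem_img hf i⟩)
    rw [LinearEquiv.apply_symm_apply] at h1
    have h2 := congrFun h1 j
    rw [Matrix.mul_apply_eq_vecMul]
    exact h2.symm

theorem mem_img_blocks {m n : Type*} [Fintype m] [Fintype n] {e : Matrix m m S}
    {f : Matrix n n S} (he : e * e = e) (hf : f * f = f) (v : m ⊕ n → S) :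
    v ∈ img (fromBlocks e 0 0 f) ↔ (v ∘ Sum.inl) ∈ img e ∧ (v ∘ Sum.inr) ∈ img f := by
  rw [mem_img (blocks_idem he hf), mem_img he, mem_img hf]
  have hv : v = Sum.elim (v ∘ Sum.inl) (v ∘ Sum.inr) := by
    funext i; rcases i with i | i <;> rfl
  constructor
  · intro h
    rw [hv, Matrix.vecMul_fromBlocks] at h
    simp only [Matrix.vecMul_zero, add_zero, zero_add] at h
    constructor
    · funext i; exact congrFun h (Sum.inl i)
    · funext i; exact congrFun h (Sum.inr i)
  · rintro ⟨h1, h2⟩
    rw [hv, Matrix.vecMul_fromBlocks]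
    simp only [Matrix.vecMul_zero, add_zero, zero_add, Sum.elim_comp_inl, Sum.elim_comp_inr]
    rw [h1, h2]

/-- The image of a block sum. -/
theorem img_blocks_equiv {m n : Type*} [Fintype m] [Fintype n] {e : Matrix m m S}
    {f : Matrix n n S} (he : e * e = e) (hf : f * f = f) :
    Nonempty (img (fromBlocks e 0 0 f) ≃ₗ[S] img e × img f) := by
  refine ⟨LinearEquiv.ofLinearMap
    (LinearMap.prod
      ((LinearMap.funLeft S S Sum.inl).restrict (p := img (fromBlocks e 0 0 f)) (q := img e)
        fun v hv => ((mem_img_blocks he hf v).1 hv).1)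
      ((LinearMap.funLeft S S Sum.inr).restrict (p := img (fromBlocks e 0 0 f)) (q := img f)
        fun v hv => ((mem_img_blocks he hf v).1 hv).2))
    { toFun := fun z => ⟨Sum.elim z.1 z.2, (mem_img_blocks he hf _).2 ⟨by
        simp, by simp⟩⟩
      map_add' := ?_
      map_smul' := ?_ } ?_ ?_⟩
  · intro z z'
    apply Subtype.ext
    funext i
    rcases i with i | i <;> simp
  · intro s z
    apply Subtype.ext
    funext i
    rcases i with i | i <;> simp
  · apply LinearMap.ext
    rintro ⟨a, b⟩
    apply Prod.ext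
    · apply Subtype.ext; funext i; rfl
    · apply Subtype.ext; funext i; rfl
  · apply LinearMap.ext
    intro a
    apply Subtype.ext
    funext i
    rcases i with i | i <;> rfl

theorem img_one {m : Type*} [Fintype m] [DecidableEq m] :
    img (1 : Matrix m m S) = ⊤ := by
  rw [eq_top_iff]
  intro v _
  rw [mem_img (by simp)]
  simp

/-- Any finitely generated projective module is the image of an idempotent matrix. -/
theorem exists_idemMat {M : Type*} [AddCommGroup M] [Module S M] [Module.Finite S M]
    [Module.Projective S M] : ∃ p : IdemMat S, Nonempty (img p.mat ≃ₗ[S] M) := by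
  obtain ⟨n, f, hf⟩ := Module.Finite.exists_fin' S M
  obtain ⟨g, hg⟩ := Module.projective_lifting_property f LinearMap.id hf
  let L : (Fin n → S) →ₗ[S] (Fin n → S) := g ∘ₗ f
  let e : Matrix (Fin n) (Fin n) S := LinearMap.toMatrixRight' L
  have hfg : ∀ x, f (g x) = x := fun x => LinearMap.congr_fun hg x
  have hL : Matrix.vecMulLinear e = L := by
    have := LinearMap.toMatrixRight'.symm_apply_apply L
    exact this
  have he : e * e = e := by
    apply (LinearMap.toMatrixRight' (R := S) (m := Fin n) (n := Fin n)).symm.injective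
    apply LinearMap.ext
    intro v
    change v ᵥ* (e * e) = v ᵥ* e
    rw [← Matrix.vecMul_vecMul]
    have h1 : ∀ v, v ᵥ* e = L v := fun v => LinearMap.congr_fun hL v
    rw [h1, h1]
    change g (f (g (f v))) = g (f v)
    rw [hfg]
  refine ⟨⟨n, e, he⟩, ⟨?_⟩⟩
  have h1 : ∀ v, v ᵥ* e = g (f v) := fun v => LinearMap.congr_fun hL v
  refine LinearEquiv.ofLinearMap (f ∘ₗ (img e).subtype)
    (g.codRestrict (img e) (fun x => ?_)) ?_ ?_
  · rw [mem_img he, h1, hfg]
  · apply LinearMap.ext
    intro x
    exact hfg x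
  · apply LinearMap.ext
    intro x
    apply Subtype.ext
    change g (f x) = x
    rw [← h1]
    exact (mem_img he).1 x.2

instance img_finite {m : Type*} [Fintype m] (e : Matrix m m S) : Module.Finite S (img e) := by
  unfold img
  infer_instance

theorem img_projective {m : Type*} [Fintype m] {e : Matrix m m S} (he : e * e = e) :
    Module.Projective S (img e) := by
  classical
  refine Module.Projective.of_split (M := m → S) (img e).subtype
    ((Matrix.vecMulLinear e).codRestrict (img e) (fun v => vecMul_mem_img e v)) ?_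
  apply LinearMap.ext
  intro v
  apply Subtype.ext
  exact (mem_img he).1 v.2

end Img

end Pool.Agent.Lib.MP_c052b4_al
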