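import Pool.Agent.Lib.MP_c052b4_al.ProdCase

/-!
# Idempotents supported on at most three nontrivial elements
-/

set_option autoImplicit false
set_option linter.unusedSectionVars false

namespace Pool.Agent.Lib.MP_c052b4_al

open Matrix

universe u v w

variable {R : Type u} [Ring R] {G : Type v} [Group G] {n : Type w} [Fintype n]

theorem si_closure {s : Set G}
    (hN : NiceGroup R (Subgroup.closure s)) {e : Matrix n n (MonoidAlgebra R G)} (he : e * e = e)
    {Y : Set G} (hY : SuppIn Y e) (h : Y ⊆ Subgroup.closure s) : SI e :=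
  si_of_subgroup _ hN.surj he (hY.mono h)

/-- commutation from a power relation -/
theorem conj_zpow {g c : G} (htf : TorsionfreeGroup G) (hg : g ≠ 1) {k : ℤ} (hk : c * c = g ^ k)
    (hk0 : k ≠ 0) {i j : ℤ} (hij : g ^ i * c = c * g ^ j) : i = j := by
  have h1 : SemiconjBy c (g ^ j) (g ^ i) := hij.symm
  have h2 : SemiconjBy c ((g ^ j) ^ k) ((g ^ i) ^ k) := h1.zpow_right k
  have h3 : Commute c (g ^ k) := by
    rw [← hk]
    exact (Commute.refl c).mul_right (Commute.refl c)
  have h4 : Commute c ((g ^ k) ^ j) := h3.zpow_right j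
  have h5 : (g ^ k) ^ j = (g ^ j) ^ k := by
    rw [← _root_.zpow_mul, ← _root_.zpow_mul, mul_comm]
  rw [h5] at h4
  have h6 : (g ^ j) ^ k = (g ^ i) ^ k := by
    have := h4.eq.symm.trans h2.eq
    exact mul_right_cancel this
  rw [← _root_.zpow_mul, ← _root_.zpow_mul] at h6
  have h7 := htf.zpow_inj hg h6
  exact (mul_right_cancel₀ hk0 h7).symm

/-- the Klein bottle case -/
theorem klein_case {g c : G} (htf : TorsionfreeGroup G)
    (hc : g * c ≠ c * g) {k : ℤ} (hk : c * c = g ^ k) (h2 : g ^ (2 : ℤ) * c = c * g ^ (2 : ℤ)) :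
    ∃ u v : G, u ≠ 1 ∧ v * u = u⁻¹ * v ∧ g ∈ Subgroup.closure {u, v} ∧
      c ∈ Subgroup.closure {u, v} := by
  have hcN : ∀ m : ℤ, c ≠ g ^ m := by
    rintro m rfl
    apply hc
    rw [← _root_.zpow_one_add, ← _root_.zpow_add_one, add_comm]
  have hcomm2 : ∀ m : ℤ, Commute c (g ^ (2 * m)) := by
    intro m
    rw [_root_.zpow_mul]
    exact (show Commute c (g ^ (2 : ℤ)) from h2.symm).zpow_right m
  have hcommk : Commute c (g ^ k) := by
    rw [← hk]
    exact (Commute.refl c).mul_right (Commute.refl c)
  rcases Int.even_or_odd' k with ⟨m, rfl | rfl⟩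
  · rcases Int.even_or_odd' m with ⟨l, rfl | rfl⟩
    · exfalso
      have h3 : c * g ^ (-(2 * l)) = 1 := by
        apply htf _ 2 (by norm_num)
        have h4 : Commute c (g ^ (-(2 * l))) := by
          have := hcomm2 (-l)
          rwa [show (2 : ℤ) * (-l) = -(2 * l) by ring] at this
        rw [h4.mul_pow, pow_two, pow_two, hk, ← _root_.zpow_add, ← _root_.zpow_add]
        have : 2 * (2 * l) + (-(2 * l) + -(2 * l)) = 0 := by ring
        rw [this, _root_.zpow_zero]
      apply hcN (2 * l)
      rw [_root_.zpow_neg, mul_inv_eq_one] at h3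
      exact h3
    · -- `k = 2 (2 l + 1)`
      set v := c * g ^ (-(2 * l)) with hv
      have h4 : Commute c (g ^ (-(2 * l))) := by
        have := hcomm2 (-l)
        rwa [show (2 : ℤ) * (-l) = -(2 * l) by ring] at this
      have hvv : v * v = g ^ (2 : ℤ) := by
        have : v * v = v ^ 2 := (pow_two v).symm
        rw [this, hv, h4.mul_pow, pow_two, pow_two, hk, ← _root_.zpow_add, ← _root_.zpow_add]
        congr 1; ring
      have hcv : c = v * g ^ (2 * l) := by
        rw [hv, mul_assoc, ← _root_.zpow_add]; simp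
      refine ⟨g * v⁻¹, v, ?_, ?_, ?_, ?_⟩
      · intro h
        have h5 : g = v := mul_inv_eq_one.1 h
        apply hcN (1 + 2 * l)
        rw [_root_.zpow_add, _root_.zpow_one, hcv, ← h5]
      · have h6 : v * (g * v⁻¹) * v⁻¹ * v⁻¹ * v = (g * v⁻¹)⁻¹ := by
          have h7 : v * (g * v⁻¹) * v⁻¹ * v⁻¹ * v = v * g * (v * v)⁻¹ := by group
          rw [h7, hvv]
          group
        calc v * (g * v⁻¹) = (v * (g * v⁻¹) * v⁻¹ * v⁻¹ * v) * v := by group
          _ = (g * v⁻¹)⁻¹ * v := by rw [h6]
      · have h8 : g = (g * v⁻¹) * v := by group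
        have h9 : (g * v⁻¹) * v ∈ Subgroup.closure {g * v⁻¹, v} :=
          Subgroup.mul_mem _ (Subgroup.subset_closure (by simp)) (Subgroup.subset_closure (by simp))
        rwa [← h8] at h9
      · have h8 : g = (g * v⁻¹) * v := by group
        have h9 : (g * v⁻¹) * v ∈ Subgroup.closure {g * v⁻¹, v} :=
          Subgroup.mul_mem _ (Subgroup.subset_closure (by simp)) (Subgroup.subset_closure (by simp))
        rw [← h8] at h9
        have h10 : v * g ^ (2 * l) ∈ Subgroup.closure {g * v⁻¹, v} :=
          Subgroup.mul_mem _ (Subgroup.subset_closure (by simp)) (Subgroup.zpow_mem _ h9 _)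
        rwa [← hcv] at h10
  · exfalso
    apply hc
    have h3 : Commute c (g ^ (-(2 * m))) := by
      have := hcomm2 (-m)
      rwa [show (2 : ℤ) * (-m) = -(2 * m) by ring] at this
    have h4 : Commute c (g ^ (2 * m + 1) * g ^ (-(2 * m))) := hcommk.mul_right h3
    rw [← _root_.zpow_add] at h4
    have : 2 * m + 1 + -(2 * m) = 1 := by ring
    rw [this, _root_.zpow_one] at h4
    exact h4.eq.symm

theorem si_cyc (hR : IsRegularRing R) (htf : TorsionfreeGroup G) {g c : G} (hg : g ≠ 1) {m : ℤ}
    (hm : m = -1 ∨ m = 2) {A : Matrix n n R} {E : Matrix n n (MonoidAlgebra R G)}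
    (hE : SuppIn {g, g ^ m, c} E) (he : (ms 1 A + E) * (ms 1 A + E) = ms 1 A + E) :
    SI (ms 1 A + E) := by
  classical
  have haS : SuppIn ({1} : Set G) (ms 1 A) := suppIn_ms (Set.mem_singleton _) A
  have hsupp : SuppIn ({1} ∪ {g, g ^ m, c}) (ms 1 A + E) :=
    (haS.mono Set.subset_union_left).add (hE.mono Set.subset_union_right)
  by_cases hgc : g * c = c * g
  · refine si_closure (s := {g, c}) (NiceGroup.closure_comm hR htf (by simp) ?_) he hsupp ?_
    · rintro x (rfl | rfl) y (rfl | rfl)
      · rfl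
      · exact hgc
      · exact hgc.symm
      · rfl
    · have hgm : g ∈ Subgroup.closure ({g, c} : Set G) := Subgroup.subset_closure (by simp)
      rintro x (rfl | rfl | rfl | rfl)
      · exact Subgroup.one_mem _
      · exact hgm
      · exact Subgroup.zpow_mem _ hgm _
      · exact Subgroup.subset_closure (by simp)
  · have hcN : c ∉ Subgroup.closure ({g} : Set G) := by
      intro h
      rw [Subgroup.mem_closure_singleton] at h
      obtain ⟨k, rfl⟩ := h
      apply hgc
      rw [← _root_.zpow_one_add, ← _root_.zpow_add_one, add_comm]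
    by_cases hkl : c * c ∈ Subgroup.closure ({g} : Set G) ∧ g ^ (2 : ℤ) * c = c * g ^ (2 : ℤ)
    · obtain ⟨h1, h2⟩ := hkl
      rw [Subgroup.mem_closure_singleton] at h1
      obtain ⟨k, hk⟩ := h1
      obtain ⟨u, v, hu, huv, hgu, hcu⟩ := klein_case htf hgc hk.symm h2
      refine si_closure (s := {u, v}) (NiceGroup.closure_klein hR htf hu huv) he hsupp ?_
      rintro x (rfl | rfl | rfl | rfl)
      · exact Subgroup.one_mem _
      · exact hgu
      · exact Subgroup.zpow_mem _ hgu _
      · exact hcu
    · have hE' : E = (E - ms c (mcf c E)) + ms c (mcf c E) := by abel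
      have hcg : c ≠ g := by
        rintro rfl; exact hgc rfl
      have hcgm : c ≠ g ^ m := by
        rintro rfl
        exact hcN (Subgroup.zpow_mem _ (Subgroup.subset_closure (by simp)) _)
      have hE1 : SuppIn ({g, g ^ m} : Set G) (E - ms c (mcf c E)) := by
        intro k hk
        rw [mcf_sub]
        by_cases hkc : c = k
        · subst hkc
          rw [mcf_ms_self, sub_self]
        · rw [mcf_ms_of_ne hkc, sub_zero]
          apply hE
          rintro (h | h | h)
          · exact hk (Or.inl h)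
          · exact hk (Or.inr h)
          · exact hkc h.symm
      rw [hE', ← add_assoc] at he ⊢
      have hgN : g ∈ Subgroup.closure ({g} : Set G) := Subgroup.subset_closure (by simp)
      refine si_one_extra htf (Subgroup.closure {g})
        (NiceGroup.closure_comm hR htf (by simp) ?_).surj hcN (S := {g, g ^ m}) ?_ ?_ hE1 ?_ he
      · rintro x rfl y rfl; rfl
      · rintro x (rfl | rfl)
        · exact hgN
        · exact Subgroup.zpow_mem _ hgN _
      · rintro (h | h)
        · exact hg h.symm
        · have h1 : g ^ m = 1 := h.symm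
          exact hg (htf.zpow (by rcases hm with rfl | rfl <;> norm_num) h1)
      · intro hcc
        have h2 : ¬ (g ^ (2 : ℤ) * c = c * g ^ (2 : ℤ)) := fun h => hkl ⟨hcc, h⟩
        rw [Subgroup.mem_closure_singleton] at hcc
        obtain ⟨k, hk⟩ := hcc
        have hk0 : k ≠ 0 := by
          rintro rfl
          rw [_root_.zpow_zero] at hk
          have : c = 1 := htf c 2 (by norm_num) (by rw [pow_two]; exact hk.symm)
          apply hgc; rw [this]; simp
        have key : ∀ i j : ℤ, (i = 1 ∨ i = m) → (j = 1 ∨ j = m) → g ^ i * c ≠ c * g ^ j := by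
          intro i j hi hj hij
          have h3 := conj_zpow htf hg hk.symm hk0 hij
          subst h3
          rcases hi with rfl | rfl
          · apply hgc; simpa using hij
          · rcases hm with rfl | rfl
            · apply hgc
              have h4 : SemiconjBy c (g ^ (-1 : ℤ)) (g ^ (-1 : ℤ)) := hij.symm
              have h5 := h4.zpow_right (-1)
              rw [← _root_.zpow_mul] at h5
              norm_num at h5
              exact h5.eq.symm
            · exact h2 hij
        rintro a (rfl | rfl) b (rfl | rfl)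
        · have := key 1 1 (Or.inl rfl) (Or.inl rfl)
          simpa using this
        · have := key 1 m (Or.inl rfl) (Or.inr rfl)
          simpa using this
        · have := key m 1 (Or.inr rfl) (Or.inl rfl)
          simpa using this
        · exact key m m (Or.inr rfl) (Or.inr rfl)

theorem si_prod (hR : IsRegularRing R) (htf : TorsionfreeGroup G) {g h : G} (hg : g ≠ 1)
    (hh : h ≠ 1) (hne : g ≠ h) (hgh1 : g * h ≠ 1) {A : Matrix n n R}
    {E : Matrix n n (MonoidAlgebra R G)}
    (hE : SuppIn {g, h, g * h} E) (he : (ms 1 A + E) * (ms 1 A + E) = ms 1 A + E) :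
    SI (ms 1 A + E) := by
  classical
  have haS : SuppIn ({1} : Set G) (ms 1 A) := suppIn_ms (Set.mem_singleton _) A
  have hsupp : SuppIn ({1} ∪ {g, h, g * h}) (ms 1 A + E) :=
    (haS.mono Set.subset_union_left).add (hE.mono Set.subset_union_right)
  have hsub : ∀ s : Set G, g ∈ Subgroup.closure s → h ∈ Subgroup.closure s →
      (({1} ∪ {g, h, g * h} : Set G) ⊆ Subgroup.closure s) := by
    rintro s hgs hhs x (rfl | rfl | rfl | rfl)
    · exact Subgroup.one_mem _
    · exact hgs
    · exact hhs
    · exact Subgroup.mul_mem _ hgs hhs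
  by_cases hc : g * h = h * g
  · refine si_closure (s := {g, h}) (NiceGroup.closure_comm hR htf (by simp) ?_) he hsupp
      (hsub _ (Subgroup.subset_closure (by simp)) (Subgroup.subset_closure (by simp)))
    rintro x (rfl | rfl) y (rfl | rfl)
    · rfl
    · exact hc
    · exact hc.symm
    · rfl
  by_cases hk1 : h * (g * h) = g
  · refine si_closure (s := {h, g}) (NiceGroup.closure_klein hR htf hh ?_) he hsupp
      (hsub _ (Subgroup.subset_closure (by simp)) (Subgroup.subset_closure (by simp)))
    rw [eq_inv_mul_iff_mul_eq]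
    exact hk1
  by_cases hk2 : g * h * g = h
  · refine si_closure (s := {g, h}) (NiceGroup.closure_klein hR htf hg ?_) he hsupp
      (hsub _ (Subgroup.subset_closure (by simp)) (Subgroup.subset_closure (by simp)))
    rw [eq_inv_mul_iff_mul_eq, ← mul_assoc]
    exact hk2
  have h1 : g ≠ g * h := fun h0 => hh (by simpa using h0)
  have h2 : h ≠ g * h := fun h0 => hg (by simpa using h0)
  have hE' : E = ms g (mcf g E) + ms h (mcf h E) + ms (g * h) (mcf (g * h) E) := by
    apply mat_ext
    intro k
    rw [mcf_add, mcf_add, mcf_ms, mcf_ms, mcf_ms]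
    by_cases k1 : g = k
    · subst k1
      simp [hne.symm, h1.symm]
    · by_cases k2 : h = k
      · subst k2
        simp [hne, h2.symm]
      · by_cases k3 : g * h = k
        · subst k3
          simp [h1, h2]
        · simp only [k1, k2, k3, if_false, add_zero]
          apply hE
          rintro (h | h | h)
          · exact k1 h.symm
          · exact k2 h.symm
          · exact k3 h.symm
  rw [hE'] at he ⊢
  exact si_gh htf hg hh hne hgh1 hc hk1 hk2 he

/-- Idempotent matrices supported on at most four elements including `1` are stably induced. -/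
theorem si_smallSupport (hR : IsRegularRing R) (htf : TorsionfreeGroup G) (a b c : G)
    {e : Matrix n n (MonoidAlgebra R G)} (hsupp : SuppIn {1, a, b, c} e) (he : e * e = e) :
    SI e := by
  classical
  let E := e - ms 1 (mcf 1 e)
  let X : Set G := {x | (x = a ∨ x = b ∨ x = c) ∧ x ≠ 1}
  have hE : SuppIn X E := by
    intro k hk
    change mcf k (e - ms 1 (mcf 1 e)) = 0
    rw [mcf_sub]
    by_cases h1 : (1 : G) = k
    · subst h1
      rw [mcf_ms_self, sub_self]
    · rw [mcf_ms_of_ne h1, sub_zero]
      apply hsupp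
      rintro (h | h | h | h)
      · exact h1 h.symm
      · exact hk ⟨Or.inl h, Ne.symm h1⟩
      · exact hk ⟨Or.inr (Or.inl h), Ne.symm h1⟩
      · exact hk ⟨Or.inr (Or.inr h), Ne.symm h1⟩
  have hee : e = ms 1 (mcf 1 e) + E := by
    change e = ms 1 (mcf 1 e) + (e - ms 1 (mcf 1 e))
    abel
  rw [hee] at he ⊢
  generalize mcf 1 e = A at he ⊢
  have h1X : (1 : G) ∉ X := fun h => h.2 rfl
  by_cases hX : ∀ x ∈ X, ∀ y ∈ X, x * y ≠ 1 ∧ x * y ∉ X
  · exact si_productFree h1X hX hE he
  push Not at hX
  obtain ⟨p, hp, q, hq, hpq⟩ := hX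
  by_cases hpq1 : p * q = 1
  · have hq' : q = p⁻¹ := eq_inv_of_mul_eq_one_right hpq1
    have hpq2 : p ≠ q := by
      intro h
      rw [← h] at hpq1
      exact hp.2 (htf p 2 (by norm_num) (by rw [pow_two]; exact hpq1))
    have : ∃ r, X ⊆ {p, p ^ (-1 : ℤ), r} := by
      rw [_root_.zpow_neg_one, ← hq']
      rcases hp.1 with rfl | rfl | rfl <;> rcases hq.1 with rfl | rfl | rfl
      · exact absurd rfl hpq2
      · refine ⟨c, ?_⟩; rintro x ⟨rfl | rfl | rfl, -⟩ <;> simp
      · refine ⟨b, ?_⟩; rintro x ⟨rfl | rfl | rfl, -⟩ <;> simp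
      · refine ⟨c, ?_⟩; rintro x ⟨rfl | rfl | rfl, -⟩ <;> simp
      · exact absurd rfl hpq2
      · refine ⟨a, ?_⟩; rintro x ⟨rfl | rfl | rfl, -⟩ <;> simp
      · refine ⟨b, ?_⟩; rintro x ⟨rfl | rfl | rfl, -⟩ <;> simp
      · refine ⟨a, ?_⟩; rintro x ⟨rfl | rfl | rfl, -⟩ <;> simp
      · exact absurd rfl hpq2
    obtain ⟨r, hr⟩ := this
    exact si_cyc hR htf hp.2 (Or.inl rfl) (hE.mono hr) he
  · have hpqX := hpq hpq1
    by_cases hpq2 : p = q
    · subst hpq2
      have hne : p ≠ p * p := by
        intro h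
        exact hp.2 (by simpa using h)
      have : ∃ r, X ⊆ {p, p ^ (2 : ℤ), r} := by
        have h2 : p ^ (2 : ℤ) = p * p := by
          rw [show (2 : ℤ) = 1 + 1 by norm_num, _root_.zpow_add, _root_.zpow_one]
        rw [h2]
        generalize p * p = q at hpqX hne
        rcases hp.1 with rfl | rfl | rfl <;> rcases hpqX.1 with rfl | rfl | rfl
        · exact absurd rfl hne
        · refine ⟨c, ?_⟩; rintro x ⟨rfl | rfl | rfl, -⟩ <;> simp
        · refine ⟨b, ?_⟩; rintro x ⟨rfl | rfl | rfl, -⟩ <;> simp
        · refine ⟨c, ?_⟩; rintro x ⟨rfl | rfl | rfl, -⟩ <;> simp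
        · exact absurd rfl hne
        · refine ⟨a, ?_⟩; rintro x ⟨rfl | rfl | rfl, -⟩ <;> simp
        · refine ⟨b, ?_⟩; rintro x ⟨rfl | rfl | rfl, -⟩ <;> simp
        · refine ⟨a, ?_⟩; rintro x ⟨rfl | rfl | rfl, -⟩ <;> simp
        · exact absurd rfl hne
      obtain ⟨r, hr⟩ := this
      exact si_cyc hR htf hp.2 (Or.inr rfl) (hE.mono hr) he
    · have hne1 : p ≠ p * q := fun h => hq.2 (by simpa using h)
      have hne2 : q ≠ p * q := fun h => hp.2 (by simpa using h)
      refine si_prod hR htf hp.2 hq.2 hpq2 hpq1 (hE.mono ?_) he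
      generalize p * q = r at hpqX hne1 hne2
      rintro x ⟨hx, -⟩
      have hp1 := hp.1
      have hq1 := hq.1
      have hr1 := hpqX.1
      change x = p ∨ x = q ∨ x = r
      rcases hp1 with rfl | rfl | rfl <;> rcases hq1 with rfl | rfl | rfl <;>
        rcases hr1 with rfl | rfl | rfl <;> tauto

end Pool.Agent.Lib.MP_c052b4_al
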