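import Pool.Agent.Lib.MP_c052b4_al.FreeNat
import Pool.Agent.Lib.MP_c052b4_al.HNNTf
import Pool.Agent.Lib.MP_c052b4_al.Mg.G079

/-!
# Embedding a countable group into a two-generator group, with descent for `K₁`
-/

set_option autoImplicit false
set_option linter.unusedSectionVars false

namespace Pool.Agent.Lib.MP_c052b4_al

open Matrix Kern HNNExtension

universe u v w

section Descent

variable {R : Type u} [Ring R] {G : Type v} [Group G]

/-- descent for `K₁` along HNN extensions -/
theorem down1_hnn_gen {A B : Subgroup G} (φ : A ≃* B) (hA : ∀ z, z ∈ imA1 R A)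
    (hB : ∀ z, z ∈ imA1 R B) : Down1 R (of : G →* HNNExtension G A B φ) := by
  intro x hx
  obtain ⟨y, hy, p, hxy⟩ := imA1_hnn _ hx
  have h1 : p = 0 := by
    have h2 := congrArg (fun z => Bdry.del R (KOne.map (inc R (prZ φ)) z)) hxy
    simp only [map_add, map_inc_comp, prZ_of, del_inc_one, map_tauG, prZ_t, Bdry.del_tauG,
      zero_add] at h2
    exact h2.symm
  rw [h1, map_zero, add_zero] at hxy
  have h2 : KOne.map (inc R (of : G →* HNNExtension G A B φ)) (x - y) = 0 := by
    rw [map_sub, hxy, sub_self]
  obtain ⟨k, M, hM⟩ := exists_k1 (x - y)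
  rw [← hM] at h2
  have h3 := Kern.kone_kernel (HN.halfSpaces φ) (of_injective _) M h2
  have h4 : ∀ (C : Subgroup G), (∀ z, z ∈ imA1 R C) →
      (KOne.map (inc R C.subtype)).range ≤ imA1 R G := by
    rintro C hC _ ⟨z, rfl⟩
    exact map_imA1 _ (hC z)
  have h5 : k1 M ∈ imA1 R G := by
    refine (sup_le (h4 _ ?_) (h4 _ ?_)) h3
    · exact hB
    · exact hA
  rw [hM] at h5
  have h6 := AddSubgroup.add_mem _ h5 hy
  rwa [sub_add_cancel] at h6

end Descent

section Embed

variable (U : Type) [Group U] (g : ℕ → U)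

/-- the base group -/
abbrev HB : Type := U × FreeGroup (Fin 2)

/-- the first free subgroup -/
noncomputable def al : FreeGroup ℕ →* HB U :=
  FreeGroup.lift fun i : ℕ => ((1 : U), ((FreeGroup.of 0) ^ i)⁻¹ * FreeGroup.of 1 *
    (FreeGroup.of 0) ^ i)

variable {U}

/-- the second free subgroup -/
noncomputable def be : FreeGroup ℕ →* HB U :=
  FreeGroup.lift fun i : ℕ => (g i, ((FreeGroup.of 1) ^ i)⁻¹ * FreeGroup.of 0 *
    (FreeGroup.of 1) ^ i)

theorem al_injective : Function.Injective (al U) := by
  have h1 : (MonoidHom.snd U (FreeGroup (Fin 2))).comp (al U) =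
      FreeGroup.lift fun i : ℕ => ((FreeGroup.of 0) ^ i)⁻¹ * FreeGroup.of 1 *
        (FreeGroup.of 0) ^ i := by
    apply FreeGroup.ext_hom
    intro i
    simp [al]
  have h2 : Function.Injective ((MonoidHom.snd U (FreeGroup (Fin 2))).comp (al U)) := by
    rw [h1]
    refine lift_injective (FreeGroup.lift ![sdT, sdX]) ?_ ?_
    · simp
    · simp
  exact Function.Injective.of_comp (f := MonoidHom.snd U (FreeGroup (Fin 2))) h2

theorem be_injective : Function.Injective (be g) := by
  have h1 : (MonoidHom.snd U (FreeGroup (Fin 2))).comp (be g) =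
      FreeGroup.lift fun i : ℕ => ((FreeGroup.of 1) ^ i)⁻¹ * FreeGroup.of 0 *
        (FreeGroup.of 1) ^ i := by
    apply FreeGroup.ext_hom
    intro i
    simp [be]
  have h2 : Function.Injective ((MonoidHom.snd U (FreeGroup (Fin 2))).comp (be g)) := by
    rw [h1]
    refine lift_injective (FreeGroup.lift ![sdX, sdT]) ?_ ?_
    · simp
    · simp
  exact Function.Injective.of_comp (f := MonoidHom.snd U (FreeGroup (Fin 2))) h2

/-- the isomorphism of the two free subgroups -/
noncomputable def ph : (al U).range ≃* (be g).range :=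
  (MonoidHom.ofInjective al_injective).symm.trans (MonoidHom.ofInjective (be_injective g))

/-- the two-generator group -/
def VV : Type := HNNExtension (HB U) (al U).range (be g).range (ph g)

noncomputable instance instVV : Group (VV g) :=
  inferInstanceAs (Group (HNNExtension (HB U) (al U).range (be g).range (ph g)))

/-- the inclusion of the base -/
noncomputable def ofV : HB U →* VV g := (of : HB U →* HNNExtension (HB U) _ _ (ph g))

/-- the stable letter -/
noncomputable def tV : VV g := (t : HNNExtension (HB U) _ _ (ph g))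

/-- the other generator -/
noncomputable def yV : VV g := ofV g (1, FreeGroup.of 1)

theorem tV_mul (x : FreeGroup ℕ) : tV g * ofV g (al U x) = ofV g (be g x) * tV g := by
  have h1 := t_mul_of (φ := ph g) (MonoidHom.ofInjective al_injective x)
  have h2 : ph g (MonoidHom.ofInjective al_injective x) =
      MonoidHom.ofInjective (be_injective g) x :=
    congrArg (MonoidHom.ofInjective (be_injective g))
      ((MonoidHom.ofInjective (f := al U) al_injective).symm_apply_apply x)
  rw [h2] at h1
  exact h1

theorem torsionfree_freeGroup (α : Type) : TorsionfreeGroup (FreeGroup α) := by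
  intro x n hn hx
  have h1 : x ^ n = 1 ^ n := by rw [hx, one_pow]
  exact IsMulTorsionFree.pow_left_injective (by omega) h1

theorem torsionfree_VV (hU : TorsionfreeGroup U) : TorsionfreeGroup (VV g) :=
  HN.torsionfree (ph g) (hU.prod (torsionfree_freeGroup _))

theorem al_of (i : ℕ) : al U (FreeGroup.of i) =
    ((1 : U), ((FreeGroup.of 0) ^ i)⁻¹ * FreeGroup.of 1 * (FreeGroup.of 0) ^ i) := by
  simp [al]

theorem be_of (i : ℕ) : be g (FreeGroup.of i) =
    (g i, ((FreeGroup.of 1) ^ i)⁻¹ * FreeGroup.of 0 * (FreeGroup.of 1) ^ i) := by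
  simp [be]

theorem closure_VV (h0 : g 0 = 1) (hg : Function.Surjective g) :
    Subgroup.closure {tV g, yV g} = ⊤ := by
  set K := Subgroup.closure {tV g, yV g} with hK
  have ht : tV g ∈ K := Subgroup.subset_closure (by simp)
  have hy : yV g ∈ K := Subgroup.subset_closure (by simp)
  have hconj : ∀ x : FreeGroup ℕ, ofV g (al U x) ∈ K → ofV g (be g x) ∈ K := by
    intro x hx
    have h1 : ofV g (be g x) = tV g * ofV g (al U x) * (tV g)⁻¹ := by
      rw [tV_mul, mul_inv_cancel_right]
    rw [h1]
    exact K.mul_mem (K.mul_mem ht hx) (K.inv_mem ht)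
  have hx : ofV g (1, FreeGroup.of 0) ∈ K := by
    have h1 := hconj (FreeGroup.of 0) (by
      rw [al_of]
      simpa [yV] using hy)
    rw [be_of, h0] at h1
    simpa using h1
  have hF : ∀ w : FreeGroup (Fin 2), ofV g (1, w) ∈ K := by
    intro w
    have h1 : (K.comap ((ofV g).comp (MonoidHom.inr U (FreeGroup (Fin 2))))) = ⊤ := by
      rw [eq_top_iff, ← FreeGroup.closure_range_of, Subgroup.closure_le]
      rintro _ ⟨i, rfl⟩
      fin_cases i
      · exact hx
      · exact hy
    have h2 : w ∈ K.comap ((ofV g).comp (MonoidHom.inr U (FreeGroup (Fin 2)))) := by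
      rw [h1]; trivial
    exact h2
  have hUg : ∀ u : U, ofV g (u, 1) ∈ K := by
    intro u
    obtain ⟨i, rfl⟩ := hg u
    have h1 := hconj (FreeGroup.of i) (by
      rw [al_of]
      exact hF _)
    rw [be_of] at h1
    have h2 := K.mul_mem h1 (K.inv_mem (hF (((FreeGroup.of 1) ^ i)⁻¹ * FreeGroup.of 0 *
      (FreeGroup.of 1) ^ i)))
    rw [← map_inv, ← map_mul] at h2
    simpa using h2
  have hall : ∀ h : HB U, ofV g h ∈ K := by
    rintro ⟨u, w⟩
    have h1 := K.mul_mem (hUg u) (hF w)
    rw [← map_mul] at h1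
    simpa using h1
  rw [eq_top_iff]
  intro γ _
  have key : ∀ γ : HNNExtension (HB U) _ _ (ph g), (γ : VV g) ∈ K := by
    intro γ
    induction γ using HNNExtension.induction_on with
    | of h => exact hall h
    | t => exact ht
    | mul x y hx hy => exact K.mul_mem hx hy
    | inv x hx => exact K.inv_mem hx
  exact key γ

variable {R : Type u} [Ring R]

theorem down1_VV (hR : IsRegularRing R) :
    Down1 R ((ofV g).comp (MonoidHom.inl U (FreeGroup (Fin 2)))) := by
  refine Down1.comp (down1_of_retract (ρ := MonoidHom.fst U (FreeGroup (Fin 2))) ?_) ?_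
  · ext x; simp
  · refine down1_hnn_gen (ph g) ?_ ?_
    · exact imA1_of_mulEquiv (MonoidHom.ofInjective al_injective) (imA1_freeGroup_nat hR)
    · exact imA1_of_mulEquiv (MonoidHom.ofInjective (be_injective g)) (imA1_freeGroup_nat hR)

end Embed

end Pool.Agent.Lib.MP_c052b4_al
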