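import Pool.Agent.Lib.MP_c052b4_al.Mg.G079

/-!
# A test group with two conjugacy classes for the Farrell-Jones conjecture in degrees `≤ 0`

There is one countable torsionfree group `U` with exactly two conjugacy classes such that for every
regular ring `R` the surjectivity of `K₀(R) → K₀(R[U])` is equivalent to the following: for every
torsionfree group `G` the map `K₀(R) → K₀(R[G])` is bijective and the negative `K`-groups of `R[G]`
vanish.
-/

set_option autoImplicit false

namespace Pool.Agent.Results.MP_c052b4_al.UniversalGroup

open Pool.Agent.Lib.MP_c052b4_al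

universe u v w

/-- The map `K₀(R) → K₀(R[G])` induced by the inclusion of the coefficients. -/
noncomputable def coeffMap (R : Type u) [Ring R] (G : Type v) [Group G] :
    KGrp R →+ KGrp (MonoidAlgebra R G) :=
  kMap (MonoidAlgebra.singleOneRingHom : R →+* MonoidAlgebra R G)

/-- What the assembly maps `A_n`, `n ≤ 0`, being isomorphisms means for a regular ring `R`:
`K₀(R) → K₀(R[G])` is bijective and `K_{-n}(R[G]) = 0` for all `n ≥ 1`. -/
def AssemblyNonpos (R : Type u) [Ring R] (G : Type v) [Group G] : Prop :=
  Function.Bijective (coeffMap R G) ∧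
    ∀ n : ℕ, 0 < n → Subsingleton ((KMinus n).obj (MonoidAlgebra R G))

theorem coeffMap_injective (R : Type u) [Ring R] (G : Type v) [Group G] :
    Function.Injective (coeffMap R G) := kZero_coeff_injective R G

/-- There is a countable torsionfree group `U`, nontrivial and with any two nontrivial elements
conjugate, such that for every regular ring `R` the map `K₀(R) → K₀(R[U])` is surjective if and only
if for all torsionfree groups `G` the map `K₀(R) → K₀(R[G])` is bijective and
`K_{-n}(R[G]) = 0` for all `n ≥ 1`. -/
theorem result : ∃ (U : Type) (_ : Group U), Countable U ∧ Nontrivial U ∧ TorsionfreeGroup U ∧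
    (∀ x y : U, x ≠ 1 → y ≠ 1 → IsConj x y) ∧
    ∀ (R : Type u) [Ring R], IsRegularRing R →
      (Function.Surjective (coeffMap R U) ↔
        ∀ (G : Type v) [Group G], TorsionfreeGroup G → AssemblyNonpos R G) := by
  refine ⟨UU, inferInstance, countable_U2 TG0, nontrivial_U2 TG0, torsionfree_U2 TG0,
    fun x y hx hy => conj_U2 TG0 hx hy, ?_⟩
  intro R _ hR
  constructor
  · intro h G _ hG
    refine ⟨⟨coeffMap_injective R G, kSurj_of_UU hR h hG⟩, ?_⟩
    intro n hn
    obtain ⟨m, rfl⟩ : ∃ m, n = m + 1 := ⟨n - 1, by omega⟩
    exact subsingleton_kMinus (fun G' _ hG' => kSurj_of_UU hR h hG') m G hG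
  · intro h
    have htf : TorsionfreeGroup (ULift.{v} UU) := by
      intro g n hn hg
      apply ULift.down_injective
      exact torsionfree_U2 TG0 g.down n hn (congrArg ULift.down hg)
    have h1 := (h (ULift.{v} UU) htf).1.2
    exact kSurj_of_mulEquiv (MulEquiv.ulift.symm : UU ≃* ULift.{v} UU) h1

end Pool.Agent.Results.MP_c052b4_al.UniversalGroup
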